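import Pool.Agent.Y813.RL.Stm

set_option autoImplicit false

/-!
# Statements of the sub-jobs of the project RL (MP_f1d0b6_nt), part 1

Owner: helper188.  Every statement is a `Prop`; a job is to prove `theorem job : <Prop>`.
-/

open MeasureTheory Complex Set Topology Pool.Agent.Y813.RL

namespace Pool.Agent.Helper188_RL

noncomputable section

/-! ### Theta decomposition -/

def T1a : Prop := ∀ (A : Matrix (Fin 20) (Fin 20) ℤ) (c : ℂ → (Fin 20 → ℂ) → ℂ),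
  JacobiZero A c →
  (∀ μ, DifferentiableOn ℂ (fc c μ) {τ | 0 < τ.im}) ∧
  (∀ μ (τ : ℂ), 0 < τ.im → fc c μ (τ + 1) = fc c μ τ)

/-- contour shift for entire periodic functions -/
def T1b : Prop := ∀ (n : ℕ) (h : (Fin n → ℂ) → ℂ), Differentiable ℂ h →
  (∀ (z : Fin n → ℂ) (v : Fin n → ℤ), h (fun i => z i + (v i : ℂ)) = h z) →
  ∀ w : Fin n → ℂ,
  ∫ y in Set.Icc (0 : Fin n → ℝ) 1, h (fun i => w i + (y i : ℂ)) =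
    ∫ y in Set.Icc (0 : Fin n → ℝ) 1, h (fun i => (y i : ℂ))

/-- Fourier expansion of entire periodic functions -/
def T1d : Prop := ∀ (n : ℕ) (h : (Fin n → ℂ) → ℂ), Differentiable ℂ h →
  (∀ (z : Fin n → ℂ) (v : Fin n → ℤ), h (fun i => z i + (v i : ℂ)) = h z) →
  ∀ z : Fin n → ℂ,
  HasSum (fun μ : Fin n → ℤ =>
    (∫ y in Set.Icc (0 : Fin n → ℝ) 1, h (fun i => (y i : ℂ)) *
      ee (-(∑ i, (μ i : ℂ) * (y i : ℂ)))) * ee (∑ i, (μ i : ℂ) * z i)) (h z)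

/-- the Gaussian integral -/
def T2a : Prop := ∀ (A : Matrix (Fin 20) (Fin 20) ℤ), PosSymm A →
  ∀ (μ : Fin 20 → ℤ) (τ : ℂ), 0 < τ.im →
  Integrable (fun x : Fin 20 → ℝ =>
    ee (-(bf A (fun i => (x i : ℂ)) (fun i => (x i : ℂ)) / (2 * τ))) *
      ee (-(dt μ (fun i => (x i : ℂ))))) ∧
  ∫ x : Fin 20 → ℝ, ee (-(bf A (fun i => (x i : ℂ)) (fun i => (x i : ℂ)) / (2 * τ))) *
      ee (-(dt μ (fun i => (x i : ℂ)))) =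
    -(τ ^ 10) / (Real.sqrt (A.det : ℝ) : ℂ) * ee (τ * (bd A μ μ : ℂ) / 2)

/-- unfolding -/
def T2b : Prop := ∀ g : (Fin 20 → ℝ) → ℂ, Integrable g →
  HasSum (fun v : Fin 20 → ℤ => ∫ y in Set.Icc (0 : Fin 20 → ℝ) 1,
    g (fun i => y i - (v i : ℝ))) (∫ x, g x)

/-! ### The finite Fourier transform -/

def FFa : Prop := ∀ (A : Matrix (Fin 20) (Fin 20) ℤ), PosSymm A →
  0 < A.det ∧ (∃ R : Finset (Fin 20 → ℤ), IsReps A R) ∧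
  ∀ R : Finset (Fin 20 → ℤ), IsReps A R → (R.card : ℤ) = A.det

def FFb : Prop := ∀ (A : Matrix (Fin 20) (Fin 20) ℤ) (R : Finset (Fin 20 → ℤ)), PosSymm A →
  IsReps A R → ∀ a : (Fin 20 → ℤ) → ℂ,
    ∑ μ ∈ R, ‖∑ ρ ∈ R, ee (-(bd A μ ρ : ℂ)) * a ρ‖ ^ 2 = (A.det : ℝ) * ∑ ρ ∈ R, ‖a ρ‖ ^ 2

/-! ### Classical modular forms -/

structure IsDelta (D : ℂ → ℂ) : Prop where
  holo : DifferentiableOn ℂ D {τ | 0 < τ.im}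
  ne : ∀ τ : ℂ, 0 < τ.im → D τ ≠ 0
  T : ∀ τ : ℂ, 0 < τ.im → D (τ + 1) = D τ
  S : ∀ τ : ℂ, 0 < τ.im → D (-1 / τ) = τ ^ 12 * D τ
  lo : ∃ c : ℝ, 0 < c ∧ ∀ τ : ℂ, 1 / 2 ≤ τ.im → c * Real.exp (-(2 * Real.pi * τ.im)) ≤ ‖D τ‖
  up : ∃ C : ℝ, ∀ τ : ℂ, 1 / 2 ≤ τ.im → ‖D τ‖ ≤ C * Real.exp (-(2 * Real.pi * τ.im))

def VVa : Prop := ∃ D : ℂ → ℂ, IsDelta D

structure IsE2 (e : ℂ → ℂ) : Prop where
  holo : DifferentiableOn ℂ e {τ | 0 < τ.im}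
  T : ∀ τ : ℂ, 0 < τ.im → e (τ + 1) = e τ
  S : ∀ τ : ℂ, 0 < τ.im → e (-1 / τ) = τ ^ 2 * e τ + 6 * τ / (Real.pi * Complex.I)
  asy : ∃ C : ℝ, ∀ τ : ℂ, 1 / 2 ≤ τ.im → ‖e τ - 1‖ ≤ C * Real.exp (-(2 * Real.pi * τ.im))

structure IsE4 (e : ℂ → ℂ) : Prop where
  holo : DifferentiableOn ℂ e {τ | 0 < τ.im}
  T : ∀ τ : ℂ, 0 < τ.im → e (τ + 1) = e τ
  S : ∀ τ : ℂ, 0 < τ.im → e (-1 / τ) = τ ^ 4 * e τ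
  asy : ∃ C : ℝ, ∀ τ : ℂ, 1 / 2 ≤ τ.im → ‖e τ - 1‖ ≤ C * Real.exp (-(2 * Real.pi * τ.im))

def EIS : Prop := (∃ e : ℂ → ℂ, IsE2 e) ∧ ∃ e : ℂ → ℂ, IsE4 e

/-- Serre derivative of a function of weight `-k` -/
def sd (e2 : ℂ → ℂ) (k : ℕ) (g : ℂ → ℂ) (τ : ℂ) : ℂ :=
  deriv g τ / (2 * Real.pi * Complex.I) + (k : ℂ) / 12 * e2 τ * g τ

def OD1 : Prop := ∀ (ι : Type) [Fintype ι] (e2 : ℂ → ℂ) (k : ℕ) (M : ι → ι → ℂ)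
  (f : ι → ℂ → ℂ), IsE2 e2 → 2 ≤ k →
  (∀ i, DifferentiableOn ℂ (f i) {τ | 0 < τ.im}) →
  (∀ i (τ : ℂ), 0 < τ.im → f i τ = τ ^ k * ∑ j, M i j * f j (-1 / τ)) →
  (∀ i, DifferentiableOn ℂ (sd e2 k (f i)) {τ | 0 < τ.im}) ∧
  (∀ i (τ : ℂ), 0 < τ.im →
    sd e2 k (f i) τ = τ ^ (k - 2) * ∑ j, M i j * sd e2 k (f j) (-1 / τ)) ∧
  (∀ i (θ : ℂ), (∀ τ : ℂ, 0 < τ.im → f i (τ + 1) = θ * f i τ) →
    ∀ τ : ℂ, 0 < τ.im → sd e2 k (f i) (τ + 1) = θ * sd e2 k (f i) τ)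

/-- the second order operator from weight `-10` to weight `-6` -/
def hh (e2 e4 g : ℂ → ℂ) (τ : ℂ) : ℂ := sd e2 8 (sd e2 10 g) τ - e4 τ * g τ / 18

def OD2 : Prop := ∀ (e2 e4 g : ℂ → ℂ) (θ κ C : ℝ), IsE2 e2 → IsE4 e4 →
  DifferentiableOn ℂ g {τ | 0 < τ.im} →
  (∀ τ : ℂ, 0 < τ.im → g (τ + 1) = ee (-(θ : ℂ)) * g τ) →
  (∀ τ : ℂ, 1 / 2 ≤ τ.im → ‖g τ‖ ≤ C * Real.exp (-(2 * Real.pi * κ * τ.im))) →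
  (∀ τ : ℂ, 0 < τ.im → g τ = 0) ∨
  ∃ (n : ℤ) (a : ℂ) (C' : ℝ), a ≠ 0 ∧ κ ≤ n - θ ∧
    (∀ τ : ℂ, 1 / 2 ≤ τ.im → ‖g τ - a * ee ((n - θ) * τ)‖ ≤
      C' * Real.exp (-(2 * Real.pi * (n - θ + 1) * τ.im))) ∧
    (∀ τ : ℂ, 1 / 2 ≤ τ.im →
      ‖hh e2 e4 g τ - (n - θ + 1) * (n - θ + 1 / 2) * a * ee ((n - θ) * τ)‖ ≤
      C' * Real.exp (-(2 * Real.pi * (n - θ + 1) * τ.im)))

/-- the first half of `JobODE` -/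
def OD3 : Prop := ∀ (G : Matrix (Fin 20) (Fin 20) ℤ) (R : Finset (Fin 20 → ℤ))
  (f : (Fin 20 → ℤ) → ℂ → ℂ), PosSymm G → (∀ i, Even (G i i)) → IsReps G R → VV10 G R f →
  (∀ μ, ∃ C : ℝ, ∀ τ : ℂ, 1 / 2 ≤ τ.im → ‖f μ τ‖ ≤ C * Real.exp (2 * Real.pi * τ.im)) →
  (∀ μ, (¬ ∃ v : Fin 20 → ℤ, μ = G.mulVec v) →
    ∃ C : ℝ, ∀ τ : ℂ, 1 / 2 ≤ τ.im → ‖f μ τ‖ ≤ C * Real.exp (Real.pi * τ.im)) →
  (∃ μ, ∃ τ : ℂ, 0 < τ.im ∧ f μ τ ≠ 0) →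
  (∀ μ, (¬ ∃ v : Fin 20 → ℤ, μ = G.mulVec v) → ∃ k : ℤ, bd G μ μ = 2 * k + 1)

/-- the second half of `JobODE` -/
def OD4 : Prop := ∀ (G : Matrix (Fin 20) (Fin 20) ℤ) (R : Finset (Fin 20 → ℤ))
  (f : (Fin 20 → ℤ) → ℂ → ℂ), PosSymm G → (∀ i, Even (G i i)) → IsReps G R → VV10 G R f →
  (∃ μ, ∃ τ : ℂ, 0 < τ.im ∧ f μ τ ≠ 0) → G.det ≠ 1

/-! ### The genus -/

/-- equivalence of (symmetric) matrices over a ring -/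
def Iso {R : Type} [CommRing R] {ι κ : Type} [Fintype ι] [Fintype κ] [DecidableEq ι]
    [DecidableEq κ] (M : Matrix ι ι R) (N : Matrix κ κ R) : Prop :=
  ∃ (P : Matrix ι κ R) (Q : Matrix κ ι R), P * Q = 1 ∧ Q * P = 1 ∧ P.transpose * M * P = N

/-- the hyperbolic plane -/
def zU (R : Type) [CommRing R] : Matrix (Fin 2) (Fin 2) R := !![0, 1; 1, 0]

/-- the anisotropic even plane -/
def zV (R : Type) [CommRing R] : Matrix (Fin 2) (Fin 2) R := !![2, 1; 1, 2]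

/-- `a` hyperbolic planes -/
def hyp (R : Type) [CommRing R] (a : ℕ) : Matrix (Fin 2 × Fin a) (Fin 2 × Fin a) R :=
  Matrix.blockDiagonal fun _ => zU R

/-- `8` hyperbolic planes, `V` and `V(2)` over the 2-adic integers -/
def std2 : Matrix ((Fin 2 × Fin 8) ⊕ (Fin 2 ⊕ Fin 2)) ((Fin 2 × Fin 8) ⊕ (Fin 2 ⊕ Fin 2)) ℤ_[2] :=
  Matrix.fromBlocks (hyp ℤ_[2] 8) 0 0 (Matrix.fromBlocks (zV ℤ_[2]) 0 0 (2 • zV ℤ_[2]))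

def GOa : Prop := ∀ (p : ℕ) [Fact p.Prime], p ≠ 2 → ∀ (n : ℕ) (M : Matrix (Fin n) (Fin n) ℤ_[p]),
  M.IsSymm → IsUnit M.det → ∃ d : Fin n → ℤ_[p], Iso M (Matrix.diagonal d)

def GOb : Prop := ∀ (p : ℕ) [Fact p.Prime], p ≠ 2 → ∀ u v : ℤ_[p], IsUnit u → IsUnit v →
  Iso (Matrix.diagonal ![u, v]) (Matrix.diagonal ![1, u * v])

def GOc : Prop := ∀ (p : ℕ) [Fact p.Prime], p ≠ 2 → ∀ (n : ℕ) (M : Matrix (Fin n) (Fin n) ℤ_[p])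
  (s : ℤ_[p]), M.IsSymm → IsUnit s → M.det = s ^ 2 →
  Iso M (1 : Matrix (Fin n) (Fin n) ℤ_[p])

def G2a : Prop := ∀ a b c : ℤ_[2], IsUnit b →
  Iso (!![2 * a, b; b, 2 * c] : Matrix (Fin 2) (Fin 2) ℤ_[2]) (zU ℤ_[2]) ∨
  Iso (!![2 * a, b; b, 2 * c] : Matrix (Fin 2) (Fin 2) ℤ_[2]) (zV ℤ_[2])

def G2b : Prop := Iso (Matrix.fromBlocks (zV ℤ_[2]) 0 0 (zV ℤ_[2]))
  (Matrix.fromBlocks (zU ℤ_[2]) 0 0 (zU ℤ_[2]))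

def G2c : Prop := ∀ (n : ℕ) (M : Matrix (Fin (n + 2)) (Fin (n + 2)) ℤ_[2]), M.IsSymm →
  (∀ i, ∃ d, M i i = 2 * d) → (∃ i j, IsUnit (M i j)) →
  ∃ (a b c : ℤ_[2]) (M' : Matrix (Fin n) (Fin n) ℤ_[2]), IsUnit b ∧ M'.IsSymm ∧
    (∀ i, ∃ d, M' i i = 2 * d) ∧
    Iso M (Matrix.fromBlocks (!![2 * a, b; b, 2 * c] : Matrix (Fin 2) (Fin 2) ℤ_[2]) 0 0 M')

def G2d : Prop := ∀ (n : ℕ) (M N : Matrix (Fin n) (Fin n) ℤ_[2]), M.IsSymm →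
  (∀ i, ∃ d, M i i = 2 * d) → M * N = (2 : ℤ_[2]) • (1 : Matrix (Fin n) (Fin n) ℤ_[2]) →
  ∃ (a m : ℕ) (M' : Matrix (Fin m) (Fin m) ℤ_[2]), M'.IsSymm ∧ IsUnit M'.det ∧
    ((n = 2 * a + m ∧ Iso M (Matrix.fromBlocks (hyp ℤ_[2] a) 0 0 ((2 : ℤ_[2]) • M'))) ∨
     (n = 2 * a + 2 + m ∧ Iso M (Matrix.fromBlocks (hyp ℤ_[2] a) 0 0
        (Matrix.fromBlocks (zV ℤ_[2]) 0 0 ((2 : ℤ_[2]) • M')))))

def G2e : Prop := ∀ (M N : Matrix (Fin 20) (Fin 20) ℤ_[2]) (s : ℤ_[2]), M.IsSymm →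
  (∀ i, ∃ d, M i i = 2 * d) → M * N = (2 : ℤ_[2]) • (1 : Matrix (Fin 20) (Fin 20) ℤ_[2]) →
  IsUnit s → M.det = 4 * s ^ 2 →
  (∀ x : Fin 20 → ℤ_[2], (∀ i, (2 : ℤ_[2]) ∣ M.mulVec x i) → (∃ i, ¬ (2 : ℤ_[2]) ∣ x i) →
    ∃ u : ℤ_[2], IsUnit u ∧ x ⬝ᵥ M.mulVec x = 4 * u) →
  Iso M std2

/-- the conditions on an integral matrix which determine the genus -/
structure Cond4 (G : Matrix (Fin 20) (Fin 20) ℤ) : Prop where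
  symm : G.IsSymm
  even : ∀ i, ∃ d, G i i = 2 * d
  det : G.det = 4
  two : ∃ N : Matrix (Fin 20) (Fin 20) ℤ, G * N = (2 : ℤ) • (1 : Matrix (Fin 20) (Fin 20) ℤ)
  norm : ∀ x : Fin 20 → ℤ, (∀ i, (2 : ℤ) ∣ G.mulVec x i) → (∃ i, ¬ (2 : ℤ) ∣ x i) →
    ∃ k : ℤ, x ⬝ᵥ G.mulVec x = 4 * (2 * k + 1)

def GD : Prop := ∀ (G : Matrix (Fin 20) (Fin 20) ℤ), PosSymm G → (∀ i, Even (G i i)) →
  (∀ μ, (¬ ∃ v : Fin 20 → ℤ, μ = G.mulVec v) → ∃ k : ℤ, bd G μ μ = 2 * k + 1) → G.det ≠ 1 →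
  Cond4 G

/-- the Gram matrix of `2E_8 + D_4` on the index set `Fin 20` satisfies the same conditions -/
def GE : Prop := ∃ e : Fin 8 ⊕ (Fin 8 ⊕ Fin 4) ≃ Fin 20,
  PosSymm (Matrix.reindex e e gramEED) ∧ Cond4 (Matrix.reindex e e gramEED)

/-- real classification -/
def GR : Prop := ∀ G : Matrix (Fin 20) (Fin 20) ℤ, PosSymm G →
  Iso (G.map (Int.cast : ℤ → ℝ)) (1 : Matrix (Fin 20) (Fin 20) ℝ)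

/-- 2-adic conditions from integral ones -/
def G2f : Prop := ∀ G : Matrix (Fin 20) (Fin 20) ℤ, Cond4 G →
  Iso (G.map (Int.cast : ℤ → ℤ_[2])) std2

end

end Pool.Agent.Helper188_RL
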