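-- JOB for MP_f1d0b6_nt (full answer; finishing the starting project Pool/Agent/Y813/RL). Owner helper188.
import Pool.Agent.Helper188_RL.Stm1
import Pool.Agent.Y683.RL.Fou
set_option autoImplicit false
open MeasureTheory Complex Set Topology Pool.Agent.Y813.RL
namespace Pool.Agent.Helper188_RL.JA2

/-- one variable -/
theorem one_shift (g : ℂ → ℂ) (hg : Differentiable ℂ g) (hp : ∀ t, g (t + 1) = g t) (w : ℂ) :
    ∫ x in Icc (0 : ℝ) 1, g (w + (x : ℂ)) = ∫ x in Icc (0 : ℝ) 1, g (x : ℂ) := by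
  have hf : Pool.Agent.Y683.RL.HP (min w.im 0 - 1) g := ⟨hg.differentiableOn, fun t _ => hp t⟩
  have h1 := hf.shift (w := w) (w' := 0) (by have := min_le_left w.im 0; linarith)
    (by have := min_le_right w.im 0; simp only [zero_im]; linarith)
  rw [integral_Icc_eq_integral_Ioc, integral_Icc_eq_integral_Ioc,
    ← intervalIntegral.integral_of_le zero_le_one, ← intervalIntegral.integral_of_le zero_le_one]
  simp only [add_zero] at h1
  rw [← h1]
  simp only [add_comm]

theorem split_int (n : ℕ) (F : (Fin (n + 1) → ℝ) → ℂ) :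
    ∫ y in Icc (0 : Fin (n + 1) → ℝ) 1, F y =
      ∫ p in (Icc (0 : ℝ) 1) ×ˢ (Icc (0 : Fin n → ℝ) 1), F (Fin.cons p.1 p.2) := by
  have hmp := volume_preserving_piFinSuccAbove (fun _ : Fin (n + 1) => ℝ) 0
  have h1 := hmp.setIntegral_preimage_emb (MeasurableEquiv.measurableEmbedding _)
    (fun p : ℝ × (Fin n → ℝ) => F (Fin.cons p.1 p.2)) ((Icc (0 : ℝ) 1) ×ˢ (Icc (0 : Fin n → ℝ) 1))
  have h2 : (MeasurableEquiv.piFinSuccAbove (fun _ : Fin (n + 1) => ℝ) 0) ⁻¹'
      ((Icc (0 : ℝ) 1) ×ˢ (Icc (0 : Fin n → ℝ) 1)) = Icc (0 : Fin (n + 1) → ℝ) 1 := by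
    ext y
    simp only [mem_preimage, mem_prod, mem_Icc, Pi.le_def, Fin.forall_fin_succ]
    simp [MeasurableEquiv.piFinSuccAbove]
    tauto
  rw [h2] at h1
  rw [← h1]
  have h3 : ∀ y : Fin (n + 1) → ℝ, (fun p : ℝ × (Fin n → ℝ) => F (Fin.cons p.1 p.2))
      (MeasurableEquiv.piFinSuccAbove (fun _ : Fin (n + 1) => ℝ) 0 y) = F y := by
    intro y
    show F _ = F y
    congr 1
    funext i
    refine Fin.cases ?_ (fun j => ?_) i
    · simp [MeasurableEquiv.piFinSuccAbove]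
    · simp [MeasurableEquiv.piFinSuccAbove, Fin.tail]
  simp only [h3]

theorem cons_cast {n : ℕ} (t : ℝ) (y' : Fin n → ℝ) (w : Fin (n + 1) → ℂ) :
    (fun i => w i + (((Fin.cons t y' : Fin (n + 1) → ℝ) i : ℝ) : ℂ)) =
      (Fin.cons (w 0 + (t : ℂ)) (fun j => w j.succ + (y' j : ℂ)) : Fin (n + 1) → ℂ) := by
  funext i
  refine Fin.cases ?_ (fun j => ?_) i
  · simp
  · simp

theorem cons_cast0 {n : ℕ} (t : ℝ) (y' : Fin n → ℝ) :
    (fun i => (((Fin.cons t y' : Fin (n + 1) → ℝ) i : ℝ) : ℂ)) =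
      (Fin.cons (t : ℂ) (fun j => (y' j : ℂ)) : Fin (n + 1) → ℂ) := by
  funext i
  refine Fin.cases ?_ (fun j => ?_) i
  · simp
  · simp

theorem cons_diff2 {n : ℕ} (a : ℂ) :
    Differentiable ℂ (fun z : Fin n → ℂ => (Fin.cons a z : Fin (n + 1) → ℂ)) := by
  rw [differentiable_pi]
  intro i
  refine Fin.cases ?_ (fun j => ?_) i
  · simp only [Fin.cons_zero]; exact differentiable_const _
  · simp only [Fin.cons_succ]; fun_prop

theorem cons_diff1 {n : ℕ} (z : Fin n → ℂ) :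
    Differentiable ℂ (fun a : ℂ => (Fin.cons a z : Fin (n + 1) → ℂ)) := by
  rw [differentiable_pi]
  intro i
  refine Fin.cases ?_ (fun j => ?_) i
  · simp only [Fin.cons_zero]; exact differentiable_id
  · simp only [Fin.cons_succ]; exact differentiable_const _

theorem cons_cont {n : ℕ} (w : ℂ) :
    Continuous (fun p : ℝ × (Fin n → ℝ) =>
      (Fin.cons (w + (p.1 : ℂ)) (fun j => (p.2 j : ℂ)) : Fin (n + 1) → ℂ)) := by
  rw [continuous_pi_iff]
  intro i
  refine Fin.cases ?_ (fun j => ?_) i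
  · simp only [Fin.cons_zero]; fun_prop
  · simp only [Fin.cons_succ]; fun_prop

theorem fub (n : ℕ) (G : ℝ × (Fin n → ℝ) → ℂ) (hG : Continuous G) :
    ∫ p in (Icc (0 : ℝ) 1) ×ˢ (Icc (0 : Fin n → ℝ) 1), G p =
      ∫ y in Icc (0 : Fin n → ℝ) 1, ∫ t in Icc (0 : ℝ) 1, G (t, y) := by
  have hi : IntegrableOn G ((Icc (0 : ℝ) 1) ×ˢ (Icc (0 : Fin n → ℝ) 1)) volume :=
    hG.continuousOn.integrableOn_compact (isCompact_Icc.prod isCompact_Icc)
  rw [show (volume : Measure (ℝ × (Fin n → ℝ))) = (volume : Measure ℝ).prod volume from rfl] at hi ⊢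
  rw [setIntegral_prod _ hi]
  apply integral_integral_swap
  rw [Measure.prod_restrict]
  exact hi

theorem fub1 (n : ℕ) (G : ℝ × (Fin n → ℝ) → ℂ) (hG : Continuous G) :
    ∫ p in (Icc (0 : ℝ) 1) ×ˢ (Icc (0 : Fin n → ℝ) 1), G p =
      ∫ t in Icc (0 : ℝ) 1, ∫ y in Icc (0 : Fin n → ℝ) 1, G (t, y) := by
  have hi : IntegrableOn G ((Icc (0 : ℝ) 1) ×ˢ (Icc (0 : Fin n → ℝ) 1)) volume :=
    hG.continuousOn.integrableOn_compact (isCompact_Icc.prod isCompact_Icc)
  rw [show (volume : Measure (ℝ × (Fin n → ℝ))) = (volume : Measure ℝ).prod volume from rfl] at hi ⊢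
  rw [setIntegral_prod _ hi]

theorem job : T1b := by
  intro n
  induction n with
  | zero =>
    intro h _ _ w
    congr 1
    funext y
    congr 1
    funext i
    exact i.elim0
  | succ n ih =>
    intro h hh hper w
    have hcw : Continuous (fun y : Fin (n + 1) → ℝ => h (fun i => w i + (y i : ℂ))) :=
      hh.continuous.comp (by fun_prop)
    have hc0 : Continuous (fun y : Fin (n + 1) → ℝ => h (fun i => (y i : ℂ))) :=
      hh.continuous.comp (by fun_prop)
    have hcons : Continuous (fun p : ℝ × (Fin n → ℝ) => (Fin.cons p.1 p.2 : Fin (n + 1) → ℝ)) := by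
      rw [continuous_pi_iff]
      intro i
      refine Fin.cases ?_ (fun j => ?_) i
      · simp only [Fin.cons_zero]; fun_prop
      · simp only [Fin.cons_succ]; fun_prop
    rw [split_int, split_int]
    rw [fub1 n (fun p => h (fun i => w i + (((Fin.cons p.1 p.2 : Fin (n + 1) → ℝ) i : ℝ) : ℂ)))
      (hcw.comp hcons)]
    have h1 : ∀ t : ℝ, ∫ y' in Icc (0 : Fin n → ℝ) 1,
        h (fun i => w i + (((Fin.cons t y' : Fin (n + 1) → ℝ) i : ℝ) : ℂ)) =
        ∫ y' in Icc (0 : Fin n → ℝ) 1, h (Fin.cons (w 0 + (t : ℂ)) (fun j => (y' j : ℂ))) := by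
      intro t
      have h2 := ih (fun z => h (Fin.cons (w 0 + (t : ℂ)) z)) (hh.comp (cons_diff2 _)) (by
        intro z v
        have h3 := hper (Fin.cons (w 0 + (t : ℂ)) z) (Fin.cons 0 v)
        rw [← h3]
        congr 1
        funext i
        refine Fin.cases ?_ (fun j => ?_) i
        · simp
        · simp) (fun j => w j.succ)
      rw [← h2]
      congr 1
      funext y'
      rw [cons_cast t y' w]
    simp only [h1]
    rw [← fub1 n (fun p => h (Fin.cons (w 0 + (p.1 : ℂ)) (fun j => (p.2 j : ℂ))))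
      (hh.continuous.comp (cons_cont (w 0)))]
    rw [fub n (fun p => h (Fin.cons (w 0 + (p.1 : ℂ)) (fun j => (p.2 j : ℂ))))
      (hh.continuous.comp (cons_cont (w 0)))]
    rw [fub n (fun p => h (fun i => (((Fin.cons p.1 p.2 : Fin (n + 1) → ℝ) i : ℝ) : ℂ)))
      (hc0.comp hcons)]
    congr 1
    funext y'
    have h4 := one_shift (fun t => h (Fin.cons t (fun j => (y' j : ℂ)))) (hh.comp (cons_diff1 _)) (by
      intro t
      have h3 := hper (Fin.cons t (fun j => (y' j : ℂ))) (Fin.cons 1 0)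
      rw [← h3]
      congr 1
      funext i
      refine Fin.cases ?_ (fun j => ?_) i
      · simp
      · simp) (w 0)
    show ∫ t in Icc (0 : ℝ) 1, h (Fin.cons (w 0 + (t : ℂ)) (fun j => (y' j : ℂ))) = _
    rw [h4]
    congr 1
    funext t
    show _ = h (fun i => (((Fin.cons t y' : Fin (n + 1) → ℝ) i : ℝ) : ℂ))
    rw [cons_cast0]

end Pool.Agent.Helper188_RL.JA2
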