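-- JOB for MP_f1d0b6_nt, RL-A3 (T1c): theta components, assembly. Owner helper188, proof by helper328.
import Pool.Agent.Helper188_RL.Stm1
set_option autoImplicit false
open MeasureTheory Complex Set Topology Pool.Agent.Y813.RL
namespace Pool.Agent.Helper188_RL.JA3

theorem ee_add' (x y : ℂ) : ee (x + y) = ee x * ee y := by
  unfold ee
  rw [← Complex.exp_add]
  congr 1
  ring

theorem ee_int' (n : ℤ) : ee (n : ℂ) = 1 := by
  unfold ee
  rw [Complex.exp_eq_one_iff]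
  exact ⟨n, by ring⟩

theorem dt_add' (μ : Fin 20 → ℤ) (z w : Fin 20 → ℂ) :
    dt μ (fun i => z i + w i) = dt μ z + dt μ w := by
  unfold dt
  rw [← Finset.sum_add_distrib]
  exact Finset.sum_congr rfl fun i _ => by ring

theorem dt_add_left' {R : Type*} [CommRing R] (μ ν : Fin 20 → ℤ) (z : Fin 20 → R) :
    dt (μ + ν) z = dt μ z + dt ν z := by
  unfold dt
  rw [← Finset.sum_add_distrib]
  refine Finset.sum_congr rfl fun i _ => ?_
  rw [Pi.add_apply, Int.cast_add]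
  ring

theorem dt_int' (μ v : Fin 20 → ℤ) :
    dt μ (fun i => ((v i : ℤ) : ℂ)) = ((∑ i, μ i * v i : ℤ) : ℂ) := by
  unfold dt
  push_cast
  rfl

theorem dt_smul' (μ v : Fin 20 → ℤ) (τ : ℂ) :
    dt μ (fun i => τ * ((v i : ℤ) : ℂ)) = τ * dt μ (fun i => ((v i : ℤ) : ℂ)) := by
  unfold dt
  rw [Finset.mul_sum]
  exact Finset.sum_congr rfl fun i _ => by ring

theorem slice_diff {A : Matrix (Fin 20) (Fin 20) ℤ} {c : ℂ → (Fin 20 → ℂ) → ℂ}
    (hJ : JacobiZero A c) (τ : ℂ) (hτ : 0 < τ.im) : Differentiable ℂ (c τ) := by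
  intro z
  have hopen : IsOpen {p : ℂ × (Fin 20 → ℂ) | 0 < p.1.im} :=
    isOpen_lt continuous_const (Complex.continuous_im.comp continuous_fst)
  have h1 : DifferentiableAt ℂ (fun p : ℂ × (Fin 20 → ℂ) => c p.1 p.2) (τ, z) :=
    (hJ.holo (τ, z) hτ).differentiableAt (hopen.mem_nhds hτ)
  have h2 : DifferentiableAt ℂ (fun z : Fin 20 → ℂ => ((τ, z) : ℂ × (Fin 20 → ℂ))) z :=
    (differentiableAt_const τ).prodMk differentiableAt_id
  exact DifferentiableAt.comp z (f := fun z : Fin 20 → ℂ => ((τ, z) : ℂ × (Fin 20 → ℂ)))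
    (g := fun p : ℂ × (Fin 20 → ℂ) => c p.1 p.2) h1 h2

theorem ee_diff (μ : Fin 20 → ℤ) : Differentiable ℂ (fun z : Fin 20 → ℂ => ee (-(dt μ z))) := by
  unfold ee dt
  fun_prop

theorem h_diff {A : Matrix (Fin 20) (Fin 20) ℤ} {c : ℂ → (Fin 20 → ℂ) → ℂ}
    (hJ : JacobiZero A c) (μ : Fin 20 → ℤ) (τ : ℂ) (hτ : 0 < τ.im) :
    Differentiable ℂ (fun z : Fin 20 → ℂ => c τ z * ee (-(dt μ z))) :=
  (slice_diff hJ τ hτ).mul (ee_diff μ)

theorem h_per {A : Matrix (Fin 20) (Fin 20) ℤ} {c : ℂ → (Fin 20 → ℂ) → ℂ}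
    (hJ : JacobiZero A c) (μ : Fin 20 → ℤ) (τ : ℂ) (hτ : 0 < τ.im) (z : Fin 20 → ℂ)
    (v : Fin 20 → ℤ) :
    c τ (fun i => z i + (v i : ℂ)) * ee (-(dt μ (fun i => z i + (v i : ℂ)))) =
      c τ z * ee (-(dt μ z)) := by
  rw [hJ.perz τ z v hτ, dt_add', dt_int', neg_add, ee_add']
  have : (-((∑ i, μ i * v i : ℤ) : ℂ)) = ((-(∑ i, μ i * v i) : ℤ) : ℂ) := by
    push_cast; ring
  rw [this, ee_int', mul_one]

theorem clause3 (hb : T1b) {A : Matrix (Fin 20) (Fin 20) ℤ} {c : ℂ → (Fin 20 → ℂ) → ℂ}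
    (hJ : JacobiZero A c) (μ : Fin 20 → ℤ) (τ : ℂ) (w : Fin 20 → ℂ) (hτ : 0 < τ.im) :
    fc c μ τ = ∫ y in Set.Icc (0 : Fin 20 → ℝ) 1, c τ (fun i => w i + (y i : ℂ)) *
      ee (-(dt μ (fun i => w i + (y i : ℂ)))) := by
  have h := hb 20 (fun z : Fin 20 → ℂ => c τ z * ee (-(dt μ z))) (h_diff hJ μ τ hτ)
    (fun z v => h_per hJ μ τ hτ z v) w
  exact h.symm

theorem bf_dt {A : Matrix (Fin 20) (Fin 20) ℤ} (hA : A.IsSymm) (v : Fin 20 → ℤ)
    (z : Fin 20 → ℂ) : bf A (fun i => ((v i : ℤ) : ℂ)) z = dt (A.mulVec v) z := by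
  unfold bf dt
  rw [Finset.sum_comm]
  refine Finset.sum_congr rfl fun j _ => ?_
  rw [Matrix.mulVec, dotProduct, Int.cast_sum, Finset.sum_mul]
  refine Finset.sum_congr rfl fun i _ => ?_
  rw [hA.apply i j]
  push_cast
  ring

theorem fc_shift (hb : T1b) {A : Matrix (Fin 20) (Fin 20) ℤ} {c : ℂ → (Fin 20 → ℂ) → ℂ}
    (hA : A.IsSymm) (hJ : JacobiZero A c) (μ v : Fin 20 → ℤ) (τ : ℂ) (hτ : 0 < τ.im) :
    fc c μ τ = ee (-(τ * (bf A (fun i => (v i : ℂ)) (fun i => (v i : ℂ)) / 2 +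
      dt μ (fun i => ((v i : ℤ) : ℂ))))) * fc c (μ + A.mulVec v) τ := by
  rw [clause3 hb hJ μ τ (fun i => τ * (v i : ℂ)) hτ]
  conv_rhs => rw [fc]
  rw [← MeasureTheory.integral_const_mul]
  congr 1
  funext y
  have e1 : (fun i => τ * (v i : ℂ) + (y i : ℂ)) = fun i => (y i : ℂ) + τ * (v i : ℂ) := by
    funext i; ring
  rw [e1, hJ.quasi τ (fun i => (y i : ℂ)) v hτ, bf_dt hA v (fun i => (y i : ℂ)), dt_add', dt_smul',
    dt_add_left']
  have e2 : ee (-(dt (A.mulVec v) (fun i => (y i : ℂ)) +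
      τ * bf A (fun i => (v i : ℂ)) (fun i => (v i : ℂ)) / 2)) *
      ee (-(dt μ (fun i => (y i : ℂ)) + τ * dt μ (fun i => ((v i : ℤ) : ℂ)))) =
      ee (-(τ * (bf A (fun i => (v i : ℂ)) (fun i => (v i : ℂ)) / 2 +
      dt μ (fun i => ((v i : ℤ) : ℂ))))) *
      ee (-(dt μ (fun i => (y i : ℂ)) + dt (A.mulVec v) (fun i => (y i : ℂ)))) := by
    rw [← ee_add', ← ee_add']
    congr 1
    ring
  calc _ = (ee (-(dt (A.mulVec v) (fun i => (y i : ℂ)) +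
      τ * bf A (fun i => (v i : ℂ)) (fun i => (v i : ℂ)) / 2)) *
      ee (-(dt μ (fun i => (y i : ℂ)) + τ * dt μ (fun i => ((v i : ℤ) : ℂ))))) *
        c τ (fun i => (y i : ℂ)) := by ring
    _ = _ := by rw [e2]; ring

theorem bd_shift {A : Matrix (Fin 20) (Fin 20) ℤ} (hA : PosSymm A) (μ v : Fin 20 → ℤ) :
    bd A (μ + A.mulVec v) (μ + A.mulVec v) =
      bd A μ μ + 2 * dt μ (fun i => ((v i : ℤ) : ℝ)) +
        bf A (fun i => (v i : ℝ)) (fun i => (v i : ℝ)) := by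
  set M : Matrix (Fin 20) (Fin 20) ℝ := A.map (Int.cast : ℤ → ℝ) with hM
  have hsymm : M.transpose = M := by
    ext i j
    simp only [hM, Matrix.transpose_apply, Matrix.map_apply]
    rw [hA.symm.apply]
  have hbf : ∀ x : Fin 20 → ℝ, bf A x x = x ⬝ᵥ M.mulVec x := by
    intro x
    unfold bf
    simp only [dotProduct, Matrix.mulVec, hM, Matrix.map_apply, Finset.mul_sum]
    refine Finset.sum_congr rfl fun i _ => Finset.sum_congr rfl fun j _ => by ring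
  have hdet : IsUnit M.det := by
    rw [isUnit_iff_ne_zero]
    intro h0
    obtain ⟨x, hx, hMx⟩ := Matrix.exists_mulVec_eq_zero_iff.mpr h0
    have h1 := hA.pos x hx
    rw [hbf, hMx, dotProduct_zero] at h1
    exact lt_irrefl _ h1
  have hinvsymm : (M⁻¹).transpose = M⁻¹ := by
    rw [Matrix.transpose_nonsing_inv, hsymm]
  set m : Fin 20 → ℝ := fun i => (μ i : ℝ) with hm
  set w : Fin 20 → ℝ := fun i => (v i : ℝ) with hw
  have hcast : (fun i => (((μ + A.mulVec v) i : ℤ) : ℝ)) = m + M.mulVec w := by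
    funext i
    simp only [Pi.add_apply, Int.cast_add, hm, hw, hM, Matrix.mulVec, dotProduct,
      Matrix.map_apply, Int.cast_sum, Int.cast_mul]
  have hbd : ∀ a b : Fin 20 → ℤ, bd A a b = (fun i => (a i : ℝ)) ⬝ᵥ
      M⁻¹.mulVec (fun i => (b i : ℝ)) := fun a b => rfl
  rw [hbd, hbd, hcast]
  have h1 : M⁻¹.mulVec (M.mulVec w) = w := by
    rw [Matrix.mulVec_mulVec, Matrix.nonsing_inv_mul M hdet, Matrix.one_mulVec]
  have h2 : (M.mulVec w) ⬝ᵥ (M⁻¹.mulVec m) = m ⬝ᵥ w := by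
    rw [Matrix.dotProduct_mulVec, ← Matrix.mulVec_transpose, hinvsymm, h1, dotProduct_comm]
  rw [Matrix.mulVec_add, h1, add_dotProduct, dotProduct_add, dotProduct_add, h2]
  rw [hbf, dotProduct_comm (M.mulVec w) w]
  have h3 : dt μ (fun i => ((v i : ℤ) : ℝ)) = m ⬝ᵥ w := rfl
  rw [h3]
  ring

theorem bf_cast {A : Matrix (Fin 20) (Fin 20) ℤ} (v : Fin 20 → ℤ) :
    ((bf A (fun i => (v i : ℝ)) (fun i => (v i : ℝ)) : ℝ) : ℂ) =
      bf A (fun i => (v i : ℂ)) (fun i => (v i : ℂ)) := by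
  unfold bf
  push_cast
  rfl

theorem dt_cast (μ v : Fin 20 → ℤ) :
    ((dt μ (fun i => ((v i : ℤ) : ℝ)) : ℝ) : ℂ) = dt μ (fun i => ((v i : ℤ) : ℂ)) := by
  unfold dt
  push_cast
  rfl

theorem job (ha : T1a) (hb : T1b) (hd : T1d) : JobTheta1 := by
  intro A c hA hJ
  refine ⟨(ha A c hJ).1, (ha A c hJ).2, fun μ τ w hτ => clause3 hb hJ μ τ w hτ, ?_, ?_⟩
  · intro μ v τ hτ
    unfold vf
    rw [bd_shift hA μ v, fc_shift hb hA.symm hJ μ v τ hτ, ← mul_assoc, ← ee_add']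
    congr 2
    push_cast
    rw [bf_cast, dt_cast]
    ring
  · intro τ z hτ
    exact hd 20 (c τ) (slice_diff hJ τ hτ) (fun z v => hJ.perz τ z v hτ) z

end Pool.Agent.Helper188_RL.JA3
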