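import Pool.Agent.Helper188_RL.Stm1
set_option autoImplicit false
open MeasureTheory Complex Set Topology Pool.Agent.Y813.RL
namespace Pool.Agent.Helper188_RL.JA4

theorem ee_add' (x y : ℂ) : ee (x + y) = ee x * ee y := by
  unfold ee
  rw [← Complex.exp_add]
  ring_nf

theorem ee_int' (m : ℤ) : ee (m : ℂ) = 1 := by
  unfold ee
  rw [show (2 * (Real.pi : ℂ) * Complex.I * (m : ℂ)) = m * (2 * Real.pi * Complex.I) by ring]
  exact Complex.exp_int_mul_two_pi_mul_I m

theorem norm_ee' (x : ℂ) : ‖ee x‖ = Real.exp (-(2 * Real.pi * x.im)) := by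
  unfold ee
  rw [Complex.norm_exp]
  congr 1
  simp

theorem ee_neg_mul (x : ℂ) : ee x * ee (-x) = 1 := by
  rw [← ee_add', add_neg_cancel]
  simp [ee]

theorem differentiable_ee' : Differentiable ℂ ee := by
  unfold ee
  fun_prop

theorem sum_int : Summable (fun m : ℤ => Real.exp (-(2 * Real.pi * |(m : ℝ)|))) := by
  have h0 : Summable (fun m : ℕ => Real.exp ((m : ℝ) * (-(2 * Real.pi)))) :=
    Real.summable_exp_nat_mul_iff.mpr (by have := Real.pi_pos; linarith)
  apply Summable.of_nat_of_neg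
  · refine h0.congr fun m => ?_
    congr 1
    simp
    ring
  · refine h0.congr fun m => ?_
    congr 1
    simp
    ring

theorem sum_pi : ∀ n : ℕ, Summable (fun μ : Fin n → ℤ =>
    Real.exp (-(2 * Real.pi * ∑ i, |(μ i : ℝ)|))) := by
  intro n
  induction n with
  | zero => exact Summable.of_finite
  | succ n ih =>
    rw [← (Fin.consEquiv (fun _ : Fin (n + 1) => ℤ)).summable_iff]
    have h := sum_int.mul_of_nonneg ih (fun _ => (Real.exp_pos _).le) (fun _ => (Real.exp_pos _).le)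
    refine h.congr fun p => ?_
    simp only [Function.comp_apply, Fin.consEquiv, Equiv.coe_fn_mk, Fin.sum_univ_succ, Fin.cons_zero, Fin.cons_succ]
    rw [← Real.exp_add]
    congr 1
    ring

theorem vol_cube (n : ℕ) : volume (Set.Icc (0 : Fin n → ℝ) 1) = 1 := by
  rw [Real.volume_Icc_pi]
  simp

/-- the twisted function -/
noncomputable def tw {n : ℕ} (h : (Fin n → ℂ) → ℂ) (μ : Fin n → ℤ) (z : Fin n → ℂ) : ℂ :=
  h z * ee (-(∑ i, (μ i : ℂ) * z i))

theorem tw_diff {n : ℕ} {h : (Fin n → ℂ) → ℂ} (hd : Differentiable ℂ h) (μ : Fin n → ℤ) :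
    Differentiable ℂ (tw h μ) := by
  unfold tw
  refine hd.mul (differentiable_ee'.comp ?_)
  fun_prop

theorem tw_per {n : ℕ} {h : (Fin n → ℂ) → ℂ}
    (hp : ∀ (z : Fin n → ℂ) (v : Fin n → ℤ), h (fun i => z i + (v i : ℂ)) = h z) (μ : Fin n → ℤ)
    (z : Fin n → ℂ) (v : Fin n → ℤ) : tw h μ (fun i => z i + (v i : ℂ)) = tw h μ z := by
  unfold tw
  rw [hp]
  congr 1
  have : -(∑ i, (μ i : ℂ) * (z i + (v i : ℂ))) = -(∑ i, (μ i : ℂ) * z i) + ((-(∑ i, μ i * v i) : ℤ) : ℂ) := by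
    push_cast
    simp only [mul_add, Finset.sum_add_distrib]
    ring
  rw [this, ee_add', ee_int', mul_one]

theorem shift (hb : T1b) {n : ℕ} {h : (Fin n → ℂ) → ℂ} (hd : Differentiable ℂ h)
    (hp : ∀ (z : Fin n → ℂ) (v : Fin n → ℤ), h (fun i => z i + (v i : ℂ)) = h z) (μ : Fin n → ℤ)
    (w : Fin n → ℂ) :
    ∫ y in Set.Icc (0 : Fin n → ℝ) 1, h (fun i => w i + (y i : ℂ)) *
      ee (-(∑ i, (μ i : ℂ) * (y i : ℂ))) =
    (∫ y in Set.Icc (0 : Fin n → ℝ) 1, h (fun i => (y i : ℂ)) *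
      ee (-(∑ i, (μ i : ℂ) * (y i : ℂ)))) * ee (∑ i, (μ i : ℂ) * w i) := by
  have h1 := hb n (tw h μ) (tw_diff hd μ) (tw_per hp μ) w
  have h2 : (∫ y in Set.Icc (0 : Fin n → ℝ) 1, h (fun i => (y i : ℂ)) *
      ee (-(∑ i, (μ i : ℂ) * (y i : ℂ)))) = ∫ y in Set.Icc (0 : Fin n → ℝ) 1, tw h μ (fun i => (y i : ℂ)) := rfl
  rw [h2, ← h1, ← integral_mul_const]
  congr 1
  funext y
  unfold tw
  have h3 : -(∑ i, (μ i : ℂ) * (w i + (y i : ℂ))) = -(∑ i, (μ i : ℂ) * (y i : ℂ)) + -(∑ i, (μ i : ℂ) * w i) := by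
    simp only [mul_add, Finset.sum_add_distrib]
    ring
  rw [h3, ee_add']
  have h4 := ee_neg_mul (∑ i, (μ i : ℂ) * w i)
  linear_combination (-(h (fun i => w i + (y i : ℂ)) * ee (-(∑ i, (μ i : ℂ) * (y i : ℂ))))) * h4

theorem bound (hb : T1b) {n : ℕ} {h : (Fin n → ℂ) → ℂ} (hd : Differentiable ℂ h)
    (hp : ∀ (z : Fin n → ℂ) (v : Fin n → ℤ), h (fun i => z i + (v i : ℂ)) = h z) (R : ℝ) (hR : 0 ≤ R) :
    ∃ M : ℝ, ∀ μ : Fin n → ℤ, ‖∫ y in Set.Icc (0 : Fin n → ℝ) 1, h (fun i => (y i : ℂ)) *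
      ee (-(∑ i, (μ i : ℂ) * (y i : ℂ)))‖ ≤ M * Real.exp (-(2 * Real.pi * R * ∑ i, |(μ i : ℝ)|)) := by
  have hK : IsCompact (Set.pi Set.univ (fun _ : Fin n => (Set.Icc (0 : ℝ) 1) ×ℂ (Set.Icc (-R) R))) :=
    isCompact_univ_pi fun _ => isCompact_Icc.reProdIm isCompact_Icc
  obtain ⟨M, hM⟩ := hK.exists_bound_of_continuousOn hd.continuous.continuousOn
  refine ⟨M, fun μ => ?_⟩
  set w : Fin n → ℂ := fun i => ((-(if 0 ≤ μ i then R else -R) : ℝ) : ℂ) * Complex.I with hw
  have h1 := hb n (tw h μ) (tw_diff hd μ) (tw_per hp μ) w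
  have h2 : (∫ y in Set.Icc (0 : Fin n → ℝ) 1, h (fun i => (y i : ℂ)) *
      ee (-(∑ i, (μ i : ℂ) * (y i : ℂ)))) = ∫ y in Set.Icc (0 : Fin n → ℝ) 1, tw h μ (fun i => (y i : ℂ)) := rfl
  rw [h2, ← h1]
  have h3 := norm_setIntegral_le_of_norm_le_const (μ := (volume : Measure (Fin n → ℝ)))
    (s := Set.Icc (0 : Fin n → ℝ) 1) (f := fun y => tw h μ (fun i => w i + (y i : ℂ)))
    (C := M * Real.exp (-(2 * Real.pi * R * ∑ i, |(μ i : ℝ)|))) (by rw [vol_cube]; exact ENNReal.one_lt_top) ?_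
  · have h4 : (volume : Measure (Fin n → ℝ)).real (Set.Icc (0 : Fin n → ℝ) 1) = 1 := by
      rw [Measure.real, vol_cube]; rfl
    rw [h4, mul_one] at h3
    exact h3
  · intro y hy
    unfold tw
    rw [norm_mul]
    apply mul_le_mul
    · apply hM
      intro i _
      rw [mem_reProdIm]
      have hy1 : 0 ≤ y i := hy.1 i
      have hy2 : y i ≤ 1 := hy.2 i
      have hre : (w i + (y i : ℂ)).re = y i := by
        rw [hw]; simp
      have him : (w i + (y i : ℂ)).im = -(if 0 ≤ μ i then R else -R) := by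
        rw [hw]; simp
      rw [hre, him]
      refine ⟨⟨hy1, hy2⟩, ?_⟩
      split_ifs <;> constructor <;> linarith
    · rw [norm_ee']
      apply le_of_eq
      congr 1
      rw [neg_im, im_sum]
      have : ∀ i, ((μ i : ℂ) * (w i + (y i : ℂ))).im = -(R * |(μ i : ℝ)|) := by
        intro i
        have him : (w i + (y i : ℂ)).im = -(if 0 ≤ μ i then R else -R) := by
          rw [hw]; simp
        rw [mul_im, him]
        simp only [intCast_re, intCast_im, zero_mul, add_zero]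
        split_ifs with h0
        · rw [abs_of_nonneg (by exact_mod_cast h0)]
          ring
        · rw [abs_of_neg (by exact_mod_cast (not_le.mp h0))]
          ring
      simp only [this]
      rw [Finset.sum_neg_distrib, ← Finset.mul_sum]
      ring
    · exact norm_nonneg _
    · refine le_trans (norm_nonneg _) (hM (fun _ => 0) ?_)
      intro i _
      rw [mem_reProdIm]
      simp [hR]

theorem qmap (n : ℕ) : IsOpenQuotientMap
    (fun (x : Fin n → ℝ) => (fun i => (x i : UnitAddCircle) : UnitAddTorus (Fin n))) := by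
  have : IsOpenQuotientMap (Pi.map (fun (_ : Fin n) (x : ℝ) => (x : UnitAddCircle))) := by
    apply IsOpenQuotientMap.piMap
    intro i
    exact QuotientAddGroup.isOpenQuotientMap_mk
  exact this

theorem exists_fun {n : ℕ} (F : (Fin n → ℝ) → ℂ) (hF : Continuous F)
    (hp : ∀ (x : Fin n → ℝ) (v : Fin n → ℤ), F (fun i => x i + (v i : ℝ)) = F x) :
    ∃ f : C(UnitAddTorus (Fin n), ℂ), ∀ x : Fin n → ℝ, f (fun i => (x i : UnitAddCircle)) = F x := by
  have key : ∀ x y : Fin n → ℝ, (fun i => (x i : UnitAddCircle)) = (fun i => (y i : UnitAddCircle)) → F x = F y := by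
    intro x y hxy
    have h1 : ∀ i, ∃ m : ℤ, y i = x i + m := by
      intro i
      have h2 := congrFun hxy i
      have h3 := (AddCircle.coe_eq_coe_iff_of_mem_Ico (p := (1 : ℝ)) (a := 0) (x := x i) (y := y i))
      rw [QuotientAddGroup.eq] at h2
      obtain ⟨m, hm⟩ := AddSubgroup.mem_zmultiples_iff.mp h2
      refine ⟨m, ?_⟩
      simp at hm
      linarith
    choose v hv using h1
    have h4 : y = fun i => x i + (v i : ℝ) := by
      funext i
      exact hv i
    rw [h4, hp]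
  have hs := (qmap n).surjective
  set f : UnitAddTorus (Fin n) → ℂ := fun t => F (Classical.choose (hs t)) with hf
  have hfx : ∀ x : Fin n → ℝ, f (fun i => (x i : UnitAddCircle)) = F x := by
    intro x
    apply key
    exact Classical.choose_spec (hs (fun i => (x i : UnitAddCircle)))
  have hc : Continuous f := by
    rw [(qmap n).isQuotientMap.continuous_iff]
    have : f ∘ (fun (x : Fin n → ℝ) => (fun i => (x i : UnitAddCircle) : UnitAddTorus (Fin n))) = F := by
      funext x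
      exact hfx x
    rw [this]
    exact hF
  exact ⟨⟨f, hc⟩, hfx⟩

theorem mF {n : ℕ} (μ : Fin n → ℤ) (x : Fin n → ℝ) :
    UnitAddTorus.mFourier μ (fun i => (x i : UnitAddCircle)) = ee (∑ i, (μ i : ℂ) * (x i : ℂ)) := by
  have h1 : UnitAddTorus.mFourier μ (fun i => (x i : UnitAddCircle)) = ∏ i, fourier (μ i) (x i : UnitAddCircle) := rfl
  rw [h1]
  unfold ee
  rw [Finset.mul_sum, Complex.exp_sum]
  refine Finset.prod_congr rfl fun i _ => ?_
  rw [fourier_coe_apply]
  congr 1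
  push_cast
  ring

theorem coeff {n : ℕ} (f : C(UnitAddTorus (Fin n), ℂ)) (F : (Fin n → ℝ) → ℂ)
    (hf : ∀ x : Fin n → ℝ, f (fun i => (x i : UnitAddCircle)) = F x) (μ : Fin n → ℤ) :
    UnitAddTorus.mFourierCoeff f μ = ∫ y in Set.Icc (0 : Fin n → ℝ) 1, F y *
      ee (-(∑ i, (μ i : ℂ) * (y i : ℂ))) := by
  rw [UnitAddTorus.mFourierCoeff_eq_integral f μ 0]
  have h1 : {x : Fin n → ℝ | ∀ i, x i ∈ Set.Ioc ((0 : Fin n → ℝ) i) ((0 : Fin n → ℝ) i + 1)} =
      Set.pi Set.univ (fun i => Set.Ioc ((0 : Fin n → ℝ) i) ((1 : Fin n → ℝ) i)) := by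
    ext x
    simp
  have h5 : Set.pi Set.univ (fun i => Set.Ioc ((0 : Fin n → ℝ) i) ((1 : Fin n → ℝ) i)) =ᵐ[volume]
      Set.Icc (0 : Fin n → ℝ) 1 := by
    rw [volume_pi]
    exact Measure.univ_pi_Ioc_ae_eq_Icc
  rw [h1, setIntegral_congr_set h5]
  apply setIntegral_congr_fun measurableSet_Icc
  intro y _
  simp only [smul_eq_mul]
  rw [mF, hf, mul_comm]
  congr 2
  simp

theorem job (hb : T1b) : T1d := by
  intro n h hd hp z
  have hc : Continuous (fun x : Fin n → ℝ => h (fun i => z i + (x i : ℂ))) := by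
    apply hd.continuous.comp
    fun_prop
  have hper : ∀ (x : Fin n → ℝ) (v : Fin n → ℤ), (fun x : Fin n → ℝ => h (fun i => z i + (x i : ℂ))) (fun i => x i + (v i : ℝ)) =
      (fun x : Fin n → ℝ => h (fun i => z i + (x i : ℂ))) x := by
    intro x v
    have := hp (fun i => z i + (x i : ℂ)) v
    simp only
    rw [← this]
    congr 1
    funext i
    push_cast
    ring
  obtain ⟨f, hf⟩ := exists_fun _ hc hper
  have hco : ∀ μ : Fin n → ℤ, UnitAddTorus.mFourierCoeff f μ = (∫ y in Set.Icc (0 : Fin n → ℝ) 1, h (fun i => (y i : ℂ)) *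
      ee (-(∑ i, (μ i : ℂ) * (y i : ℂ)))) * ee (∑ i, (μ i : ℂ) * z i) := by
    intro μ
    rw [coeff f _ hf μ, shift hb hd hp μ z]
  -- summability
  set R : ℝ := 1 + ∑ i, |(z i).im| with hRdef
  have hR0 : 0 ≤ R := by positivity
  obtain ⟨M, hM⟩ := bound hb hd hp R hR0
  have hsum : Summable (UnitAddTorus.mFourierCoeff f) := by
    apply Summable.of_norm_bounded (g := fun μ : Fin n → ℤ => M * Real.exp (-(2 * Real.pi * ∑ i, |(μ i : ℝ)|)))
    · exact (sum_pi n).mul_left M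
    · intro μ
      rw [hco μ, norm_mul, norm_ee']
      have h1 := hM μ
      have hM0 : 0 ≤ M := by
        have := (norm_nonneg _).trans h1
        exact nonneg_of_mul_nonneg_left this (Real.exp_pos _)
      have him : -(∑ i, (μ i : ℂ) * z i).im ≤ (∑ i, |(z i).im|) * ∑ i, |(μ i : ℝ)| := by
        rw [im_sum, ← Finset.sum_neg_distrib, Finset.mul_sum]
        apply Finset.sum_le_sum
        intro i _
        rw [mul_im]
        simp only [intCast_re, intCast_im, zero_mul, add_zero]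
        have h2 : |(z i).im| ≤ ∑ j, |(z j).im| :=
          Finset.single_le_sum (f := fun j => |(z j).im|) (fun j _ => abs_nonneg _) (Finset.mem_univ i)
        calc -((μ i : ℝ) * (z i).im) ≤ |(μ i : ℝ) * (z i).im| := neg_le_abs _
          _ = |(z i).im| * |(μ i : ℝ)| := by rw [abs_mul, mul_comm]
          _ ≤ _ := mul_le_mul_of_nonneg_right h2 (abs_nonneg _)
      calc _ ≤ (M * Real.exp (-(2 * Real.pi * R * ∑ i, |(μ i : ℝ)|))) * Real.exp (-(2 * Real.pi * (∑ i, (μ i : ℂ) * z i).im)) :=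
            mul_le_mul_of_nonneg_right h1 (Real.exp_pos _).le
        _ = M * Real.exp (-(2 * Real.pi * R * ∑ i, |(μ i : ℝ)|) + -(2 * Real.pi * (∑ i, (μ i : ℂ) * z i).im)) := by
            rw [Real.exp_add]; ring
        _ ≤ _ := by
            apply mul_le_mul_of_nonneg_left _ hM0
            apply Real.exp_le_exp.mpr
            have hpi := Real.pi_pos
            have h3 : 2 * Real.pi * (-(∑ i, (μ i : ℂ) * z i).im) ≤ 2 * Real.pi * ((∑ i, |(z i).im|) * ∑ i, |(μ i : ℝ)|) :=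
              mul_le_mul_of_nonneg_left him (by positivity)
            rw [hRdef]
            nlinarith [h3]
  have hfin := UnitAddTorus.hasSum_mFourier_series_apply_of_summable hsum (fun i => ((0 : ℝ) : UnitAddCircle))
  have h0 := hf (fun _ => 0)
  simp only [ofReal_zero, add_zero] at h0
  rw [h0] at hfin
  have hone : ∀ μ : Fin n → ℤ,
      UnitAddTorus.mFourier μ (fun _ : Fin n => ((0 : ℝ) : UnitAddCircle)) = 1 := by
    intro μ
    have h1 := mF μ (fun _ => 0)
    rw [h1]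
    simp [ee]
  convert hfin using 1
  funext μ
  rw [hone μ, hco μ]
  simp

end Pool.Agent.Helper188_RL.JA4
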