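import Pool.Agent.Helper188_RL.Stm1
set_option autoImplicit false
open MeasureTheory Complex Set Topology Pool.Agent.Y813.RL
open scoped MatrixOrder
namespace Pool.Agent.Helper188_RL.JA5

theorem exP (A : Matrix (Fin 20) (Fin 20) ℤ) (h : PosSymm A) :
    ∃ P : Matrix (Fin 20) (Fin 20) ℝ, A.map (Int.cast : ℤ → ℝ) = P.transpose * P ∧ P.det ≠ 0 := by
  have hs : (A.map (Int.cast : ℤ → ℝ)).IsHermitian := by
    rw [Matrix.IsHermitian]
    ext i j
    simp only [Matrix.conjTranspose_apply, Matrix.map_apply, star_trivial]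
    have := congrFun (congrFun h.symm i) j
    rw [Matrix.transpose_apply] at this
    rw [this]
  have hbf : ∀ x : Fin 20 → ℝ, x ⬝ᵥ ((A.map (Int.cast : ℤ → ℝ)).mulVec x) = bf A x x := by
    intro x
    unfold bf
    simp only [dotProduct, Matrix.mulVec, Matrix.map_apply, Finset.mul_sum]
    refine Finset.sum_congr rfl fun i _ => Finset.sum_congr rfl fun j _ => ?_
    ring
  have hpd : (A.map (Int.cast : ℤ → ℝ)).PosDef := by
    rw [Matrix.posDef_iff_dotProduct_mulVec]
    refine ⟨hs, fun {x} hx => ?_⟩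
    rw [star_trivial, hbf]
    exact h.pos x hx
  obtain ⟨P, hP⟩ := CStarAlgebra.nonneg_iff_eq_star_mul_self.mp hpd.posSemidef.nonneg
  refine ⟨P, ?_, ?_⟩
  · rw [hP, Matrix.star_eq_conjTranspose, Matrix.conjTranspose_eq_transpose_of_trivial]
  · intro h0
    have h1 := hpd.det_pos
    rw [hP, Matrix.det_mul, h0, mul_zero] at h1
    exact lt_irrefl _ h1

theorem job : T2a := by
  intro A hA μ τ hτ
  obtain ⟨P, hP, hdet⟩ := exP A hA
  have hdetR : ((A.det : ℤ) : ℝ) = P.det ^ 2 := by
    have h1 : (A.map (Int.cast : ℤ → ℝ)).det = ((A.det : ℤ) : ℝ) := by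
      have := RingHom.map_det (Int.castRingHom ℝ) A
      rw [RingHom.mapMatrix_apply] at this
      simpa using this.symm
    rw [← h1, hP, Matrix.det_mul, Matrix.det_transpose, sq]
  have hsqrt : Real.sqrt (A.det : ℝ) = |P.det| := by
    rw [hdetR, Real.sqrt_sq_eq_abs]
  have hunit : IsUnit P.det := isUnit_iff_ne_zero.mpr hdet
  have hPinv : P⁻¹ * P = 1 := Matrix.nonsing_inv_mul P hunit
  have hτ0 : τ ≠ 0 := by
    intro h; rw [h] at hτ; simp at hτ
  -- the vector lambda
  set lam : Fin 20 → ℝ := (P⁻¹).transpose.mulVec (fun i => (μ i : ℝ)) with hlam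
  have hbd : bd A μ μ = ∑ i, lam i ^ 2 := by
    have hinv : (A.map (Int.cast : ℤ → ℝ))⁻¹ = P⁻¹ * (P⁻¹).transpose := by
      rw [hP, Matrix.mul_inv_rev, Matrix.transpose_nonsing_inv]
    unfold bd
    rw [hinv]
    have e1 : ∑ i, (μ i : ℝ) * ((P⁻¹ * (P⁻¹).transpose).mulVec (fun j => (μ j : ℝ))) i =
        (fun i => (μ i : ℝ)) ⬝ᵥ (P⁻¹ * (P⁻¹).transpose).mulVec (fun j => (μ j : ℝ)) := rfl
    rw [e1, ← Matrix.mulVec_mulVec, Matrix.dotProduct_mulVec, ← Matrix.mulVec_transpose]
    simp only [dotProduct, ← hlam, sq]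
  set b : ℂ := Real.pi * I / τ with hb
  have hbre : 0 < b.re := by
    have : b.re = Real.pi * τ.im / Complex.normSq τ := by
      rw [hb, Complex.div_re]
      simp
    rw [this]
    exact div_pos (mul_pos Real.pi_pos hτ) (Complex.normSq_pos.mpr hτ0)
  have hb0 : b ≠ 0 := by
    intro h; rw [h] at hbre; simp at hbre
  set c : Fin 20 → ℂ := fun i => -(2 * Real.pi * I * (lam i : ℂ)) with hc
  set G : (Fin 20 → ℝ) → ℂ := fun v => cexp (-b * ∑ i, (v i : ℂ) ^ 2 + ∑ i, c i * v i) with hG
  have hGint : Integrable G := GaussianFourier.integrable_cexp_neg_mul_sum_add hbre c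
  have hGval : ∫ v, G v = -(τ ^ 10) * ee (τ * (bd A μ μ : ℂ) / 2) := by
    rw [hG, GaussianFourier.integral_cexp_neg_mul_sum_add hbre c]
    congr 1
    · have h20 : ((Fintype.card (Fin 20) : ℂ) / 2) = ((10 : ℕ) : ℂ) := by
        rw [Fintype.card_fin]; norm_num
      rw [h20, Complex.cpow_natCast]
      have : (Real.pi : ℂ) / b = τ / I := by
        rw [hb]
        have hpi : (Real.pi : ℂ) ≠ 0 := by exact_mod_cast Real.pi_ne_zero
        field_simp
      rw [this, div_pow]
      have hI : (I : ℂ) ^ 10 = -1 := by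
        rw [show (10 : ℕ) = 2 * 5 by norm_num, pow_mul, Complex.I_sq]; norm_num
      rw [hI, div_neg, div_one]
    · unfold ee
      congr 1
      have hs : ∑ i, c i ^ 2 = -(4 * Real.pi ^ 2) * (bd A μ μ : ℂ) := by
        rw [hbd]
        push_cast
        rw [Finset.mul_sum]
        refine Finset.sum_congr rfl fun i _ => ?_
        rw [hc]
        simp only
        have : (-(2 * (Real.pi : ℂ) * I * (lam i : ℂ))) ^ 2 =
          4 * (Real.pi : ℂ) ^ 2 * (I ^ 2) * (lam i : ℂ) ^ 2 := by ring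
        rw [this, Complex.I_sq]; ring
      rw [hs, hb]
      have hpi : (Real.pi : ℂ) ≠ 0 := by exact_mod_cast Real.pi_ne_zero
      have hII : (I : ℂ) ≠ 0 := Complex.I_ne_zero
      field_simp
      ring_nf
      rw [Complex.I_sq]; ring
  -- the change of variables
  have hcomp : (fun x : Fin 20 → ℝ =>
      ee (-(bf A (fun i => (x i : ℂ)) (fun i => (x i : ℂ)) / (2 * τ))) *
      ee (-(dt μ (fun i => (x i : ℂ))))) = fun x => G (Matrix.toLin' P x) := by
    funext x
    have hq : bf A (fun i => (x i : ℂ)) (fun i => (x i : ℂ)) =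
        ∑ i, ((Matrix.toLin' P x) i : ℂ) ^ 2 := by
      have h1 : bf A (fun i => (x i : ℂ)) (fun i => (x i : ℂ)) =
          ((x ⬝ᵥ ((A.map (Int.cast : ℤ → ℝ)).mulVec x) : ℝ) : ℂ) := by
        unfold bf
        simp only [dotProduct, Matrix.mulVec, Matrix.map_apply, Finset.mul_sum]
        push_cast
        refine Finset.sum_congr rfl fun i _ => Finset.sum_congr rfl fun j _ => ?_
        ring
      rw [h1, hP, ← Matrix.mulVec_mulVec, Matrix.dotProduct_mulVec, ← Matrix.mulVec_transpose,
        Matrix.transpose_transpose]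
      simp only [dotProduct, Matrix.toLin'_apply]
      push_cast
      refine Finset.sum_congr rfl fun i _ => ?_
      rw [sq]
    have hd : dt μ (fun i => (x i : ℂ)) = ∑ i, (lam i : ℂ) * ((Matrix.toLin' P x) i : ℂ) := by
      have h1 : dt μ (fun i => (x i : ℂ)) = (((fun i => (μ i : ℝ)) ⬝ᵥ x : ℝ) : ℂ) := by
        unfold dt
        simp only [dotProduct]
        push_cast
        rfl
      have h2 : (fun i => (μ i : ℝ)) ⬝ᵥ x = lam ⬝ᵥ P.mulVec x := by
        rw [hlam, Matrix.mulVec_transpose, ← Matrix.dotProduct_mulVec, Matrix.mulVec_mulVec,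
          hPinv, Matrix.one_mulVec]
      rw [h1, h2]
      simp only [dotProduct, Matrix.toLin'_apply]
      push_cast
      rfl
    rw [hq, hd, hG]
    unfold ee
    rw [← Complex.exp_add]
    simp only
    congr 1
    have hs : ∑ i, c i * ((Matrix.toLin' P x) i : ℂ) =
        -(2 * Real.pi * I) * ∑ i, (lam i : ℂ) * ((Matrix.toLin' P x) i : ℂ) := by
      rw [Finset.mul_sum]
      refine Finset.sum_congr rfl fun i _ => ?_
      rw [hc]; ring
    rw [hs, hb]
    field_simp
  have hmap := Real.map_matrix_volume_pi_eq_smul_volume_pi hdet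
  have hemb : MeasurableEmbedding (Matrix.toLin' P : (Fin 20 → ℝ) → (Fin 20 → ℝ)) := by
    have hinj : Function.Injective (Matrix.toLin' P) := by
      intro x y hxy
      rw [Matrix.toLin'_apply, Matrix.toLin'_apply] at hxy
      have := congrArg (P⁻¹.mulVec) hxy
      rwa [Matrix.mulVec_mulVec, Matrix.mulVec_mulVec, hPinv, Matrix.one_mulVec,
        Matrix.one_mulVec] at this
    exact (LinearMap.isClosedEmbedding_of_injective (LinearMap.ker_eq_bot.mpr hinj)).measurableEmbedding
  have hintmap : Integrable G (Measure.map (Matrix.toLin' P) volume) := by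
    rw [hmap]
    exact hGint.smul_measure ENNReal.ofReal_ne_top
  rw [hcomp]
  refine ⟨(hemb.integrable_map_iff).mp hintmap, ?_⟩
  rw [← hemb.integral_map G, hmap, integral_smul_measure, hGval, hsqrt,
    ENNReal.toReal_ofReal (abs_nonneg _), abs_inv]
  rw [Complex.real_smul]
  push_cast
  ring

end Pool.Agent.Helper188_RL.JA5
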