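import Pool.Agent.Helper188_RL.Stm1
set_option autoImplicit false
open MeasureTheory Complex Set Topology Pool.Agent.Y813.RL
namespace Pool.Agent.Helper188_RL.JA6

/-- the translate of the half open cube -/
def cell (v : Fin 20 → ℤ) : Set (Fin 20 → ℝ) := {x | ∀ i, x i + (v i : ℝ) ∈ Set.Ico (0 : ℝ) 1}

theorem cell_disj : Pairwise (Function.onFun Disjoint cell) := by
  intro v w hvw
  rw [Function.onFun, Set.disjoint_left]
  intro x hx hx'
  apply hvw
  funext i
  have h1 := hx i
  have h2 := hx' i
  simp only [Set.mem_Ico] at h1 h2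
  have h3 : (v i : ℝ) - (w i : ℝ) < 1 := by linarith
  have h4 : (w i : ℝ) - (v i : ℝ) < 1 := by linarith
  have h5 : v i - w i < 1 := by exact_mod_cast h3
  have h6 : w i - v i < 1 := by exact_mod_cast h4
  omega

theorem cell_union : (⋃ v, cell v) = Set.univ := by
  rw [Set.eq_univ_iff_forall]
  intro x
  rw [Set.mem_iUnion]
  refine ⟨fun i => -⌊x i⌋, fun i => ?_⟩
  constructor
  · push_cast
    have := Int.floor_le (x i)
    linarith
  · push_cast
    have := Int.lt_floor_add_one (x i)
    linarith

theorem cell_meas (v : Fin 20 → ℤ) : MeasurableSet (cell v) := by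
  unfold cell
  rw [Set.ofPred_forall]
  refine MeasurableSet.iInter fun i => ?_
  exact measurableSet_Ico.preimage ((measurable_pi_apply i).add_const _)

theorem integral_cell (g : (Fin 20 → ℝ) → ℂ) (v : Fin 20 → ℤ) :
    ∫ y in Set.Icc (0 : Fin 20 → ℝ) 1, g (fun i => y i - (v i : ℝ)) = ∫ x in cell v, g x := by
  have hmp : MeasurePreserving (fun y : Fin 20 → ℝ => y - (fun i => (v i : ℝ))) volume volume :=
    measurePreserving_sub_right volume _
  have hemb : MeasurableEmbedding (fun y : Fin 20 → ℝ => y - (fun i => (v i : ℝ))) :=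
    measurableEmbedding_subRight _
  have h2 := hmp.setIntegral_preimage_emb hemb g (cell v)
  rw [← h2]
  have h3 : ((fun y : Fin 20 → ℝ => y - (fun i => (v i : ℝ))) ⁻¹' (cell v))
      =ᵐ[volume] Set.Icc (0 : Fin 20 → ℝ) 1 := by
    have h4 : ((fun y : Fin 20 → ℝ => y - (fun i => (v i : ℝ))) ⁻¹' (cell v))
        = Set.pi Set.univ (fun i => Set.Ico ((0 : Fin 20 → ℝ) i) ((1 : Fin 20 → ℝ) i)) := by
      ext y
      simp [cell]
    rw [h4]
    exact Measure.univ_pi_Ico_ae_eq_Icc
  rw [setIntegral_congr_set h3]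
  rfl

theorem job : T2b := by
  intro g hg
  have h1 := hasSum_integral_iUnion (μ := volume) (f := g) cell_meas cell_disj
    (by rw [cell_union]; exact hg.integrableOn)
  rw [cell_union, Measure.restrict_univ] at h1
  have key : (fun v : Fin 20 → ℤ => ∫ y in Set.Icc (0 : Fin 20 → ℝ) 1,
      g (fun i => y i - (v i : ℝ))) = fun v => ∫ x in cell v, g x := by
    funext v
    exact integral_cell g v
  rw [key]
  exact h1

end Pool.Agent.Helper188_RL.JA6
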