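import Pool.Agent.Helper188_RL.Stm1
import Pool.Agent.Y813.RL.Bf
set_option autoImplicit false
open MeasureTheory Complex Set Topology Pool.Agent.Y813.RL
namespace Pool.Agent.Helper188_RL.JA7

theorem eeadd (x y : ℂ) : ee (x + y) = ee x * ee y := by
  unfold ee
  rw [← Complex.exp_add]
  congr 1
  ring

theorem eezero : ee 0 = 1 := by simp [ee]

theorem eeint (n : ℤ) : ee n = 1 := by
  unfold ee
  rw [show 2 * (Real.pi : ℂ) * Complex.I * (n : ℂ) = (n : ℂ) * (2 * Real.pi * Complex.I) by ring]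
  exact Complex.exp_int_mul_two_pi_mul_I n

/-- the real matrix -/
noncomputable abbrev rm (A : Matrix (Fin 20) (Fin 20) ℤ) : Matrix (Fin 20) (Fin 20) ℝ :=
  A.map (Int.cast : ℤ → ℝ)

/-- the vector `A⁻¹ ν` -/
noncomputable def av (A : Matrix (Fin 20) (Fin 20) ℤ) (ν : Fin 20 → ℤ) : Fin 20 → ℝ :=
  (rm A)⁻¹.mulVec (fun j => (ν j : ℝ))

theorem bf_eq (A : Matrix (Fin 20) (Fin 20) ℤ) (x y : Fin 20 → ℝ) :
    bf A x y = x ⬝ᵥ (rm A).mulVec y := by
  simp [bf, Matrix.mulVec, dotProduct, Finset.mul_sum, mul_assoc]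

theorem bd_eq (A : Matrix (Fin 20) (Fin 20) ℤ) (μ ν : Fin 20 → ℤ) :
    bd A μ ν = ∑ i, (μ i : ℝ) * av A ν i := rfl

variable {A : Matrix (Fin 20) (Fin 20) ℤ}

theorem det_unit (h : PosSymm A) : IsUnit (rm A).det := by
  rw [isUnit_iff_ne_zero]
  intro h0
  obtain ⟨x, hx, hx0⟩ := Matrix.exists_mulVec_eq_zero_iff.2 h0
  have := h.pos x hx
  rw [bf_eq, hx0] at this
  simp at this

theorem mulVec_av (h : PosSymm A) (ν : Fin 20 → ℤ) :
    (rm A).mulVec (av A ν) = fun j => (ν j : ℝ) := by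
  rw [av, Matrix.mulVec_mulVec, Matrix.mul_nonsing_inv _ (det_unit h), Matrix.one_mulVec]

theorem bf_av (h : PosSymm A) (x : Fin 20 → ℝ) (ν : Fin 20 → ℤ) :
    bf A x (av A ν) = ∑ i, (ν i : ℝ) * x i := by
  rw [bf_eq, mulVec_av h]
  simp [dotProduct, mul_comm]

theorem mulVec_cast (v : Fin 20 → ℤ) :
    (fun j => ((A.mulVec v j : ℤ) : ℝ)) = (rm A).mulVec (fun j => (v j : ℝ)) := by
  ext j
  simp [Matrix.mulVec, dotProduct]

theorem av_add (h : PosSymm A) (ρ v : Fin 20 → ℤ) :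
    av A (ρ + A.mulVec v) = av A ρ + fun j => (v j : ℝ) := by
  have e : (fun j => (((ρ + A.mulVec v) j : ℤ) : ℝ)) =
      (fun j => (ρ j : ℝ)) + (rm A).mulVec (fun j => (v j : ℝ)) := by
    rw [← mulVec_cast]
    ext j
    simp
  rw [av, e, Matrix.mulVec_add, Matrix.mulVec_mulVec, Matrix.nonsing_inv_mul _ (det_unit h),
    Matrix.one_mulVec]
  rfl

theorem bf_sub_self (h : PosSymm A) (y : Fin 20 → ℝ) (ν : Fin 20 → ℤ) :
    bf A (y - av A ν) (y - av A ν) = bf A y y - 2 * (∑ i, (ν i : ℝ) * y i) + bd A ν ν := by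
  rw [bf_sub_left, bf_sub_right, bf_sub_right, bf_comm h.symm (av A ν) y, bf_av h, bf_av h, bd_eq]
  ring

theorem inj (h : PosSymm A) {v w : Fin 20 → ℤ} (e : A.mulVec v = A.mulVec w) : v = w := by
  have e1 : (rm A).mulVec (fun j => (v j : ℝ)) = (rm A).mulVec (fun j => (w j : ℝ)) := by
    rw [← mulVec_cast, ← mulVec_cast, e]
  have e2 := congrArg (rm A)⁻¹.mulVec e1
  rw [Matrix.mulVec_mulVec, Matrix.mulVec_mulVec, Matrix.nonsing_inv_mul _ (det_unit h),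
    Matrix.one_mulVec, Matrix.one_mulVec] at e2
  ext j
  exact_mod_cast congrFun e2 j

theorem bij (h : PosSymm A) {R : Finset (Fin 20 → ℤ)} (hR : IsReps A R) :
    Function.Bijective (fun p : R × (Fin 20 → ℤ) => (p.1 : Fin 20 → ℤ) + A.mulVec p.2) := by
  constructor
  · rintro ⟨⟨ρ, hρ⟩, v⟩ ⟨⟨σ, hσ⟩, w⟩ e
    have e' : ρ + A.mulVec v = σ + A.mulVec w := e
    obtain ⟨κ, -, hκ⟩ := hR (ρ + A.mulVec v)
    have h1 := hκ ρ ⟨hρ, v, rfl⟩
    have h2 := hκ σ ⟨hσ, w, e'⟩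
    have h3 : ρ = σ := h1.trans h2.symm
    subst h3
    have h4 := inj h (add_left_cancel e')
    subst h4
    rfl
  · intro ν
    obtain ⟨ρ, ⟨hρ, v, e⟩, -⟩ := hR ν
    exact ⟨(⟨ρ, hρ⟩, v), e.symm⟩

/-- exponents -/
theorem expo (h : PosSymm A) (μ ρ v : Fin 20 → ℤ) (τ : ℂ) (hτ : τ ≠ 0) (y : Fin 20 → ℝ) :
    ee ((-1 / τ) * (bd A (ρ + A.mulVec v) (ρ + A.mulVec v) : ℂ) / 2) *
      ee (dt (ρ + A.mulVec v) (fun i => (y i : ℂ) / τ)) *
      (ee (-(bf A (fun i => (y i : ℂ)) (fun i => (y i : ℂ)) / (2 * τ))) *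
        ee (-(dt μ (fun i => (y i : ℂ))))) =
    ee (-(bd A μ ρ : ℂ)) *
      (ee (-(bf A (fun i => ((y i - (v i : ℝ) - av A ρ i : ℝ) : ℂ))
        (fun i => ((y i - (v i : ℝ) - av A ρ i : ℝ) : ℂ)) / (2 * τ))) *
        ee (-(dt μ (fun i => ((y i - (v i : ℝ) - av A ρ i : ℝ) : ℂ))))) := by
  have e1 : (fun i => y i - (v i : ℝ) - av A ρ i) = y - av A (ρ + A.mulVec v) := by
    rw [av_add h]
    ext i
    simp only [Pi.sub_apply, Pi.add_apply]
    ring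
  have e2 : bf A (fun i => ((y i - (v i : ℝ) - av A ρ i : ℝ) : ℂ))
      (fun i => ((y i - (v i : ℝ) - av A ρ i : ℝ) : ℂ)) =
      ((bf A y y - 2 * (∑ i, ((ρ + A.mulVec v) i : ℝ) * y i) +
        bd A (ρ + A.mulVec v) (ρ + A.mulVec v) : ℝ) : ℂ) := by
    rw [bf_ofReal A (fun i => y i - (v i : ℝ) - av A ρ i), e1, bf_sub_self h]
  have e3 : dt μ (fun i => ((y i - (v i : ℝ) - av A ρ i : ℝ) : ℂ)) =
      dt μ (fun i => (y i : ℂ)) - ((∑ i, μ i * v i : ℤ) : ℂ) - (bd A μ ρ : ℂ) := by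
    rw [bd_eq]
    unfold dt
    push_cast
    rw [← Finset.sum_sub_distrib, ← Finset.sum_sub_distrib]
    exact Finset.sum_congr rfl fun i _ => by ring
  have e4 : dt (ρ + A.mulVec v) (fun i => (y i : ℂ) / τ) =
      ((∑ i, ((ρ + A.mulVec v) i : ℝ) * y i : ℝ) : ℂ) / τ := by
    unfold dt
    push_cast
    rw [Finset.sum_div]
    exact Finset.sum_congr rfl fun i _ => by ring
  rw [e2, e3, e4, bf_ofReal A y y]
  have e5 : ee (-(dt μ (fun i => (y i : ℂ)) - ((∑ i, μ i * v i : ℤ) : ℂ) - (bd A μ ρ : ℂ))) =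
      ee (-(dt μ (fun i => (y i : ℂ))) + (bd A μ ρ : ℂ)) := by
    rw [show -(dt μ (fun i => (y i : ℂ)) - ((∑ i, μ i * v i : ℤ) : ℂ) - (bd A μ ρ : ℂ)) =
      (-(dt μ (fun i => (y i : ℂ))) + (bd A μ ρ : ℂ)) + ((∑ i, μ i * v i : ℤ) : ℂ) by ring, eeadd _
        ((∑ i, μ i * v i : ℤ) : ℂ), eeint, mul_one]
  rw [e5, ← eeadd, ← eeadd, ← eeadd, ← eeadd, ← eeadd]
  congr 1
  push_cast
  field_simp
  ring

theorem job (h1 : JobTheta1) (ha : T2a) (hb : T2b) : JobTheta2 := by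
  intro A c R hA hc hR μ τ hτ
  have hτ0 : τ ≠ 0 := by
    rintro rfl
    simp at hτ
  have hs : 0 < (-1 / τ).im := by
    have e : (-1 / τ).im = τ.im / Complex.normSq τ := by
      rw [neg_div, one_div, Complex.neg_im, Complex.inv_im]
      ring
    rw [e]
    exact div_pos hτ (Complex.normSq_pos.2 hτ0)
  obtain ⟨-, -, -, h4, h5⟩ := h1 A c hA hc
  obtain ⟨hi, hv⟩ := ha A hA μ τ hτ
  set s : ℂ := -1 / τ with hsdef
  set f0 : (Fin 20 → ℝ) → ℂ := fun x =>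
    ee (-(bf A (fun i => (x i : ℂ)) (fun i => (x i : ℂ)) / (2 * τ))) *
      ee (-(dt μ (fun i => (x i : ℂ)))) with hf0
  set K : (Fin 20 → ℤ) → ℂ := fun ρ => vf A c ρ s * ee (-(bd A μ ρ : ℂ)) with hK
  set G : (Fin 20 → ℤ) → (Fin 20 → ℝ) → ℂ := fun ν y =>
    fc c ν s * ee (dt ν (fun i => (y i : ℂ) / τ)) * f0 y with hG
  have hfc : ∀ ν, fc c ν s = ee (s * (bd A ν ν : ℂ) / 2) * vf A c ν s := by
    intro ν
    rw [vf, ← mul_assoc, ← eeadd, add_neg_cancel, eezero, one_mul]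
  -- pointwise sum
  have hsum : ∀ y : Fin 20 → ℝ, HasSum (fun ν => G ν y)
      (c τ (fun i => (y i : ℂ)) * ee (-(dt μ (fun i => (y i : ℂ))))) := by
    intro y
    have e := (h5 s (fun i => (y i : ℂ) / τ) hs).mul_right (f0 y)
    have e2 := hc.S τ (fun i => (y i : ℂ)) hτ
    rw [e2] at e
    have e3 : ee (bf A (fun i => (y i : ℂ)) (fun i => (y i : ℂ)) / (2 * τ)) *
      c τ (fun i => (y i : ℂ)) * f0 y =
        c τ (fun i => (y i : ℂ)) * ee (-(dt μ (fun i => (y i : ℂ)))) := by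
      rw [hf0]
      show ee (bf A (fun i => (y i : ℂ)) (fun i => (y i : ℂ)) / (2 * τ)) *
        c τ (fun i => (y i : ℂ)) *
        (ee (-(bf A (fun i => (y i : ℂ)) (fun i => (y i : ℂ)) / (2 * τ))) *
          ee (-(dt μ (fun i => (y i : ℂ))))) = _
      rw [show ee (bf A (fun i => (y i : ℂ)) (fun i => (y i : ℂ)) / (2 * τ)) *
        c τ (fun i => (y i : ℂ)) *
        (ee (-(bf A (fun i => (y i : ℂ)) (fun i => (y i : ℂ)) / (2 * τ))) *
          ee (-(dt μ (fun i => (y i : ℂ))))) =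
        (ee (bf A (fun i => (y i : ℂ)) (fun i => (y i : ℂ)) / (2 * τ)) *
          ee (-(bf A (fun i => (y i : ℂ)) (fun i => (y i : ℂ)) / (2 * τ)))) *
          (c τ (fun i => (y i : ℂ)) * ee (-(dt μ (fun i => (y i : ℂ))))) by ring,
        ← eeadd, add_neg_cancel, eezero, one_mul]
    rw [e3] at e
    exact e
  -- the terms
  have hterm : ∀ (ρ v : Fin 20 → ℤ) (y : Fin 20 → ℝ), G (ρ + A.mulVec v) y =
      K ρ * f0 (fun i => y i - (v i : ℝ) - av A ρ i) := by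
    intro ρ v y
    have e := expo hA μ ρ v τ hτ0 y
    rw [hG]
    show fc c (ρ + A.mulVec v) s * ee (dt (ρ + A.mulVec v) (fun i => (y i : ℂ) / τ)) * f0 y = _
    rw [hfc, h4 ρ v s hs, hK, hf0]
    calc _ = vf A c ρ s * (ee (s * (bd A (ρ + A.mulVec v) (ρ + A.mulVec v) : ℂ) / 2) *
          ee (dt (ρ + A.mulVec v) (fun i => (y i : ℂ) / τ)) *
          (ee (-(bf A (fun i => (y i : ℂ)) (fun i => (y i : ℂ)) / (2 * τ))) *
            ee (-(dt μ (fun i => (y i : ℂ)))))) := by ring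
      _ = _ := by rw [hsdef, e]; ring
  -- integrability
  have hsh : ∀ ρ : Fin 20 → ℤ, Integrable (fun x : Fin 20 → ℝ => f0 (fun i => x i - av A ρ i)) :=
    fun ρ => hi.comp_sub_right (av A ρ)
  have hshv : ∀ ρ v : Fin 20 → ℤ,
      Integrable (fun x : Fin 20 → ℝ => f0 (fun i => x i - (v i : ℝ) - av A ρ i)) :=
    fun ρ v => (hsh ρ).comp_sub_right (fun i => (v i : ℝ))
  have hval : ∀ ρ : Fin 20 → ℤ, ∫ x : Fin 20 → ℝ, f0 (fun i => x i - av A ρ i) = ∫ x, f0 x :=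
    fun ρ => integral_sub_right_eq_self f0 (av A ρ)
  set Q : Measure (Fin 20 → ℝ) := volume.restrict (Set.Icc (0 : Fin 20 → ℝ) 1) with hQ
  set e : R × (Fin 20 → ℤ) ≃ (Fin 20 → ℤ) := Equiv.ofBijective _ (bij hA hR) with he
  have hea : ∀ p : R × (Fin 20 → ℤ), e p = (p.1 : Fin 20 → ℤ) + A.mulVec p.2 := fun p => rfl
  have hint : ∀ ν, Integrable (G ν) Q := by
    intro ν
    obtain ⟨p, rfl⟩ := e.surjective ν
    have e1 : G (e p) = fun y => K p.1 * f0 (fun i => y i - (p.2 i : ℝ) - av A p.1 i) := by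
      ext y
      rw [hea, hterm]
    rw [e1]
    exact ((hshv p.1 p.2).restrict).const_mul _
  have hin : ∀ ρ : R, HasSum (fun v : Fin 20 → ℤ => ∫ y, G (e (ρ, v)) y ∂Q)
      (K ρ * ∫ x, f0 x) := by
    intro ρ
    have e1 := (hb _ (hsh ρ)).mul_left (K ρ)
    rw [hval] at e1
    have e2 : (fun v : Fin 20 → ℤ => ∫ y, G (e (ρ, v)) y ∂Q) = fun v : Fin 20 → ℤ =>
        K ρ * ∫ y in Set.Icc (0 : Fin 20 → ℝ) 1, f0 (fun i => y i - (v i : ℝ) - av A ρ i) := by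
      ext v
      rw [← integral_const_mul]
      refine integral_congr_ae (Filter.Eventually.of_forall fun y => ?_)
      show G (e (ρ, v)) y = _
      rw [hea, hterm]
    rw [e2]
    exact e1
  have hinn : ∀ ρ : R, Summable (fun v : Fin 20 → ℤ => ∫ y, ‖G (e (ρ, v)) y‖ ∂Q) := by
    intro ρ
    have hn : Integrable (fun x : Fin 20 → ℝ => ((‖f0 (fun i => x i - av A ρ i)‖ : ℝ) : ℂ)) :=
      (hsh ρ).norm.ofReal
    have e1 := (hb _ hn).summable
    have e2 : Summable (fun v : Fin 20 → ℤ =>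
        ∫ y, ‖f0 (fun i => y i - (v i : ℝ) - av A ρ i)‖ ∂Q) := by
      rw [← Complex.summable_ofReal]
      have e3 : (fun v : Fin 20 → ℤ =>
          ((∫ y, ‖f0 (fun i => y i - (v i : ℝ) - av A ρ i)‖ ∂Q : ℝ) : ℂ)) =
          fun v : Fin 20 → ℤ => ∫ y in Set.Icc (0 : Fin 20 → ℝ) 1,
            ((‖f0 (fun i => y i - (v i : ℝ) - av A ρ i)‖ : ℝ) : ℂ) := by
        ext v
        exact integral_ofReal.symm
      rw [e3]
      exact e1
    have e4 : (fun v : Fin 20 → ℤ => ∫ y, ‖G (e (ρ, v)) y‖ ∂Q) = fun v : Fin 20 → ℤ =>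
        ‖K ρ‖ * ∫ y, ‖f0 (fun i => y i - (v i : ℝ) - av A ρ i)‖ ∂Q := by
      ext v
      rw [← integral_const_mul]
      refine integral_congr_ae (Filter.Eventually.of_forall fun y => ?_)
      show ‖G (e (ρ, v)) y‖ = _
      rw [hea, hterm, norm_mul]
    rw [e4]
    exact e2.mul_left ‖K ρ‖
  have hsn : Summable (fun ν => ∫ y, ‖G ν y‖ ∂Q) := by
    rw [← e.summable_iff]
    refine (summable_prod_of_nonneg ?_).2 ⟨hinn, ?_⟩
    · intro p
      exact integral_nonneg fun y => norm_nonneg _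
    · exact (hasSum_fintype _).summable
  have htot : HasSum (fun ν => ∫ y, G ν y ∂Q) (fc c μ τ) := by
    have e1 := hasSum_integral_of_summable_integral_norm hint hsn
    have e2 : fc c μ τ = ∫ y, ∑' ν, G ν y ∂Q := by
      rw [fc]
      refine integral_congr_ae (Filter.Eventually.of_forall fun y => ?_)
      exact (hsum y).tsum_eq.symm
    rw [e2]
    exact e1
  have htot2 := (e.hasSum_iff.2 htot)
  have hfin := htot2.prod_fiberwise hin
  have hfc2 : fc c μ τ = ∑ ρ ∈ R, K ρ * ∫ x, f0 x := by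
    have e1 := hfin.unique (hasSum_fintype _)
    rw [e1]
    exact Finset.sum_coe_sort R (fun ρ => K ρ * ∫ x, f0 x)
  rw [hv] at hfc2
  rw [vf, hfc2, Finset.mul_sum, Finset.mul_sum]
  refine Finset.sum_congr rfl fun ρ _ => ?_
  rw [hK]
  calc _ = (ee (-(τ * (bd A μ μ : ℂ) / 2)) * ee (τ * (bd A μ μ : ℂ) / 2)) *
        (-(τ ^ 10) / (Real.sqrt (A.det : ℝ) : ℂ) * (ee (-(bd A μ ρ : ℂ)) * vf A c ρ s)) := by ring
    _ = _ := by rw [← eeadd, neg_add_cancel, eezero, one_mul]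

end Pool.Agent.Helper188_RL.JA7
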