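-- JOB for MP_f1d0b6_nt (full answer; finishing the starting project Pool/Agent/Y813/RL). Owner helper188.
-- Statement file: Pool/Agent/Helper188_RL/Stm1.lean on origin/main (git -C /workdir/pool/outputs/live pull; copy
-- Pool/Agent/Helper188_RL, Pool/Agent/Y813/RL, Pool/Agent/Y683/RL, Pool/Agent/Y155/RL to /workdir/pool/Pool/Agent/).
-- Prove the TARGET below in ONE file, statement unchanged (all Props are defined in Stm1.lean / Y813/RL/Stm.lean);
-- you may import anything of these folders and Mathlib; hypotheses named (h : <Prop>) are other jobs.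
import Pool.Agent.Helper188_RL.Stm1
set_option autoImplicit false
open MeasureTheory Complex Set Topology Pool.Agent.Y813.RL
namespace Pool.Agent.Helper188_RL.JB1

/- TARGET (proved below):
theorem job : FFa
-/

theorem bf_eq_dot (A : Matrix (Fin 20) (Fin 20) ℤ) (x : Fin 20 → ℝ) :
    bf A x x = x ⬝ᵥ ((A.map (Int.cast : ℤ → ℝ)).mulVec x) := by
  unfold bf
  rw [dotProduct]
  refine Finset.sum_congr rfl fun i _ => ?_
  rw [Matrix.mulVec, dotProduct, Finset.mul_sum]
  refine Finset.sum_congr rfl fun j _ => ?_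
  rw [Matrix.map_apply, mul_assoc]

theorem det_pos_of {A : Matrix (Fin 20) (Fin 20) ℤ} (hA : PosSymm A) : 0 < A.det := by
  have hpd : (A.map (Int.cast : ℤ → ℝ)).PosDef := by
    refine Matrix.PosDef.of_dotProduct_mulVec_pos ?_ ?_
    · rw [Matrix.IsHermitian, Matrix.conjTranspose_eq_transpose_of_trivial]
      rw [← Matrix.transpose_map, hA.symm.eq]
    · intro x hx
      have h := hA.pos x hx
      rw [bf_eq_dot] at h
      have hs : star x = x := by
        ext i
        simp
      rw [hs]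
      exact h
  have h := hpd.det_pos
  have h2 : (A.map (Int.cast : ℤ → ℝ)).det = (A.det : ℝ) := by
    have := (Int.castRingHom ℝ).map_det A
    rw [RingHom.mapMatrix_apply] at this
    exact this.symm
  rw [h2] at h
  exact_mod_cast h

theorem card_quot {A : Matrix (Fin 20) (Fin 20) ℤ} (hdet : A.det ≠ 0) :
    Nat.card ((Fin 20 → ℤ) ⧸ (LinearMap.range A.mulVecLin)) = A.det.natAbs := by
  have hinj : Function.Injective A.mulVecLin := by
    rw [← LinearMap.ker_eq_bot, LinearMap.ker_eq_bot']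
    intro m hm
    exact Matrix.eq_zero_of_mulVec_eq_zero hdet hm
  have h := Submodule.natAbs_det_equiv (LinearMap.range A.mulVecLin)
    (LinearEquiv.ofInjective A.mulVecLin hinj)
  rw [← h]
  have h2 : ((LinearMap.range A.mulVecLin).subtype ∘ₗ AddMonoidHom.toIntLinearMap
      ((LinearEquiv.ofInjective A.mulVecLin hinj : (Fin 20 → ℤ) ≃ₗ[ℤ] _) :
        (Fin 20 → ℤ) →+ (LinearMap.range A.mulVecLin))) = Matrix.toLin' A := by
    ext i j
    rfl
  rw [h2, LinearMap.det_toLin']

theorem job : FFa := by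
  intro A hA
  have hdp := det_pos_of hA
  have hcard := card_quot (A := A) hdp.ne'
  set N := LinearMap.range A.mulVecLin with hN
  have hfin : Finite ((Fin 20 → ℤ) ⧸ N) := by
    refine Nat.finite_of_card_ne_zero ?_
    rw [hcard]
    exact Int.natAbs_ne_zero.2 hdp.ne'
  have hmem : ∀ μ ρ : Fin 20 → ℤ, (∃ v : Fin 20 → ℤ, μ = ρ + A.mulVec v) ↔
      (Submodule.Quotient.mk μ : (Fin 20 → ℤ) ⧸ N) = Submodule.Quotient.mk ρ := by
    intro μ ρ
    rw [Submodule.Quotient.eq, hN, LinearMap.mem_range]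
    constructor
    · rintro ⟨v, hv⟩
      refine ⟨v, ?_⟩
      rw [hv, Matrix.mulVecLin_apply]
      abel
    · rintro ⟨v, hv⟩
      refine ⟨v, ?_⟩
      rw [Matrix.mulVecLin_apply] at hv
      rw [hv]
      abel
  refine ⟨hdp, ?_, ?_⟩
  · classical
    haveI : Fintype ((Fin 20 → ℤ) ⧸ N) := Fintype.ofFinite _
    refine ⟨Finset.univ.image (fun q : (Fin 20 → ℤ) ⧸ N => Quotient.out q), ?_⟩
    intro μ
    refine ⟨Quotient.out (Submodule.Quotient.mk μ : (Fin 20 → ℤ) ⧸ N), ⟨?_, ?_⟩, ?_⟩
    · exact Finset.mem_image_of_mem _ (Finset.mem_univ _)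
    · rw [hmem]
      exact (Quotient.out_eq (Submodule.Quotient.mk μ : (Fin 20 → ℤ) ⧸ N)).symm
    · rintro ρ ⟨hρ, hv⟩
      obtain ⟨q, -, rfl⟩ := Finset.mem_image.1 hρ
      rw [hmem] at hv
      have h1 : (Submodule.Quotient.mk (Quotient.out q) : (Fin 20 → ℤ) ⧸ N) = q := Quotient.out_eq q
      rw [h1] at hv
      rw [hv]
  · intro R hR
    have hb : Function.Bijective
        (fun ρ : R => (Submodule.Quotient.mk (ρ : Fin 20 → ℤ) : (Fin 20 → ℤ) ⧸ N)) := by
      constructor
      · intro a b hab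
        have h1 := (hmem a b).2 hab
        obtain ⟨ρ, -, hu⟩ := hR a
        have ha : (a : Fin 20 → ℤ) = ρ := hu a ⟨a.2, (hmem a a).2 rfl⟩
        have hbb : (b : Fin 20 → ℤ) = ρ := hu b ⟨b.2, h1⟩
        exact Subtype.ext (ha.trans hbb.symm)
      · intro q
        obtain ⟨μ, rfl⟩ := Submodule.Quotient.mk_surjective N q
        obtain ⟨ρ, ⟨hρ, hv⟩, -⟩ := hR μ
        exact ⟨⟨ρ, hρ⟩, ((hmem μ ρ).1 hv).symm⟩
    have h3 := Nat.card_congr (Equiv.ofBijective _ hb)
    rw [Nat.card_eq_fintype_card, Fintype.card_coe, hcard] at h3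
    rw [h3]
    exact Int.natAbs_of_nonneg hdp.le

end Pool.Agent.Helper188_RL.JB1
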