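-- JOB for MP_f1d0b6_nt (full answer; finishing the starting project Pool/Agent/Y813/RL). Owner helper188.
import Pool.Agent.Helper188_RL.Stm1
set_option autoImplicit false
open MeasureTheory Complex Set Topology Pool.Agent.Y813.RL
namespace Pool.Agent.Helper188_RL.JB2

theorem ee_add (x y : ℂ) : ee (x + y) = ee x * ee y := by
  unfold ee; rw [mul_add, Complex.exp_add]

theorem ee_int (n : ℤ) : ee (n : ℂ) = 1 := by
  unfold ee
  rw [Complex.exp_eq_one_iff]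
  exact ⟨n, by ring⟩

theorem ee_eq_one {r : ℝ} (h : ee (r : ℂ) = 1) : ∃ n : ℤ, r = n := by
  unfold ee at h
  rw [Complex.exp_eq_one_iff] at h
  obtain ⟨n, hn⟩ := h
  refine ⟨n, ?_⟩
  have h2 : (2 * Real.pi * Complex.I : ℂ) ≠ 0 := Complex.two_pi_I_ne_zero
  have h3 : (r : ℂ) = n := by
    have : (2 * Real.pi * Complex.I : ℂ) * r = (2 * Real.pi * Complex.I : ℂ) * n := by
      rw [hn]; ring
    exact mul_left_cancel₀ h2 this
  exact_mod_cast h3

theorem conj_ee (r : ℝ) : (starRingEnd ℂ) (ee (r : ℂ)) = ee (-(r : ℂ)) := by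
  unfold ee
  rw [← Complex.exp_conj]
  congr 1
  simp only [map_mul, Complex.conj_ofReal, Complex.conj_I, map_ofNat]
  ring

theorem bd_add_left (A : Matrix (Fin 20) (Fin 20) ℤ) (μ ν σ : Fin 20 → ℤ) :
    bd A (μ + ν) σ = bd A μ σ + bd A ν σ := by
  unfold bd
  rw [← Finset.sum_add_distrib]
  apply Finset.sum_congr rfl
  intro i _
  simp only [Pi.add_apply, Int.cast_add]; ring

theorem bd_sub_right (A : Matrix (Fin 20) (Fin 20) ℤ) (μ ρ σ : Fin 20 → ℤ) :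
    bd A μ (ρ - σ) = bd A μ ρ - bd A μ σ := by
  unfold bd
  rw [← Finset.sum_sub_distrib]
  apply Finset.sum_congr rfl
  intro i _
  have : (fun j => ((ρ - σ) j : ℝ)) = (fun j => (ρ j : ℝ)) - (fun j => (σ j : ℝ)) := by
    funext j; simp
  rw [this, Matrix.mulVec_sub, Pi.sub_apply]; ring

theorem mulVec_cast (A : Matrix (Fin 20) (Fin 20) ℤ) (v : Fin 20 → ℤ) :
    (fun j => (A.mulVec v j : ℝ)) = (A.map (Int.cast : ℤ → ℝ)).mulVec (fun j => (v j : ℝ)) := by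
  funext j
  simp [Matrix.mulVec, dotProduct]

theorem isUnit_det {A : Matrix (Fin 20) (Fin 20) ℤ} (h : 0 < A.det) :
    IsUnit (A.map (Int.cast : ℤ → ℝ)).det := by
  have e : (A.map (Int.cast : ℤ → ℝ)).det = (A.det : ℝ) := by
    have := (Int.castRingHom ℝ).map_det A
    simpa using this.symm
  rw [e, isUnit_iff_ne_zero]
  exact_mod_cast h.ne'

theorem bd_right (A : Matrix (Fin 20) (Fin 20) ℤ) (h : 0 < A.det) (μ v : Fin 20 → ℤ) :
    bd A μ (A.mulVec v) = ((∑ i, μ i * v i : ℤ) : ℝ) := by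
  unfold bd
  rw [mulVec_cast, Matrix.mulVec_mulVec, Matrix.nonsing_inv_mul _ (isUnit_det h), Matrix.one_mulVec]
  push_cast; rfl

theorem bd_left (A : Matrix (Fin 20) (Fin 20) ℤ) (hA : A.IsSymm) (h : 0 < A.det)
    (v σ : Fin 20 → ℤ) : bd A (A.mulVec v) σ = ((∑ i, v i * σ i : ℤ) : ℝ) := by
  have e1 : bd A (A.mulVec v) σ = (fun j => (A.mulVec v j : ℝ)) ⬝ᵥ
      ((A.map (Int.cast : ℤ → ℝ))⁻¹.mulVec (fun j => (σ j : ℝ))) := rfl
  have hs : (A.map (Int.cast : ℤ → ℝ)).transpose = A.map (Int.cast : ℤ → ℝ) := by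
    rw [← Matrix.transpose_map, hA.eq]
  rw [e1, mulVec_cast, Matrix.dotProduct_mulVec, ← Matrix.mulVec_transpose, Matrix.transpose_nonsing_inv, hs,
    Matrix.mulVec_mulVec, Matrix.nonsing_inv_mul _ (isUnit_det h), Matrix.one_mulVec]
  simp [dotProduct]

theorem job (ha : FFa) : FFb := by
  intro A R hA hR a
  obtain ⟨hdet, -, hcard⟩ := ha A hA
  have hc := hcard R hR
  choose r hr using hR
  have hrm : ∀ μ, r μ ∈ R := fun μ => (hr μ).1.1
  have huniq : ∀ ρ ρ' : Fin 20 → ℤ, ρ ∈ R → ρ' ∈ R → (∃ v : Fin 20 → ℤ, ρ = ρ' + A.mulVec v) →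
      ρ = ρ' := by
    intro ρ ρ' h1 h2 h3
    have e1 := (hr ρ).2 ρ ⟨h1, 0, by simp⟩
    have e2 := (hr ρ).2 ρ' ⟨h2, h3⟩
    rw [e1, e2]
  -- the character sums
  have hS : ∀ σ : Fin 20 → ℤ, (¬ ∃ v : Fin 20 → ℤ, σ = A.mulVec v) →
      ∑ μ ∈ R, ee (-(bd A μ σ : ℂ)) = 0 := by
    intro σ hσ
    obtain ⟨μ0, hμ0⟩ : ∃ μ0 : Fin 20 → ℤ, ee (-(bd A μ0 σ : ℂ)) ≠ 1 := by
      by_contra hcon
      push Not at hcon
      apply hσ
      have h1 : ∀ i : Fin 20, ∃ n : ℤ,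
          ((A.map (Int.cast : ℤ → ℝ))⁻¹.mulVec (fun j => (σ j : ℝ))) i = n := by
        intro i
        have h2 := hcon (Pi.single i 1)
        have h3 : ee ((-(bd A (Pi.single i 1) σ) : ℝ) : ℂ) = 1 := by push_cast; exact h2
        obtain ⟨n, hn⟩ := ee_eq_one h3
        have h4 : bd A (Pi.single i 1) σ =
            ((A.map (Int.cast : ℤ → ℝ))⁻¹.mulVec (fun j => (σ j : ℝ))) i := by
          unfold bd
          rw [Finset.sum_eq_single i]
          · simp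
          · intro j _ hj; simp [Pi.single_eq_of_ne hj]
          · simp
        exact ⟨-n, by rw [← h4]; push_cast; linarith⟩
      choose v hv using h1
      refine ⟨v, ?_⟩
      have h5 : (fun j => (σ j : ℝ)) =
          (A.map (Int.cast : ℤ → ℝ)).mulVec (fun j => (v j : ℝ)) := by
        have h6 : (fun j => (v j : ℝ)) =
            (A.map (Int.cast : ℤ → ℝ))⁻¹.mulVec (fun j => (σ j : ℝ)) := by
          funext j; exact (hv j).symm
        rw [h6, Matrix.mulVec_mulVec, Matrix.mul_nonsing_inv _ (isUnit_det hdet),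
          Matrix.one_mulVec]
      rw [← mulVec_cast] at h5
      funext j
      have := congrFun h5 j
      exact_mod_cast this
    have hinj : Set.InjOn (fun μ => r (μ + μ0)) (R : Set (Fin 20 → ℤ)) := by
      intro μ hμ μ' hμ' h
      simp only at h
      obtain ⟨v, hv⟩ := (hr (μ + μ0)).1.2
      obtain ⟨v', hv'⟩ := (hr (μ' + μ0)).1.2
      rw [h] at hv
      refine huniq μ μ' hμ hμ' ⟨v - v', ?_⟩
      rw [Matrix.mulVec_sub]
      have h1 : μ = r (μ' + μ0) + A.mulVec v - μ0 := by rw [← hv]; abel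
      have h2 : μ' = r (μ' + μ0) + A.mulVec v' - μ0 := by rw [← hv']; abel
      conv_lhs => rw [h1]
      conv_rhs => rw [h2]
      abel
    have hmaps : ∀ μ ∈ R, (fun μ => r (μ + μ0)) μ ∈ R := fun μ _ => hrm _
    have hsurj : Set.SurjOn (fun μ => r (μ + μ0)) (R : Set (Fin 20 → ℤ)) R :=
      Finset.surjOn_of_injOn_of_card_le _ hmaps hinj le_rfl
    have hsum : ∑ μ ∈ R, ee (-(bd A (μ + μ0) σ : ℂ)) = ∑ μ ∈ R, ee (-(bd A μ σ : ℂ)) := by
      refine Finset.sum_nbij (fun μ => r (μ + μ0)) hmaps hinj hsurj ?_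
      intro μ _
      obtain ⟨v, hv⟩ := (hr (μ + μ0)).1.2
      conv_lhs => rw [hv]
      rw [bd_add_left, bd_left A hA.symm hdet]
      have e1 : (-((bd A (r (μ + μ0)) σ + ((∑ i, v i * σ i : ℤ) : ℝ) : ℝ) : ℂ)) =
          -(bd A (r (μ + μ0)) σ : ℂ) + ((-(∑ i, v i * σ i) : ℤ) : ℂ) := by
        push_cast; ring
      rw [e1, ee_add, ee_int, mul_one]
    have hsum2 : ∑ μ ∈ R, ee (-(bd A (μ + μ0) σ : ℂ)) =
        ee (-(bd A μ0 σ : ℂ)) * ∑ μ ∈ R, ee (-(bd A μ σ : ℂ)) := by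
      rw [Finset.mul_sum]
      apply Finset.sum_congr rfl
      intro μ _
      rw [bd_add_left, ← ee_add]
      congr 1
      push_cast; ring
    rw [hsum2] at hsum
    have h7 : (ee (-(bd A μ0 σ : ℂ)) - 1) * ∑ μ ∈ R, ee (-(bd A μ σ : ℂ)) = 0 := by
      rw [sub_mul, hsum, one_mul, sub_self]
    rcases mul_eq_zero.1 h7 with h8 | h8
    · exact absurd (sub_eq_zero.1 h8) hμ0
    · exact h8
  have hS0 : ∑ μ ∈ R, ee (-(bd A μ 0 : ℂ)) = (A.det : ℂ) := by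
    have : ∀ μ ∈ R, ee (-(bd A μ 0 : ℂ)) = 1 := by
      intro μ _
      have h1 : bd A μ 0 = 0 := by
        have := bd_sub_right A μ 0 0
        simpa using this
      rw [h1]; simp [ee]
    rw [Finset.sum_congr rfl this, Finset.sum_const, nsmul_eq_mul, mul_one]
    rw [← hc]; push_cast; rfl
  obtain ⟨N, hN⟩ : ∃ N : ℤ, N = A.det := ⟨_, rfl⟩
  rw [← hN] at hS0 ⊢
  have key : (((∑ μ ∈ R, ‖∑ ρ ∈ R, ee (-(bd A μ ρ : ℂ)) * a ρ‖ ^ 2 : ℝ)) : ℂ) =
      (((N : ℝ) * ∑ ρ ∈ R, ‖a ρ‖ ^ 2 : ℝ) : ℂ) := by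
    have e1 : ∀ μ ∈ R, ((‖∑ ρ ∈ R, ee (-(bd A μ ρ : ℂ)) * a ρ‖ ^ 2 : ℝ) : ℂ) =
        ∑ ρ ∈ R, ∑ ρ' ∈ R, a ρ * (starRingEnd ℂ) (a ρ') * ee (-(bd A μ (ρ - ρ') : ℂ)) := by
      intro μ _
      have h1 : ((‖∑ ρ ∈ R, ee (-(bd A μ ρ : ℂ)) * a ρ‖ ^ 2 : ℝ) : ℂ) =
          (∑ ρ ∈ R, ee (-(bd A μ ρ : ℂ)) * a ρ) *
            (starRingEnd ℂ) (∑ ρ ∈ R, ee (-(bd A μ ρ : ℂ)) * a ρ) := by
        rw [RCLike.mul_conj]; push_cast; rfl
      rw [h1, map_sum, Finset.sum_mul_sum]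
      apply Finset.sum_congr rfl
      intro ρ _
      apply Finset.sum_congr rfl
      intro ρ' _
      have h2 : (starRingEnd ℂ) (ee (-(bd A μ ρ' : ℂ))) = ee ((bd A μ ρ' : ℂ)) := by
        have := conj_ee (-(bd A μ ρ'))
        push_cast at this
        rw [this, neg_neg]
      rw [map_mul, h2, bd_sub_right]
      have h3 : ee (-((bd A μ ρ - bd A μ ρ' : ℝ) : ℂ)) =
          ee (-(bd A μ ρ : ℂ)) * ee ((bd A μ ρ' : ℂ)) := by
        rw [← ee_add]; congr 1; push_cast; ring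
      rw [h3]; ring
    rw [Complex.ofReal_sum, Finset.sum_congr rfl e1, Finset.sum_comm]
    have e2 : ∀ ρ ∈ R, ∑ μ ∈ R, ∑ ρ' ∈ R,
        a ρ * (starRingEnd ℂ) (a ρ') * ee (-(bd A μ (ρ - ρ') : ℂ)) =
        (N : ℂ) * ((‖a ρ‖ ^ 2 : ℝ) : ℂ) := by
      intro ρ hρ
      rw [Finset.sum_comm, Finset.sum_eq_single ρ]
      · rw [← Finset.mul_sum, sub_self, hS0, RCLike.mul_conj, mul_comm]
        congr 1
        push_cast; rfl
      · intro ρ' hρ' hne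
        rw [← Finset.mul_sum, hS, mul_zero]
        rintro ⟨v, hv⟩
        exact hne (huniq ρ ρ' hρ hρ' ⟨v, by rw [← hv]; abel⟩).symm
      · intro h; exact absurd hρ h
    rw [Finset.sum_congr rfl e2, ← Finset.mul_sum]
    push_cast; rfl
  exact_mod_cast key

end Pool.Agent.Helper188_RL.JB2
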