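import Pool.Agent.Helper188_RL.Stm1
set_option autoImplicit false
open MeasureTheory Complex Set Topology Pool.Agent.Y813.RL
namespace Pool.Agent.Helper188_RL.JC1

/-- the infinite product -/
noncomputable def F (q : ℂ) : ℂ := ∏' n : ℕ, (1 - q ^ (n + 1))

theorem eta24 (z : ℂ) : ModularForm.eta z ^ 24 =
    cexp (2 * Real.pi * I * z) * F (cexp (2 * Real.pi * I * z)) ^ 24 := by
  have h1 : Function.Periodic.qParam 24 z ^ 24 = cexp (2 * Real.pi * I * z) := by
    simp only [Function.Periodic.qParam]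
    rw [← Complex.exp_nat_mul]
    congr 1
    push_cast
    ring
  have h2 : ∏' n, (1 - ModularForm.eta_q n z) = F (cexp (2 * Real.pi * I * z)) := by
    unfold F
    refine tprod_congr fun n => ?_
    rw [ModularForm.eta_q_eq_pow]
  have h3 : ModularForm.eta z = Function.Periodic.qParam 24 z * ∏' n, (1 - ModularForm.eta_q n z) := rfl
  rw [h3, mul_pow, h1, h2]

theorem F_zero : F 0 = 1 := by
  unfold F
  simp

theorem norm_q (z : ℂ) : ‖cexp (2 * Real.pi * I * z)‖ = Real.exp (-(2 * Real.pi * z.im)) := by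
  rw [Complex.norm_exp]
  congr 1
  simp

theorem F_ne (q : ℂ) (hq : ‖q‖ < 1) : F q ≠ 0 := by
  by_cases h0 : q = 0
  · rw [h0, F_zero]
    exact one_ne_zero
  · have hpi : (2 * Real.pi * I : ℂ) ≠ 0 := Complex.two_pi_I_ne_zero
    set z : ℂ := Complex.log q / (2 * Real.pi * I) with hz
    have hez : cexp (2 * Real.pi * I * z) = q := by
      rw [hz, mul_div_cancel₀ _ hpi, Complex.exp_log h0]
    have him : 0 < z.im := by
      have h1 := norm_q z
      rw [hez] at h1
      rw [h1] at hq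
      have h2 := Real.exp_lt_one_iff.1 hq
      have := Real.pi_pos
      by_contra h3
      push Not at h3
      nlinarith [mul_nonneg (by positivity : (0 : ℝ) ≤ 2 * Real.pi) (neg_nonneg.2 h3)]
    have h2 := ModularForm.eta_tprod_ne_zero (z := z) him
    have h3 : ∏' n, (1 - ModularForm.eta_q n z) = F q := by
      unfold F
      refine tprod_congr fun n => ?_
      rw [ModularForm.eta_q_eq_pow, hez]
    rwa [h3] at h2

theorem sqrt_pow24 (z : ℂ) (hz : z ≠ 0) : Complex.sqrt z ^ 24 = z ^ 12 := by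
  have h : Complex.sqrt z ^ 2 = z := by
    have h1 : Complex.sqrt z = z ^ (2⁻¹ : ℂ) := rfl
    rw [h1, ← Complex.cpow_nat_mul]
    norm_num
  calc Complex.sqrt z ^ 24 = (Complex.sqrt z ^ 2) ^ 12 := by rw [← pow_mul]
    _ = z ^ 12 := by rw [h]

theorem job : VVa := by
  have hpi := Real.pi_pos
  set r : ℝ := Real.exp (-Real.pi) with hr
  have hr1 : r < 1 := Real.exp_lt_one_iff.2 (by linarith)
  have hcont : ContinuousOn F (Metric.closedBall (0 : ℂ) r) :=
    (ModularForm.differentiableOn_tprod_one_sub_pow.continuousOn).mono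
      (Metric.closedBall_subset_ball hr1)
  have hcomp : IsCompact (Metric.closedBall (0 : ℂ) r) := isCompact_closedBall _ _
  have hne : (Metric.closedBall (0 : ℂ) r).Nonempty :=
    ⟨0, Metric.mem_closedBall_self (Real.exp_pos _).le⟩
  obtain ⟨q1, hq1, hmin⟩ := hcomp.exists_isMinOn hne hcont.norm
  obtain ⟨q2, hq2, hmax⟩ := hcomp.exists_isMaxOn hne hcont.norm
  have hmin' : ∀ q ∈ Metric.closedBall (0 : ℂ) r, ‖F q1‖ ≤ ‖F q‖ := fun q hq => hmin hq
  have hmax' : ∀ q ∈ Metric.closedBall (0 : ℂ) r, ‖F q‖ ≤ ‖F q2‖ := fun q hq => hmax hq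
  have hpos : 0 < ‖F q1‖ := norm_pos_iff.2 (F_ne q1 (by
    have : ‖q1‖ ≤ r := by simpa using hq1
    linarith))
  have hmem : ∀ τ : ℂ, 1 / 2 ≤ τ.im → cexp (2 * Real.pi * I * τ) ∈ Metric.closedBall (0 : ℂ) r := by
    intro τ hτ
    rw [mem_closedBall_zero_iff, norm_q, hr]
    apply Real.exp_le_exp.2
    nlinarith
  refine ⟨fun τ => ModularForm.eta τ ^ 24, ?_, ?_, ?_, ?_, ?_, ?_⟩
  · intro τ hτ
    exact ((ModularForm.differentiableAt_eta_of_mem_upperHalfPlaneSet hτ).pow 24).differentiableWithinAt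
  · intro τ hτ
    exact pow_ne_zero _ (ModularForm.eta_ne_zero hτ)
  · intro τ _
    simp only [eta24]
    have : cexp (2 * Real.pi * I * (τ + 1)) = cexp (2 * Real.pi * I * τ) := by
      rw [mul_add, mul_one, Complex.exp_add, Complex.exp_two_pi_mul_I, mul_one]
    rw [this]
  · intro τ hτ
    have h1 : ModularForm.eta (-1 / τ) = (Complex.sqrt I)⁻¹ * (Complex.sqrt τ * ModularForm.eta τ) :=
      ModularForm.eta_comp_eq_csqrt_I_inv hτ
    show ModularForm.eta (-1 / τ) ^ 24 = τ ^ 12 * ModularForm.eta τ ^ 24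
    have h0 : τ ≠ 0 := by
      rintro rfl
      simp at hτ
    rw [h1, mul_pow, mul_pow, inv_pow, sqrt_pow24 I I_ne_zero, sqrt_pow24 τ h0]
    have : (I : ℂ) ^ 12 = 1 := by
      rw [show 12 = 4 * 3 by norm_num, pow_mul, Complex.I_pow_four, one_pow]
    rw [this, inv_one, one_mul]
  · refine ⟨‖F q1‖ ^ 24, pow_pos hpos _, fun τ hτ => ?_⟩
    simp only [eta24]
    rw [norm_mul, norm_pow, norm_q, mul_comm]
    exact mul_le_mul_of_nonneg_left
      (pow_le_pow_left₀ (norm_nonneg _) (hmin' _ (hmem τ hτ)) 24) (Real.exp_pos _).le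
  · refine ⟨‖F q2‖ ^ 24, fun τ hτ => ?_⟩
    simp only [eta24]
    rw [norm_mul, norm_pow, norm_q, mul_comm]
    exact mul_le_mul_of_nonneg_right
      (pow_le_pow_left₀ (norm_nonneg _) (hmax' _ (hmem τ hτ)) 24) (Real.exp_pos _).le

end Pool.Agent.Helper188_RL.JC1
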