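import Pool.Agent.Helper188_RL.Stm1
set_option autoImplicit false
open MeasureTheory Complex Set Topology Pool.Agent.Y813.RL
namespace Pool.Agent.Helper188_RL.JC2

open UpperHalfPlane ModularGroup in
/-- a function on the half plane which is invariant under the two generators is invariant -/
theorem inv_all (P : ℂ → ℝ) (hT : ∀ τ : ℂ, 0 < τ.im → P (τ + 1) = P τ)
    (hS : ∀ τ : ℂ, 0 < τ.im → P (-1 / τ) = P τ) (g : Matrix.SpecialLinearGroup (Fin 2) ℤ) (z : ℍ) :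
    P ((g • z : ℍ) : ℂ) = P (z : ℂ) := by
  have hg : g ∈ Subgroup.closure {S, T} := by
    rw [SpecialLinearGroup.SL2Z_generators]
    exact Subgroup.mem_top g
  induction hg using Subgroup.closure_induction generalizing z with
  | mem x hx =>
    rcases hx with rfl | hx
    · rw [modular_S_smul]
      show P ((-(z : ℂ))⁻¹) = P z
      rw [← hS z z.im_pos]
      congr 1
      rw [inv_neg, neg_div, one_div]
    · rw [Set.mem_singleton_iff] at hx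
      subst hx
      rw [modular_T_smul, coe_vadd, add_comm]
      rw [← hT z z.im_pos]
      simp
  | one => rw [one_smul]
  | mul x y _ _ hx hy => rw [mul_smul, hx, hy]
  | inv x _ hx =>
    have := hx (x⁻¹ • z)
    rw [smul_inv_smul] at this
    exact this.symm

/-- points of the fundamental domain -/
theorem exists_fd (τ : ℂ) (hτ : 0 < τ.im) : ∃ (g : Matrix.SpecialLinearGroup (Fin 2) ℤ)
    (z : UpperHalfPlane), z = g • (⟨τ, hτ⟩ : UpperHalfPlane) ∧ |(z : ℂ).re| ≤ 1 / 2 ∧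
    1 / 2 ≤ (z : ℂ).im := by
  obtain ⟨g, hg⟩ := ModularGroup.exists_smul_mem_fd (⟨τ, hτ⟩ : UpperHalfPlane)
  refine ⟨g, _, rfl, hg.2, ?_⟩
  have h1 := ModularGroup.three_le_four_mul_im_sq_of_mem_fd hg
  have h2 := (g • (⟨τ, hτ⟩ : UpperHalfPlane)).im_pos
  have h3 : (((g • (⟨τ, hτ⟩ : UpperHalfPlane) : UpperHalfPlane)) : ℂ).im =
    (g • (⟨τ, hτ⟩ : UpperHalfPlane)).im := rfl
  rw [h3]
  nlinarith

theorem job (hD : VVa) : JobVV := by
  obtain ⟨D, hD⟩ := hD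
  intro ι _ w κ Ψ hκ hh hT hS hgr
  obtain ⟨C, hC⟩ := hgr
  obtain ⟨C', hC'⟩ := hD.up
  set N : ℂ → ℝ := fun τ => ∑ i, ‖Ψ τ i‖ ^ 2 with hN
  set P : ℂ → ℝ := fun τ => N τ ^ 12 * ‖D τ‖ ^ (2 * w) with hP
  have hN0 : ∀ τ, 0 ≤ N τ := fun τ => Finset.sum_nonneg fun i _ => sq_nonneg _
  have hP0 : ∀ τ, 0 ≤ P τ := fun τ => mul_nonneg (pow_nonneg (hN0 τ) _) (pow_nonneg (norm_nonneg _) _)
  have hPT : ∀ τ : ℂ, 0 < τ.im → P (τ + 1) = P τ := by
    intro τ hτ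
    show N (τ + 1) ^ 12 * ‖D (τ + 1)‖ ^ (2 * w) = N τ ^ 12 * ‖D τ‖ ^ (2 * w)
    rw [hD.T τ hτ, show N (τ + 1) = N τ from hT τ hτ]
  have hPS : ∀ τ : ℂ, 0 < τ.im → P (-1 / τ) = P τ := by
    intro τ hτ
    have h0 : τ ≠ 0 := fun h => by rw [h] at hτ; simp at hτ
    have h1 : ‖τ‖ ^ (2 * w) * N (-1 / τ) = N τ := hS τ hτ
    show N (-1 / τ) ^ 12 * ‖D (-1 / τ)‖ ^ (2 * w) = N τ ^ 12 * ‖D τ‖ ^ (2 * w)
    rw [hD.S τ hτ, ← h1, norm_mul, norm_pow, mul_pow, mul_pow, ← pow_mul, ← pow_mul]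
    have h2 : 12 * (2 * w) = 2 * w * 12 := by ring
    rw [h2]
    ring
  have hinv := inv_all P hPT hPS
  -- the bound
  set n : ℝ := (Fintype.card ι : ℝ) with hn
  set K : ℝ := (n * C ^ 2) ^ 12 * C' ^ (2 * w) with hK
  set a : ℝ := 4 * Real.pi * (12 * κ + w) with ha
  have ha0 : 0 < a := by
    have h1 : 0 < 12 * κ + w := by
      have : -(w : ℝ) / 12 < κ := hκ
      linarith
    positivity
  have hPb : ∀ τ : ℂ, 1 / 2 ≤ τ.im → P τ ≤ K * Real.exp (-(a * τ.im)) := by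
    intro τ hτ
    have h1 : N τ ≤ n * (C * Real.exp (-(2 * Real.pi * κ * τ.im))) ^ 2 := by
      have h2 : ∀ i ∈ (Finset.univ : Finset ι), ‖Ψ τ i‖ ^ 2 ≤
          (C * Real.exp (-(2 * Real.pi * κ * τ.im))) ^ 2 := fun i _ =>
        pow_le_pow_left₀ (norm_nonneg _) (hC τ hτ i) 2
      refine (Finset.sum_le_sum h2).trans ?_
      rw [Finset.sum_const, Finset.card_univ, nsmul_eq_mul]
    have h3 : N τ ^ 12 ≤ (n * (C * Real.exp (-(2 * Real.pi * κ * τ.im))) ^ 2) ^ 12 :=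
      pow_le_pow_left₀ (hN0 τ) h1 12
    have h4 : ‖D τ‖ ^ (2 * w) ≤ (C' * Real.exp (-(2 * Real.pi * τ.im))) ^ (2 * w) :=
      pow_le_pow_left₀ (norm_nonneg _) (hC' τ hτ) _
    have h5 : P τ ≤ (n * (C * Real.exp (-(2 * Real.pi * κ * τ.im))) ^ 2) ^ 12 *
        (C' * Real.exp (-(2 * Real.pi * τ.im))) ^ (2 * w) :=
      mul_le_mul h3 h4 (pow_nonneg (norm_nonneg _) _) ((pow_nonneg (hN0 τ) 12).trans h3)
    refine h5.trans (le_of_eq ?_)
    have h6 : Real.exp (-(a * τ.im)) = Real.exp (-(2 * Real.pi * κ * τ.im)) ^ 24 *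
        Real.exp (-(2 * Real.pi * τ.im)) ^ (2 * w) := by
      rw [← Real.exp_nat_mul, ← Real.exp_nat_mul, ← Real.exp_add]
      congr 1
      rw [ha]
      push_cast
      ring
    rw [h6, hK, mul_pow C']
    ring
  -- contradiction
  intro τ1 hτ1 i1
  by_contra hne
  have hN1 : 0 < N τ1 := by
    have h1 : ‖Ψ τ1 i1‖ ^ 2 ≤ N τ1 :=
      Finset.single_le_sum (f := fun i => ‖Ψ τ1 i‖ ^ 2) (fun i _ => sq_nonneg _)
        (Finset.mem_univ i1)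
    have h2 : 0 < ‖Ψ τ1 i1‖ ^ 2 := pow_pos (norm_pos_iff.2 hne) 2
    linarith
  have hp1 : 0 < P τ1 := mul_pos (pow_pos hN1 12) (pow_pos (norm_pos_iff.2 (hD.ne τ1 hτ1)) _)
  -- choice of the height
  obtain ⟨Y, hY1, hY2⟩ : ∃ Y : ℝ, 1 / 2 ≤ Y ∧ K * Real.exp (-(a * Y)) < P τ1 := by
    have h1 : Filter.Tendsto (fun Y : ℝ => K * Real.exp (-(a * Y))) Filter.atTop (𝓝 (K * 0)) := by
      refine Filter.Tendsto.const_mul K ?_
      exact Real.tendsto_exp_neg_atTop_nhds_zero.comp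
        (Filter.tendsto_id.const_mul_atTop ha0)
    rw [mul_zero] at h1
    have h2 := (h1.eventually (gt_mem_nhds hp1)).and (Filter.eventually_ge_atTop (1 / 2 : ℝ))
    obtain ⟨Y, hY⟩ := h2.exists
    exact ⟨Y, hY.2, hY.1⟩
  have hK0 : 0 ≤ K := by
    have h1 := (hP0 (⟨0, 1 / 2⟩ : ℂ)).trans (hPb ⟨0, 1 / 2⟩ le_rfl)
    by_contra hneg
    push Not at hneg
    have h2 : K * Real.exp (-(a * (⟨0, 1 / 2⟩ : ℂ).im)) < 0 :=
      mul_neg_of_neg_of_pos hneg (Real.exp_pos _)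
    linarith
  have hhigh : ∀ τ : ℂ, Y ≤ τ.im → P τ < P τ1 := by
    intro τ hτ
    refine lt_of_le_of_lt ((hPb τ (hY1.trans hτ)).trans ?_) hY2
    refine mul_le_mul_of_nonneg_left ?_ hK0
    rw [Real.exp_le_exp]
    have := mul_le_mul_of_nonneg_left hτ ha0.le
    linarith
  -- the maximum
  have hcont : ContinuousOn P {τ | 0 < τ.im} := by
    have h1 : ContinuousOn N {τ | 0 < τ.im} := by
      refine continuousOn_finsetSum _ fun i _ => ?_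
      exact ((continuousOn_pi.1 hh.continuousOn i).norm).pow 2
    exact (h1.pow 12).mul (hD.holo.continuousOn.norm.pow _)
  set Kc : Set ℂ := Set.Icc (-(1 / 2) : ℝ) (1 / 2) ×ℂ Set.Icc (1 / 2 : ℝ) Y with hKc
  have hKcc : IsCompact Kc := isCompact_Icc.reProdIm isCompact_Icc
  have hsub : Kc ⊆ {τ | 0 < τ.im} := by
    intro τ hτ
    rw [hKc, Complex.mem_reProdIm] at hτ
    have := hτ.2.1
    show 0 < τ.im
    linarith
  have hfd : ∀ τ : ℂ, 0 < τ.im → ∃ z : ℂ, P z = P τ ∧ (z ∈ Kc ∨ P z < P τ1) := by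
    intro τ hτ
    obtain ⟨g, z, hz, h1, h2⟩ := exists_fd τ hτ
    refine ⟨z, ?_, ?_⟩
    · rw [hz]
      exact hinv g ⟨τ, hτ⟩
    · by_cases h3 : (z : ℂ).im ≤ Y
      · refine Or.inl ?_
        rw [hKc, Complex.mem_reProdIm]
        exact ⟨abs_le.1 h1, h2, h3⟩
      · exact Or.inr (hhigh z (le_of_lt (not_le.1 h3)))
  obtain ⟨z1, hz1, hz1'⟩ := hfd τ1 hτ1
  have hz1K : z1 ∈ Kc := by
    rcases hz1' with h | h
    · exact h
    · rw [hz1] at h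
      exact absurd h (lt_irrefl _)
  obtain ⟨τ0, hτ0, hmax⟩ := hKcc.exists_isMaxOn ⟨z1, hz1K⟩ (hcont.mono hsub)
  have hτ0' : 0 < τ0.im := hsub hτ0
  have hp0 : P τ1 ≤ P τ0 := by
    rw [← hz1]
    exact hmax hz1K
  have hglob : ∀ τ : ℂ, 0 < τ.im → P τ ≤ P τ0 := by
    intro τ hτ
    obtain ⟨z, h1, h2⟩ := hfd τ hτ
    rw [← h1]
    rcases h2 with h2 | h2
    · exact hmax h2
    · exact h2.le.trans hp0
  have hN0pos : 0 < N τ0 := by
    rcases (hN0 τ0).lt_or_eq with h | h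
    · exact h
    · exfalso
      have h1 : P τ0 = 0 := by
        show N τ0 ^ 12 * _ = 0
        rw [← h]
        simp
      linarith
  -- the scalar function
  set s : ℝ := Real.sqrt (N τ0) with hs
  have hs0 : 0 < s := Real.sqrt_pos.2 hN0pos
  have hss : s ^ 2 = N τ0 := Real.sq_sqrt hN0pos.le
  set l : ℂ → ℂ := fun τ => ∑ i, (starRingEnd ℂ (Ψ τ0 i) / (s : ℂ)) * Ψ τ i with hl
  have hl0 : l τ0 = (s : ℂ) := by
    have h1 : l τ0 = (∑ i, starRingEnd ℂ (Ψ τ0 i) * Ψ τ0 i) / (s : ℂ) := by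
      rw [hl, Finset.sum_div]
      refine Finset.sum_congr rfl fun i _ => ?_
      ring
    have h2 : (∑ i, starRingEnd ℂ (Ψ τ0 i) * Ψ τ0 i) = ((s ^ 2 : ℝ) : ℂ) := by
      rw [hss, hN]
      push_cast
      refine Finset.sum_congr rfl fun i _ => ?_
      rw [Complex.conj_mul']
    rw [h1, h2]
    push_cast
    have h3 : (s : ℂ) ≠ 0 := by exact_mod_cast hs0.ne'
    field_simp
  have hlb : ∀ τ, ‖l τ‖ ^ 2 ≤ N τ := by
    intro τ
    have h1 : ‖l τ‖ ≤ ∑ i, (‖Ψ τ0 i‖ / s) * ‖Ψ τ i‖ := by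
      refine (norm_sum_le _ _).trans (le_of_eq ?_)
      refine Finset.sum_congr rfl fun i _ => ?_
      rw [norm_mul, norm_div, RCLike.norm_conj, Complex.norm_real, Real.norm_eq_abs,
        abs_of_pos hs0]
    have h2 : (∑ i, (‖Ψ τ0 i‖ / s) * ‖Ψ τ i‖) ^ 2 ≤
        (∑ i, (‖Ψ τ0 i‖ / s) ^ 2) * ∑ i, ‖Ψ τ i‖ ^ 2 := Finset.sum_mul_sq_le_sq_mul_sq _ _ _
    have h3 : ∑ i, (‖Ψ τ0 i‖ / s) ^ 2 = 1 := by
      have h4 : ∑ i, (‖Ψ τ0 i‖ / s) ^ 2 = N τ0 / s ^ 2 := by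
        rw [hN, Finset.sum_div]
        refine Finset.sum_congr rfl fun i _ => ?_
        rw [div_pow]
      rw [h4, hss, div_self hN0pos.ne']
    rw [h3, one_mul] at h2
    exact (pow_le_pow_left₀ (norm_nonneg _) h1 2).trans h2
  set Hf : ℂ → ℂ := fun τ => l τ ^ 12 * D τ ^ w with hHf
  have hHb : ∀ τ, ‖Hf τ‖ ^ 2 ≤ P τ := by
    intro τ
    have h1 : ‖Hf τ‖ ^ 2 = (‖l τ‖ ^ 2) ^ 12 * ‖D τ‖ ^ (2 * w) := by
      rw [hHf]
      simp only [norm_mul, norm_pow]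
      rw [mul_pow, ← pow_mul, ← pow_mul, ← pow_mul, Nat.mul_comm w 2, Nat.mul_comm 12 2]
    rw [h1]
    exact mul_le_mul_of_nonneg_right (pow_le_pow_left₀ (sq_nonneg _) (hlb τ) 12)
      (pow_nonneg (norm_nonneg _) _)
  have hH0 : ‖Hf τ0‖ ^ 2 = P τ0 := by
    rw [hHf]
    simp only [norm_mul, norm_pow]
    rw [hl0, Complex.norm_real, Real.norm_eq_abs, abs_of_pos hs0, hP]
    simp only
    rw [← hss, mul_pow, ← pow_mul, ← pow_mul, ← pow_mul, Nat.mul_comm w 2, Nat.mul_comm 12 2]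
  have hopen : IsOpen {τ : ℂ | 0 < τ.im} := isOpen_lt continuous_const Complex.continuous_im
  have hconn : IsPreconnected {τ : ℂ | 0 < τ.im} := (convex_halfSpace_im_gt 0).isPreconnected
  have hdiff : DifferentiableOn ℂ Hf {τ | 0 < τ.im} := by
    have h1 : DifferentiableOn ℂ l {τ | 0 < τ.im} := by
      refine DifferentiableOn.fun_sum fun i _ => ?_
      exact (differentiableOn_pi.1 hh i).const_mul _
    exact (h1.pow 12).mul (hD.holo.pow w)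
  have hmaxH : IsMaxOn (norm ∘ Hf) {τ | 0 < τ.im} τ0 := by
    intro τ hτ
    show ‖Hf τ‖ ≤ ‖Hf τ0‖
    have h1 : ‖Hf τ‖ ^ 2 ≤ ‖Hf τ0‖ ^ 2 := by
      rw [hH0]
      exact (hHb τ).trans (hglob τ hτ)
    exact (abs_le_of_sq_le_sq' h1 (norm_nonneg _)).2
  have heq := Complex.eqOn_of_isPreconnected_of_isMaxOn_norm hconn hopen hdiff hτ0' hmaxH
  have hY0 : (0 : ℝ) < Y := by linarith
  have h1 : Hf (⟨0, Y⟩ : ℂ) = Hf τ0 := heq (show (⟨0, Y⟩ : ℂ) ∈ {τ : ℂ | 0 < τ.im} from hY0)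
  have h2 := hHb (⟨0, Y⟩ : ℂ)
  rw [h1, hH0] at h2
  have h3 := hhigh (⟨0, Y⟩ : ℂ) le_rfl
  linarith

end Pool.Agent.Helper188_RL.JC2
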