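import Pool.Agent.Helper188_RL.Stm1
set_option autoImplicit false
open MeasureTheory Complex Set Topology Pool.Agent.Y813.RL
open scoped ModularForm MatrixGroups
namespace Pool.Agent.Helper188_RL.JC3

open scoped ArithmeticFunction.sigma

lemma asyAux (k : ℕ) : ∃ C : ℝ, ∀ z : UpperHalfPlane, 1 / 2 ≤ z.im →
    ‖∑' n : ℕ+, (ArithmeticFunction.sigma k n : ℂ) *
      cexp (2 * Real.pi * Complex.I * (z : ℂ)) ^ (n : ℕ)‖ ≤
      C * Real.exp (-(2 * Real.pi * z.im)) := by
  set r : ℝ := Real.exp (-Real.pi) with hr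
  have hr0 : 0 < r := Real.exp_pos _
  have hr1 : r < 1 := by
    rw [hr, Real.exp_lt_one_iff]; linarith [Real.pi_pos]
  have hsum : Summable fun n : ℕ => ((n : ℝ) + 1) ^ (k + 1) * r ^ n := by
    have h1 : Summable fun n : ℕ => ((n : ℝ)) ^ (k + 1) * r ^ n :=
      summable_pow_mul_geometric_of_norm_lt_one (k + 1) (by
        rw [Real.norm_of_nonneg hr0.le]; exact hr1)
    have h2 := (summable_nat_add_iff 1).mpr h1
    have h3 := h2.mul_left r⁻¹
    refine h3.congr (fun n => ?_)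
    push_cast
    rw [pow_succ r n]
    field_simp
  refine ⟨∑' n : ℕ, ((n : ℝ) + 1) ^ (k + 1) * r ^ n, fun z hz => ?_⟩
  have hq : ‖cexp (2 * Real.pi * Complex.I * (z : ℂ))‖ = Real.exp (-(2 * Real.pi * z.im)) := by
    rw [Complex.norm_exp]
    congr 1
    have : (2 * Real.pi * Complex.I * (z : ℂ)).re = -(2 * Real.pi * (z : ℂ).im) := by
      simp [Complex.mul_re]
    rw [this]
    rfl
  have hqr : Real.exp (-(2 * Real.pi * z.im)) ≤ r := by
    rw [hr]
    apply Real.exp_le_exp.mpr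
    nlinarith [Real.pi_pos]
  rw [tsum_pnat_eq_tsum_succ (f := fun n : ℕ => (ArithmeticFunction.sigma k n : ℂ) *
      cexp (2 * Real.pi * Complex.I * (z : ℂ)) ^ (n : ℕ))]
  refine tsum_of_norm_bounded (hsum.hasSum.mul_right _) (fun n => ?_)
  rw [norm_mul, norm_pow, hq, pow_succ]
  have h1 : ‖((ArithmeticFunction.sigma k (n + 1) : ℕ) : ℂ)‖ ≤ ((n : ℝ) + 1) ^ (k + 1) := by
    rw [Complex.norm_natCast]
    exact_mod_cast ArithmeticFunction.sigma_le_pow_succ k (n + 1)
  have h2 : Real.exp (-(2 * Real.pi * z.im)) ^ n ≤ r ^ n :=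
    pow_le_pow_left₀ (Real.exp_pos _).le hqr n
  rw [← mul_assoc]
  refine mul_le_mul_of_nonneg_right ?_ (Real.exp_pos _).le
  exact mul_le_mul h1 h2 (by positivity) (by positivity)

lemma negInvIm {τ : ℂ} (h : 0 < τ.im) : 0 < (-1 / τ).im := by
  rw [neg_div, Complex.neg_im, one_div, Complex.inv_im]
  have : 0 < Complex.normSq τ := Complex.normSq_pos.mpr (by rintro rfl; simp at h)
  rw [neg_div, neg_neg]
  positivity

lemma e2part : ∃ e : ℂ → ℂ, IsE2 e := by
  refine ⟨fun τ => EisensteinSeries.E2 (UpperHalfPlane.ofComplex τ), ?_, ?_, ?_, ?_⟩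
  · exact UpperHalfPlane.mdifferentiable_iff.mp E2_mdifferentiable
  · intro τ hτ
    have hτ1 : 0 < (τ + 1).im := by simpa using hτ
    rw [UpperHalfPlane.ofComplex_apply_of_im_pos hτ, UpperHalfPlane.ofComplex_apply_of_im_pos hτ1]
    rw [EisensteinSeries.E2_eq_tsum_cexp, EisensteinSeries.E2_eq_tsum_cexp]
    congr 2
    refine tsum_congr (fun n => ?_)
    congr 2
    change cexp (2 * Real.pi * Complex.I * (τ + 1)) = cexp (2 * Real.pi * Complex.I * τ)
    rw [mul_add, Complex.exp_add]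
    simp
  · intro τ hτ
    have hτ1 : 0 < (-1 / τ).im := negInvIm hτ
    have hne : τ ≠ 0 := by rintro rfl; simp at hτ
    rw [UpperHalfPlane.ofComplex_apply_of_im_pos hτ, UpperHalfPlane.ofComplex_apply_of_im_pos hτ1]
    have h := EisensteinSeries.G2_S_transform ⟨τ, hτ⟩
    have hS : (ModularGroup.S • (⟨τ, hτ⟩ : UpperHalfPlane)) = ⟨-1 / τ, hτ1⟩ := by
      rw [UpperHalfPlane.modular_S_smul]
      ext
      simp [neg_div, inv_neg]
    rw [hS] at h
    change EisensteinSeries.G2 _ = (τ ^ 2)⁻¹ * EisensteinSeries.G2 _ - -2 * Real.pi * Complex.I / τ at h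
    simp only [EisensteinSeries.E2, Pi.smul_apply, smul_eq_mul, riemannZeta_two]
    rw [h]
    have hpi : (Real.pi : ℂ) ≠ 0 := by exact_mod_cast Real.pi_ne_zero
    have hI := Complex.I_ne_zero
    have hI2 := Complex.I_sq
    field_simp
    ring_nf
    rw [hI2]
    ring
  · obtain ⟨C, hC⟩ := asyAux 1
    refine ⟨24 * C, fun τ hτ => ?_⟩
    have hτ0 : 0 < τ.im := by linarith
    rw [UpperHalfPlane.ofComplex_apply_of_im_pos hτ0, EisensteinSeries.E2_eq_tsum_cexp]
    have h := hC ⟨τ, hτ0⟩ hτ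
    rw [sub_sub_cancel_left, norm_neg, norm_mul, mul_assoc 24]
    refine mul_le_mul (by simp) h (norm_nonneg _) (by norm_num)

lemma e4part : ∃ e : ℂ → ℂ, IsE4 e := by
  have h34 : 3 ≤ 4 := by norm_num
  refine ⟨fun τ => (ModularForm.E (k := 4) h34) (UpperHalfPlane.ofComplex τ), ?_, ?_, ?_, ?_⟩
  · exact UpperHalfPlane.mdifferentiable_iff.mp (ModularForm.E (k := 4) h34).holo'
  · intro τ hτ
    have hτ1 : 0 < (τ + 1).im := by simpa using hτ
    rw [UpperHalfPlane.ofComplex_apply_of_im_pos hτ, UpperHalfPlane.ofComplex_apply_of_im_pos hτ1]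
    rw [EisensteinSeries.q_expansion_bernoulli h34 (by decide),
      EisensteinSeries.q_expansion_bernoulli h34 (by decide)]
    congr 2
    refine tsum_congr (fun n => ?_)
    congr 2
    change cexp (2 * Real.pi * Complex.I * (τ + 1)) = cexp (2 * Real.pi * Complex.I * τ)
    rw [mul_add, Complex.exp_add]
    simp
  · intro τ hτ
    have hτ1 : 0 < (-1 / τ).im := negInvIm hτ
    have hne : τ ≠ 0 := by rintro rfl; simp at hτ
    rw [UpperHalfPlane.ofComplex_apply_of_im_pos hτ, UpperHalfPlane.ofComplex_apply_of_im_pos hτ1]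
    have hmem : (Matrix.SpecialLinearGroup.mapGL ℝ ModularGroup.S : GL (Fin 2) ℝ) ∈
        (Matrix.SpecialLinearGroup.mapGL ℝ (R := ℤ) (n := Fin 2)).range := ⟨_, rfl⟩
    have h0 := SlashInvariantFormClass.slash_action_eq (ModularForm.E (k := 4) h34) _ hmem
    have h := SlashInvariantForm.slash_S_apply (ModularForm.E (k := 4) h34) 4 ⟨τ, hτ⟩
    have h1 : ((ModularForm.E (k := 4) h34 : UpperHalfPlane → ℂ) ∣[(4 : ℤ)] ModularGroup.S) =
        (ModularForm.E (k := 4) h34 : UpperHalfPlane → ℂ) := h0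
    rw [h1] at h
    rw [h]
    have hS : (⟨-1 / τ, hτ1⟩ : UpperHalfPlane) =
        .mk _ (UpperHalfPlane.im_inv_neg_coe_pos ⟨τ, hτ⟩) := by
      ext
      simp [neg_div, inv_neg]
    rw [hS]
    change _ = τ ^ 4 * (_ * τ ^ (-4 : ℤ))
    rw [show (-4 : ℤ) = -((4 : ℕ) : ℤ) by norm_num, zpow_neg, zpow_natCast]
    field_simp
  · obtain ⟨C, hC⟩ := asyAux 3
    refine ⟨240 * C, fun τ hτ => ?_⟩
    have hτ0 : 0 < τ.im := by linarith
    rw [UpperHalfPlane.ofComplex_apply_of_im_pos hτ0,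
      EisensteinSeries.q_expansion_bernoulli h34 (by decide)]
    have h := hC ⟨τ, hτ0⟩ hτ
    rw [sub_sub_cancel_left, norm_neg, norm_mul, mul_assoc 240]
    refine mul_le_mul (le_of_eq ?_) ?_ (norm_nonneg _) (by norm_num)
    · rw [show bernoulli 4 = -1 / 30 by decide +kernel]
      norm_num
    · simpa using h

theorem job : EIS := ⟨e2part, e4part⟩

end Pool.Agent.Helper188_RL.JC3
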