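import Pool.Agent.Helper188_RL.Stm1
set_option autoImplicit false
open MeasureTheory Complex Set Topology Pool.Agent.Y813.RL
namespace Pool.Agent.Helper188_RL.JD1

theorem isOpen_up : IsOpen {τ : ℂ | 0 < τ.im} := isOpen_lt continuous_const Complex.continuous_im

theorem inv_up {τ : ℂ} (h : 0 < τ.im) : 0 < (-1 / τ).im := by
  have hτ : τ ≠ 0 := by
    rintro rfl
    simp at h
  have h2 : 0 < Complex.normSq τ := Complex.normSq_pos.2 hτ
  have h3 : (-1 / τ).im = τ.im / Complex.normSq τ := by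
    rw [neg_div, one_div, Complex.neg_im, Complex.inv_im]
    ring
  rw [h3]
  exact div_pos h h2

theorem sd_holo (e2 : ℂ → ℂ) (k : ℕ) (g : ℂ → ℂ) (he : DifferentiableOn ℂ e2 {τ | 0 < τ.im})
    (hg : DifferentiableOn ℂ g {τ | 0 < τ.im}) :
    DifferentiableOn ℂ (sd e2 k g) {τ | 0 < τ.im} := by
  unfold sd
  exact ((hg.deriv isOpen_up).div_const _).add ((he.const_mul _).mul hg)

theorem job : OD1 := by
  intro ι _ e2 k M f he2 hk hf hS
  have hd : ∀ i (τ : ℂ), 0 < τ.im → HasDerivAt (f i) (deriv (f i) τ) τ := fun i τ hτ =>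
    ((hf i).differentiableAt (isOpen_up.mem_nhds hτ)).hasDerivAt
  refine ⟨fun i => sd_holo e2 k (f i) he2.holo (hf i), ?_, ?_⟩
  · intro i τ hτ
    have hτ0 : τ ≠ 0 := by
      rintro rfl
      simp at hτ
    obtain ⟨m, rfl⟩ : ∃ m, k = m + 2 := ⟨k - 2, by omega⟩
    have hinv : HasDerivAt (fun z : ℂ => -1 / z) (1 / τ ^ 2) τ := by
      have h := (hasDerivAt_inv hτ0).neg
      have e1 : (fun z : ℂ => -1 / z) = fun z => -(z⁻¹) := by
        funext z
        rw [neg_div, one_div]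
      rw [e1]
      refine h.congr_deriv ?_
      field_simp
    have hsum : HasDerivAt (fun z : ℂ => ∑ j, M i j * f j (-1 / z))
        (∑ j, M i j * (deriv (f j) (-1 / τ) * (1 / τ ^ 2))) τ := by
      have hj : ∀ j, HasDerivAt (fun z : ℂ => M i j * f j (-1 / z))
          (M i j * (deriv (f j) (-1 / τ) * (1 / τ ^ 2))) τ := fun j =>
        (HasDerivAt.comp τ (hd j (-1 / τ) (inv_up hτ)) hinv).const_mul (M i j)
      exact HasDerivAt.fun_sum fun j _ => hj j
    have hpow : HasDerivAt (fun z : ℂ => z ^ (m + 2)) (((m + 2 : ℕ) : ℂ) * τ ^ (m + 1)) τ := by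
      simpa using hasDerivAt_pow (m + 2) τ
    have hprod := hpow.mul hsum
    have hev : f i =ᶠ[𝓝 τ] (fun z : ℂ => z ^ (m + 2) * ∑ j, M i j * f j (-1 / z)) := by
      filter_upwards [isOpen_up.mem_nhds hτ] with z hz
      exact hS i z hz
    have hder : deriv (f i) τ = ((m + 2 : ℕ) : ℂ) * τ ^ (m + 1) * ∑ j, M i j * f j (-1 / τ) +
        τ ^ (m + 2) * ∑ j, M i j * (deriv (f j) (-1 / τ) * (1 / τ ^ 2)) := by
      rw [hev.deriv_eq]
      exact hprod.deriv
    have e3 : τ ^ (m + 2) * ∑ j, M i j * (deriv (f j) (-1 / τ) * (1 / τ ^ 2)) =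
        τ ^ m * ∑ j, M i j * deriv (f j) (-1 / τ) := by
      rw [Finset.mul_sum, Finset.mul_sum]
      refine Finset.sum_congr rfl fun j _ => ?_
      field_simp
      ring
    have e4 : ∑ j, M i j * sd e2 (m + 2) (f j) (-1 / τ) =
        (∑ j, M i j * deriv (f j) (-1 / τ)) / (2 * Real.pi * Complex.I) +
          ((m + 2 : ℕ) : ℂ) / 12 * e2 (-1 / τ) * ∑ j, M i j * f j (-1 / τ) := by
      rw [Finset.sum_div, Finset.mul_sum, ← Finset.sum_add_distrib]
      refine Finset.sum_congr rfl fun j _ => ?_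
      unfold sd
      ring
    have hpi : (Real.pi : ℂ) ≠ 0 := by exact_mod_cast Real.pi_ne_zero
    rw [Nat.add_sub_cancel, e4, he2.S τ hτ]
    have e5 : sd e2 (m + 2) (f i) τ = deriv (f i) τ / (2 * Real.pi * Complex.I) +
        ((m + 2 : ℕ) : ℂ) / 12 * e2 τ * (τ ^ (m + 2) * ∑ j, M i j * f j (-1 / τ)) := by
      unfold sd
      rw [← hS i τ hτ]
    rw [e5, hder, e3]
    generalize (∑ j, M i j * deriv (f j) (-1 / τ)) = A
    generalize (∑ j, M i j * f j (-1 / τ)) = B
    generalize e2 τ = E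
    generalize ((m + 2 : ℕ) : ℂ) = c
    have hI : Complex.I ≠ 0 := Complex.I_ne_zero
    field_simp
    ring
  · intro i θ hT τ hτ
    have hτ1 : 0 < (τ + 1).im := by simpa using hτ
    have hev : (fun z : ℂ => f i (z + 1)) =ᶠ[𝓝 τ] fun z : ℂ => θ * f i z := by
      filter_upwards [isOpen_up.mem_nhds hτ] with z hz
      exact hT z hz
    have h1 : deriv (fun z : ℂ => f i (z + 1)) τ = deriv (f i) (τ + 1) :=
      deriv_comp_add_const (f i) 1 τ
    have h2 : deriv (fun z : ℂ => θ * f i z) τ = θ * deriv (f i) τ :=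
      ((hd i τ hτ).const_mul θ).deriv
    have h3 : deriv (f i) (τ + 1) = θ * deriv (f i) τ := by
      rw [← h1, hev.deriv_eq, h2]
    unfold sd
    rw [h3, he2.T τ hτ, hT τ hτ]
    ring

end Pool.Agent.Helper188_RL.JD1
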