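import Pool.Agent.Helper188_RL.Stm1
import Pool.Agent.Y813.RL.Per
set_option autoImplicit false
open MeasureTheory Complex Set Topology Pool.Agent.Y813.RL
namespace Pool.Agent.Helper188_RL.JD2

open Pool.Agent.Y683.RL (HP fco)

theorem uh_open : IsOpen {τ : ℂ | 0 < τ.im} := isOpen_lt continuous_const Complex.continuous_im

/-- bounded periodic functions -/
structure BP (P : ℂ → ℂ) : Prop where
  holo : DifferentiableOn ℂ P {τ | 0 < τ.im}
  per : ∀ τ : ℂ, 0 < τ.im → P (τ + 1) = P τ
  bd : ∃ C : ℝ, ∀ τ : ℂ, 1 / 2 ≤ τ.im → ‖P τ‖ ≤ C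

theorem BP.const (a : ℂ) : BP (fun _ => a) :=
  ⟨differentiableOn_const a, fun _ _ => rfl, ‖a‖, fun _ _ => le_rfl⟩

theorem BP.add {P Q : ℂ → ℂ} (hP : BP P) (hQ : BP Q) : BP (fun τ => P τ + Q τ) := by
  obtain ⟨C, hC⟩ := hP.bd
  obtain ⟨C', hC'⟩ := hQ.bd
  refine ⟨hP.holo.add hQ.holo, fun τ hτ => ?_, C + C', fun τ hτ => ?_⟩
  · simp only [hP.per τ hτ, hQ.per τ hτ]
  · exact (norm_add_le _ _).trans (add_le_add (hC τ hτ) (hC' τ hτ))

theorem BP.mul {P Q : ℂ → ℂ} (hP : BP P) (hQ : BP Q) : BP (fun τ => P τ * Q τ) := by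
  obtain ⟨C, hC⟩ := hP.bd
  obtain ⟨C', hC'⟩ := hQ.bd
  refine ⟨hP.holo.mul hQ.holo, fun τ hτ => ?_, |C| * |C'|, fun τ hτ => ?_⟩
  · simp only [hP.per τ hτ, hQ.per τ hτ]
  · rw [norm_mul]
    exact mul_le_mul ((hC τ hτ).trans (le_abs_self _)) ((hC' τ hτ).trans (le_abs_self _))
      (norm_nonneg _) (abs_nonneg _)

theorem ee_diff : Differentiable ℂ ee := by
  unfold ee
  fun_prop

theorem BP.q : BP ee := by
  refine ⟨ee_diff.differentiableOn, fun τ _ => ?_, 1, fun τ hτ => ?_⟩
  · have h1 : ee 1 = 1 := by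
      have := ee_int 1
      simpa using this
    rw [ee_add, h1, mul_one]
  · rw [norm_ee, Real.exp_le_one_iff]
    have := Real.pi_pos
    nlinarith

theorem BP.per_int {P : ℂ → ℂ} (hP : BP P) {τ : ℂ} (hτ : 0 < τ.im) (n : ℤ) :
    P (τ + n) = P τ := by
  have hnat : ∀ (n : ℕ) (τ : ℂ), 0 < τ.im → P (τ + n) = P τ := by
    intro n
    induction n with
    | zero => intro τ _; simp
    | succ n ih =>
      intro τ hτ
      have h1 : τ + ((n + 1 : ℕ) : ℂ) = (τ + n) + 1 := by push_cast; ring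
      rw [h1, hP.per _ (by simpa using hτ), ih τ hτ]
  obtain ⟨m, rfl | rfl⟩ := Int.eq_nat_or_neg n
  · simpa using hnat m τ hτ
  · have h := hnat m (τ + ((-(m : ℤ) : ℤ) : ℂ)) (by simpa using hτ)
    rw [← h]
    congr 1
    push_cast
    ring

theorem BP.bd4 {P : ℂ → ℂ} (hP : BP P) : ∃ C : ℝ, ∀ τ : ℂ, 1 / 4 ≤ τ.im → ‖P τ‖ ≤ C := by
  obtain ⟨C, hC⟩ := hP.bd
  have hK : IsCompact ((Icc (0 : ℝ) 1) ×ℂ (Icc (1 / 4 : ℝ) (1 / 2))) :=
    isCompact_Icc.reProdIm isCompact_Icc
  have hc : ContinuousOn P ((Icc (0 : ℝ) 1) ×ℂ (Icc (1 / 4 : ℝ) (1 / 2))) := by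
    refine hP.holo.continuousOn.mono fun z hz => ?_
    have := (Complex.mem_reProdIm.1 hz).2.1
    show 0 < z.im
    linarith
  obtain ⟨C', hC'⟩ := hK.exists_bound_of_continuousOn hc
  refine ⟨max C C', fun τ hτ => ?_⟩
  by_cases h : 1 / 2 ≤ τ.im
  · exact (hC τ h).trans (le_max_left _ _)
  · push Not at h
    have h1 := hP.per_int (τ := τ) (by linarith) (-⌊τ.re⌋)
    rw [← h1]
    refine (hC' _ ?_).trans (le_max_right _ _)
    rw [Complex.mem_reProdIm]
    have e1 : (τ + ((-⌊τ.re⌋ : ℤ) : ℂ)).re = τ.re - ⌊τ.re⌋ := by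
      rw [Complex.add_re, Complex.intCast_re]
      push_cast
      ring
    have e2 : (τ + ((-⌊τ.re⌋ : ℤ) : ℂ)).im = τ.im := by
      rw [Complex.add_im, Complex.intCast_im, add_zero]
    rw [e1, e2]
    exact ⟨⟨by linarith [Int.floor_le τ.re], by linarith [Int.lt_floor_add_one τ.re]⟩,
      ⟨hτ, h.le⟩⟩

theorem BP.deriv {P : ℂ → ℂ} (hP : BP P) : BP (deriv P) := by
  refine ⟨hP.holo.deriv uh_open, fun τ hτ => ?_, ?_⟩
  · have h1 : (fun z => P (z + 1)) =ᶠ[𝓝 τ] P := by
      filter_upwards [uh_open.mem_nhds hτ] with z hz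
      exact hP.per z hz
    rw [← h1.deriv_eq, deriv_comp_add_const]
  · obtain ⟨C, hC⟩ := hP.bd4
    refine ⟨C / (1 / 4), fun τ hτ => ?_⟩
    have him : ∀ z ∈ Metric.closedBall τ (1 / 4), 1 / 4 ≤ z.im := by
      intro z hz
      have h1 : ‖z - τ‖ ≤ 1 / 4 := by simpa [dist_eq_norm] using hz
      have h2 := (Complex.abs_im_le_norm (z - τ)).trans h1
      rw [Complex.sub_im, abs_le] at h2
      linarith [h2.1]
    refine Complex.norm_deriv_le_of_forall_mem_sphere_norm_le (by norm_num) ?_ ?_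
    · apply DifferentiableOn.diffContOnCl
      refine hP.holo.mono fun z hz => ?_
      have h1 := him z (Metric.closure_ball_subset_closedBall hz)
      show 0 < z.im
      linarith
    · intro z hz
      exact hC z (him z (Metric.sphere_subset_closedBall hz))

theorem hasDeriv_ee (x τ : ℂ) :
    HasDerivAt (fun z => ee (x * z)) (2 * Real.pi * Complex.I * x * ee (x * τ)) τ := by
  have h := ((hasDerivAt_id τ).const_mul (2 * Real.pi * Complex.I * x)).cexp
  have hf : (fun z => ee (x * z)) = fun z => cexp (2 * Real.pi * Complex.I * x * id z) := by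
    funext z
    unfold ee
    simp only [id]
    congr 1
    ring
  rw [hf]
  refine h.congr_deriv ?_
  unfold ee
  simp only [id]
  have e : 2 * (Real.pi : ℂ) * Complex.I * x * τ = 2 * Real.pi * Complex.I * (x * τ) := by ring
  rw [e]
  ring

theorem E2_BP {e : ℂ → ℂ} (holo : DifferentiableOn ℂ e {τ | 0 < τ.im})
    (T : ∀ τ : ℂ, 0 < τ.im → e (τ + 1) = e τ)
    (asy : ∃ C : ℝ, ∀ τ : ℂ, 1 / 2 ≤ τ.im → ‖e τ - 1‖ ≤ C * Real.exp (-(2 * Real.pi * τ.im))) :
    ∃ E : ℂ → ℂ, BP E ∧ ∀ τ, e τ = 1 + ee τ * E τ := by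
  refine ⟨fun τ => (e τ - 1) * ee (-τ), ⟨?_, ?_, ?_⟩, fun τ => ?_⟩
  · exact (holo.sub_const 1).mul (ee_diff.comp differentiable_neg).differentiableOn
  · intro τ hτ
    simp only [T τ hτ]
    congr 1
    rw [neg_add, ee_add]
    have h1 : ee (-1) = 1 := by
      have := ee_int (-1)
      simpa using this
    rw [h1, mul_one]
  · obtain ⟨C, hC⟩ := asy
    refine ⟨C, fun τ hτ => ?_⟩
    rw [norm_mul, norm_ee, Complex.neg_im]
    have h := mul_le_mul_of_nonneg_right (hC τ hτ) (Real.exp_pos (-(2 * Real.pi * -τ.im))).le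
    refine h.trans (le_of_eq ?_)
    rw [mul_assoc, ← Real.exp_add]
    have : -(2 * Real.pi * τ.im) + -(2 * Real.pi * -τ.im) = 0 := by ring
    rw [this, Real.exp_zero, mul_one]
  · have h := ee_ne_zero τ
    beta_reduce
    rw [ee_neg]
    field_simp
    ring

/-- one step -/
theorem step {e2 E g P : ℂ → ℂ} (hE : BP E) (he : ∀ τ, e2 τ = 1 + ee τ * E τ) (hP : BP P)
    (k : ℕ) (a x : ℂ)
    (hg : ∀ τ : ℂ, 0 < τ.im → g τ = a * ee (x * τ) + ee ((x + 1) * τ) * P τ) :
    ∃ P' : ℂ → ℂ, BP P' ∧ ∀ τ : ℂ, 0 < τ.im →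
      sd e2 k g τ = (x + k / 12) * a * ee (x * τ) + ee ((x + 1) * τ) * P' τ := by
  refine ⟨fun τ => (x + 1 + k / 12) * P τ + ((2 * Real.pi * Complex.I)⁻¹ * _root_.deriv P τ +
    ((k / 12 * a) * E τ + (k / 12) * (ee τ * (E τ * P τ)))), ?_, fun τ hτ => ?_⟩
  · exact ((BP.const _).mul hP).add (((BP.const _).mul hP.deriv).add
      (((BP.const _).mul hE).add ((BP.const _).mul (BP.q.mul (hE.mul hP)))))
  · have h1 : g =ᶠ[𝓝 τ] fun τ => a * ee (x * τ) + ee ((x + 1) * τ) * P τ := by
      filter_upwards [uh_open.mem_nhds hτ] with z hz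
      exact hg z hz
    have hPd : HasDerivAt P (_root_.deriv P τ) τ :=
      ((hP.holo τ hτ).differentiableAt (uh_open.mem_nhds hτ)).hasDerivAt
    have h2 : HasDerivAt (fun τ => a * ee (x * τ) + ee ((x + 1) * τ) * P τ)
        (a * (2 * Real.pi * Complex.I * x * ee (x * τ)) +
          ((2 * Real.pi * Complex.I * (x + 1) * ee ((x + 1) * τ)) * P τ +
            ee ((x + 1) * τ) * _root_.deriv P τ)) τ :=
      ((hasDeriv_ee x τ).const_mul a).add ((hasDeriv_ee (x + 1) τ).mul hPd)
    have hpi : (2 * (Real.pi : ℂ) * Complex.I) ≠ 0 := by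
      have : (Real.pi : ℂ) ≠ 0 := by exact_mod_cast Real.pi_ne_zero
      simp [this]
    unfold sd
    rw [h1.deriv_eq, h2.deriv, hg τ hτ, he τ]
    have h3 : ee ((x + 1) * τ) = ee (x * τ) * ee τ := by
      rw [← ee_add]
      congr 1
      ring
    rw [h3]
    field_simp
    ring

theorem job : OD2 := by
  intro e2 e4 g θ κ C h2 h4 hg hper hgr
  obtain ⟨E, hE, hE2⟩ := E2_BP h2.holo h2.T h2.asy
  obtain ⟨F, hF, hF4⟩ := E2_BP h4.holo h4.T h4.asy
  set g1 : ℂ → ℂ := fun τ => ee (θ * τ) * g τ with hg1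
  have hHP : HP 0 g1 := by
    refine ⟨?_, fun t ht => ?_⟩
    · refine DifferentiableOn.mul ?_ hg
      exact (ee_diff.comp (differentiable_id.const_mul _)).differentiableOn
    · simp only [hg1]
      rw [hper t ht, mul_add, ee_add, mul_one, ee_neg]
      have := ee_ne_zero (θ : ℂ)
      field_simp
  have hgg : ∀ τ : ℂ, g τ = ee (-(θ * τ)) * g1 τ := by
    intro τ
    simp only [hg1]
    rw [ee_neg]
    have := ee_ne_zero ((θ : ℂ) * τ)
    field_simp
  have hM : ∀ t : ℂ, 1 ≤ t.im → ‖g1 t‖ ≤ C * Real.exp ((-(2 * Real.pi * (θ + κ))) * t.im) := by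
    intro t ht
    simp only [hg1]
    rw [norm_mul, norm_ee]
    have e1 : ((θ : ℂ) * t).im = θ * t.im := by
      rw [Complex.mul_im]; simp
    rw [e1]
    have h := mul_le_mul_of_nonneg_left (hgr t (by linarith))
      (Real.exp_pos (-(2 * Real.pi * (θ * t.im)))).le
    refine h.trans (le_of_eq ?_)
    rw [mul_left_comm, ← Real.exp_add]
    congr 2
    ring
  by_cases hall : ∀ n : ℤ, fco 0 g1 n = 0
  · left
    intro τ hτ
    have h := (hHP.hasSum hτ).2
    simp only [hall, zero_mul] at h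
    rw [hgg, h.unique hasSum_zero, mul_zero]
  · right
    push Not at hall
    have hpi := Real.pi_pos
    have hlow : ∀ n : ℤ, fco 0 g1 n ≠ 0 → θ + κ ≤ n := by
      intro n hn
      by_contra hlt
      push Not at hlt
      apply hn
      apply fco_zero hHP hM
      nlinarith
    obtain ⟨n, hn, hmin⟩ := Int.exists_least_of_bdd (P := fun n => fco 0 g1 n ≠ 0)
      ⟨⌊θ + κ⌋, fun z hz => by
        have h := hlow z hz
        have h' : ((⌊θ + κ⌋ : ℤ) : ℝ) ≤ z := (Int.floor_le _).trans h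
        exact_mod_cast h'⟩ hall
    set a := fco 0 g1 n with ha
    obtain ⟨C1, hC1, hb⟩ := part_bound hHP (g := fun m => if m = n then 0 else fco 0 g1 m)
      (n₁ := n + 1) (fun m => by
        by_cases h : m = n
        · simp [h]
        · simp [h]) (fun m hm => by
        by_cases h : m = n
        · simp [h]
        · simp only [h, if_false]
          by_contra h3
          have h4 := hmin m h3
          have h5 : m < n + 1 := by exact_mod_cast hm
          omega)
    -- the remainder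
    set P : ℂ → ℂ := fun τ => (g1 τ - a * ee (n * τ)) * ee (-((n + 1) * τ)) with hPdef
    have hP : BP P := by
      refine ⟨?_, fun τ hτ => ?_, C1, fun τ hτ => ?_⟩
      · refine DifferentiableOn.mul (hHP.holo.sub ?_) ?_
        · exact ((ee_diff.comp (differentiable_id.const_mul _)).const_mul _).differentiableOn
        · exact (ee_diff.comp (differentiable_id.const_mul _).neg).differentiableOn
      · simp only [hPdef]
        rw [hHP.per τ hτ]
        have e1 : ee ((n : ℂ) * (τ + 1)) = ee (n * τ) := by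
          rw [mul_add, ee_add, mul_one, ee_int, mul_one]
        have e2' : ee (-(((n : ℂ) + 1) * (τ + 1))) = ee (-((n + 1) * τ)) := by
          have : -(((n : ℂ) + 1) * (τ + 1)) = -((n + 1) * τ) + ((-(n + 1) : ℤ) : ℂ) := by
            push_cast; ring
          rw [this, ee_add, ee_int, mul_one]
        rw [e1, e2']
      · have hsum := (hHP.hasSum (t := τ) (by linarith)).2
        have hs1 : HasSum (fun m : ℤ => if m = n then fco 0 g1 n * ee (n * τ) else 0)
            (fco 0 g1 n * ee (n * τ)) := by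
          have := hasSum_single (f := fun m : ℤ => if m = n then fco 0 g1 n * ee (n * τ) else 0) n
            (fun m hm => by simp [hm])
          simpa using this
        have hs3 : HasSum (fun m : ℤ => (if m = n then 0 else fco 0 g1 m) * ee (m * τ))
            (g1 τ - fco 0 g1 n * ee (n * τ)) := by
          have hfun : (fun m : ℤ => (if m = n then 0 else fco 0 g1 m) * ee (m * τ)) =
              fun m : ℤ => fco 0 g1 m * ee (m * τ) -
                (if m = n then fco 0 g1 n * ee (n * τ) else 0) := by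
            funext m
            by_cases h : m = n
            · simp [h]
            · simp [h]
          rw [hfun]
          exact hsum.sub hs1
        have h3 := hb τ hτ _ hs3
        simp only [hPdef]
        rw [norm_mul, norm_ee]
        have e1 : (-(((n : ℂ) + 1) * τ)).im = -((n + 1) * τ.im) := by
          rw [Complex.neg_im, Complex.mul_im]; simp
        rw [e1]
        have h := mul_le_mul_of_nonneg_right h3
          (Real.exp_pos (-(2 * Real.pi * -((n + 1) * τ.im)))).le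
        refine h.trans (le_of_eq ?_)
        rw [mul_assoc, ← Real.exp_add]
        have : -(2 * Real.pi * ((n : ℝ) + 1) * τ.im) + -(2 * Real.pi * -((n + 1) * τ.im)) = 0 := by
          ring
        rw [this, Real.exp_zero, mul_one]
    set x : ℂ := (n : ℂ) - θ with hx
    have hgP : ∀ τ : ℂ, 0 < τ.im → g τ = a * ee (x * τ) + ee ((x + 1) * τ) * P τ := by
      intro τ _
      rw [hgg τ]
      simp only [hPdef]
      have e1 : ee (x * τ) = ee (-(θ * τ)) * ee (n * τ) := by
        rw [← ee_add]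
        congr 1
        rw [hx]
        ring
      have e3 : ee ((x + 1) * τ) * ee (-(((n : ℂ) + 1) * τ)) = ee (-(θ * τ)) := by
        rw [← ee_add]
        congr 1
        rw [hx]
        ring
      rw [e1]
      calc ee (-(θ * τ)) * g1 τ = a * (ee (-(θ * τ)) * ee (n * τ)) +
            ee (-(θ * τ)) * (g1 τ - a * ee (n * τ)) := by ring
        _ = a * (ee (-(θ * τ)) * ee (n * τ)) +
            (ee ((x + 1) * τ) * ee (-(((n : ℂ) + 1) * τ))) * (g1 τ - a * ee (n * τ)) := by rw [e3]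
        _ = _ := by ring
    obtain ⟨P1, hP1, hs1⟩ := step hE hE2 hP 10 a x hgP
    obtain ⟨P2, hP2, hs2⟩ := step hE hE2 hP1 8 ((x + (10 : ℕ) / 12) * a) x hs1
    have hP3 : BP (fun τ => P2 τ + ((-1 / 18) * P τ + ((-a / 18) * F τ +
        (-1 / 18) * (ee τ * (F τ * P τ))))) :=
      hP2.add (((BP.const _).mul hP).add (((BP.const _).mul hF).add
        ((BP.const _).mul (BP.q.mul (hF.mul hP)))))
    have hhh : ∀ τ : ℂ, 0 < τ.im → hh e2 e4 g τ = (x + 1) * (x + 1 / 2) * a * ee (x * τ) +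
        ee ((x + 1) * τ) * (P2 τ + ((-1 / 18) * P τ + ((-a / 18) * F τ +
        (-1 / 18) * (ee τ * (F τ * P τ))))) := by
      intro τ hτ
      unfold hh
      rw [hs2 τ hτ, hF4 τ, hgP τ hτ]
      have h3 : ee ((x + 1) * τ) = ee (x * τ) * ee τ := by
        rw [← ee_add]
        congr 1
        ring
      rw [h3]
      push_cast
      ring
    obtain ⟨D1, hD1⟩ := hP.bd
    obtain ⟨D3, hD3⟩ := hP3.bd
    have hnorm : ∀ τ : ℂ, ‖ee ((x + 1) * τ)‖ =
        Real.exp (-(2 * Real.pi * (n - θ + 1) * τ.im)) := by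
      intro τ
      rw [norm_ee]
      congr 1
      have : ((x + 1) * τ).im = (n - θ + 1) * τ.im := by
        rw [Complex.mul_im, hx]; simp
      rw [this]
      ring
    refine ⟨n, a, max D1 D3, hn, by linarith [hlow n hn], fun τ hτ => ?_, fun τ hτ => ?_⟩
    · have h1 : g τ - a * ee ((n - θ) * τ) = ee ((x + 1) * τ) * P τ := by
        rw [hgP τ (by linarith), ← hx]
        ring
      rw [h1, norm_mul, hnorm, mul_comm]
      exact mul_le_mul_of_nonneg_right ((hD1 τ hτ).trans (le_max_left _ _)) (Real.exp_pos _).le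
    · have h1 : hh e2 e4 g τ - (n - θ + 1) * (n - θ + 1 / 2) * a * ee ((n - θ) * τ) =
          ee ((x + 1) * τ) * (P2 τ + ((-1 / 18) * P τ + ((-a / 18) * F τ +
        (-1 / 18) * (ee τ * (F τ * P τ))))) := by
        rw [hhh τ (by linarith), ← hx]
        ring
      rw [h1, norm_mul, hnorm, mul_comm]
      exact mul_le_mul_of_nonneg_right ((hD3 τ hτ).trans (le_max_right _ _)) (Real.exp_pos _).le

end Pool.Agent.Helper188_RL.JD2
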