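-- JOB for MP_f1d0b6_nt (full answer; finishing the starting project Pool/Agent/Y813/RL). Owner helper188.
-- Statement file: Pool/Agent/Helper188_RL/Stm1.lean on origin/main (git -C /workdir/pool/outputs/live pull; copy
-- Pool/Agent/Helper188_RL, Pool/Agent/Y813/RL, Pool/Agent/Y683/RL, Pool/Agent/Y155/RL to /workdir/pool/Pool/Agent/).
-- Prove the TARGET below in ONE file, statement unchanged (all Props are defined in Stm1.lean / Y813/RL/Stm.lean);
-- you may import anything of these folders and Mathlib; hypotheses named (h : <Prop>) are other jobs.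
import Pool.Agent.Helper188_RL.Stm1
set_option autoImplicit false
open MeasureTheory Complex Set Topology Pool.Agent.Y813.RL
namespace Pool.Agent.Helper188_RL.JD4

theorem bd_zero (A : Matrix (Fin 20) (Fin 20) ℤ) (ν : Fin 20 → ℤ) : bd A 0 ν = 0 := by
  unfold bd
  simp

theorem ee_zero : ee 0 = 1 := by
  unfold ee
  simp

theorem im_neg_inv {τ : ℂ} (h : 0 < τ.im) : 0 < (-1 / τ).im := by
  have h0 : τ ≠ 0 := by
    intro h1
    rw [h1] at h
    simp at h
  rw [neg_div, one_div, Complex.neg_im, Complex.inv_im]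
  have : 0 < Complex.normSq τ := Complex.normSq_pos.2 h0
  have h2 : 0 < τ.im / Complex.normSq τ := div_pos h this
  rw [neg_div, neg_neg]
  exact h2

theorem job (hD : VVa) (hFa : FFa) : OD4 := by
  intro G R f hG _ hR hf ⟨μ0, τ0, hτ0, hne⟩ hdet
  obtain ⟨D, hD⟩ := hD
  obtain ⟨-, -, hcard⟩ := hFa G hG
  have hc := hcard R hR
  rw [hdet] at hc
  have hc1 : R.card = 1 := by exact_mod_cast hc
  obtain ⟨ρ, hρ⟩ := Finset.card_eq_one.1 hc1
  have hall : ∀ μ (τ : ℂ), 0 < τ.im → f μ τ = f ρ τ := by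
    intro μ τ hτ
    obtain ⟨ρ', ⟨h1, v, h2⟩, -⟩ := hR μ
    rw [hρ, Finset.mem_singleton] at h1
    rw [h2, h1]
    exact hf.inv ρ v τ hτ
  have hT : ∀ τ : ℂ, 0 < τ.im → f 0 (τ + 1) = f 0 τ := by
    intro τ hτ
    rw [hf.T 0 τ hτ, bd_zero]
    simp [ee_zero]
  have hS : ∀ τ : ℂ, 0 < τ.im → f 0 τ = -(τ ^ 10) * f 0 (-1 / τ) := by
    intro τ hτ
    have h1 := hf.S 0 τ hτ
    rw [hdet, hρ, Finset.sum_singleton, bd_zero] at h1
    rw [hall 0 (-1 / τ) (im_neg_inv hτ), h1]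
    simp [ee_zero]
  obtain ⟨h, hh⟩ : ∃ h : ℂ → ℂ, ∀ τ, h τ = f 0 τ * D τ := ⟨fun τ => f 0 τ * D τ, fun _ => rfl⟩
  have kT : ∀ τ : ℂ, 0 < τ.im → h (τ + 1) = h τ := by
    intro τ hτ
    rw [hh, hh, hT τ hτ, hD.T τ hτ]
  have kS : ∀ τ : ℂ, 0 < τ.im → h (-1 / τ) = -(τ ^ 2) * h τ := by
    intro τ hτ
    rw [hh, hh, hD.S τ hτ, hS τ hτ]
    ring
  have key : h τ0 = 0 := by
    have hτne : τ0 ≠ 0 := by
      intro h1
      rw [h1] at hτ0
      simp at hτ0
    have hτ1 : 0 < (τ0 - 1).im := by simpa using hτ0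
    have hτ1ne : τ0 - 1 ≠ 0 := by
      intro h1
      rw [h1] at hτ1
      simp at hτ1
    obtain ⟨s, hs⟩ : ∃ s : ℂ, s = -1 / τ0 + 1 := ⟨_, rfl⟩
    have hsim : 0 < s.im := by
      rw [hs]
      have := im_neg_inv hτ0
      simpa using this
    have hs1 : s = (τ0 - 1) / τ0 := by
      rw [hs]
      field_simp
      ring
    have e1 : h s = -(τ0 ^ 2) * h τ0 := by
      rw [hs, kT _ (im_neg_inv hτ0), kS _ hτ0]
    have e2 : h (-1 / s) = (τ0 - 1) ^ 2 * h τ0 := by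
      rw [kS _ hsim, e1, hs1]
      field_simp
    have e3 : -1 / s + 1 = -1 / (τ0 - 1) := by
      rw [hs1]
      field_simp
      ring
    have e4 : h (-1 / (τ0 - 1)) = (τ0 - 1) ^ 2 * h τ0 := by
      rw [← e3, kT _ (im_neg_inv hsim), e2]
    have e5 : h τ0 = h (τ0 - 1) := by
      have := kT _ hτ1
      rwa [sub_add_cancel] at this
    rw [kS _ hτ1, ← e5] at e4
    have e6 : (τ0 - 1) ^ 2 * h τ0 = 0 := by
      linear_combination (-1 / 2 : ℂ) * e4
    exact (mul_eq_zero.1 e6).resolve_left (pow_ne_zero 2 hτ1ne)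
  rw [hh] at key
  rcases mul_eq_zero.1 key with h1 | h1
  · apply hne
    rw [hall μ0 τ0 hτ0, ← hall 0 τ0 hτ0]
    exact h1
  · exact hD.ne τ0 hτ0 h1

end Pool.Agent.Helper188_RL.JD4
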