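import Pool.Agent.Helper188_RL.Stm1
set_option autoImplicit false
open MeasureTheory Complex Set Topology Pool.Agent.Y813.RL
namespace Pool.Agent.Helper188_RL.JE1

open Matrix

/-- some entry of a matrix with unit determinant over a local ring is a unit -/
theorem exists_unit_entry {R : Type} [CommRing R] [IsLocalRing R] {ι : Type} [Fintype ι]
    [DecidableEq ι] [Nonempty ι] (M : Matrix ι ι R) (h : IsUnit M.det) :
    ∃ i j, IsUnit (M i j) := by
  by_contra hcon
  push Not at hcon
  have h1 : M.det ∈ IsLocalRing.maximalIdeal R := by
    rw [Matrix.det_apply]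
    refine Ideal.sum_mem _ fun σ _ => ?_
    have h2 : ∏ i, M (σ i) i ∈ IsLocalRing.maximalIdeal R := by
      obtain ⟨i⟩ := ‹Nonempty ι›
      rw [← Finset.mul_prod_erase Finset.univ _ (Finset.mem_univ i)]
      exact Ideal.mul_mem_right _ _ ((IsLocalRing.mem_maximalIdeal _).2 (hcon _ _))
    rw [Units.smul_def, zsmul_eq_mul]
    exact Ideal.mul_mem_left _ _ h2
  exact (IsLocalRing.mem_maximalIdeal _).1 h1 h

/-- making a diagonal entry a unit -/
theorem exists_diag {R : Type} [CommRing R] [IsLocalRing R] (h2 : IsUnit (2 : R)) {ι : Type}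
    [Fintype ι] [DecidableEq ι] [Nonempty ι] (M : Matrix ι ι R) (hM : M.IsSymm)
    (h : IsUnit M.det) :
    ∃ (T : Matrix ι ι R) (i : ι), IsUnit T.det ∧ IsUnit ((T.transpose * M * T) i i) := by
  by_cases hd : ∃ i, IsUnit (M i i)
  · obtain ⟨i, hi⟩ := hd
    exact ⟨1, i, by simp, by simpa using hi⟩
  · push Not at hd
    obtain ⟨i, j, hij⟩ := exists_unit_entry M h
    have hne : i ≠ j := by
      rintro rfl
      exact hd _ hij
    refine ⟨Matrix.transvection j i 1, i, ?_, ?_⟩
    · rw [Matrix.det_transvection_of_ne _ _ hne.symm]
      exact isUnit_one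
    · have e1 : ((Matrix.transvection j i (1 : R)).transpose * M * Matrix.transvection j i (1 : R) :
          Matrix ι ι R) i i = M i i + M j j + 2 * M i j := by
        have hs : M j i = M i j := hM.apply i j
        have h3 : ∀ a, (Matrix.transvection j i (1 : R)) a i = (if a = i then 1 else 0) +
            (if a = j then 1 else 0) := by
          intro a
          simp [Matrix.transvection, Matrix.single_apply, Matrix.one_apply, eq_comm]
        rw [Matrix.mul_apply]
        simp only [Matrix.mul_apply, Matrix.transpose_apply, h3, add_mul, mul_add, Finset.sum_add_distrib,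
          ite_mul, mul_ite, one_mul, mul_one, zero_mul, mul_zero, Finset.sum_ite_eq',
          Finset.mem_univ, if_true, hs]
        ring
      rw [e1]
      have h4 : M i i + M j j ∈ IsLocalRing.maximalIdeal R :=
        Ideal.add_mem _ ((IsLocalRing.mem_maximalIdeal _).2 (hd i))
          ((IsLocalRing.mem_maximalIdeal _).2 (hd j))
      by_contra hcon
      have h5 : M i i + M j j + 2 * M i j ∈ IsLocalRing.maximalIdeal R :=
        (IsLocalRing.mem_maximalIdeal _).2 hcon
      have h6 : 2 * M i j ∈ IsLocalRing.maximalIdeal R := by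
        have := Ideal.sub_mem _ h5 h4
        simpa using this
      exact (IsLocalRing.mem_maximalIdeal _).1 h6 (h2.mul hij)

/-- diagonalisation over a local ring in which `2` is a unit -/
theorem diagonalise {R : Type} [CommRing R] [IsLocalRing R] (h2 : IsUnit (2 : R)) :
    ∀ (n : ℕ) (ι : Type) [Fintype ι] [DecidableEq ι], Fintype.card ι = n →
      ∀ M : Matrix ι ι R, M.IsSymm → IsUnit M.det →
      ∃ P : Matrix ι ι R, IsUnit P.det ∧ ∃ d : ι → R, P.transpose * M * P = Matrix.diagonal d := by
  intro n
  induction n with
  | zero =>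
    intro ι _ _ hc M hM hdet
    haveI : IsEmpty ι := Fintype.card_eq_zero_iff.1 hc
    exact ⟨1, by simp, fun _ => 0, by ext i; exact isEmptyElim i⟩
  | succ n ih =>
    intro ι _ _ hc M hM hdet
    haveI : Nonempty ι := Fintype.card_pos_iff.1 (by omega)
    obtain ⟨T, i, hT, hi⟩ := exists_diag h2 M hM hdet
    set M1 := T.transpose * M * T with hM1
    have hM1s : M1.IsSymm := by
      rw [hM1]
      unfold Matrix.IsSymm
      rw [Matrix.transpose_mul, Matrix.transpose_mul, Matrix.transpose_transpose, hM.eq,
        Matrix.mul_assoc]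
    have hM1d : IsUnit M1.det := by
      rw [hM1, Matrix.det_mul, Matrix.det_mul, Matrix.det_transpose]
      exact (hT.mul hdet).mul hT
    let e : {x // x = i} ⊕ {x // ¬ x = i} ≃ ι := Equiv.sumCompl (fun x => x = i)
    set N := M1.submatrix e e with hN
    have hNs : N.IsSymm := by
      rw [hN]
      exact hM1s.submatrix e
    have hNd : IsUnit N.det := by
      rw [hN, Matrix.det_submatrix_equiv_self]
      exact hM1d
    set A := N.toBlocks₁₁ with hA
    set B := N.toBlocks₁₂ with hB
    set D := N.toBlocks₂₂ with hD
    have hAs : A.transpose = A := by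
      ext x y
      exact congrFun (congrFun hNs (Sum.inl x)) (Sum.inl y)
    have hDs : D.transpose = D := by
      ext x y
      exact congrFun (congrFun hNs (Sum.inr x)) (Sum.inr y)
    have hC : N.toBlocks₂₁ = B.transpose := by
      ext x y
      exact (congrFun (congrFun hNs (Sum.inr x)) (Sum.inl y)).symm
    have hNb : N = Matrix.fromBlocks A B B.transpose D := by
      rw [← hC]
      exact (Matrix.fromBlocks_toBlocks N).symm
    have hAd : IsUnit A.det := by
      have : A.det = M1 i i := by
        rw [Matrix.det_unique]
        rfl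
      rw [this]
      exact hi
    letI : Invertible A := Matrix.invertibleOfIsUnitDet A hAd
    have hAi : (⅟A).transpose = ⅟A := by
      rw [Matrix.invOf_eq_nonsing_inv, Matrix.transpose_nonsing_inv, hAs]
    set D' := D - B.transpose * ⅟A * B with hD'
    have hD's : D'.IsSymm := by
      unfold Matrix.IsSymm
      rw [hD', Matrix.transpose_sub, Matrix.transpose_mul, Matrix.transpose_mul,
        Matrix.transpose_transpose, hDs, hAi, Matrix.mul_assoc]
    have hD'd : IsUnit D'.det := by
      have h3 := Matrix.det_fromBlocks₁₁ A B B.transpose D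
      rw [← hNb, ← hD'] at h3
      rw [h3] at hNd
      exact isUnit_of_mul_isUnit_right hNd
    obtain ⟨P', hP', d', hd'⟩ := ih {x // ¬ x = i} (by
      have h4 := Fintype.card_subtype_compl (fun x : ι => x = i)
      rw [h4, hc]
      simp) D' hD's hD'd
    let PN := Matrix.fromBlocks (1 : Matrix {x // x = i} {x // x = i} R) (-(⅟A * B)) 0 1 *
      Matrix.fromBlocks 1 0 0 P'
    have hPN : IsUnit PN.det := by
      simp only [PN, Matrix.det_mul, Matrix.det_fromBlocks_zero₂₁, Matrix.det_one, one_mul]
      exact hP'
    have hmain : PN.transpose * N * PN = Matrix.fromBlocks A 0 0 (Matrix.diagonal d') := by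
      rw [hNb]
      have k1 : A * ⅟A = 1 := mul_invOf_self A
      have k2 : ⅟A * A = 1 := invOf_mul_self A
      have g1 : (Matrix.fromBlocks (1 : Matrix {x // x = i} {x // x = i} R) (-(⅟A * B)) 0
          (1 : Matrix {x // ¬ x = i} {x // ¬ x = i} R)).transpose *
          Matrix.fromBlocks A B B.transpose D *
          Matrix.fromBlocks (1 : Matrix {x // x = i} {x // x = i} R) (-(⅟A * B)) 0 1 =
          Matrix.fromBlocks A 0 0 D' := by
        rw [Matrix.fromBlocks_transpose, Matrix.fromBlocks_multiply, Matrix.fromBlocks_multiply]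
        simp only [Matrix.transpose_neg, Matrix.transpose_mul, hAi, Matrix.transpose_one,
          Matrix.transpose_zero, Matrix.one_mul, Matrix.mul_one, Matrix.zero_mul, Matrix.mul_zero,
          add_zero, zero_add, Matrix.neg_mul, Matrix.mul_neg]
        have q1 : A * (⅟A * B) = B := by rw [← Matrix.mul_assoc, k1, Matrix.one_mul]
        have q2 : B.transpose * ⅟A * A = B.transpose := by rw [Matrix.mul_assoc, k2, Matrix.mul_one]
        rw [q1, q2]
        congr 1
        · simp
        · simp
        · simp only [hD', neg_add_cancel, Matrix.zero_mul, neg_zero, add_zero, zero_add]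
          rw [sub_eq_add_neg, add_comm]
      calc PN.transpose * Matrix.fromBlocks A B B.transpose D * PN
          = (Matrix.fromBlocks (1 : Matrix {x // x = i} {x // x = i} R) 0 0 P').transpose *
            ((Matrix.fromBlocks (1 : Matrix {x // x = i} {x // x = i} R) (-(⅟A * B)) 0
          (1 : Matrix {x // ¬ x = i} {x // ¬ x = i} R)).transpose *
          Matrix.fromBlocks A B B.transpose D *
          Matrix.fromBlocks (1 : Matrix {x // x = i} {x // x = i} R) (-(⅟A * B)) 0 1) *
            Matrix.fromBlocks 1 0 0 P' := by
            simp only [PN, Matrix.transpose_mul, Matrix.mul_assoc]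
        _ = _ := by
            rw [g1, Matrix.fromBlocks_transpose, Matrix.fromBlocks_multiply,
              Matrix.fromBlocks_multiply]
            simp only [Matrix.transpose_one, Matrix.transpose_zero, Matrix.one_mul, Matrix.mul_one,
              Matrix.zero_mul, Matrix.mul_zero, add_zero, zero_add, hd']
    refine ⟨T * PN.submatrix e.symm e.symm, ?_, ?_⟩
    · rw [Matrix.det_mul, Matrix.det_submatrix_equiv_self]
      exact hT.mul hPN
    · have hM1N : M1 = N.submatrix e.symm e.symm := by
        rw [hN]
        ext a b
        simp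
      refine ⟨fun x => Sum.elim (fun _ => M1 i i) d' (e.symm x), ?_⟩
      have h5 : (T * PN.submatrix e.symm e.symm).transpose * M * (T * PN.submatrix e.symm e.symm) =
          (PN.transpose * N * PN).submatrix e.symm e.symm := by
        rw [Matrix.transpose_mul]
        have h6 : (PN.submatrix e.symm e.symm).transpose * T.transpose * M * (T * PN.submatrix e.symm e.symm)
            = (PN.submatrix e.symm e.symm).transpose * M1 * PN.submatrix e.symm e.symm := by
          rw [hM1]
          simp only [Matrix.mul_assoc]
        rw [h6, hM1N, Matrix.transpose_submatrix, Matrix.submatrix_mul_equiv,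
          Matrix.submatrix_mul_equiv]
      rw [h5, hmain]
      ext a b
      obtain ⟨a, rfl⟩ := e.surjective a
      obtain ⟨b, rfl⟩ := e.surjective b
      rw [Matrix.submatrix_apply, e.symm_apply_apply, e.symm_apply_apply, Matrix.diagonal_apply]
      rcases a with a | a <;> rcases b with b | b
      · have hab : a = b := Subsingleton.elim _ _
        subst hab
        rw [if_pos rfl, e.symm_apply_apply]
        obtain ⟨a, ha⟩ := a
        subst ha
        rfl
      · rw [if_neg (fun h => by simpa using e.injective h)]
        rfl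
      · rw [if_neg (fun h => by simpa using e.injective h)]
        rfl
      · by_cases hab : a = b
        · subst hab
          rw [if_pos rfl, e.symm_apply_apply]
          simp
        · rw [if_neg (fun h => hab (by simpa using e.injective h))]
          simp [hab]

theorem job : GOa := by
  intro p _ hp n M hM hdet
  have h2 : IsUnit (2 : ℤ_[p]) := by
    rw [PadicInt.isUnit_iff]
    have h3 : ‖((2 : ℕ) : ℤ_[p])‖ < 1 ↔ p ∣ 2 := PadicInt.norm_natCast_lt_one_iff
    by_contra hne
    have h4 : ‖(2 : ℤ_[p])‖ < 1 := lt_of_le_of_ne (PadicInt.norm_le_one _) hne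
    have h5 : p ∣ 2 := h3.1 (by simpa using h4)
    exact hp ((Nat.prime_dvd_prime_iff_eq (Fact.out) Nat.prime_two).1 h5)
  obtain ⟨P, hP, d, hd⟩ := diagonalise h2 n (Fin n) (Fintype.card_fin n) M hM hdet
  exact ⟨d, P, P⁻¹, Matrix.mul_nonsing_inv P hP, Matrix.nonsing_inv_mul P hP, hd⟩

end Pool.Agent.Helper188_RL.JE1
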