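-- JOB for MP_f1d0b6_nt (full answer; finishing the starting project Pool/Agent/Y813/RL). Owner helper188.
import Pool.Agent.Helper188_RL.Stm1
set_option autoImplicit false
open MeasureTheory Complex Set Topology Pool.Agent.Y813.RL
namespace Pool.Agent.Helper188_RL.JE10

open Matrix

/-! ### The two quadratic forms -/

theorem q8 {R : Type*} [CommRing R] (x : Fin 8 → R) : bf CartanMatrix.E₈ x x =
    2 * (x 0 ^ 2 + x 1 ^ 2 + x 2 ^ 2 + x 3 ^ 2 + x 4 ^ 2 + x 5 ^ 2 + x 6 ^ 2 + x 7 ^ 2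
      - x 0 * x 2 - x 1 * x 3 - x 2 * x 3 - x 3 * x 4 - x 4 * x 5 - x 5 * x 6 - x 6 * x 7) := by
  simp [bf, CartanMatrix.E₈, Fin.sum_univ_succ]
  ring

theorem q4 {R : Type*} [CommRing R] (x : Fin 4 → R) : bf (CartanMatrix.D 4) x x =
    2 * (x 0 ^ 2 + x 1 ^ 2 + x 2 ^ 2 + x 3 ^ 2 - x 0 * x 1 - x 1 * x 2 - x 1 * x 3) := by
  rw [CartanMatrix.D_four]
  simp [bf, Fin.sum_univ_succ]
  ring

theorem q8nonneg (x : Fin 8 → ℝ) : 0 ≤ bf CartanMatrix.E₈ x x := by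
  rw [q8]
  have : 2 * (x 0 ^ 2 + x 1 ^ 2 + x 2 ^ 2 + x 3 ^ 2 + x 4 ^ 2 + x 5 ^ 2 + x 6 ^ 2 + x 7 ^ 2
      - x 0 * x 2 - x 1 * x 3 - x 2 * x 3 - x 3 * x 4 - x 4 * x 5 - x 5 * x 6 - x 6 * x 7) =
      2 * (x 7 - x 6 / 2) ^ 2 + 3 / 2 * (x 6 - 2 / 3 * x 5) ^ 2 + 4 / 3 * (x 5 - 3 / 4 * x 4) ^ 2
      + 5 / 4 * (x 4 - 4 / 5 * x 3) ^ 2 + 2 * (x 0 - x 2 / 2) ^ 2 + 3 / 2 * (x 2 - 2 / 3 * x 3) ^ 2
      + 2 * (x 1 - x 3 / 2) ^ 2 + 1 / 30 * x 3 ^ 2 := by ring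
  rw [this]; positivity

theorem q8zero (x : Fin 8 → ℝ) (h : bf CartanMatrix.E₈ x x = 0) : x = 0 := by
  rw [q8] at h
  have e : 2 * (x 0 ^ 2 + x 1 ^ 2 + x 2 ^ 2 + x 3 ^ 2 + x 4 ^ 2 + x 5 ^ 2 + x 6 ^ 2 + x 7 ^ 2
      - x 0 * x 2 - x 1 * x 3 - x 2 * x 3 - x 3 * x 4 - x 4 * x 5 - x 5 * x 6 - x 6 * x 7) =
      2 * (x 7 - x 6 / 2) ^ 2 + 3 / 2 * (x 6 - 2 / 3 * x 5) ^ 2 + 4 / 3 * (x 5 - 3 / 4 * x 4) ^ 2
      + 5 / 4 * (x 4 - 4 / 5 * x 3) ^ 2 + 2 * (x 0 - x 2 / 2) ^ 2 + 3 / 2 * (x 2 - 2 / 3 * x 3) ^ 2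
      + 2 * (x 1 - x 3 / 2) ^ 2 + 1 / 30 * x 3 ^ 2 := by ring
  rw [e] at h
  have n1 := sq_nonneg (x 7 - x 6 / 2)
  have n2 := sq_nonneg (x 6 - 2 / 3 * x 5)
  have n3 := sq_nonneg (x 5 - 3 / 4 * x 4)
  have n4 := sq_nonneg (x 4 - 4 / 5 * x 3)
  have n5 := sq_nonneg (x 0 - x 2 / 2)
  have n6 := sq_nonneg (x 2 - 2 / 3 * x 3)
  have n7 := sq_nonneg (x 1 - x 3 / 2)
  have n8 := sq_nonneg (x 3)
  have z8 : x 3 = 0 := pow_eq_zero_iff (two_ne_zero) |>.1 (by linarith)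
  have z7 : x 1 - x 3 / 2 = 0 := pow_eq_zero_iff (two_ne_zero) |>.1 (by linarith)
  have z6 : x 2 - 2 / 3 * x 3 = 0 := pow_eq_zero_iff (two_ne_zero) |>.1 (by linarith)
  have z5 : x 0 - x 2 / 2 = 0 := pow_eq_zero_iff (two_ne_zero) |>.1 (by linarith)
  have z4 : x 4 - 4 / 5 * x 3 = 0 := pow_eq_zero_iff (two_ne_zero) |>.1 (by linarith)
  have z3 : x 5 - 3 / 4 * x 4 = 0 := pow_eq_zero_iff (two_ne_zero) |>.1 (by linarith)
  have z2 : x 6 - 2 / 3 * x 5 = 0 := pow_eq_zero_iff (two_ne_zero) |>.1 (by linarith)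
  have z1 : x 7 - x 6 / 2 = 0 := pow_eq_zero_iff (two_ne_zero) |>.1 (by linarith)
  funext i
  fin_cases i <;> simp only [Fin.zero_eta, Fin.mk_one, Fin.reduceFinMk, Pi.zero_apply] <;> linarith

theorem q4nonneg (x : Fin 4 → ℝ) : 0 ≤ bf (CartanMatrix.D 4) x x := by
  rw [q4]
  have : 2 * (x 0 ^ 2 + x 1 ^ 2 + x 2 ^ 2 + x 3 ^ 2 - x 0 * x 1 - x 1 * x 2 - x 1 * x 3) =
      2 * (x 0 - x 1 / 2) ^ 2 + 2 * (x 2 - x 1 / 2) ^ 2 + 2 * (x 3 - x 1 / 2) ^ 2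
        + 1 / 2 * x 1 ^ 2 := by ring
  rw [this]; positivity

theorem q4zero (x : Fin 4 → ℝ) (h : bf (CartanMatrix.D 4) x x = 0) : x = 0 := by
  rw [q4] at h
  have e : 2 * (x 0 ^ 2 + x 1 ^ 2 + x 2 ^ 2 + x 3 ^ 2 - x 0 * x 1 - x 1 * x 2 - x 1 * x 3) =
      2 * (x 0 - x 1 / 2) ^ 2 + 2 * (x 2 - x 1 / 2) ^ 2 + 2 * (x 3 - x 1 / 2) ^ 2
        + 1 / 2 * x 1 ^ 2 := by ring
  rw [e] at h
  have n1 := sq_nonneg (x 0 - x 1 / 2)
  have n2 := sq_nonneg (x 2 - x 1 / 2)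
  have n3 := sq_nonneg (x 3 - x 1 / 2)
  have n4 := sq_nonneg (x 1)
  have z1 : x 1 = 0 := pow_eq_zero_iff (two_ne_zero) |>.1 (by linarith)
  have z2 : x 0 - x 1 / 2 = 0 := pow_eq_zero_iff (two_ne_zero) |>.1 (by linarith)
  have z3 : x 2 - x 1 / 2 = 0 := pow_eq_zero_iff (two_ne_zero) |>.1 (by linarith)
  have z4 : x 3 - x 1 / 2 = 0 := pow_eq_zero_iff (two_ne_zero) |>.1 (by linarith)
  funext i
  fin_cases i <;> simp only [Fin.zero_eta, Fin.mk_one, Fin.reduceFinMk, Pi.zero_apply] <;> linarith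

/-- the form of the block matrix -/
theorem qsum {R : Type*} [CommRing R] (y : Fin 8 ⊕ (Fin 8 ⊕ Fin 4) → R) :
    bf gramEED y y = bf CartanMatrix.E₈ (fun i => y (Sum.inl i)) (fun i => y (Sum.inl i)) +
      bf CartanMatrix.E₈ (fun i => y (Sum.inr (Sum.inl i))) (fun i => y (Sum.inr (Sum.inl i))) +
      bf (CartanMatrix.D 4) (fun i => y (Sum.inr (Sum.inr i)))
        (fun i => y (Sum.inr (Sum.inr i))) := by
  simp only [bf, gramEED, Fintype.sum_sum_type, Matrix.fromBlocks_apply₁₁,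
    Matrix.fromBlocks_apply₁₂, Matrix.fromBlocks_apply₂₁, Matrix.fromBlocks_apply₂₂,
    Matrix.zero_apply, Int.cast_zero, mul_zero, zero_mul, Finset.sum_const_zero, add_zero,
    zero_add]
  ring

/-- the index equivalence -/
def ee0 : Fin 8 ⊕ (Fin 8 ⊕ Fin 4) ≃ Fin 20 :=
  (Equiv.sumCongr (Equiv.refl (Fin 8)) finSumFinEquiv).trans finSumFinEquiv

theorem bf_reindex {ι κ : Type*} [Fintype ι] [Fintype κ] {R : Type*} [CommRing R]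
    (e : ι ≃ κ) (M : Matrix ι ι ℤ) (x y : κ → R) :
    bf (Matrix.reindex e e M) x y = bf M (fun i => x (e i)) (fun i => y (e i)) := by
  unfold bf
  rw [← e.sum_comp]
  refine Finset.sum_congr rfl fun i _ => ?_
  rw [← e.sum_comp]
  refine Finset.sum_congr rfl fun j _ => ?_
  simp

theorem gsymm : gramEED.IsSymm := by
  unfold gramEED
  refine Matrix.IsSymm.fromBlocks CartanMatrix.E₈_isSymm (by simp) ?_
  exact Matrix.IsSymm.fromBlocks CartanMatrix.E₈_isSymm (by simp) (CartanMatrix.D_isSymm 4)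

theorem D4det : (CartanMatrix.D 4).det = 4 := by
  rw [CartanMatrix.D_four]; simp [Matrix.det_succ_row_zero, Fin.sum_univ_succ, Fin.succAbove]

theorem gdet : gramEED.det = 4 := by
  unfold gramEED
  rw [Matrix.det_fromBlocks_zero₂₁, Matrix.det_fromBlocks_zero₂₁, CartanMatrix.E₈_det, D4det]
  norm_num

/-- twice the inverse of `E₈` -/
theorem E8inv : ∃ N : Matrix (Fin 8) (Fin 8) ℤ, CartanMatrix.E₈ * N = 1 :=
  ⟨CartanMatrix.E₈.adjugate, by rw [Matrix.mul_adjugate, CartanMatrix.E₈_det, one_smul]⟩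

theorem D4inv : ∃ N : Matrix (Fin 4) (Fin 4) ℤ, CartanMatrix.D 4 * N = 2 • (1 : Matrix (Fin 4) (Fin 4) ℤ) := by
  refine ⟨!![2, 2, 1, 1; 2, 4, 2, 2; 1, 2, 2, 1; 1, 2, 1, 2], ?_⟩
  rw [CartanMatrix.D_four]
  decide

theorem ginv : ∃ N : Matrix (Fin 8 ⊕ (Fin 8 ⊕ Fin 4)) (Fin 8 ⊕ (Fin 8 ⊕ Fin 4)) ℤ,
    gramEED * N = (2 : ℤ) • (1 : Matrix (Fin 8 ⊕ (Fin 8 ⊕ Fin 4)) (Fin 8 ⊕ (Fin 8 ⊕ Fin 4)) ℤ) := by
  obtain ⟨N, hN⟩ := E8inv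
  obtain ⟨D, hD⟩ := D4inv
  refine ⟨Matrix.fromBlocks ((2 : ℤ) • N) 0 0 (Matrix.fromBlocks ((2 : ℤ) • N) 0 0 D), ?_⟩
  unfold gramEED
  rw [Matrix.fromBlocks_multiply, Matrix.fromBlocks_multiply]
  simp only [Matrix.mul_smul, hN, hD, Matrix.mul_zero, Matrix.zero_mul, add_zero, zero_add]
  rw [← Matrix.fromBlocks_one, Matrix.fromBlocks_smul, ← Matrix.fromBlocks_one,
    Matrix.fromBlocks_smul]
  simp

/-! ### The norms -/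

theorem norm8 (x : Fin 8 → ℤ) (h : ∀ i, (2 : ℤ) ∣ CartanMatrix.E₈.mulVec x i) :
    (∀ i, (2 : ℤ) ∣ x i) ∧ ∃ k : ℤ, bf CartanMatrix.E₈ x x = 8 * k := by
  have h0 := h 0
  have h1 := h 1
  have h2 := h 2
  have h3 := h 3
  have h4 := h 4
  have h5 := h 5
  have h6 := h 6
  have h7 := h 7
  simp [CartanMatrix.E₈, Matrix.mulVec, dotProduct, Fin.sum_univ_succ] at h0 h1 h2 h3 h4 h5 h6 h7
  have a : ∀ i, (2 : ℤ) ∣ x i := by
    intro i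
    fin_cases i <;> simp only [Fin.zero_eta, Fin.mk_one, Fin.reduceFinMk] <;> omega
  refine ⟨a, ?_⟩
  choose z hz using a
  refine ⟨z 0 ^ 2 + z 1 ^ 2 + z 2 ^ 2 + z 3 ^ 2 + z 4 ^ 2 + z 5 ^ 2 + z 6 ^ 2 + z 7 ^ 2
      - z 0 * z 2 - z 1 * z 3 - z 2 * z 3 - z 3 * z 4 - z 4 * z 5 - z 5 * z 6 - z 6 * z 7, ?_⟩
  rw [q8]
  simp only [hz]
  ring

theorem norm4 (x : Fin 4 → ℤ) (h : ∀ i, (2 : ℤ) ∣ (CartanMatrix.D 4).mulVec x i)
    (hx : ∃ i, ¬ (2 : ℤ) ∣ x i) :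
    ∃ k : ℤ, bf (CartanMatrix.D 4) x x = 4 * (2 * k + 1) := by
  rw [CartanMatrix.D_four] at h
  have h0 := h 0
  have h1 := h 1
  have h2 := h 2
  have h3 := h 3
  simp [Matrix.mulVec, dotProduct, Fin.sum_univ_succ] at h0 h1 h2 h3
  have hb : (2 : ℤ) ∣ x 1 := by omega
  have hs : (2 : ℤ) ∣ x 0 + x 2 + x 3 := by omega
  have hne : ¬ ((2 : ℤ) ∣ x 0 ∧ (2 : ℤ) ∣ x 2 ∧ (2 : ℤ) ∣ x 3) := by
    rintro ⟨a, b, c⟩
    obtain ⟨i, hi⟩ := hx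
    apply hi
    fin_cases i <;> simp only [Fin.zero_eta, Fin.mk_one, Fin.reduceFinMk] <;> assumption
  obtain ⟨b, hb⟩ := hb
  obtain ⟨m, hm⟩ := hs
  rw [q4]
  have key : ∃ k : ℤ, x 0 ^ 2 + x 2 ^ 2 + x 3 ^ 2 = 2 * (2 * k + 1) := by
    rcases Int.even_or_odd' (x 0) with ⟨p, hp | hp⟩ <;>
    rcases Int.even_or_odd' (x 2) with ⟨q, hq | hq⟩ <;>
    rcases Int.even_or_odd' (x 3) with ⟨r, hr | hr⟩
    · exact absurd ⟨⟨p, hp⟩, ⟨q, hq⟩, ⟨r, hr⟩⟩ hne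
    · omega
    · omega
    · exact ⟨p ^ 2 + q ^ 2 + q + r ^ 2 + r, by rw [hp, hq, hr]; ring⟩
    · omega
    · exact ⟨p ^ 2 + p + q ^ 2 + r ^ 2 + r, by rw [hp, hq, hr]; ring⟩
    · exact ⟨p ^ 2 + p + q ^ 2 + q + r ^ 2, by rw [hp, hq, hr]; ring⟩
    · omega
  obtain ⟨k, hk⟩ := key
  refine ⟨k + b ^ 2 - b * m, ?_⟩
  have e : 2 * (x 0 ^ 2 + x 1 ^ 2 + x 2 ^ 2 + x 3 ^ 2 - x 0 * x 1 - x 1 * x 2 - x 1 * x 3)
    = 2 * (x 0 ^ 2 + x 2 ^ 2 + x 3 ^ 2) + 2 * x 1 ^ 2 - 2 * x 1 * (x 0 + x 2 + x 3) := by ring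
  rw [e, hk, hb, hm]
  ring

theorem mulVec_inl (y : Fin 8 ⊕ (Fin 8 ⊕ Fin 4) → ℤ) (i : Fin 8) :
    gramEED.mulVec y (Sum.inl i) = CartanMatrix.E₈.mulVec (fun i => y (Sum.inl i)) i := by
  simp [gramEED, Matrix.mulVec, dotProduct]

theorem mulVec_inrl (y : Fin 8 ⊕ (Fin 8 ⊕ Fin 4) → ℤ) (i : Fin 8) :
    gramEED.mulVec y (Sum.inr (Sum.inl i)) =
      CartanMatrix.E₈.mulVec (fun i => y (Sum.inr (Sum.inl i))) i := by
  simp [gramEED, Matrix.mulVec, dotProduct]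

theorem mulVec_inrr (y : Fin 8 ⊕ (Fin 8 ⊕ Fin 4) → ℤ) (i : Fin 4) :
    gramEED.mulVec y (Sum.inr (Sum.inr i)) =
      (CartanMatrix.D 4).mulVec (fun i => y (Sum.inr (Sum.inr i))) i := by
  simp [gramEED, Matrix.mulVec, dotProduct]

theorem gnorm (y : Fin 8 ⊕ (Fin 8 ⊕ Fin 4) → ℤ) (h : ∀ i, (2 : ℤ) ∣ gramEED.mulVec y i)
    (hy : ∃ i, ¬ (2 : ℤ) ∣ y i) : ∃ k : ℤ, bf gramEED y y = 4 * (2 * k + 1) := by
  obtain ⟨a1, k1, e1⟩ := norm8 (fun i => y (Sum.inl i)) (fun i => by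
    rw [← mulVec_inl]; exact h _)
  obtain ⟨a2, k2, e2⟩ := norm8 (fun i => y (Sum.inr (Sum.inl i))) (fun i => by
    rw [← mulVec_inrl]; exact h _)
  obtain ⟨k3, e3⟩ := norm4 (fun i => y (Sum.inr (Sum.inr i))) (fun i => by
    rw [← mulVec_inrr]; exact h _) (by
      obtain ⟨i, hi⟩ := hy
      rcases i with i | i | i
      · exact absurd (a1 i) hi
      · exact absurd (a2 i) hi
      · exact ⟨i, hi⟩)
  refine ⟨k1 + k2 + k3, ?_⟩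
  rw [qsum, e1, e2, e3]
  ring

theorem bf_eq_dot {ι : Type*} [Fintype ι] (M : Matrix ι ι ℤ) (x : ι → ℤ) :
    x ⬝ᵥ M.mulVec x = bf M x x := by
  simp only [bf, Matrix.mulVec, dotProduct, Finset.mul_sum, Int.cast_id]
  refine Finset.sum_congr rfl fun i _ => Finset.sum_congr rfl fun j _ => ?_
  ring

theorem gdiag (i : Fin 8 ⊕ (Fin 8 ⊕ Fin 4)) : gramEED i i = 2 := by
  rcases i with i | i | i
  · simp [gramEED]
  · simp [gramEED]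
  · simp [gramEED]

theorem job : GE := by
  refine ⟨ee0, ⟨?_, ?_⟩, ⟨?_, ?_, ?_, ?_, ?_⟩⟩
  · have := gsymm
    rw [Matrix.IsSymm] at this ⊢
    rw [Matrix.transpose_reindex, this]
  · intro x hx
    rw [bf_reindex, qsum]
    have p1 := q8nonneg (fun i => x (ee0 (Sum.inl i)))
    have p2 := q8nonneg (fun i => x (ee0 (Sum.inr (Sum.inl i))))
    have p3 := q4nonneg (fun i => x (ee0 (Sum.inr (Sum.inr i))))
    by_contra hcon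
    have z1 := q8zero _ (show bf CartanMatrix.E₈ (fun i => x (ee0 (Sum.inl i)))
      (fun i => x (ee0 (Sum.inl i))) = 0 by linarith)
    have z2 := q8zero _ (show bf CartanMatrix.E₈ (fun i => x (ee0 (Sum.inr (Sum.inl i))))
      (fun i => x (ee0 (Sum.inr (Sum.inl i)))) = 0 by linarith)
    have z3 := q4zero _ (show bf (CartanMatrix.D 4) (fun i => x (ee0 (Sum.inr (Sum.inr i))))
      (fun i => x (ee0 (Sum.inr (Sum.inr i)))) = 0 by linarith)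
    apply hx
    funext j
    obtain ⟨i, rfl⟩ := ee0.surjective j
    rcases i with i | i | i
    · exact congrFun z1 i
    · exact congrFun z2 i
    · exact congrFun z3 i
  · have := gsymm
    rw [Matrix.IsSymm] at this ⊢
    rw [Matrix.transpose_reindex, this]
  · intro i
    refine ⟨1, ?_⟩
    rw [Matrix.reindex_apply, Matrix.submatrix_apply, gdiag]
    norm_num
  · rw [Matrix.det_reindex_self, gdet]
  · obtain ⟨N, hN⟩ := ginv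
    refine ⟨Matrix.reindex ee0 ee0 N, ?_⟩
    rw [Matrix.reindex_apply, Matrix.reindex_apply, Matrix.submatrix_mul_equiv, hN,
      Matrix.submatrix_smul]
    simp
  · intro x h hx
    rw [bf_eq_dot, bf_reindex]
    refine gnorm _ (fun i => ?_) ?_
    · have := h (ee0 i)
      rw [Matrix.reindex_apply, Matrix.submatrix_mulVec_equiv] at this
      simpa [Function.comp_def] using this
    · obtain ⟨j, hj⟩ := hx
      obtain ⟨i, rfl⟩ := ee0.surjective j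
      exact ⟨i, hj⟩

end Pool.Agent.Helper188_RL.JE10
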