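import Pool.Agent.Helper188_RL.Stm1
set_option autoImplicit false
open MeasureTheory Complex Set Topology Pool.Agent.Y813.RL
namespace Pool.Agent.Helper188_RL.JE11

open scoped MatrixOrder in
theorem job : GR := by
  intro G hG
  have hM : (G.map (Int.cast : ℤ → ℝ)).PosDef := by
    refine Matrix.PosDef.of_dotProduct_mulVec_pos ?_ ?_
    · rw [Matrix.IsHermitian, Matrix.conjTranspose_eq_transpose_of_trivial]
      ext i j
      have := congrFun (congrFun hG.symm i) j
      simp only [Matrix.transpose_apply, Matrix.map_apply] at this ⊢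
      rw [this]
    · intro x hx
      have h := hG.pos x hx
      have e : star x ⬝ᵥ (G.map (Int.cast : ℤ → ℝ)).mulVec x = bf G x x := by
        simp only [bf, dotProduct, Matrix.mulVec, Matrix.map_apply, Pi.star_apply, star_trivial,
          Finset.mul_sum]
        refine Finset.sum_congr rfl fun i _ => Finset.sum_congr rfl fun j _ => ?_
        ring
      rw [e]
      exact h
  obtain ⟨B, hB⟩ := CStarAlgebra.nonneg_iff_eq_star_mul_self.mp hM.posSemidef.nonneg
  have hdet : IsUnit B.det := by
    have h1 : (G.map (Int.cast : ℤ → ℝ)).det ≠ 0 := hM.det_pos.ne'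
    rw [hB, Matrix.det_mul] at h1
    exact isUnit_iff_ne_zero.2 (right_ne_zero_of_mul h1)
  refine ⟨B⁻¹, B, Matrix.nonsing_inv_mul B hdet, Matrix.mul_nonsing_inv B hdet, ?_⟩
  rw [hB, Matrix.star_eq_conjTranspose, Matrix.conjTranspose_eq_transpose_of_trivial,
    Matrix.mul_assoc, Matrix.mul_assoc, Matrix.mul_nonsing_inv B hdet, Matrix.mul_one,
    ← Matrix.transpose_mul, Matrix.mul_nonsing_inv B hdet, Matrix.transpose_one]

end Pool.Agent.Helper188_RL.JE11
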