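-- JOB for MP_f1d0b6_nt (RL-E12). Owner helper188.
import Pool.Agent.Helper188_RL.Stm1
set_option autoImplicit false
open MeasureTheory Complex Set Topology Pool.Agent.Y813.RL
namespace Pool.Agent.Helper188_RL.JE12

theorem unit_one_add_two (t : ℤ_[2]) : IsUnit (1 + 2 * t) := by
  by_contra h
  have h2 : (2 : ℤ_[2]) ∈ nonunits ℤ_[2] := by
    have := PadicInt.p_nonunit (p := 2)
    simpa using this
  have h3 : -(2 * t) ∈ nonunits ℤ_[2] := by
    intro hu
    rw [IsUnit.neg_iff] at hu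
    exact h2 (isUnit_of_mul_isUnit_left hu)
  have h4 : (1 + 2 * t) + -(2 * t) ∈ nonunits ℤ_[2] := IsLocalRing.nonunits_add h h3
  rw [add_neg_cancel_right] at h4
  exact h4 isUnit_one

theorem int_dvd {a : ℤ} (h : (2 : ℤ_[2]) ∣ (a : ℤ_[2])) : (2 : ℤ) ∣ a := by
  have := (PadicInt.pow_p_dvd_int_iff (p := 2) 1 a).1 (by simpa using h)
  simpa using this

theorem exists_int (x : ℤ_[2]) : ∃ (n : ℤ) (z : ℤ_[2]), x = n + 4 * z := by
  have h := PadicInt.appr_spec (p := 2) 2 x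
  rw [Ideal.mem_span_singleton] at h
  obtain ⟨z, hz⟩ := h
  refine ⟨(PadicInt.appr x 2 : ℤ), z, ?_⟩
  have h1 : ((2 : ℕ) : ℤ_[2]) ^ 2 = 4 := by norm_num
  rw [h1] at hz
  rw [← hz]
  push_cast
  ring

theorem job (he : G2e) : G2f := by
  intro G hG
  obtain ⟨N, hN⟩ := hG.two
  refine he (G.map (Int.cast : ℤ → ℤ_[2])) (N.map (Int.cast : ℤ → ℤ_[2])) 1 ?_ ?_ ?_ isUnit_one ?_ ?_
  · exact hG.symm.map _
  · intro i
    obtain ⟨d, hd⟩ := hG.even i
    exact ⟨(d : ℤ_[2]), by rw [Matrix.map_apply, hd]; push_cast; ring⟩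
  · have h1 := congrArg (fun A : Matrix (Fin 20) (Fin 20) ℤ => A.map (Int.castRingHom ℤ_[2])) hN
    simp only [Matrix.map_mul] at h1
    have h2 : ((2 : ℤ) • (1 : Matrix (Fin 20) (Fin 20) ℤ)).map (Int.castRingHom ℤ_[2]) =
        (2 : ℤ_[2]) • (1 : Matrix (Fin 20) (Fin 20) ℤ_[2]) := by
      ext i j
      simp only [Matrix.map_apply, Matrix.smul_apply, smul_eq_mul, Matrix.one_apply]
      split_ifs <;> simp
    rw [h2] at h1
    exact h1
  · have h1 : (G.map (Int.cast : ℤ → ℤ_[2])).det = ((G.det : ℤ) : ℤ_[2]) := by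
      have := RingHom.map_det (Int.castRingHom ℤ_[2]) G
      exact this.symm
    rw [h1, hG.det]
    norm_num
  · intro x hx1 hx2
    choose x₀ z hxz using fun i => exists_int (x i)
    set M := G.map (Int.cast : ℤ → ℤ_[2]) with hM
    have hMs : M.IsSymm := hG.symm.map _
    have hx : x = (fun i => (x₀ i : ℤ_[2])) + (4 : ℤ_[2]) • z := by
      ext i
      simp only [Pi.add_apply, Pi.smul_apply, smul_eq_mul]
      exact hxz i
    have hcast : ∀ i, ((G.mulVec x₀ i : ℤ) : ℤ_[2]) = M.mulVec (fun i => (x₀ i : ℤ_[2])) i := by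
      intro i
      simp only [Matrix.mulVec, dotProduct, hM, Matrix.map_apply]
      push_cast
      rfl
    have h2 : ∀ i, (2 : ℤ) ∣ G.mulVec x₀ i := by
      intro i
      apply int_dvd
      rw [hcast]
      have h3 := hx1 i
      rw [hx, Matrix.mulVec_add, Matrix.mulVec_smul, Pi.add_apply, Pi.smul_apply, smul_eq_mul] at h3
      have h4 : (2 : ℤ_[2]) ∣ 4 * M.mulVec z i := ⟨2 * M.mulVec z i, by ring⟩
      exact (dvd_add_left h4).1 h3
    have h3 : ∃ i, ¬ (2 : ℤ) ∣ x₀ i := by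
      obtain ⟨i, hi⟩ := hx2
      refine ⟨i, fun h => hi ?_⟩
      rw [hxz i]
      obtain ⟨c, hc⟩ := h
      refine ⟨c + 2 * z i, ?_⟩
      rw [hc]
      push_cast
      ring
    obtain ⟨k, hk⟩ := hG.norm x₀ h2 h3
    have hk' : (fun i => (x₀ i : ℤ_[2])) ⬝ᵥ M.mulVec (fun i => (x₀ i : ℤ_[2])) = 4 * (2 * k + 1) := by
      have h5 := congrArg (Int.cast : ℤ → ℤ_[2]) hk
      simp only [dotProduct] at h5 ⊢
      push_cast at h5
      rw [← h5]
      apply Finset.sum_congr rfl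
      intro i _
      rw [hcast]
    have hsym : (fun i => (x₀ i : ℤ_[2])) ⬝ᵥ M.mulVec z = z ⬝ᵥ M.mulVec (fun i => (x₀ i : ℤ_[2])) := by
      rw [Matrix.dotProduct_mulVec, ← Matrix.mulVec_transpose, hMs.eq, dotProduct_comm]
    refine ⟨1 + 2 * (k + z ⬝ᵥ M.mulVec (fun i => (x₀ i : ℤ_[2])) + 2 * (z ⬝ᵥ M.mulVec z)),
      unit_one_add_two _, ?_⟩
    rw [hx, Matrix.mulVec_add, Matrix.mulVec_smul, add_dotProduct, dotProduct_add, dotProduct_add,
      smul_dotProduct, dotProduct_smul, smul_dotProduct, dotProduct_smul, hk', hsym]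
    simp only [smul_eq_mul]
    ring

end Pool.Agent.Helper188_RL.JE12
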