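import Pool.Agent.Helper188_RL.Stm1
set_option autoImplicit false
open MeasureTheory Complex Set Topology Pool.Agent.Y813.RL
namespace Pool.Agent.Helper188_RL.JE13

theorem iso_symm {R : Type} [CommRing R] {ι κ : Type} [Fintype ι] [Fintype κ] [DecidableEq ι]
    [DecidableEq κ] {M : Matrix ι ι R} {N : Matrix κ κ R} (h : Iso M N) : Iso N M := by
  obtain ⟨P, Q, h1, h2, h3⟩ := h
  refine ⟨Q, P, h2, h1, ?_⟩
  calc Q.transpose * N * Q = (P * Q).transpose * M * (P * Q) := by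
        rw [← h3, Matrix.transpose_mul]
        simp only [Matrix.mul_assoc]
    _ = M := by rw [h1, Matrix.transpose_one, Matrix.one_mul, Matrix.mul_one]

theorem iso_trans {R : Type} [CommRing R] {ι κ l : Type} [Fintype ι] [Fintype κ] [Fintype l]
    [DecidableEq ι] [DecidableEq κ] [DecidableEq l] {M : Matrix ι ι R} {N : Matrix κ κ R}
    {L : Matrix l l R} (h : Iso M N) (h' : Iso N L) : Iso M L := by
  obtain ⟨P, Q, h1, h2, h3⟩ := h
  obtain ⟨P', Q', h1', h2', h3'⟩ := h'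
  refine ⟨P * P', Q' * Q, ?_, ?_, ?_⟩
  · calc P * P' * (Q' * Q) = P * (P' * Q') * Q := by simp only [Matrix.mul_assoc]
      _ = 1 := by rw [h1', Matrix.mul_one, h1]
  · calc Q' * Q * (P * P') = Q' * (Q * P) * P' := by simp only [Matrix.mul_assoc]
      _ = 1 := by rw [h2, Matrix.mul_one, h2']
  · rw [← h3', ← h3, Matrix.transpose_mul]
    simp only [Matrix.mul_assoc]

theorem bf_eq {R : Type} [CommRing R] {ι : Type} [Fintype ι] (B : Matrix ι ι ℤ) (x y : ι → R) :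
    bf B x y = x ⬝ᵥ (B.map (Int.cast : ℤ → R)).mulVec y := by
  unfold bf
  simp only [dotProduct, Matrix.mulVec, Matrix.map_apply, Finset.mul_sum]
  exact Finset.sum_congr rfl fun i _ => Finset.sum_congr rfl fun j _ => by ring

theorem equiv_of_iso {R : Type} [CommRing R] {ι κ : Type} [Fintype ι] [Fintype κ] [DecidableEq ι]
    [DecidableEq κ] {B : Matrix ι ι ℤ} {C : Matrix κ κ ℤ}
    (h : Iso (B.map (Int.cast : ℤ → R)) (C.map (Int.cast : ℤ → R))) :
    ∃ e : (ι → R) ≃ₗ[R] (κ → R), ∀ x y, bf C (e x) (e y) = bf B x y := by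
  obtain ⟨P, Q, h1, h2, h3⟩ := h
  refine ⟨LinearEquiv.ofLinearMap (Matrix.mulVecLin Q) (Matrix.mulVecLin P) ?_ ?_, fun x y => ?_⟩
  · rw [← Matrix.mulVecLin_mul, h2, Matrix.mulVecLin_one]
  · rw [← Matrix.mulVecLin_mul, h1, Matrix.mulVecLin_one]
  · show bf C (Q.mulVec x) (Q.mulVec y) = bf B x y
    rw [bf_eq, bf_eq, ← h3, Matrix.mulVec_mulVec, ← Matrix.vecMul_transpose, ← Matrix.dotProduct_mulVec,
      Matrix.mulVec_mulVec]
    congr 2
    calc Q.transpose * (P.transpose * B.map (Int.cast : ℤ → R) * P * Q) =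
          (P * Q).transpose * B.map (Int.cast : ℤ → R) * (P * Q) := by
          rw [Matrix.transpose_mul]
          simp only [Matrix.mul_assoc]
      _ = _ := by rw [h1, Matrix.transpose_one, Matrix.one_mul, Matrix.mul_one]

theorem equiv_reindex {R : Type} [CommRing R] {ι κ : Type} [Fintype ι] [Fintype κ]
    (C : Matrix ι ι ℤ) (e : ι ≃ κ) :
    ∃ f : (κ → R) ≃ₗ[R] (ι → R), ∀ x y, bf C (f x) (f y) = bf (Matrix.reindex e e C) x y := by
  refine ⟨LinearEquiv.funCongrLeft R R e, fun x y => ?_⟩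
  show ∑ i, ∑ j, x (e i) * (C i j : R) * y (e j) =
    ∑ i, ∑ j, x i * (C (e.symm i) (e.symm j) : R) * y j
  rw [← Equiv.sum_comp e]
  apply Finset.sum_congr rfl
  intro i _
  rw [← Equiv.sum_comp e]
  apply Finset.sum_congr rfl
  intro j _
  rw [e.symm_apply_apply, e.symm_apply_apply]

theorem equiv_of_iso_reindex {R : Type} [CommRing R] {ι κ : Type} [Fintype ι] [Fintype κ]
    [DecidableEq κ] {G : Matrix κ κ ℤ} {C : Matrix ι ι ℤ} (e : ι ≃ κ)
    (h : Iso (G.map (Int.cast : ℤ → R)) ((Matrix.reindex e e C).map (Int.cast : ℤ → R))) :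
    ∃ f : (κ → R) ≃ₗ[R] (ι → R), ∀ x y, bf C (f x) (f y) = bf G x y := by
  obtain ⟨f, hf⟩ := equiv_of_iso h
  obtain ⟨f', hf'⟩ := equiv_reindex (R := R) C e
  exact ⟨f.trans f', fun x y => (hf' _ _).trans (hf x y)⟩

theorem isUnit_two (p : ℕ) [hp : Fact p.Prime] (h : p ≠ 2) : IsUnit (2 : ℤ_[p]) := by
  rw [PadicInt.isUnit_iff]
  by_contra h1
  have h2 : ‖(2 : ℤ_[p])‖ < 1 := lt_of_le_of_ne (PadicInt.norm_le_one _) h1
  have h3 : ‖((2 : ℤ) : ℤ_[p])‖ < 1 := by simpa using h2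
  rw [PadicInt.norm_int_lt_one_iff_dvd] at h3
  have h4 : p ∣ 2 := by exact_mod_cast h3
  exact h ((Nat.prime_dvd_prime_iff_eq hp.out Nat.prime_two).mp h4)

theorem iso_one_of_odd (hc : GOc) {G : Matrix (Fin 20) (Fin 20) ℤ} (hG : Cond4 G) (p : ℕ)
    [Fact p.Prime] (hp : p ≠ 2) :
    Iso (G.map (Int.cast : ℤ → ℤ_[p])) (1 : Matrix (Fin 20) (Fin 20) ℤ_[p]) := by
  refine hc p hp 20 _ 2 (hG.symm.map _) (isUnit_two p hp) ?_
  have h1 : (G.map (Int.cast : ℤ → ℤ_[p])).det = ((G.det : ℤ) : ℤ_[p]) :=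
    (RingHom.map_det (Int.castRingHom ℤ_[p]) G).symm
  rw [h1, hG.det]
  norm_num

theorem job (hr : GR) (hc : GOc) (h2 : G2f) (hd : GD) (he : GE) : JobGenus := by
  intro G hG heven hμ hdet
  have hC := hd G hG heven hμ hdet
  obtain ⟨e, hE, hCE⟩ := he
  refine ⟨equiv_of_iso_reindex e (iso_trans (hr G hG) (iso_symm (hr _ hE))), fun p _ => ?_⟩
  by_cases hp : p = 2
  · subst hp
    exact equiv_of_iso_reindex e (iso_trans (h2 G hC) (iso_symm (h2 _ hCE)))
  · exact equiv_of_iso_reindex e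
      (iso_trans (iso_one_of_odd hc hC p hp) (iso_symm (iso_one_of_odd hc hCE p hp)))

end Pool.Agent.Helper188_RL.JE13
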