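-- JOB for MP_f1d0b6_nt (full answer; finishing the starting project Pool/Agent/Y813/RL). Owner helper188.
import Pool.Agent.Helper188_RL.Stm1
set_option autoImplicit false
open MeasureTheory Complex Set Topology Pool.Agent.Y813.RL
namespace Pool.Agent.Helper188_RL.JE2

open Polynomial in
theorem half (p : ℕ) [Fact p.Prime] (hp : p ≠ 2) (u v x₀ y : ℤ_[p]) (hu : IsUnit u)
    (hx : IsUnit x₀) (h : PadicInt.toZMod (u * x₀ ^ 2 + v * y ^ 2 - 1) = 0) :
    ∃ x : ℤ_[p], u * x ^ 2 + v * y ^ 2 = 1 := by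
  have h2 : IsUnit (2 : ℤ_[p]) := by
    rw [PadicInt.isUnit_iff]
    have h3 : ((2 : ℕ) : ℤ_[p]) = 2 := by norm_num
    rw [← h3, PadicInt.norm_natCast_eq_one_iff]
    exact (Nat.coprime_primes (Fact.out : p.Prime) Nat.prime_two).2 hp
  obtain ⟨w, hw⟩ : ∃ w : ℤ_[p], w = 1 - v * y ^ 2 := ⟨_, rfl⟩
  set F : ℤ_[p][X] := C u * X ^ 2 - C w with hF
  have e1 : ∀ z : ℤ_[p], F.aeval z = u * z ^ 2 + v * y ^ 2 - 1 := by
    intro z
    simp [hF, hw]
    ring
  have e2 : F.derivative.aeval x₀ = 2 * u * x₀ := by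
    simp [hF]
    ring
  have hn1 : ‖F.aeval x₀‖ < 1 := by
    rw [e1, ← PadicInt.not_isUnit_iff]
    have h4 : u * x₀ ^ 2 + v * y ^ 2 - 1 ∈ RingHom.ker (PadicInt.toZMod (p := p)) := h
    rw [PadicInt.ker_toZMod, IsLocalRing.mem_maximalIdeal, mem_nonunits_iff] at h4
    exact h4
  have hn2 : ‖F.derivative.aeval x₀‖ = 1 := by
    rw [e2, ← PadicInt.isUnit_iff]
    exact (h2.mul hu).mul hx
  obtain ⟨z, hz, -⟩ := hensels_lemma (F := F) (a := x₀) (by rw [hn2, one_pow]; exact hn1)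
  refine ⟨z, ?_⟩
  rw [e1] at hz
  linear_combination hz

open Polynomial in
theorem repr_one (p : ℕ) [Fact p.Prime] (hp : p ≠ 2) (u v : ℤ_[p]) (hu : IsUnit u)
    (hv : IsUnit v) : ∃ x y : ℤ_[p], u * x ^ 2 + v * y ^ 2 = 1 := by
  have hun : PadicInt.toZMod u ≠ 0 := by
    intro h
    exact (hu.map (PadicInt.toZMod (p := p))).ne_zero h
  have hvn : PadicInt.toZMod v ≠ 0 := by
    intro h
    exact (hv.map (PadicInt.toZMod (p := p))).ne_zero h
  have hodd : Fintype.card (ZMod p) % 2 = 1 := by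
    rw [ZMod.card]
    rcases (Fact.out : p.Prime).eq_two_or_odd with h | h
    · exact absurd h hp
    · exact h
  have hf : (C (PadicInt.toZMod u) * X ^ 2 : (ZMod p)[X]).degree = 2 := by
    rw [degree_C_mul hun, degree_X_pow]
    norm_num
  have hg : (C (PadicInt.toZMod v) * X ^ 2 - C 1 : (ZMod p)[X]).degree = 2 := by
    rw [degree_sub_C]
    · rw [degree_C_mul hvn, degree_X_pow]
      norm_num
    · rw [degree_C_mul hvn, degree_X_pow]
      norm_num
  obtain ⟨a, b, hab⟩ := FiniteField.exists_root_sum_quadratic hf hg hodd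
  simp only [eval_mul, eval_C, eval_pow, eval_X, eval_sub] at hab
  obtain ⟨x₀, hx₀⟩ : ∃ x₀ : ℤ_[p], PadicInt.toZMod x₀ = a := ⟨(a.val : ℤ_[p]), by
    rw [map_natCast, ZMod.natCast_zmod_val]⟩
  obtain ⟨y₀, hy₀⟩ : ∃ y₀ : ℤ_[p], PadicInt.toZMod y₀ = b := ⟨(b.val : ℤ_[p]), by
    rw [map_natCast, ZMod.natCast_zmod_val]⟩
  have hunit : ∀ z : ℤ_[p], PadicInt.toZMod z ≠ 0 → IsUnit z := by
    intro z hz
    by_contra hc
    apply hz
    have h4 : z ∈ RingHom.ker (PadicInt.toZMod (p := p)) := by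
      rw [PadicInt.ker_toZMod, IsLocalRing.mem_maximalIdeal, mem_nonunits_iff]
      exact hc
    exact h4
  by_cases ha : a = 0
  · have hb : b ≠ 0 := by
      intro hb
      rw [ha, hb] at hab
      simp at hab
    obtain ⟨y, hy⟩ := half p hp v u y₀ x₀ hv (hunit y₀ (by rw [hy₀]; exact hb)) (by
      simp only [map_sub, map_add, map_mul, map_pow, map_one, hx₀, hy₀]
      linear_combination hab)
    exact ⟨x₀, y, by linear_combination hy⟩
  · obtain ⟨x, hx⟩ := half p hp u v x₀ y₀ hu (hunit x₀ (by rw [hx₀]; exact ha)) (by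
      simp only [map_sub, map_add, map_mul, map_pow, map_one, hx₀, hy₀]
      linear_combination hab)
    exact ⟨x, y₀, hx⟩

theorem job : GOb := by
  intro p _ hp u v hu hv
  obtain ⟨x, y, hxy⟩ := repr_one p hp u v hu hv
  refine ⟨!![x, -v * y; y, u * x], !![u * x, v * y; -y, x], ?_, ?_, ?_⟩
  · ext i j
    fin_cases i <;> fin_cases j <;>
      simp [Matrix.mul_apply, Fin.sum_univ_two] <;>
      first | ring1 | linear_combination hxy
  · ext i j
    fin_cases i <;> fin_cases j <;>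
      simp [Matrix.mul_apply, Fin.sum_univ_two] <;>
      first | ring1 | linear_combination hxy
  · ext i j
    fin_cases i <;> fin_cases j <;>
      simp [Matrix.mul_apply, Fin.sum_univ_two, Matrix.diagonal] <;>
      first | ring1 | linear_combination hxy | linear_combination (u * v) * hxy

end Pool.Agent.Helper188_RL.JE2
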