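import Pool.Agent.Helper188_RL.Stm1
set_option autoImplicit false
open MeasureTheory Complex Set Topology Pool.Agent.Y813.RL
namespace Pool.Agent.Helper188_RL.JE3

open Matrix

variable {R : Type} [CommRing R]

theorem Iso.refl' {ι : Type} [Fintype ι] [DecidableEq ι] (M : Matrix ι ι R) : Iso M M :=
  ⟨1, 1, by simp, by simp, by simp⟩

theorem Iso.trans' {ι κ ν : Type} [Fintype ι] [Fintype κ] [Fintype ν] [DecidableEq ι]
    [DecidableEq κ] [DecidableEq ν] {M : Matrix ι ι R} {N : Matrix κ κ R} {K : Matrix ν ν R}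
    (h : Iso M N) (h' : Iso N K) : Iso M K := by
  obtain ⟨P, Q, h1, h2, h3⟩ := h
  obtain ⟨P', Q', h1', h2', h3'⟩ := h'
  refine ⟨P * P', Q' * Q, ?_, ?_, ?_⟩
  · calc P * P' * (Q' * Q) = P * (P' * Q') * Q := by simp only [Matrix.mul_assoc]
      _ = 1 := by rw [h1', Matrix.mul_one, h1]
  · calc Q' * Q * (P * P') = Q' * (Q * P) * P' := by simp only [Matrix.mul_assoc]
      _ = 1 := by rw [h2, Matrix.mul_one, h2']
  · calc (P * P').transpose * M * (P * P') = P'.transpose * (P.transpose * M * P) * P' := by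
          simp only [Matrix.transpose_mul, Matrix.mul_assoc]
      _ = K := by rw [h3, h3']

theorem Iso.blocks {ι κ ι' κ' : Type} [Fintype ι] [Fintype κ] [Fintype ι'] [Fintype κ']
    [DecidableEq ι] [DecidableEq κ] [DecidableEq ι'] [DecidableEq κ']
    {M : Matrix ι ι R} {N : Matrix κ κ R} {M' : Matrix ι' ι' R} {N' : Matrix κ' κ' R}
    (h : Iso M N) (h' : Iso M' N') :
    Iso (Matrix.fromBlocks M 0 0 M') (Matrix.fromBlocks N 0 0 N') := by
  obtain ⟨P, Q, h1, h2, h3⟩ := h
  obtain ⟨P', Q', h1', h2', h3'⟩ := h'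
  refine ⟨Matrix.fromBlocks P 0 0 P', Matrix.fromBlocks Q 0 0 Q', ?_, ?_, ?_⟩
  · simp [Matrix.fromBlocks_multiply, h1, h1']
  · simp [Matrix.fromBlocks_multiply, h2, h2']
  · simp [Matrix.fromBlocks_multiply, Matrix.fromBlocks_transpose, h3, h3']

theorem Iso.reindex {ι κ : Type} [Fintype ι] [Fintype κ] [DecidableEq ι] [DecidableEq κ]
    (M : Matrix ι ι R) (e : κ ≃ ι) : Iso M (M.submatrix e e) := by
  refine ⟨(1 : Matrix ι ι R).submatrix id e, (1 : Matrix ι ι R).submatrix e id, ?_, ?_, ?_⟩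
  · rw [Matrix.submatrix_mul_equiv]
    simp
  · have := Matrix.submatrix_mul_equiv (1 : Matrix ι ι R) (1 : Matrix ι ι R) e (Equiv.refl ι) e
    simpa using this
  · have h1 : ((1 : Matrix ι ι R).submatrix id e).transpose = (1 : Matrix ι ι R).submatrix e id := by
      rw [Matrix.transpose_submatrix, Matrix.transpose_one]
    rw [h1]
    have h2 := Matrix.submatrix_mul_equiv (1 : Matrix ι ι R) M e (Equiv.refl ι) id
    simp only [Equiv.coe_refl, Matrix.one_mul, Matrix.submatrix_id_id] at h2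
    rw [h2]
    have h3 := Matrix.submatrix_mul_equiv M (1 : Matrix ι ι R) e (Equiv.refl ι) e
    simpa using h3

theorem Iso.diag {ι κ : Type} [Fintype ι] [Fintype κ] [DecidableEq ι] [DecidableEq κ]
    (d : ι → R) (e : κ ≃ ι) : Iso (Matrix.diagonal d) (Matrix.diagonal (d ∘ e)) := by
  have := Iso.reindex (Matrix.diagonal d) e
  rwa [Matrix.submatrix_diagonal_equiv] at this

theorem diag_sum {ι κ : Type} [DecidableEq ι] [DecidableEq κ] (d : ι ⊕ κ → R) :
    Matrix.diagonal d = Matrix.fromBlocks (Matrix.diagonal (d ∘ Sum.inl)) 0 0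
      (Matrix.diagonal (d ∘ Sum.inr)) := by
  rw [Matrix.fromBlocks_diagonal]
  congr 1
  funext x
  rcases x with x | x <;> rfl

theorem key (p : ℕ) [Fact p.Prime] (hp : p ≠ 2) (hb : GOb) : ∀ (n : ℕ) (ι : Type) [Fintype ι]
    [DecidableEq ι], Fintype.card ι = n → ∀ (d : ι → ℤ_[p]) (t : ℤ_[p]), IsUnit t →
    (∀ i, IsUnit (d i)) → ∏ i, d i = t ^ 2 → Iso (Matrix.diagonal d) (1 : Matrix ι ι ℤ_[p]) := by
  intro n
  induction n with
  | zero =>
    intro ι _ _ hc d t _ _ _
    have : IsEmpty ι := Fintype.card_eq_zero_iff.mp hc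
    have h : Matrix.diagonal d = (1 : Matrix ι ι ℤ_[p]) := by
      ext i
      exact isEmptyElim i
    rw [h]
    exact Iso.refl' _
  | succ n ih =>
    intro ι _ _ hc d t ht hu hd
    rcases n with _ | n
    · -- one index
      obtain ⟨i, hi⟩ := Fintype.card_eq_one_iff.mp hc
      have : Unique ι := ⟨⟨i⟩, hi⟩
      obtain ⟨v, rfl⟩ := ht
      have hdi : ∀ j, d j = (v : ℤ_[p]) ^ 2 := by
        intro j
        rw [← hd, Fintype.prod_unique, Subsingleton.elim j default]
      refine ⟨Matrix.diagonal fun _ => ((v⁻¹ : (ℤ_[p])ˣ) : ℤ_[p]), Matrix.diagonal fun _ => (v : ℤ_[p]),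
        ?_, ?_, ?_⟩
      · rw [Matrix.diagonal_mul_diagonal]
        simp
      · rw [Matrix.diagonal_mul_diagonal]
        simp
      · rw [Matrix.diagonal_transpose, Matrix.diagonal_mul_diagonal, Matrix.diagonal_mul_diagonal,
          ← Matrix.diagonal_one]
        congr 1
        funext j
        rw [hdi j]
        have : ((v⁻¹ : (ℤ_[p])ˣ) : ℤ_[p]) * (v : ℤ_[p]) = 1 := by simp
        linear_combination (((v⁻¹ : (ℤ_[p])ˣ) : ℤ_[p]) * (v : ℤ_[p]) + 1) * this
    · -- at least two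
      have hcard : Fintype.card ((Fin 1 ⊕ Fin 1) ⊕ Fin n) = Fintype.card ι := by
        rw [hc]
        simp
        ring
      obtain ⟨e⟩ := Fintype.card_eq.mp hcard
      set u := d (e (Sum.inl (Sum.inl 0))) with hudef
      set v := d (e (Sum.inl (Sum.inr 0))) with hvdef
      set r : Fin n → ℤ_[p] := fun i => d (e (Sum.inr i)) with hr
      have s1 : Iso (Matrix.diagonal d) (Matrix.diagonal (d ∘ e)) := Iso.diag d e
      have e1 : Matrix.diagonal (d ∘ e) = Matrix.fromBlocks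
          (Matrix.diagonal (fun x : Fin 1 ⊕ Fin 1 => d (e (Sum.inl x)))) 0 0
          (Matrix.diagonal r) := diag_sum (d ∘ e)
      have s2 : Iso (Matrix.diagonal (fun x : Fin 1 ⊕ Fin 1 => d (e (Sum.inl x))))
          (Matrix.diagonal (Sum.elim (fun _ : Fin 1 => (1 : ℤ_[p])) (fun _ : Fin 1 => u * v))) := by
        have a1 := Iso.diag (fun x : Fin 1 ⊕ Fin 1 => d (e (Sum.inl x)))
          (finSumFinEquiv (m := 1) (n := 1)).symm
        have a2 : ((fun x : Fin 1 ⊕ Fin 1 => d (e (Sum.inl x))) ∘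
            (finSumFinEquiv (m := 1) (n := 1)).symm) = ![u, v] := by
          funext x
          fin_cases x <;> rfl
        rw [a2] at a1
        have a3 := hb p hp u v (hu _) (hu _)
        have a4 := Iso.diag (R := ℤ_[p]) ![1, u * v] (finSumFinEquiv (m := 1) (n := 1))
        have a5 : (![1, u * v] ∘ (finSumFinEquiv (m := 1) (n := 1)) : Fin 1 ⊕ Fin 1 → ℤ_[p]) =
            Sum.elim (fun _ : Fin 1 => (1 : ℤ_[p])) (fun _ : Fin 1 => u * v) := by
          funext x
          rcases x with x | x <;> fin_cases x <;> rfl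
        rw [a5] at a4
        exact Iso.trans' (Iso.trans' a1 a3) a4
      have s3 : Iso (Matrix.diagonal d) (Matrix.fromBlocks
          (Matrix.diagonal (Sum.elim (fun _ : Fin 1 => (1 : ℤ_[p])) (fun _ : Fin 1 => u * v))) 0 0
          (Matrix.diagonal r)) := by
        rw [e1] at s1
        exact Iso.trans' s1 (Iso.blocks s2 (Iso.refl' _))
      have e2 : Matrix.fromBlocks
          (Matrix.diagonal (Sum.elim (fun _ : Fin 1 => (1 : ℤ_[p])) (fun _ : Fin 1 => u * v))) 0 0
          (Matrix.diagonal r) =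
          Matrix.diagonal (Sum.elim (Sum.elim (fun _ : Fin 1 => (1 : ℤ_[p]))
            (fun _ : Fin 1 => u * v)) r) := by
        rw [diag_sum (Sum.elim (Sum.elim (fun _ : Fin 1 => (1 : ℤ_[p]))
            (fun _ : Fin 1 => u * v)) r)]
        rfl
      rw [e2] at s3
      have s4 := Iso.diag (Sum.elim (Sum.elim (fun _ : Fin 1 => (1 : ℤ_[p]))
            (fun _ : Fin 1 => u * v)) r) (Equiv.sumAssoc (Fin 1) (Fin 1) (Fin n)).symm
      have e3 : (Sum.elim (Sum.elim (fun _ : Fin 1 => (1 : ℤ_[p]))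
            (fun _ : Fin 1 => u * v)) r) ∘ (Equiv.sumAssoc (Fin 1) (Fin 1) (Fin n)).symm =
          Sum.elim (fun _ : Fin 1 => (1 : ℤ_[p])) (Sum.elim (fun _ : Fin 1 => u * v) r) := by
        funext x
        rcases x with x | x | x <;> rfl
      rw [e3, diag_sum (Sum.elim (fun _ : Fin 1 => (1 : ℤ_[p]))
        (Sum.elim (fun _ : Fin 1 => u * v) r))] at s4
      have s5 : Iso (Matrix.diagonal ((Sum.elim (fun _ : Fin 1 => (1 : ℤ_[p]))
          (Sum.elim (fun _ : Fin 1 => u * v) r)) ∘ Sum.inr))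
          (1 : Matrix (Fin 1 ⊕ Fin n) (Fin 1 ⊕ Fin n) ℤ_[p]) := by
        apply ih (Fin 1 ⊕ Fin n) (by simp; ring) _ t ht
        · rintro (i | i)
          · exact (hu _).mul (hu _)
          · exact hu _
        · rw [← hd, ← Equiv.prod_comp e d]
          simp only [Fintype.prod_sum_type, Function.comp_apply, Sum.elim_inr, Sum.elim_inl,
            Finset.univ_unique, Finset.prod_singleton]
          rfl
      have s6 : Iso (Matrix.diagonal ((Sum.elim (fun _ : Fin 1 => (1 : ℤ_[p]))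
          (Sum.elim (fun _ : Fin 1 => u * v) r)) ∘ Sum.inl))
          (1 : Matrix (Fin 1) (Fin 1) ℤ_[p]) := by
        have : Matrix.diagonal ((Sum.elim (fun _ : Fin 1 => (1 : ℤ_[p]))
          (Sum.elim (fun _ : Fin 1 => u * v) r)) ∘ Sum.inl) =
            (1 : Matrix (Fin 1) (Fin 1) ℤ_[p]) := by
          rw [← Matrix.diagonal_one]
          rfl
        rw [this]
        exact Iso.refl' _
      have s7 := Iso.trans' (Iso.trans' s3 s4) (Iso.blocks s6 s5)
      rw [Matrix.fromBlocks_one] at s7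
      have s8 := Iso.diag (R := ℤ_[p]) (fun _ : Fin 1 ⊕ (Fin 1 ⊕ Fin n) => (1 : ℤ_[p]))
        ((e.symm.trans (Equiv.sumAssoc (Fin 1) (Fin 1) (Fin n))))
      have e4 : ((fun _ : Fin 1 ⊕ (Fin 1 ⊕ Fin n) => (1 : ℤ_[p])) ∘
          ((e.symm.trans (Equiv.sumAssoc (Fin 1) (Fin 1) (Fin n))))) = fun _ => 1 := rfl
      rw [e4, Matrix.diagonal_one, Matrix.diagonal_one] at s8
      exact Iso.trans' s7 s8

theorem job (ha : GOa) (hb : GOb) : GOc := by
  intro p _ hp n M s hM hs hdet
  obtain ⟨d, hd⟩ := ha p hp n M hM (by rw [hdet]; exact hs.pow 2)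
  obtain ⟨P, Q, h1, h2, h3⟩ := id hd
  have hPu : IsUnit P.det := by
    have : P.det * Q.det = 1 := by rw [← Matrix.det_mul, h1, Matrix.det_one]
    exact IsUnit.of_mul_eq_one _ this
  have hprod : ∏ i, d i = (P.det * s) ^ 2 := by
    rw [← Matrix.det_diagonal, ← h3, Matrix.det_mul, Matrix.det_mul, Matrix.det_transpose, hdet]
    ring
  have hu : ∀ i, IsUnit (d i) := by
    have : IsUnit (∏ i, d i) := by
      rw [hprod]
      exact (hPu.mul hs).pow 2
    intro i
    exact isUnit_of_dvd_unit (Finset.dvd_prod_of_mem d (Finset.mem_univ i)) this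
  exact Iso.trans' hd (key p hp hb n (Fin n) (Fintype.card_fin n) d (P.det * s) (hPu.mul hs) hu hprod)

end Pool.Agent.Helper188_RL.JE3
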