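import Pool.Agent.Helper188_RL.Stm1
set_option autoImplicit false
open MeasureTheory Complex Set Topology Pool.Agent.Y813.RL
namespace Pool.Agent.Helper188_RL.JE4

theorem m2 {a b c d a' b' c' d' : ℤ_[2]} (h1 : a = a') (h2 : b = b') (h3 : c = c') (h4 : d = d') :
    (!![a, b; c, d] : Matrix (Fin 2) (Fin 2) ℤ_[2]) = !![a', b'; c', d'] := by
  subst h1 h2 h3 h4; rfl

theorem tr2 (a b c d : ℤ_[2]) :
    (!![a, b; c, d] : Matrix (Fin 2) (Fin 2) ℤ_[2]).transpose = !![a, c; b, d] := by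
  ext i j
  fin_cases i <;> fin_cases j <;> rfl

/-- the hyperbolic case -/
theorem isoU (a b c t v : ℤ_[2]) (h1 : a * t ^ 2 + b * t + c = 0) (h2 : (2 * a * t + b) * v = 1) :
    Iso (!![2 * a, b; b, 2 * c] : Matrix (Fin 2) (Fin 2) ℤ_[2]) (zU ℤ_[2]) := by
  refine ⟨!![t, v - a * v ^ 2 * t; 1, -(a * v ^ 2)],
    !![a * v, 1 - a * v * t; 2 * a * t + b, -((2 * a * t + b) * t)], ?_, ?_, ?_⟩
  · rw [Matrix.mul_fin_two, Matrix.one_fin_two]
    apply m2
    · linear_combination (1 - a * v * t) * h2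
    · linear_combination (-t + a * v * t ^ 2) * h2
    · linear_combination (-(a * v)) * h2
    · linear_combination (a * v * t) * h2
  · rw [Matrix.mul_fin_two, Matrix.one_fin_two]
    apply m2
    · ring
    · ring
    · ring
    · linear_combination h2
  · rw [tr2, Matrix.mul_fin_two, Matrix.mul_fin_two]
    unfold zU
    apply m2
    · linear_combination 2 * h1
    · linear_combination (-(2 * a * v ^ 2)) * h1 + h2
    · linear_combination (-(2 * a * v ^ 2)) * h1 + h2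
    · linear_combination (2 * a ^ 2 * v ^ 4) * h1 - 2 * a * v ^ 2 * h2

/-- the hyperbolic case, `a` even -/
theorem isoU' (a b c t v : ℤ_[2]) (h1 : c * t ^ 2 + b * t + a = 0) (h2 : (2 * c * t + b) * v = 1) :
    Iso (!![2 * a, b; b, 2 * c] : Matrix (Fin 2) (Fin 2) ℤ_[2]) (zU ℤ_[2]) := by
  refine ⟨!![1, -(c * v ^ 2); t, v - c * v ^ 2 * t],
    !![1 - c * v * t, c * v; -((2 * c * t + b) * t), 2 * c * t + b], ?_, ?_, ?_⟩
  · rw [Matrix.mul_fin_two, Matrix.one_fin_two]
    apply m2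
    · linear_combination (c * v * t) * h2
    · linear_combination (-(c * v)) * h2
    · linear_combination (-t + c * v * t ^ 2) * h2
    · linear_combination (1 - c * v * t) * h2
  · rw [Matrix.mul_fin_two, Matrix.one_fin_two]
    apply m2
    · ring
    · ring
    · ring
    · linear_combination h2
  · rw [tr2, Matrix.mul_fin_two, Matrix.mul_fin_two]
    unfold zU
    apply m2
    · linear_combination 2 * h1
    · linear_combination (-(2 * c * v ^ 2)) * h1 + h2
    · linear_combination (-(2 * c * v ^ 2)) * h1 + h2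
    · linear_combination (2 * c ^ 2 * v ^ 4) * h1 - 2 * c * v ^ 2 * h2

/-- the anisotropic case -/
theorem isoV (a b c x v σ β : ℤ_[2]) (h1 : a * x ^ 2 + b * x + c = 1)
    (h2 : (2 * a * x + b) * v = 1) (h3 : 3 * σ ^ 2 + 3 * σ + 1 = a * v ^ 2)
    (h4 : (1 + 2 * σ) * β = 1) :
    Iso (!![2 * a, b; b, 2 * c] : Matrix (Fin 2) (Fin 2) ℤ_[2]) (zV ℤ_[2]) := by
  refine ⟨!![x, β * (σ * x + v); 1, σ * β],
    !![-((2 * a * x + b) * σ), (2 * a * x + b) * σ * x + 1;
      (2 * a * x + b) * (1 + 2 * σ), -((2 * a * x + b) * (1 + 2 * σ) * x)], ?_, ?_, ?_⟩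
  · rw [Matrix.mul_fin_two, Matrix.one_fin_two]
    apply m2
    · linear_combination (σ * x * (2 * a * x + b) + v * (2 * a * x + b)) * h4 + h2
    · linear_combination (-((σ * x * (2 * a * x + b) + v * (2 * a * x + b)) * x)) * h4 - x * h2
    · linear_combination ((2 * a * x + b) * σ) * h4
    · linear_combination (-((2 * a * x + b) * σ * x)) * h4
  · rw [Matrix.mul_fin_two, Matrix.one_fin_two]
    apply m2
    · ring
    · linear_combination (-(σ * β)) * h2
    · ring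
    · linear_combination ((2 * a * x + b) * v) * h4 + h2
  · rw [tr2, Matrix.mul_fin_two, Matrix.mul_fin_two]
    unfold zV
    apply m2
    · linear_combination 2 * h1
    · linear_combination (2 * σ * β) * h1 + β * h2 + h4
    · linear_combination (2 * σ * β) * h1 + β * h2 + h4
    · linear_combination (2 * σ ^ 2 * β ^ 2) * h1 + (2 * σ * β ^ 2) * h2 - (2 * β ^ 2) * h3
        + (2 * (1 + (1 + 2 * σ) * β)) * h4

theorem unit_iff (z : ℤ_[2]) : IsUnit z ↔ ¬ (2 : ℤ_[2]) ∣ z := by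
  have h := PadicInt.norm_lt_one_iff_dvd (p := 2) z
  have h2 := PadicInt.not_isUnit_iff (p := 2) (z := z)
  rw [h] at h2
  have h3 : ((2 : ℕ) : ℤ_[2]) = 2 := by norm_num
  rw [h3] at h2
  tauto

theorem parity (z : ℤ_[2]) : (2 : ℤ_[2]) ∣ z ∨ (2 : ℤ_[2]) ∣ z - 1 := by
  have key : ∀ w : ℤ_[2], PadicInt.toZMod w = 0 → (2 : ℤ_[2]) ∣ w := by
    intro w hw
    have h1 : w ∈ RingHom.ker (PadicInt.toZMod (p := 2)) := hw
    rw [PadicInt.ker_toZMod] at h1
    by_contra hcon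
    exact (IsLocalRing.mem_maximalIdeal w).1 h1 ((unit_iff w).2 hcon)
  have h : ∀ q : ZMod 2, q = 0 ∨ q = 1 := by decide
  rcases h (PadicInt.toZMod z) with h | h
  · left; exact key z h
  · right; apply key; rw [map_sub, h, map_one, sub_self]

theorem hens (A B C : ℤ_[2]) (hB : IsUnit B) (hC : (2 : ℤ_[2]) ∣ C) :
    ∃ t, A * t ^ 2 + B * t + C = 0 := by
  set F : Polynomial ℤ_[2] := Polynomial.C A * Polynomial.X ^ 2 + Polynomial.C B * Polynomial.X
    + Polynomial.C C with hF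
  have h0 : F.aeval (0 : ℤ_[2]) = C := by simp [hF]
  have h1 : F.derivative.aeval (0 : ℤ_[2]) = B := by simp [hF]
  have hB1 : ‖B‖ = 1 := PadicInt.isUnit_iff.1 hB
  have hC1 : ‖C‖ < 1 := by
    rw [PadicInt.norm_lt_one_iff_dvd]
    exact_mod_cast hC
  have hn : ‖F.aeval (0 : ℤ_[2])‖ < ‖F.derivative.aeval (0 : ℤ_[2])‖ ^ 2 := by
    rw [h0, h1, hB1]; simpa using hC1
  obtain ⟨z, hz, _⟩ := hensels_lemma hn
  refine ⟨z, ?_⟩
  have : F.aeval z = A * z ^ 2 + B * z + C := by simp [hF]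
  rw [← this]; exact hz

theorem unit_add_two (b w : ℤ_[2]) (hb : IsUnit b) : IsUnit (2 * w + b) := by
  rw [unit_iff] at *
  intro h
  exact hb ((dvd_add_right (Dvd.intro _ rfl)).1 h)

theorem job : G2a := by
  intro a b c hb
  rcases parity c with hc | hc
  · left
    obtain ⟨t, ht⟩ := hens a b c hb hc
    obtain ⟨u, hu⟩ := unit_add_two b (a * t) hb
    have : (2 * a * t + b) * (u⁻¹ : (ℤ_[2])ˣ) = 1 := by
      have h : 2 * a * t + b = u := by rw [hu]; ring
      rw [h]; exact u.mul_inv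
    exact isoU a b c t _ ht this
  rcases parity a with ha | ha
  · left
    obtain ⟨t, ht⟩ := hens c b a hb ha
    obtain ⟨u, hu⟩ := unit_add_two b (c * t) hb
    have : (2 * c * t + b) * (u⁻¹ : (ℤ_[2])ˣ) = 1 := by
      have h : 2 * c * t + b = u := by rw [hu]; ring
      rw [h]; exact u.mul_inv
    exact isoU' a b c t _ ht this
  right
  obtain ⟨x, hx⟩ := hens a b (c - 1) hb hc
  obtain ⟨u, hu⟩ := unit_add_two b (a * x) hb
  have h2 : (2 * a * x + b) * (u⁻¹ : (ℤ_[2])ˣ) = 1 := by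
    have h : 2 * a * x + b = u := by rw [hu]; ring
    rw [h]; exact u.mul_inv
  set v : ℤ_[2] := ((u⁻¹ : (ℤ_[2])ˣ) : ℤ_[2]) with hv
  have hvu : IsUnit v := (u⁻¹).isUnit
  have hv2 : (2 : ℤ_[2]) ∣ v - 1 := by
    rcases parity v with h | h
    · exact absurd h ((unit_iff v).1 hvu)
    · exact h
  have h3u : IsUnit (3 : ℤ_[2]) := by
    rw [unit_iff]
    intro h
    have : IsUnit (1 : ℤ_[2]) := isUnit_one
    rw [unit_iff] at this
    apply this
    have e : (3 : ℤ_[2]) = 2 * 1 + 1 := by norm_num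
    rw [e] at h
    exact (dvd_add_right (Dvd.intro _ rfl)).1 h
  have hC : (2 : ℤ_[2]) ∣ 1 - a * v ^ 2 := by
    have e : 1 - a * v ^ 2 = -((a - 1) + (v - 1) * (a * (v + 1))) := by ring
    rw [e]
    exact (dvd_neg).2 (dvd_add ha (Dvd.dvd.mul_right hv2 _))
  obtain ⟨σ, hσ⟩ := hens 3 3 (1 - a * v ^ 2) h3u hC
  obtain ⟨s, hs⟩ := unit_add_two 1 σ isUnit_one
  have h4 : (1 + 2 * σ) * ((s⁻¹ : (ℤ_[2])ˣ) : ℤ_[2]) = 1 := by
    have h : 1 + 2 * σ = s := by rw [hs]; ring
    rw [h]; exact s.mul_inv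
  refine isoV a b c x v σ _ ?_ h2 ?_ h4
  · linear_combination hx
  · linear_combination hσ

end Pool.Agent.Helper188_RL.JE4

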