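import Pool.Agent.Helper188_RL.Stm1
set_option autoImplicit false
open MeasureTheory Complex Set Topology Pool.Agent.Y813.RL
namespace Pool.Agent.Helper188_RL.JE5

theorem exists_t : ∃ t : ℤ_[2], t ^ 2 + t + 2 = 0 := by
  have h := @hensels_lemma 2 _ ℤ_[2] _ _
    (Polynomial.X ^ 2 + Polynomial.X + Polynomial.C 2 : Polynomial ℤ_[2]) 0 (by
      have h1 : (Polynomial.aeval (0 : ℤ_[2]))
          (Polynomial.X ^ 2 + Polynomial.X + Polynomial.C 2 : Polynomial ℤ_[2]) = 2 := by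
        simp
      have h2 : (Polynomial.aeval (0 : ℤ_[2])) (Polynomial.derivative
          (Polynomial.X ^ 2 + Polynomial.X + Polynomial.C 2 : Polynomial ℤ_[2])) = 1 := by
        simp
      rw [h1, h2]
      have h3 : ‖(2 : ℤ_[2])‖ = 1 / 2 := by
        have := @PadicInt.norm_p 2 _
        push_cast at this
        rw [this]; norm_num
      rw [h3, norm_one]; norm_num)
  obtain ⟨z, hz, -⟩ := h
  refine ⟨z, ?_⟩
  simpa using hz

theorem exists_k : ∃ k : ℤ_[2], 3 * k = 1 := by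
  have h : IsUnit (3 : ℤ_[2]) := by
    have h1 : ‖(3 : ℤ_[2])‖ = 1 := by
      have h2 : ‖(2 : ℤ_[2])‖ < 1 := by
        have := @PadicInt.norm_p 2 _
        push_cast at this
        rw [this]; norm_num
      by_contra h3
      have h4 : ‖(3 : ℤ_[2])‖ < 1 := lt_of_le_of_ne (PadicInt.norm_le_one _) h3
      have h5 : ‖(3 : ℤ_[2]) - 2‖ ≤ max ‖(3 : ℤ_[2])‖ ‖(2 : ℤ_[2])‖ := by
        have := PadicInt.nonarchimedean (3 : ℤ_[2]) (-2)
        rw [norm_neg] at this
        simpa [sub_eq_add_neg] using this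
      have h6 : (3 : ℤ_[2]) - 2 = 1 := by norm_num
      rw [h6, norm_one] at h5
      exact absurd h5 (not_le.mpr (max_lt h4 h2))
    exact PadicInt.isUnit_iff.mpr h1
  obtain ⟨u, hu⟩ := h
  exact ⟨↑u⁻¹, by rw [← hu, Units.mul_inv]⟩

theorem job : G2b := by
  obtain ⟨t, ht⟩ := exists_t
  obtain ⟨k, hk⟩ := exists_k
  have key : ∀ P : Matrix (Fin 2 ⊕ Fin 2) (Fin 2 ⊕ Fin 2) ℤ_[2],
      P.transpose * (Matrix.fromBlocks (zV ℤ_[2]) 0 0 (zV ℤ_[2])) * P =
        Matrix.fromBlocks (zU ℤ_[2]) 0 0 (zU ℤ_[2]) →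
      Iso (Matrix.fromBlocks (zV ℤ_[2]) 0 0 (zV ℤ_[2]))
        (Matrix.fromBlocks (zU ℤ_[2]) 0 0 (zU ℤ_[2])) := by
    intro P hP
    have hU : (Matrix.fromBlocks (zU ℤ_[2]) 0 0 (zU ℤ_[2])) *
        (Matrix.fromBlocks (zU ℤ_[2]) 0 0 (zU ℤ_[2])) = 1 := by
      rw [Matrix.fromBlocks_multiply]
      have : zU ℤ_[2] * zU ℤ_[2] = 1 := by
        ext i j
        fin_cases i <;> fin_cases j <;> simp [zU, Matrix.mul_apply, Fin.sum_univ_two]
      simp [this]
    have hQ : (Matrix.fromBlocks (zU ℤ_[2]) 0 0 (zU ℤ_[2]) * P.transpose *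
        Matrix.fromBlocks (zV ℤ_[2]) 0 0 (zV ℤ_[2])) * P = 1 := by
      rw [Matrix.mul_assoc, Matrix.mul_assoc, ← Matrix.mul_assoc P.transpose, hP, hU]
    exact ⟨P, _, mul_eq_one_comm.mp hQ, hQ, hP⟩
  apply key (Matrix.fromBlocks !![t, -k * (t + 1); 1, k * t] !![-1, k; t + 1, -k * (1 + t)]
    !![1, k; 0, 0] !![0, -k; 1, k])
  rw [Matrix.fromBlocks_transpose, Matrix.fromBlocks_multiply, Matrix.fromBlocks_multiply]
  congr 1
  all_goals
    ext i j
    fin_cases i <;> fin_cases j <;>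
      simp [zU, zV, Matrix.mul_apply, Fin.sum_univ_two,
        Matrix.add_apply, Matrix.transpose_apply]
  all_goals first
    | linear_combination (2 : ℤ_[2]) * ht
    | linear_combination ht
    | linear_combination hk - k * ht
    | grind

end Pool.Agent.Helper188_RL.JE5
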