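import Pool.Agent.Helper188_RL.Stm1
set_option autoImplicit false
open MeasureTheory Complex Set Topology Pool.Agent.Y813.RL
namespace Pool.Agent.Helper188_RL.JE6

open Matrix

/-- an element of the 2-adic integers is a unit iff it is not even -/
theorem unit_or_even (x : ℤ_[2]) : IsUnit x ∨ ∃ d, x = 2 * d := by
  by_cases h : IsUnit x
  · exact Or.inl h
  · right
    have h1 : x ∈ IsLocalRing.maximalIdeal ℤ_[2] := h
    rw [PadicInt.maximalIdeal_eq_span_p, Ideal.mem_span_singleton] at h1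
    obtain ⟨d, hd⟩ := h1
    exact ⟨d, by simpa using hd⟩

theorem not_unit_even (d : ℤ_[2]) : ¬ IsUnit (2 * d) := by
  intro h
  have h1 : (2 * d) ∈ IsLocalRing.maximalIdeal ℤ_[2] := by
    rw [PadicInt.maximalIdeal_eq_span_p, Ideal.mem_span_singleton]
    exact ⟨d, by simp⟩
  exact h1 h

theorem unit_det (a b c : ℤ_[2]) (hb : IsUnit b) : IsUnit (2 * a * (2 * c) - b * b) := by
  rcases unit_or_even (2 * a * (2 * c) - b * b) with h | ⟨d, hd⟩
  · exact h
  · exfalso
    have h1 : b * b = 2 * (2 * a * c - d) := by linear_combination -hd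
    have h2 : IsUnit (b * b) := hb.mul hb
    rw [h1] at h2
    exact not_unit_even _ h2

/-- transitivity -/
theorem Iso.trans' {R : Type} [CommRing R] {ι κ μ : Type} [Fintype ι] [Fintype κ] [Fintype μ]
    [DecidableEq ι] [DecidableEq κ] [DecidableEq μ] {M : Matrix ι ι R} {N : Matrix κ κ R}
    {O : Matrix μ μ R} (h1 : Iso M N) (h2 : Iso N O) : Iso M O := by
  obtain ⟨P, Q, a1, a2, a3⟩ := h1
  obtain ⟨P', Q', b1, b2, b3⟩ := h2
  refine ⟨P * P', Q' * Q, ?_, ?_, ?_⟩
  · rw [Matrix.mul_assoc, ← Matrix.mul_assoc P', b1, Matrix.one_mul, a1]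
  · rw [Matrix.mul_assoc, ← Matrix.mul_assoc Q, a2, Matrix.one_mul, b2]
  · rw [Matrix.transpose_mul]
    have : P'.transpose * P.transpose * M * (P * P') =
        P'.transpose * (P.transpose * M * P) * P' := by
      simp only [Matrix.mul_assoc]
    rw [this, a3, b3]

/-- reindexing -/
theorem Iso.reindex {R : Type} [CommRing R] {ι κ : Type} [Fintype ι] [Fintype κ]
    [DecidableEq ι] [DecidableEq κ] (M : Matrix ι ι R) (e : κ ≃ ι) :
    Iso M (M.submatrix e e) := by
  refine ⟨(1 : Matrix ι ι R).submatrix id e, (1 : Matrix ι ι R).submatrix e id, ?_, ?_, ?_⟩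
  · rw [Matrix.submatrix_mul_equiv _ _ id e id, Matrix.one_mul, Matrix.submatrix_id_id]
  · have h := Matrix.submatrix_mul_equiv (1 : Matrix ι ι R) (1 : Matrix ι ι R) e (Equiv.refl ι) e
    rw [Matrix.one_mul, Matrix.submatrix_one_equiv] at h
    exact h
  · ext k l
    rw [Matrix.mul_apply]
    simp only [Matrix.mul_apply, Matrix.transpose_apply, Matrix.submatrix_apply, id,
      Matrix.one_apply]
    simp

theorem even_sum_two {ι : Type} [Fintype ι] [DecidableEq ι] (f : ι → ℤ_[2])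
    (h : ∀ i, ∃ d, f i = 2 * d) : ∃ d, ∑ i, f i = 2 * d := by
  choose d hd using h
  exact ⟨∑ i, d i, by rw [Finset.mul_sum]; exact Finset.sum_congr rfl fun i _ => hd i⟩

theorem job : G2c := by
  intro n M hM heven hunit
  obtain ⟨i, j, hij⟩ := hunit
  have hne : i ≠ j := by
    rintro rfl
    obtain ⟨d, hd⟩ := heven i
    rw [hd] at hij
    exact not_unit_even d hij
  -- the equivalence
  have hex : ∃ e : Fin 2 ⊕ Fin n ≃ Fin (n + 2), e (Sum.inl 0) = i ∧ e (Sum.inl 1) = j := by
    let e0 : Fin 2 ⊕ Fin n ≃ Fin (n + 2) :=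
      finSumFinEquiv.trans (finCongr (by omega))
    let σ1 : Equiv.Perm (Fin (n + 2)) := Equiv.swap (e0 (Sum.inl 0)) i
    let j' := σ1 j
    have hj' : j' ≠ e0 (Sum.inl 0) := by
      intro h
      have h1 : σ1 j = σ1 i := by
        rw [show σ1 i = e0 (Sum.inl 0) from Equiv.swap_apply_right _ _]
        exact h
      exact hne (σ1.injective h1).symm
    let σ2 : Equiv.Perm (Fin (n + 2)) := Equiv.swap (e0 (Sum.inl 1)) j'
    have h01 : e0 (Sum.inl 0) ≠ e0 (Sum.inl 1) := by
      intro h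
      have := e0.injective h
      simp at this
    refine ⟨(e0.trans σ2).trans σ1, ?_, ?_⟩
    · change σ1 (σ2 (e0 (Sum.inl 0))) = i
      rw [show σ2 (e0 (Sum.inl 0)) = e0 (Sum.inl 0) from
        Equiv.swap_apply_of_ne_of_ne h01 hj'.symm]
      exact Equiv.swap_apply_left _ _
    · change σ1 (σ2 (e0 (Sum.inl 1))) = j
      rw [show σ2 (e0 (Sum.inl 1)) = j' from Equiv.swap_apply_left _ _]
      change σ1 (σ1 j) = j
      exact Equiv.swap_apply_self _ _ _ 
  obtain ⟨e, he0, he1⟩ := hex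
  set N : Matrix (Fin 2 ⊕ Fin n) (Fin 2 ⊕ Fin n) ℤ_[2] := M.submatrix e e with hN
  have hNs : N.IsSymm := hM.submatrix e
  have hNe : ∀ k, ∃ d, N k k = 2 * d := fun k => heven (e k)
  obtain ⟨a, ha⟩ := heven i
  obtain ⟨c, hc⟩ := heven j
  set b := M i j with hb
  have hji : M j i = b := hM.apply i j
  set B : Matrix (Fin 2) (Fin 2) ℤ_[2] := !![2 * a, b; b, 2 * c] with hB
  have hB11 : N.toBlocks₁₁ = B := by
    ext k l
    fin_cases k <;> fin_cases l
    · show M (e (Sum.inl 0)) (e (Sum.inl 0)) = 2 * a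
      rw [he0, ha]
    · show M (e (Sum.inl 0)) (e (Sum.inl 1)) = b
      rw [he0, he1]
    · show M (e (Sum.inl 1)) (e (Sum.inl 0)) = b
      rw [he0, he1, hji]
    · show M (e (Sum.inl 1)) (e (Sum.inl 1)) = 2 * c
      rw [he1, hc]
  set C := N.toBlocks₁₂ with hC
  set D := N.toBlocks₂₂ with hD
  have hC21 : N.toBlocks₂₁ = Cᵀ := by
    ext k l
    exact (hNs.apply (Sum.inl l) (Sum.inr k))
  have hNb : N = fromBlocks B C Cᵀ D := by
    rw [← hB11, ← hC21]
    exact (fromBlocks_toBlocks N).symm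
  have hBs : Bᵀ = B := by
    ext k l
    fin_cases k <;> fin_cases l <;> rfl
  have hDs : Dᵀ = D := by
    ext k l
    exact hNs.apply _ _
  -- the inverse of B
  obtain ⟨u, hu⟩ := unit_det a b c hij
  set v : ℤ_[2] := ((u⁻¹ : (ℤ_[2])ˣ) : ℤ_[2]) with hv
  have huv : (2 * a * (2 * c) - b * b) * v = 1 := by
    rw [← hu, hv]
    exact u.mul_inv
  set B' : Matrix (Fin 2) (Fin 2) ℤ_[2] := !![2 * (c * v), -(b * v); -(b * v), 2 * (a * v)]
    with hB'
  have hBB' : B * B' = 1 := by
    ext k l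
    fin_cases k <;> fin_cases l <;> simp [hB, hB', Matrix.mul_apply, Fin.sum_univ_two] <;>
      first | linear_combination huv | ring1
  have hB'B : B' * B = 1 := by
    ext k l
    fin_cases k <;> fin_cases l <;> simp [hB, hB', Matrix.mul_apply, Fin.sum_univ_two] <;>
      first | linear_combination huv | ring1
  have hB's : B'ᵀ = B' := by
    ext k l
    fin_cases k <;> fin_cases l <;> rfl
  refine ⟨a, b, c, D - Cᵀ * B' * C, hij, ?_, ?_, ?_⟩
  · show (D - Cᵀ * B' * C)ᵀ = D - Cᵀ * B' * C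
    rw [transpose_sub, transpose_mul, transpose_mul, hDs, hB's, transpose_transpose,
      Matrix.mul_assoc]
  · intro k
    obtain ⟨d, hd⟩ := hNe (Sum.inr k)
    have hdd : D k k = 2 * d := hd
    refine ⟨d - (C 0 k * C 0 k * (c * v) - C 0 k * C 1 k * (b * v) + C 1 k * C 1 k * (a * v)), ?_⟩
    rw [Matrix.sub_apply, hdd]
    have h1 : (Cᵀ * B' * C) k k = 2 * (C 0 k * C 0 k * (c * v) - C 0 k * C 1 k * (b * v) +
        C 1 k * C 1 k * (a * v)) := by
      simp [Matrix.mul_apply, Fin.sum_univ_two, hB', Matrix.transpose_apply]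
      ring
    rw [h1]
    ring
  · refine Iso.trans' (Iso.reindex M e) ?_
    rw [← hN, hNb]
    refine ⟨fromBlocks 1 (-(B' * C)) 0 1, fromBlocks 1 (B' * C) 0 1, ?_, ?_, ?_⟩
    · rw [fromBlocks_multiply]
      simp
    · rw [fromBlocks_multiply]
      simp
    · rw [fromBlocks_transpose, fromBlocks_multiply, fromBlocks_multiply]
      simp only [transpose_one, transpose_zero, transpose_neg, transpose_mul, hB's,
        Matrix.one_mul, Matrix.zero_mul, Matrix.mul_one, Matrix.mul_zero, add_zero, zero_add,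
        Matrix.neg_mul, Matrix.mul_neg]
      have e1 : B * (B' * C) = C := by rw [← Matrix.mul_assoc, hBB', Matrix.one_mul]
      have e2 : Cᵀ * B' * B = Cᵀ := by rw [Matrix.mul_assoc, hB'B, Matrix.mul_one]
      rw [e1, e2]
      congr 1
      · simp
      · simp
      · rw [← Matrix.mul_assoc]
        simp
        abel

end Pool.Agent.Helper188_RL.JE6
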