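import Pool.Agent.Helper188_RL.Stm1
set_option autoImplicit false
open MeasureTheory Complex Set Topology Pool.Agent.Y813.RL
namespace Pool.Agent.Helper188_RL.JE7

section iso

variable {R : Type} [CommRing R]
variable {ι κ μ ν : Type} [Fintype ι] [Fintype κ] [Fintype μ] [Fintype ν]
  [DecidableEq ι] [DecidableEq κ] [DecidableEq μ] [DecidableEq ν]

theorem iso_refl (M : Matrix ι ι R) : Iso M M := ⟨1, 1, by simp, by simp, by simp⟩

theorem iso_symm {M : Matrix ι ι R} {N : Matrix κ κ R} (h : Iso M N) : Iso N M := by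
  obtain ⟨P, Q, h1, h2, h3⟩ := h
  refine ⟨Q, P, h2, h1, ?_⟩
  rw [← h3]
  calc Q.transpose * (P.transpose * M * P) * Q
      = (Q.transpose * P.transpose) * M * (P * Q) := by simp only [Matrix.mul_assoc]
    _ = M := by rw [← Matrix.transpose_mul, h1]; simp

theorem iso_trans {M : Matrix ι ι R} {N : Matrix κ κ R} {L : Matrix μ μ R} (h : Iso M N)
    (h' : Iso N L) : Iso M L := by
  obtain ⟨P, Q, h1, h2, h3⟩ := h
  obtain ⟨P', Q', h1', h2', h3'⟩ := h'
  refine ⟨P * P', Q' * Q, ?_, ?_, ?_⟩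
  · calc P * P' * (Q' * Q) = P * (P' * Q') * Q := by simp only [Matrix.mul_assoc]
      _ = 1 := by rw [h1', Matrix.mul_one, h1]
  · calc Q' * Q * (P * P') = Q' * (Q * P) * P' := by simp only [Matrix.mul_assoc]
      _ = 1 := by rw [h2, Matrix.mul_one, h2']
  · rw [Matrix.transpose_mul, ← h3', ← h3]
    simp only [Matrix.mul_assoc]

theorem iso_blocks {M : Matrix ι ι R} {N : Matrix κ κ R} {M' : Matrix μ μ R} {N' : Matrix ν ν R}
    (h : Iso M N) (h' : Iso M' N') :
    Iso (Matrix.fromBlocks M 0 0 M') (Matrix.fromBlocks N 0 0 N') := by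
  obtain ⟨P, Q, h1, h2, h3⟩ := h
  obtain ⟨P', Q', h1', h2', h3'⟩ := h'
  refine ⟨Matrix.fromBlocks P 0 0 P', Matrix.fromBlocks Q 0 0 Q', ?_, ?_, ?_⟩
  · rw [Matrix.fromBlocks_multiply]
    simp [h1, h1']
  · rw [Matrix.fromBlocks_multiply]
    simp [h2, h2']
  · rw [Matrix.fromBlocks_transpose, Matrix.fromBlocks_multiply, Matrix.fromBlocks_multiply]
    simp [h3, h3']

theorem iso_reindex (M : Matrix ι ι R) (e : κ ≃ ι) : Iso M (M.submatrix e e) := by
  refine ⟨(1 : Matrix ι ι R).submatrix id e, (1 : Matrix ι ι R).submatrix e id, ?_, ?_, ?_⟩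
  · have h := Matrix.submatrix_mul_equiv (1 : Matrix ι ι R) (1 : Matrix ι ι R) id e id
    rw [h]
    simp
  · ext i j
    rw [Matrix.mul_apply]
    simp only [Matrix.submatrix_apply, id_eq, Matrix.one_apply]
    simp [e.injective.eq_iff]
  · ext i j
    rw [Matrix.mul_apply]
    simp only [Matrix.mul_apply, Matrix.transpose_apply, Matrix.submatrix_apply, id_eq,
      Matrix.one_apply]
    simp

theorem iso_of_eq {M : Matrix ι ι R} {N : Matrix κ κ R} (e : κ ≃ ι) (h : N = M.submatrix e e) :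
    Iso M N := by
  rw [h]
  exact iso_reindex M e

theorem iso_assoc (A : Matrix ι ι R) (B : Matrix κ κ R) (C : Matrix μ μ R) :
    Iso (Matrix.fromBlocks A 0 0 (Matrix.fromBlocks B 0 0 C))
      (Matrix.fromBlocks (Matrix.fromBlocks A 0 0 B) 0 0 C) := by
  refine iso_of_eq (Equiv.sumAssoc ι κ μ) ?_
  ext i j
  rcases i with (i | i) | i <;> rcases j with (j | j) | j <;> rfl

theorem iso_swap (A : Matrix ι ι R) (B : Matrix κ κ R) (C : Matrix μ μ R) :
    Iso (Matrix.fromBlocks A 0 0 (Matrix.fromBlocks B 0 0 C))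
      (Matrix.fromBlocks B 0 0 (Matrix.fromBlocks A 0 0 C)) := by
  let e : κ ⊕ (ι ⊕ μ) ≃ ι ⊕ (κ ⊕ μ) :=
    { toFun := fun x => match x with
        | Sum.inl b => Sum.inr (Sum.inl b)
        | Sum.inr (Sum.inl a) => Sum.inl a
        | Sum.inr (Sum.inr c) => Sum.inr (Sum.inr c)
      invFun := fun x => match x with
        | Sum.inl a => Sum.inr (Sum.inl a)
        | Sum.inr (Sum.inl b) => Sum.inl b
        | Sum.inr (Sum.inr c) => Sum.inr (Sum.inr c)
      left_inv := fun x => by rcases x with b | a | c <;> rfl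
      right_inv := fun x => by rcases x with a | b | c <;> rfl }
  refine iso_of_eq e ?_
  ext i j
  rcases i with i | i | i <;> rcases j with j | j | j <;> rfl

/-- splitting off the first index -/
def eHyp (a : ℕ) : Fin 2 ⊕ (Fin 2 × Fin a) ≃ Fin 2 × Fin (a + 1) where
  toFun := Sum.elim (fun i => (i, 0)) (fun p => (p.1, p.2.succ))
  invFun := fun p => Fin.cases (Sum.inl p.1) (fun k => Sum.inr (p.1, k)) p.2
  left_inv := fun x => by rcases x with i | ⟨i, k⟩ <;> simp
  right_inv := fun p => by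
    obtain ⟨i, k⟩ := p
    refine Fin.cases ?_ (fun k => ?_) k <;> simp

theorem iso_hyp (a : ℕ) : Iso (hyp R (a + 1)) (Matrix.fromBlocks (zU R) 0 0 (hyp R a)) := by
  refine iso_of_eq (eHyp a) ?_
  ext i j
  rcases i with i | ⟨i, k⟩ <;> rcases j with j | ⟨j, l⟩ <;>
    simp [eHyp, hyp, Matrix.blockDiagonal_apply, (Fin.succ_ne_zero _).symm]

/-- `U` is absorbed -/
theorem iso_absorb (a : ℕ) (C : Matrix μ μ R) :
    Iso (Matrix.fromBlocks (zU R) 0 0 (Matrix.fromBlocks (hyp R a) 0 0 C))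
      (Matrix.fromBlocks (hyp R (a + 1)) 0 0 C) :=
  iso_trans (iso_assoc _ _ _) (iso_blocks (iso_symm (iso_hyp a)) (iso_refl C))

end iso

theorem two_dvd {x : ℤ_[2]} (h : ¬ IsUnit x) : ∃ y, x = 2 * y := by
  have h1 : ‖x‖ < 1 := by
    rw [PadicInt.isUnit_iff] at h
    exact lt_of_le_of_ne (PadicInt.norm_le_one x) h
  rw [PadicInt.norm_lt_one_iff_dvd] at h1
  obtain ⟨y, hy⟩ := h1
  exact ⟨y, by exact_mod_cast hy⟩

theorem not_unit_two (d : ℤ_[2]) : ¬ IsUnit (2 * d) := by
  intro h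
  rw [PadicInt.isUnit_iff, norm_mul] at h
  have h1 : ‖(2 : ℤ_[2])‖ < 1 := by
    rw [PadicInt.norm_lt_one_iff_dvd]
    exact_mod_cast dvd_refl _
  have h2 : ‖d‖ ≤ 1 := PadicInt.norm_le_one d
  have h3 : 0 ≤ ‖(2 : ℤ_[2])‖ := norm_nonneg _
  have h4 : 0 ≤ ‖d‖ := norm_nonneg _
  nlinarith

theorem job (ha : G2a) (hb : G2b) (hc : G2c) : G2d := by
  intro n
  induction n using Nat.strong_induction_on with
  | _ n ih =>
  intro M N hM hdiag hMN
  by_cases hu : ∃ i j, IsUnit (M i j)
  · -- a unit entry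
    have hn : ∃ k, n = k + 2 := by
      obtain ⟨i, j, hij⟩ := hu
      rcases Nat.lt_or_ge n 2 with h | h
      · exfalso
        have hi := i.2
        have hj := j.2
        have hij' : i = j := Fin.ext (by omega)
        subst hij'
        obtain ⟨d, hd⟩ := hdiag i
        rw [hd] at hij
        exact not_unit_two d hij
      · exact ⟨n - 2, by omega⟩
    obtain ⟨k, rfl⟩ := hn
    obtain ⟨a, b, c, M₁, hb1, hM₁, hd₁, hiso⟩ := hc k M hM hdiag hu
    have hN₁ : ∃ N₁ : Matrix (Fin k) (Fin k) ℤ_[2],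
        M₁ * N₁ = (2 : ℤ_[2]) • (1 : Matrix (Fin k) (Fin k) ℤ_[2]) := by
      obtain ⟨P, Q, h1, h2, h3⟩ := hiso
      have h4 : Matrix.fromBlocks (!![2 * a, b; b, 2 * c] : Matrix (Fin 2) (Fin 2) ℤ_[2]) 0 0 M₁ *
          (Q * N * Q.transpose) = (2 : ℤ_[2]) • 1 := by
        rw [← h3]
        calc P.transpose * M * P * (Q * N * Q.transpose)
            = P.transpose * (M * (P * Q) * N) * Q.transpose := by simp only [Matrix.mul_assoc]
          _ = P.transpose * ((2 : ℤ_[2]) • (1 : Matrix (Fin (k + 2)) (Fin (k + 2)) ℤ_[2])) *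
              Q.transpose := by
              rw [h1, Matrix.mul_one, hMN]
          _ = (2 : ℤ_[2]) • (P.transpose * Q.transpose) := by
              rw [Matrix.mul_smul, Matrix.mul_one, Matrix.smul_mul]
          _ = (2 : ℤ_[2]) • 1 := by
              rw [← Matrix.transpose_mul, h2, Matrix.transpose_one]
      rw [← Matrix.fromBlocks_toBlocks (Q * N * Q.transpose), Matrix.fromBlocks_multiply] at h4
      have h5 := congrArg Matrix.toBlocks₂₂ h4
      rw [Matrix.toBlocks_fromBlocks₂₂] at h5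
      refine ⟨(Q * N * Q.transpose).toBlocks₂₂, ?_⟩
      rw [Matrix.zero_mul, zero_add] at h5
      rw [h5]
      ext i j
      simp [Matrix.toBlocks₂₂, Matrix.one_apply]
    obtain ⟨N₁, hN₁⟩ := hN₁
    obtain ⟨a₁, m, M', hM', hdet, halt⟩ := ih k (by omega) M₁ N₁ hM₁ hd₁ hN₁
    rcases ha a b c hb1 with hU | hV
    · refine ⟨a₁ + 1, m, M', hM', hdet, ?_⟩
      rcases halt with ⟨h1, h2⟩ | ⟨h1, h2⟩
      · left
        exact ⟨by omega, iso_trans hiso (iso_trans (iso_blocks hU h2) (iso_absorb _ _))⟩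
      · right
        exact ⟨by omega, iso_trans hiso (iso_trans (iso_blocks hU h2) (iso_absorb _ _))⟩
    · rcases halt with ⟨h1, h2⟩ | ⟨h1, h2⟩
      · refine ⟨a₁, m, M', hM', hdet, ?_⟩
        right
        exact ⟨by omega, iso_trans hiso (iso_trans (iso_blocks hV h2) (iso_swap _ _ _))⟩
      · refine ⟨a₁ + 1 + 1, m, M', hM', hdet, ?_⟩
        left
        refine ⟨by omega, iso_trans hiso (iso_trans (iso_blocks hV h2) ?_)⟩
        -- `V ⊥ (hyp ⊥ (V ⊥ 2M'))`
        refine iso_trans (iso_swap _ _ _) ?_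
        refine iso_trans (iso_blocks (iso_refl _) (iso_assoc _ _ _)) ?_
        refine iso_trans (iso_blocks (iso_refl _) (iso_blocks hb (iso_refl _))) ?_
        refine iso_trans (iso_blocks (iso_refl _) (iso_symm (iso_assoc _ _ _))) ?_
        refine iso_trans (iso_swap _ _ _) ?_
        refine iso_trans (iso_blocks (iso_refl _) (iso_swap _ _ _)) ?_
        refine iso_trans (iso_blocks (iso_refl _) (iso_absorb _ _)) ?_
        exact iso_absorb _ _
  · -- no unit entry
    push Not at hu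
    have h1 : ∀ i j, ∃ y, M i j = 2 * y := fun i j => two_dvd (hu i j)
    choose M' hM' using h1
    have hM2 : M = (2 : ℤ_[2]) • (Matrix.of M') := by
      ext i j
      rw [Matrix.smul_apply, smul_eq_mul, hM' i j]
      rfl
    have h20 : (2 : ℤ_[2]) ≠ 0 := two_ne_zero
    have hsymm : (Matrix.of M').IsSymm := by
      ext i j
      have h2 : M j i = M i j := hM.apply i j
      rw [hM' i j, hM' j i] at h2
      exact mul_left_cancel₀ h20 h2
    have hMN' : (Matrix.of M') * N = 1 := by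
      rw [hM2, Matrix.smul_mul] at hMN
      exact smul_right_injective _ h20 hMN
    have hdet : IsUnit (Matrix.of M').det := by
      have h3 := congrArg Matrix.det hMN'
      rw [Matrix.det_mul, Matrix.det_one] at h3
      exact IsUnit.of_mul_eq_one _ h3
    refine ⟨0, n, Matrix.of M', hsymm, hdet, Or.inl ⟨by omega, ?_⟩⟩
    refine iso_of_eq (Equiv.emptySum (Fin 2 × Fin 0) (Fin n)) ?_
    ext i j
    rcases i with ⟨_, i⟩ | i
    · exact i.elim0
    · rcases j with ⟨_, j⟩ | j
      · exact j.elim0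
      · rw [hM2]
        rfl

end Pool.Agent.Helper188_RL.JE7
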