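import Pool.Agent.Helper188_RL.Stm1
set_option autoImplicit false
open MeasureTheory Complex Set Topology Pool.Agent.Y813.RL
namespace Pool.Agent.Helper188_RL.JE8

theorem iso_trans {R ι κ l : Type} [CommRing R] [Fintype ι] [Fintype κ] [Fintype l]
    [DecidableEq ι] [DecidableEq κ] [DecidableEq l] {A : Matrix ι ι R} {B : Matrix κ κ R}
    {C : Matrix l l R} (h : Iso A B) (h' : Iso B C) : Iso A C := by
  obtain ⟨P, Q, h1, h2, h3⟩ := h
  obtain ⟨P', Q', h1', h2', h3'⟩ := h'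
  refine ⟨P * P', Q' * Q, ?_, ?_, ?_⟩
  · calc P * P' * (Q' * Q) = P * (P' * Q') * Q := by simp only [Matrix.mul_assoc]
      _ = 1 := by rw [h1', Matrix.mul_one, h1]
  · calc Q' * Q * (P * P') = Q' * (Q * P) * P' := by simp only [Matrix.mul_assoc]
      _ = 1 := by rw [h2, Matrix.mul_one, h2']
  · calc (P * P').transpose * A * (P * P') = P'.transpose * (P.transpose * A * P) * P' := by
          rw [Matrix.transpose_mul]; simp only [Matrix.mul_assoc]
      _ = C := by rw [h3, h3']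

theorem iso_smul {R ι κ : Type} [CommRing R] [Fintype ι] [Fintype κ]
    [DecidableEq ι] [DecidableEq κ] {A : Matrix ι ι R} {B : Matrix κ κ R} (c : R)
    (h : Iso A B) : Iso (c • A) (c • B) := by
  obtain ⟨P, Q, h1, h2, h3⟩ := h
  refine ⟨P, Q, h1, h2, ?_⟩
  rw [Matrix.mul_smul, Matrix.smul_mul, h3]

theorem iso_block {R ι κ l : Type} [CommRing R] [Fintype ι] [Fintype κ] [Fintype l]
    [DecidableEq ι] [DecidableEq κ] [DecidableEq l] (A : Matrix ι ι R) {B : Matrix κ κ R}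
    {C : Matrix l l R} (h : Iso B C) :
    Iso (Matrix.fromBlocks A 0 0 B) (Matrix.fromBlocks A 0 0 C) := by
  obtain ⟨P, Q, h1, h2, h3⟩ := h
  refine ⟨Matrix.fromBlocks 1 0 0 P, Matrix.fromBlocks 1 0 0 Q, ?_, ?_, ?_⟩
  · rw [Matrix.fromBlocks_multiply]
    simp [h1]
  · rw [Matrix.fromBlocks_multiply]
    simp [h2]
  · rw [Matrix.fromBlocks_transpose, Matrix.fromBlocks_multiply, Matrix.fromBlocks_multiply]
    simp [h3]

theorem iso_det {R κ l : Type} [CommRing R] [Nontrivial R] [Fintype κ] [DecidableEq κ]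
    [Fintype l] [DecidableEq l] {M : Matrix l l R} {B : Matrix κ κ R} (h : Iso M B) :
    ∃ u : R, IsUnit u ∧ B.det = u ^ 2 * M.det := by
  obtain ⟨P, Q, h1, h2, h3⟩ := h
  have hc : Fintype.card l = Fintype.card κ := Matrix.square_of_invertible P Q h1 h2
  let e : κ ≃ l := Fintype.equivOfCardEq hc.symm
  let P' : Matrix l l R := P.submatrix id e.symm
  let Q' : Matrix l l R := Q.submatrix e.symm id
  have hPQ : P' * Q' = 1 := by
    show P.submatrix id e.symm * Q.submatrix e.symm id = 1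
    rw [Matrix.submatrix_mul_equiv, h1, Matrix.submatrix_id_id]
  have hB : P'.transpose * M * P' = B.submatrix e.symm e.symm := by
    rw [← h3]
    ext i j
    simp [P', Matrix.mul_apply, Matrix.transpose_apply]
  have hu : IsUnit P'.det := by
    have : P'.det * Q'.det = 1 := by rw [← Matrix.det_mul, hPQ, Matrix.det_one]
    exact IsUnit.of_mul_eq_one _ this
  refine ⟨P'.det, hu, ?_⟩
  have hd : (B.submatrix e.symm e.symm).det = B.det := Matrix.det_submatrix_equiv_self e.symm B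
  rw [← hd, ← hB, Matrix.det_mul, Matrix.det_mul, Matrix.det_transpose]
  ring

/-- the norm condition -/
def NP {κ : Type} [Fintype κ] (B : Matrix κ κ ℤ_[2]) : Prop :=
  ∀ y : κ → ℤ_[2], (∀ i, (2 : ℤ_[2]) ∣ B.mulVec y i) → (∃ i, ¬ (2 : ℤ_[2]) ∣ y i) →
    ∃ u : ℤ_[2], IsUnit u ∧ y ⬝ᵥ B.mulVec y = 4 * u

theorem NP_iso {ι κ : Type} [Fintype ι] [Fintype κ] [DecidableEq ι] [DecidableEq κ]
    {M : Matrix ι ι ℤ_[2]} {B : Matrix κ κ ℤ_[2]} (h : Iso M B) (hM : NP M) : NP B := by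
  obtain ⟨P, Q, h1, h2, h3⟩ := h
  intro y hy hy'
  have hMP : M * P = Q.transpose * B := by
    rw [← h3, ← Matrix.mul_assoc, ← Matrix.mul_assoc, ← Matrix.transpose_mul, h1,
      Matrix.transpose_one, Matrix.one_mul]
  have e1 : M.mulVec (P.mulVec y) = Q.transpose.mulVec (B.mulVec y) := by
    rw [Matrix.mulVec_mulVec, hMP, Matrix.mulVec_mulVec]
  have hdvd : ∀ {α β : Type} [Fintype β] (A : Matrix α β ℤ_[2]) (v : β → ℤ_[2]),
      (∀ i, (2 : ℤ_[2]) ∣ v i) → ∀ i, (2 : ℤ_[2]) ∣ A.mulVec v i := by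
    intro α β _ A v hv i
    exact Finset.dvd_sum fun j _ => Dvd.dvd.mul_left (hv j) _
  obtain ⟨u, hu, hu'⟩ := hM (P.mulVec y) (by rw [e1]; exact hdvd _ _ hy) (by
    by_contra hcon
    push Not at hcon
    obtain ⟨i, hi⟩ := hy'
    apply hi
    have : Q.mulVec (P.mulVec y) = y := by rw [Matrix.mulVec_mulVec, h2, Matrix.one_mulVec]
    rw [← this]
    exact hdvd Q _ hcon i)
  refine ⟨u, hu, ?_⟩
  rw [← hu', ← h3, ← Matrix.mulVec_mulVec, ← Matrix.mulVec_mulVec, Matrix.dotProduct_mulVec y,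
    Matrix.vecMul_transpose]

theorem NP_block {ι κ : Type} [Fintype ι] [Fintype κ] [DecidableEq ι] [DecidableEq κ]
    {A : Matrix ι ι ℤ_[2]} {D : Matrix κ κ ℤ_[2]} (h : NP (Matrix.fromBlocks A 0 0 D)) : NP D := by
  intro y hy hy'
  have e1 : (Matrix.fromBlocks A 0 0 D).mulVec (Sum.elim (0 : ι → ℤ_[2]) y) =
      Sum.elim (0 : ι → ℤ_[2]) (D.mulVec y) := by
    rw [Matrix.fromBlocks_mulVec]
    simp
  obtain ⟨u, hu, hu'⟩ := h (Sum.elim (0 : ι → ℤ_[2]) y) (by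
    rw [e1]
    rintro (i | i)
    · simp
    · simpa using hy i) (by
    obtain ⟨i, hi⟩ := hy'
    exact ⟨Sum.inr i, by simpa using hi⟩)
  refine ⟨u, hu, ?_⟩
  rw [e1] at hu'
  rw [← hu']
  simp [dotProduct, Fintype.sum_sum_type]

theorem two_ne : (2 : ℤ_[2]) ≠ 0 := by norm_num

theorem not_dvd_unit {u : ℤ_[2]} (hu : IsUnit u) : ¬ (2 : ℤ_[2]) ∣ u := by
  intro h
  have h2 : IsUnit (2 : ℤ_[2]) := isUnit_of_dvd_unit h hu
  rw [PadicInt.isUnit_iff] at h2
  have h3 := PadicInt.norm_p (p := 2)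
  have h4 : ‖(2 : ℤ_[2])‖ = (2 : ℝ)⁻¹ := by exact_mod_cast h3
  rw [h2] at h4
  norm_num at h4

theorem unit_or_dvd (x : ℤ_[2]) : IsUnit x ∨ (2 : ℤ_[2]) ∣ x := by
  by_cases h : IsUnit x
  · exact Or.inl h
  · right
    have h1 : x ∈ IsLocalRing.maximalIdeal ℤ_[2] := (IsLocalRing.mem_maximalIdeal x).2 h
    rw [PadicInt.maximalIdeal_eq_span_p, Ideal.mem_span_singleton] at h1
    exact_mod_cast h1

theorem NP_two {m : ℕ} {M' : Matrix (Fin m) (Fin m) ℤ_[2]} (h : NP ((2 : ℤ_[2]) • M')) :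
    ∀ y : Fin m → ℤ_[2], (∃ i, ¬ (2 : ℤ_[2]) ∣ y i) →
    ∃ u : ℤ_[2], IsUnit u ∧ y ⬝ᵥ M'.mulVec y = 2 * u := by
  intro y hy
  obtain ⟨u, hu, hu'⟩ := h y (fun i => by
    rw [Matrix.smul_mulVec]
    exact ⟨_, rfl⟩) hy
  refine ⟨u, hu, ?_⟩
  rw [Matrix.smul_mulVec, dotProduct_smul, smul_eq_mul] at hu'
  have : (2 : ℤ_[2]) * (y ⬝ᵥ M'.mulVec y) = 2 * (2 * u) := by rw [hu']; ring
  exact mul_left_cancel₀ two_ne this

/-- the last block -/
theorem last_block (ha : G2a) (M' : Matrix (Fin 2) (Fin 2) ℤ_[2]) (hs : M'.IsSymm)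
    (hd : IsUnit M'.det) (hn : ∀ y : Fin 2 → ℤ_[2], (∃ i, ¬ (2 : ℤ_[2]) ∣ y i) →
      ∃ u : ℤ_[2], IsUnit u ∧ y ⬝ᵥ M'.mulVec y = 2 * u) : Iso M' (zV ℤ_[2]) := by
  obtain ⟨u1, hu1, h1⟩ := hn ![1, 0] ⟨0, not_dvd_unit isUnit_one⟩
  obtain ⟨u2, hu2, h2⟩ := hn ![0, 1] ⟨1, not_dvd_unit isUnit_one⟩
  have h1' : M' 0 0 = 2 * u1 := by
    rw [← h1]; simp [dotProduct, Matrix.mulVec, Fin.sum_univ_two]
  have h2' : M' 1 1 = 2 * u2 := by
    rw [← h2]; simp [dotProduct, Matrix.mulVec, Fin.sum_univ_two]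
  have h3 : M' 1 0 = M' 0 1 := hs.apply 0 1
  have hb : IsUnit (M' 0 1) := by
    rcases unit_or_dvd (M' 0 1) with h | h
    · exact h
    · exfalso
      refine not_dvd_unit hd ?_
      rw [Matrix.det_fin_two, h1', h3]
      exact dvd_sub (Dvd.dvd.mul_right (Dvd.intro _ rfl) _) (Dvd.dvd.mul_right h _)
  have hM : M' = !![2 * u1, M' 0 1; M' 0 1, 2 * u2] := by
    ext i j
    fin_cases i <;> fin_cases j <;> simp [h1', h2', h3]
  rcases ha u1 (M' 0 1) u2 hb with h | h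
  · exfalso
    rw [← hM] at h
    obtain ⟨P, Q, g1, g2, g3⟩ := h
    let y : Fin 2 → ℤ_[2] := P.mulVec ![1, 0]
    have hy : Q.mulVec y = ![1, 0] := by
      show Q.mulVec (P.mulVec ![1, 0]) = _
      rw [Matrix.mulVec_mulVec, g2, Matrix.one_mulVec]
    obtain ⟨u, hu, hu'⟩ := hn y (by
      by_contra hcon
      push Not at hcon
      have : (2 : ℤ_[2]) ∣ Q.mulVec y 0 := by
        show (2 : ℤ_[2]) ∣ ∑ j, Q 0 j * y j
        exact Finset.dvd_sum fun j _ => Dvd.dvd.mul_left (hcon j) _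
      rw [hy] at this
      exact not_dvd_unit isUnit_one this)
    have h0 : y ⬝ᵥ M'.mulVec y = 0 := by
      have : y ⬝ᵥ M'.mulVec y = ![1, 0] ⬝ᵥ (P.transpose * M' * P).mulVec ![1, 0] := by
        rw [← Matrix.mulVec_mulVec, ← Matrix.mulVec_mulVec, Matrix.dotProduct_mulVec ![1, 0],
          Matrix.vecMul_transpose]
      rw [this, g3]
      simp [zU, dotProduct, Matrix.mulVec, Fin.sum_univ_two]
    rw [h0] at hu'
    have : u = 0 := by
      rcases mul_eq_zero.1 hu'.symm with h | h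
      · exact absurd h two_ne
      · exact h
    rw [this] at hu
    exact not_isUnit_zero hu
  · rw [← hM] at h
    exact h

theorem no_sqrt (t : ℤ_[2]) : t ^ 2 ≠ -3 := by
  intro h
  have h1 := congrArg (PadicInt.toZModPow (p := 2) 3) h
  rw [map_pow, map_neg, map_ofNat] at h1
  have h2 : ∀ x : ZMod (2 ^ 3), x ^ 2 ≠ -3 := by decide
  exact h2 _ h1

theorem det_hyp (a : ℕ) : (hyp ℤ_[2] a).det = (-1) ^ a := by
  unfold hyp
  rw [Matrix.det_blockDiagonal]
  simp [zU, Matrix.det_fin_two_of]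

theorem det_zV : (zV ℤ_[2]).det = 3 := by
  unfold zV
  rw [Matrix.det_fin_two_of]; norm_num

theorem norm_unit {x : ℤ_[2]} (h : IsUnit x) : ‖x‖ = 1 := PadicInt.isUnit_iff.1 h

theorem m_two (m : ℕ) (x y : ℤ_[2]) (hx : IsUnit x) (hy : IsUnit y)
    (h : (2 : ℤ_[2]) ^ m * x = 4 * y) : m = 2 := by
  have h1 := congrArg norm h
  rw [norm_mul, norm_mul, norm_unit hx, norm_unit hy, mul_one, mul_one] at h1
  have h2 : (4 : ℤ_[2]) = 2 ^ 2 := by norm_num
  rw [h2, norm_pow, norm_pow] at h1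
  have h3 := PadicInt.norm_p (p := 2)
  have h4 : ‖(2 : ℤ_[2])‖ = (2 : ℝ)⁻¹ := by exact_mod_cast h3
  rw [h4] at h1
  exact pow_right_injective₀ (by norm_num) (by norm_num) h1

theorem unit_three : IsUnit (3 : ℤ_[2]) := by
  rcases unit_or_dvd (3 : ℤ_[2]) with h | h
  · exact h
  · exfalso
    have : (2 : ℤ_[2]) ∣ 1 := by
      have h2 : (1 : ℤ_[2]) = 3 - 2 := by norm_num
      rw [h2]
      exact dvd_sub h (dvd_refl _)
    exact not_dvd_unit isUnit_one this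

theorem job (ha : G2a) (hd : G2d) : G2e := by
  intro M N s hsymm heven hMN hs hdet hnorm
  obtain ⟨a, m, M', hM's, hM'd, h⟩ := hd 20 M N hsymm heven hMN
  have hNP : NP M := hnorm
  rcases h with ⟨hn, hiso⟩ | ⟨hn, hiso⟩
  · exfalso
    obtain ⟨u, hu, hu'⟩ := iso_det hiso
    rw [Matrix.det_fromBlocks_zero₂₁, det_hyp, Matrix.det_smul, Fintype.card_fin, hdet] at hu'
    have hm : m = 2 := by
      refine m_two m ((-1) ^ a * M'.det) (u ^ 2 * s ^ 2) ?_ ((hu.pow 2).mul (hs.pow 2)) ?_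
      · exact (isUnit_one.neg.pow a).mul hM'd
      · linear_combination hu'
    subst hm
    have ha9 : a = 9 := by omega
    subst ha9
    have hV := last_block ha M' hM's hM'd (NP_two (NP_block (NP_iso hiso hNP)))
    obtain ⟨w, hw, hw'⟩ := iso_det hV
    rw [det_zV] at hw'
    have h4 : M'.det = -(u * s) ^ 2 := by
      have : (4 : ℤ_[2]) * M'.det = 4 * (-(u * s) ^ 2) := by linear_combination -hu'
      exact mul_left_cancel₀ (by norm_num) this
    rw [h4] at hw'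
    exact no_sqrt (w * u * s) (by linear_combination hw')
  · obtain ⟨u, hu, hu'⟩ := iso_det hiso
    rw [Matrix.det_fromBlocks_zero₂₁, det_hyp, Matrix.det_fromBlocks_zero₂₁, det_zV,
      Matrix.det_smul, Fintype.card_fin, hdet] at hu'
    have hm : m = 2 := by
      refine m_two m ((-1) ^ a * 3 * M'.det) (u ^ 2 * s ^ 2) ?_ ((hu.pow 2).mul (hs.pow 2)) ?_
      · exact ((isUnit_one.neg.pow a).mul unit_three).mul hM'd
      · linear_combination hu'
    subst hm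
    have ha8 : a = 8 := by omega
    subst ha8
    have hV := last_block ha M' hM's hM'd (NP_two (NP_block (NP_block (NP_iso hiso hNP))))
    have h2 : (2 • zV ℤ_[2] : Matrix (Fin 2) (Fin 2) ℤ_[2]) = (2 : ℤ_[2]) • zV ℤ_[2] := by
      ext i j
      simp
    unfold std2
    rw [h2]
    exact iso_trans hiso (iso_block _ (iso_block _ (iso_smul 2 hV)))

end Pool.Agent.Helper188_RL.JE8
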