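import Pool.Agent.Helper188_RL.Stm1
set_option autoImplicit false
open MeasureTheory Complex Set Topology Pool.Agent.Y813.RL
namespace Pool.Agent.Helper188_RL.JE9

open Matrix

theorem bd_eq (A : Matrix (Fin 20) (Fin 20) ℤ) (μ ν : Fin 20 → ℤ) :
    bd A μ ν = (fun i => (μ i : ℝ)) ⬝ᵥ ((A.map (Int.cast : ℤ → ℝ))⁻¹ *ᵥ fun i => (ν i : ℝ)) := rfl

theorem bd_addl (A : Matrix (Fin 20) (Fin 20) ℤ) (μ μ' ν : Fin 20 → ℤ) :
    bd A (μ + μ') ν = bd A μ ν + bd A μ' ν := by
  simp only [bd_eq]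
  rw [← add_dotProduct]
  congr 1
  ext i
  simp

theorem bd_addr (A : Matrix (Fin 20) (Fin 20) ℤ) (μ ν ν' : Fin 20 → ℤ) :
    bd A μ (ν + ν') = bd A μ ν + bd A μ ν' := by
  simp only [bd_eq]
  rw [← dotProduct_add, ← mulVec_add]
  congr 2
  ext i
  simp

theorem cast_mulVec (A : Matrix (Fin 20) (Fin 20) ℤ) (v : Fin 20 → ℤ) :
    (fun i => ((A *ᵥ v) i : ℝ)) = (A.map (Int.cast : ℤ → ℝ)) *ᵥ fun i => (v i : ℝ) := by
  ext i
  simp [Matrix.mulVec, dotProduct]

theorem det_cast (A : Matrix (Fin 20) (Fin 20) ℤ) :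
    (A.map (Int.cast : ℤ → ℝ)).det = (A.det : ℝ) := by
  have := (Int.castRingHom ℝ).map_det A
  simpa using this.symm

theorem bd_mul (A : Matrix (Fin 20) (Fin 20) ℤ) (h : A.det ≠ 0) (μ v : Fin 20 → ℤ) :
    bd A μ (A *ᵥ v) = ((μ ⬝ᵥ v : ℤ) : ℝ) := by
  rw [bd_eq, cast_mulVec, mulVec_mulVec, nonsing_inv_mul, one_mulVec]
  · simp [dotProduct]
  · rw [det_cast]
    exact (Int.cast_ne_zero.2 h).isUnit

theorem bd_symm (A : Matrix (Fin 20) (Fin 20) ℤ) (h : A.IsSymm) (μ ν : Fin 20 → ℤ) :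
    bd A μ ν = bd A ν μ := by
  have h1 : ((A.map (Int.cast : ℤ → ℝ))⁻¹).transpose = (A.map (Int.cast : ℤ → ℝ))⁻¹ := by
    rw [transpose_nonsing_inv]
    congr 1
    ext i j
    simp only [transpose_apply, map_apply]
    rw [h.apply]
  rw [bd_eq, bd_eq, dotProduct_mulVec, ← mulVec_transpose, h1, dotProduct_comm]

/-- membership in the lattice -/
def inL (A : Matrix (Fin 20) (Fin 20) ℤ) (μ : Fin 20 → ℤ) : Prop := ∃ v : Fin 20 → ℤ, μ = A.mulVec v

theorem inL_add {A : Matrix (Fin 20) (Fin 20) ℤ} {μ ν : Fin 20 → ℤ} (h : inL A μ) (h' : inL A ν) :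
    inL A (μ + ν) := by
  obtain ⟨v, rfl⟩ := h
  obtain ⟨w, rfl⟩ := h'
  exact ⟨v + w, (mulVec_add A v w).symm⟩

theorem inL_neg {A : Matrix (Fin 20) (Fin 20) ℤ} {μ : Fin 20 → ℤ} (h : inL A μ) :
    inL A (-μ) := by
  obtain ⟨v, rfl⟩ := h
  exact ⟨-v, (mulVec_neg v A).symm⟩

theorem inL_sub {A : Matrix (Fin 20) (Fin 20) ℤ} {μ ν : Fin 20 → ℤ} (h : inL A μ) (h' : inL A ν) :
    inL A (μ - ν) := by
  rw [sub_eq_add_neg]
  exact inL_add h (inL_neg h')

section
variable {G : Matrix (Fin 20) (Fin 20) ℤ}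

theorem two_inL (hd : G.det ≠ 0)
    (h : ∀ μ, (¬ inL G μ) → ∃ k : ℤ, bd G μ μ = 2 * k + 1) (μ : Fin 20 → ℤ) : inL G (μ + μ) := by
  by_contra hn
  have h1 : ¬ inL G μ := fun h => hn (inL_add h h)
  obtain ⟨k, hk⟩ := h _ hn
  obtain ⟨l, hl⟩ := h _ h1
  rw [bd_addl, bd_addr, hl] at hk
  have : (2 * l + 1 + (2 * l + 1) + (2 * l + 1 + (2 * l + 1)) : ℤ) = 2 * k + 1 := by
    exact_mod_cast hk
  omega

theorem bd_inL (hd : G.det ≠ 0) (μ : Fin 20 → ℤ) {ν : Fin 20 → ℤ} (h : inL G ν) :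
    ∃ k : ℤ, bd G μ ν = k := by
  obtain ⟨v, rfl⟩ := h
  exact ⟨_, bd_mul G hd μ v⟩

theorem exists_not (hs : G.IsSymm) (hd : G.det ≠ 0) {μ : Fin 20 → ℤ} (h : ¬ inL G μ) :
    ∃ ν : Fin 20 → ℤ, ¬ ∃ k : ℤ, bd G μ ν = k := by
  by_contra hc
  push Not at hc
  choose w hw using fun i => hc (Pi.single i 1)
  refine h ⟨w, ?_⟩
  have hu : IsUnit (G.map (Int.cast : ℤ → ℝ)).det := by
    rw [det_cast]
    exact (Int.cast_ne_zero.2 hd).isUnit
  have h1 : ((G.map (Int.cast : ℤ → ℝ))⁻¹ *ᵥ fun i => (μ i : ℝ)) = fun i => (w i : ℝ) := by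
    ext i
    rw [← hw i, bd_symm G hs, bd_eq]
    have : (fun j => (((Pi.single i 1 : Fin 20 → ℤ) j : ℤ) : ℝ)) = Pi.single i 1 := by
      ext j
      by_cases hj : j = i
      · subst hj; simp
      · simp [hj]
    rw [this, single_dotProduct, one_mul]
  have h2 : (fun i => (μ i : ℝ)) = fun i => ((G *ᵥ w) i : ℝ) := by
    rw [cast_mulVec, ← h1, mulVec_mulVec, mul_nonsing_inv _ hu, one_mulVec]
  ext i
  exact_mod_cast congrFun h2 i

/-- if two vectors outside `L` pair to a non half-odd number, they are equivalent -/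
theorem key (hs : G.IsSymm) (hd : G.det ≠ 0)
    (h : ∀ μ, (¬ inL G μ) → ∃ k : ℤ, bd G μ μ = 2 * k + 1) {μ ν : Fin 20 → ℤ}
    (h1 : ¬ inL G μ) (h2 : ¬ inL G ν) (h3 : ¬ inL G (μ - ν)) :
    ∃ k : ℤ, 2 * bd G μ ν = 2 * k + 1 := by
  have h4 : ¬ inL G (μ + ν) := by
    intro h5
    apply h3
    have := inL_sub h5 (two_inL hd h ν)
    have e : μ + ν - (ν + ν) = μ - ν := by abel
    rwa [e] at this
  obtain ⟨a, ha⟩ := h _ h1
  obtain ⟨b, hb⟩ := h _ h2
  obtain ⟨c, hc⟩ := h _ h4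
  rw [bd_addl, bd_addr, bd_addr, bd_symm G hs ν μ, ha, hb] at hc
  refine ⟨c - a - b - 1, ?_⟩
  push_cast
  linarith

end

theorem job (ha : FFa) (hb : FFb) : GD := by
  intro G hG hev h hdet
  obtain ⟨hpos, ⟨R, hR⟩, hcard⟩ := ha G hG
  have hd : G.det ≠ 0 := hpos.ne'
  have hs := hG.symm
  have h' : ∀ μ, (¬ inL G μ) → ∃ k : ℤ, bd G μ μ = 2 * k + 1 := h
  have hu : IsUnit (G.map (Int.cast : ℤ → ℝ)).det := by
    rw [det_cast]
    exact (Int.cast_ne_zero.2 hd).isUnit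
  -- existence of a vector outside `L`
  have hex : ∃ μ, ¬ inL G μ := by
    by_contra hc
    push Not at hc
    apply hdet
    rw [← hcard R hR, Nat.cast_eq_one, Finset.card_eq_one]
    obtain ⟨r, ⟨hr1, hr2⟩, hr3⟩ := hR 0
    refine ⟨r, ?_⟩
    ext x
    rw [Finset.mem_singleton]
    constructor
    · intro hx
      refine hr3 x ⟨hx, ?_⟩
      obtain ⟨v, hv⟩ := hc (-x)
      exact ⟨v, by rw [← hv]; simp⟩
    · rintro rfl
      exact hr1
  obtain ⟨μ, hμ⟩ := hex
  obtain ⟨ν, hν'⟩ := exists_not hs hd hμ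
  have hν : ¬ inL G ν := fun hh => hν' (bd_inL hd μ hh)
  have hμν : ¬ inL G (μ + ν) := by
    intro hh
    obtain ⟨a, ha1⟩ := bd_inL hd μ hh
    obtain ⟨b, hb1⟩ := h' _ hμ
    rw [bd_addr, hb1] at ha1
    exact hν' ⟨a - (2 * b + 1), by push_cast; linarith⟩
  have hμν2 : ¬ inL G (μ - ν) := by
    intro hh
    apply hμν
    have := inL_add hh (two_inL hd h' ν)
    have e : μ - ν + (ν + ν) = μ + ν := by abel
    rwa [e] at this
  -- every class is one of four
  have hfour : ∀ x, inL G x ∨ inL G (x - μ) ∨ inL G (x - ν) ∨ inL G (x - (μ + ν)) := by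
    intro x
    by_contra hc
    push Not at hc
    obtain ⟨c1, c2, c3, c4⟩ := hc
    obtain ⟨k1, e1⟩ := key hs hd h' c1 hμ c2
    obtain ⟨k2, e2⟩ := key hs hd h' c1 hν c3
    obtain ⟨k3, e3⟩ := key hs hd h' c1 hμν c4
    rw [bd_addr, mul_add, e1, e2] at e3
    have : (2 * k1 + 1 + (2 * k2 + 1) : ℤ) = 2 * k3 + 1 := by exact_mod_cast e3
    omega
  have hdet4 : G.det = 4 := by
    rw [← hcard R hR]
    obtain ⟨r0, ⟨m0, s0⟩, u0⟩ := hR 0
    obtain ⟨r1, ⟨m1, s1⟩, u1⟩ := hR μ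
    obtain ⟨r2, ⟨m2, s2⟩, u2⟩ := hR ν
    obtain ⟨r3, ⟨m3, s3⟩, u3⟩ := hR (μ + ν)
    have d0 : inL G (0 - r0) := by
      obtain ⟨v, hv⟩ := s0
      exact ⟨v, by rw [hv]; abel⟩
    have d1 : inL G (μ - r1) := by
      obtain ⟨v, hv⟩ := s1
      exact ⟨v, by rw [hv]; abel⟩
    have d2 : inL G (ν - r2) := by
      obtain ⟨v, hv⟩ := s2
      exact ⟨v, by rw [hv]; abel⟩
    have d3 : inL G (μ + ν - r3) := by
      obtain ⟨v, hv⟩ := s3
      exact ⟨v, by rw [hv]; abel⟩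
    have n01 : r0 ≠ r1 := by
      rintro rfl
      apply hμ
      have := inL_sub d1 d0
      simpa using this
    have n02 : r0 ≠ r2 := by
      rintro rfl
      apply hν
      have := inL_sub d2 d0
      simpa using this
    have n03 : r0 ≠ r3 := by
      rintro rfl
      apply hμν
      have := inL_sub d3 d0
      simpa using this
    have n12 : r1 ≠ r2 := by
      rintro rfl
      apply hμν2
      have := inL_sub d1 d2
      simpa using this
    have n13 : r1 ≠ r3 := by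
      rintro rfl
      apply hν
      have := inL_sub d3 d1
      simpa using this
    have n23 : r2 ≠ r3 := by
      rintro rfl
      apply hμ
      have := inL_sub d3 d2
      simpa using this
    have hRe : R = {r0, r1, r2, r3} := by
      ext x
      simp only [Finset.mem_insert, Finset.mem_singleton]
      constructor
      · intro hx
        rcases hfour x with c | c | c | c
        · left
          refine u0 x ⟨hx, ?_⟩
          obtain ⟨v, hv⟩ := inL_neg c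
          exact ⟨v, by rw [← hv]; abel⟩
        · right; left
          refine u1 x ⟨hx, ?_⟩
          obtain ⟨v, hv⟩ := inL_neg c
          exact ⟨v, by rw [← hv]; abel⟩
        · right; right; left
          refine u2 x ⟨hx, ?_⟩
          obtain ⟨v, hv⟩ := inL_neg c
          exact ⟨v, by rw [← hv]; abel⟩
        · right; right; right
          refine u3 x ⟨hx, ?_⟩
          obtain ⟨v, hv⟩ := inL_neg c
          exact ⟨v, by rw [← hv]; abel⟩
      · rintro (rfl | rfl | rfl | rfl) <;> assumption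
    rw [hRe, Finset.card_insert_of_notMem, Finset.card_insert_of_notMem,
      Finset.card_insert_of_notMem, Finset.card_singleton]
    · norm_num
    · simpa using n23
    · simp only [Finset.mem_insert, Finset.mem_singleton, not_or]
      exact ⟨n12, n13⟩
    · simp only [Finset.mem_insert, Finset.mem_singleton, not_or]
      exact ⟨n01, n02, n03⟩
  refine ⟨hs, ?_, hdet4, ?_, ?_⟩
  · intro i
    obtain ⟨d, hd⟩ := hev i
    exact ⟨d, by rw [hd]; ring⟩
  · choose w hw using fun i => two_inL hd h' (Pi.single i 1)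
    refine ⟨Matrix.of fun j i => w i j, ?_⟩
    ext i j
    have := congrFun (hw j) i
    rw [Matrix.mul_apply]
    simp only [Matrix.of_apply]
    have e : ∑ k, G i k * w j k = (G *ᵥ w j) i := rfl
    rw [e, ← this]
    by_cases hij : i = j
    · subst hij; simp
    · simp [hij]
  · intro x hx ⟨i, hi⟩
    choose μ' hμ' using hx
    have hGx : G *ᵥ x = μ' + μ' := by
      ext j
      rw [hμ' j]
      simp
      ring
    have hn : ¬ inL G μ' := by
      rintro ⟨v, hv⟩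
      apply hi
      have e1 : G *ᵥ x = G *ᵥ (v + v) := by
        rw [hGx, mulVec_add, ← hv]
      have e2 : x = v + v := by
        have h3 : (fun i => ((G *ᵥ x) i : ℝ)) = fun i => ((G *ᵥ (v + v)) i : ℝ) := by rw [e1]
        rw [cast_mulVec, cast_mulVec] at h3
        have h4 := congrArg (fun z => (G.map (Int.cast : ℤ → ℝ))⁻¹ *ᵥ z) h3
        simp only [mulVec_mulVec, nonsing_inv_mul _ hu, one_mulVec] at h4
        ext j
        exact_mod_cast congrFun h4 j
      exact ⟨v i, by rw [e2]; simp; ring⟩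
    obtain ⟨k, hk⟩ := h' _ hn
    refine ⟨k, ?_⟩
    have e1 := bd_mul G hd (G *ᵥ x) x
    rw [hGx, bd_addl, bd_addr, hk] at e1
    have e2 : (2 * k + 1 + (2 * k + 1) + (2 * k + 1 + (2 * k + 1)) : ℤ) = (μ' + μ') ⬝ᵥ x := by
      exact_mod_cast e1
    rw [dotProduct_comm, hGx, ← e2]
    ring

end Pool.Agent.Helper188_RL.JE9
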