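import Pool.Agent.Helper188_RL.JA1
import Pool.Agent.Helper188_RL.JA2
import Pool.Agent.Helper188_RL.JA3
import Pool.Agent.Helper188_RL.JA4
import Pool.Agent.Helper188_RL.JA5
import Pool.Agent.Helper188_RL.JA6
import Pool.Agent.Helper188_RL.JA7
import Pool.Agent.Helper188_RL.JB1
import Pool.Agent.Helper188_RL.JB2
import Pool.Agent.Helper188_RL.JC1
import Pool.Agent.Helper188_RL.JC2
import Pool.Agent.Helper188_RL.JC3
import Pool.Agent.Helper188_RL.JD1
import Pool.Agent.Helper188_RL.JD2
import Pool.Agent.Helper188_RL.JD3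
import Pool.Agent.Helper188_RL.JD4
import Pool.Agent.Helper188_RL.JE1
import Pool.Agent.Helper188_RL.JE2
import Pool.Agent.Helper188_RL.JE3
import Pool.Agent.Helper188_RL.JE4
import Pool.Agent.Helper188_RL.JE5
import Pool.Agent.Helper188_RL.JE6
import Pool.Agent.Helper188_RL.JE7
import Pool.Agent.Helper188_RL.JE8
import Pool.Agent.Helper188_RL.JE9
import Pool.Agent.Helper188_RL.JE10
import Pool.Agent.Helper188_RL.JE11
import Pool.Agent.Helper188_RL.JE12
import Pool.Agent.Helper188_RL.JE13

set_option autoImplicit false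

/-!
# Assembly of the first part: theta decomposition, vector valued forms, genus
-/

open Pool.Agent.Y813.RL

namespace Pool.Agent.Helper188_RL

theorem theta1 : JobTheta1 := JA3.job JA1.job JA2.job (JA4.job JA2.job)

theorem theta2 : JobTheta2 := JA7.job theta1 JA5.job JA6.job

theorem ffa : FFa := JB1.job

theorem ffb : FFb := JB2.job ffa

theorem finfour : JobFinFour := by
  intro A hA
  obtain ⟨h1, ⟨R, hR⟩, h3⟩ := ffa A hA
  exact ⟨h1, R, hR, h3 R hR, fun a => ffb A R hA hR a⟩

theorem vv : JobVV := JC2.job JC1.job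

theorem ode : JobODE := by
  intro G R f hG he hR hf h1 h2 h3
  exact ⟨JD3.job vv ffa ffb JC3.job JD1.job JD2.job G R f hG he hR hf h1 h2 h3,
    JD4.job JC1.job ffa G R f hG he hR hf h3⟩

theorem genus : JobGenus :=
  JE13.job JE11.job (JE3.job JE1.job JE2.job)
    (JE12.job (JE8.job JE4.job (JE7.job JE4.job JE5.job JE6.job))) (JE9.job ffa ffb) JE10.job

end Pool.Agent.Helper188_RL
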