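import Pool.Agent.Helper188_RL.Stm2
set_option autoImplicit false
open MeasureTheory Complex Set Topology Pool.Agent.Y813.RL
namespace Pool.Agent.Helper188_RL.JM

theorem job (hode : JobODE) (hgen : JobGenus) (ht1 : JobTheta1) (ht2 : JobTheta2) (hff : JobFinFour) (ha : P7a) (hb : P7b) : MAIN := by
  intro G hG heven k F hF
  obtain ⟨φ, hφ⟩ := exists_FJD Pool.Agent.Y683.RL.jobFJ Pool.Agent.Y683.RL.jobKD hG hF
  obtain ⟨C, m, hm, h1, h2, h3, h4⟩ := exists_second hG hF hφ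
  have H : CM G k F φ C m := ⟨hF, hφ, hm, h1, h2, h3, h4⟩
  have hm1 : m = 1 := ha G k F φ C m hG H
  subst hm1
  obtain ⟨c, hc, hcq⟩ := H.exists_jacobi Pool.Agent.Y155.RL.bc Pool.Agent.Y155.RL.div hG
  have hc' : JacobiZero G c := by simpa using hc
  obtain ⟨hdet, R, hR, -, -⟩ := hff G hG
  obtain ⟨t1, t2, t3, t4, t5⟩ := ht1 G c hG hc'
  have t6 := ht2 G c R hG hc' hR
  have hVV : VV10 G R (vf G c) := by
    refine ⟨fun μ => ?_, t4, fun μ τ hτ => ?_, t6⟩
    · have hee : Differentiable ℂ (fun τ : ℂ => ee (-(τ * (bd G μ μ : ℂ) / 2))) := by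
        unfold ee
        fun_prop
      exact hee.differentiableOn.mul (t1 μ)
    · unfold vf
      rw [t2 μ τ hτ, ← mul_assoc, ← ee_add]
      congr 2
      ring
  obtain ⟨g1, g2⟩ := hb G k F φ C c hG H hcq hc'
  have hne : ∃ μ, ∃ τ : ℂ, 0 < τ.im ∧ vf G c μ τ ≠ 0 := by
    by_contra hcon
    push Not at hcon
    obtain ⟨p, hp, hp0⟩ := h4
    obtain ⟨τ, z⟩ := p
    have hτ : 0 < τ.im := hp
    apply hp0
    have hfc : ∀ μ, fc c μ τ = 0 := by
      intro μ
      have := hcon μ τ hτ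
      unfold vf at this
      rcases mul_eq_zero.1 this with h | h
      · exact absurd h (ee_ne_zero _)
      · exact h
    have hs := t5 τ z hτ
    simp only [hfc, zero_mul] at hs
    rw [hcq τ z hτ, hs.unique hasSum_zero, mul_zero]
  obtain ⟨o1, o2⟩ := hode G R (vf G c) hG heven hR hVV g1 g2 hne
  exact hgen G hG heven o1 o2

end Pool.Agent.Helper188_RL.JM
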