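import Pool.Agent.Helper188_RL.Stm2
set_option autoImplicit false
open MeasureTheory Complex Set Topology Pool.Agent.Y813.RL
namespace Pool.Agent.Helper188_RL.JP1

/-- maximum principle for periodic functions in a strip -/
theorem strip (g : ℂ → ℂ) (a b M : ℝ) (U : Set ℂ) (hg : DifferentiableOn ℂ g U)
    (hsub : ∀ ζ : ℂ, a ≤ ζ.im → ζ.im ≤ b → ζ ∈ U)
    (hper : ∀ ζ : ℂ, a ≤ ζ.im → ζ.im ≤ b → ∀ n : ℤ, g (ζ + n) = g ζ)
    (ha : ∀ ζ : ℂ, ζ.im = a → ‖g ζ‖ ≤ M) (hb : ∀ ζ : ℂ, ζ.im = b → ‖g ζ‖ ≤ M)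
    (ζ : ℂ) (h1 : a ≤ ζ.im) (h2 : ζ.im ≤ b) : ‖g ζ‖ ≤ M := by
  rcases (h1.trans h2).eq_or_lt with hab | hab
  · exact ha ζ (le_antisymm (by rw [hab]; exact h2) h1)
  have hcl : closure (Complex.im ⁻¹' Ioo a b) ⊆ U := by
    intro w hw
    have : w ∈ Complex.im ⁻¹' Icc a b := by
      refine closure_minimal ?_ (isClosed_Icc.preimage Complex.continuous_im) hw
      exact preimage_mono Ioo_subset_Icc_self
    exact hsub w this.1 this.2
  have hK : IsCompact (Icc (0 : ℝ) 1 ×ℂ Icc a b) := isCompact_Icc.reProdIm isCompact_Icc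
  obtain ⟨C, hC⟩ := hK.exists_bound_of_continuousOn (f := g) (hg.continuousOn.mono (by
    intro w hw
    rw [Complex.mem_reProdIm] at hw
    exact hsub w hw.2.1 hw.2.2))
  have hbd : ∀ w : ℂ, a ≤ w.im → w.im ≤ b → ‖g w‖ ≤ C := by
    intro w hw1 hw2
    rw [← hper w hw1 hw2 (-⌊w.re⌋)]
    apply hC
    rw [Complex.mem_reProdIm]
    refine ⟨?_, by simpa using ⟨hw1, hw2⟩⟩
    have : (w + ((-⌊w.re⌋ : ℤ) : ℂ)).re = Int.fract w.re := by
      simp [← Int.self_sub_floor, sub_eq_add_neg]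
    rw [this]
    exact ⟨Int.fract_nonneg _, (Int.fract_lt_one _).le⟩
  refine PhragmenLindelof.horizontal_strip (a := a) (b := b) (hg.mono hcl).diffContOnCl
    ⟨0, ?_, 0, ?_⟩ ha hb h1 h2
  · have := sub_pos.2 hab
    have := Real.pi_pos
    positivity
  refine Asymptotics.IsBigO.of_bound C ?_
  refine Filter.mem_inf_of_right ?_
  rw [Filter.mem_principal]
  intro w hw
  simpa using hbd w hw.1.le hw.2.le

/-- the sign -/
def sg (b : Bool) : ℤ := if b then 1 else -1

theorem sg_cases (b : Bool) : sg b = 1 ∨ sg b = -1 := by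
  cases b <;> simp [sg]

section

variable {G : Matrix (Fin 20) (Fin 20) ℤ} {k : ℤ} {F : TP → ℂ} {ξ : Fin 20 → ℝ} {ε η : ℝ}

theorem memHd (hbox : ∀ x : Fin 20 → ℝ, (∀ i, |x i - ξ i| ≤ ε) → bf G x x / 2 < η + bf G ξ ξ / 2)
    {W : TP} (hy : 1 ≤ W.2.1.im)
    (hi : ∀ i, W.2.1.im * (ξ i - ε) ≤ (W.2.2 i).im ∧ (W.2.2 i).im ≤ W.2.1.im * (ξ i + ε))
    (hW : (η + bf G ξ ξ / 2) * W.2.1.im ≤ W.1.im) : W ∈ Hd G := by
  have hy0 : 0 < W.2.1.im := by linarith
  refine ⟨hy0, ?_⟩
  obtain ⟨x, hx⟩ : ∃ x : Fin 20 → ℝ, ∀ i, (W.2.2 i).im = W.2.1.im * x i :=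
    ⟨fun i => (W.2.2 i).im / W.2.1.im, fun i => by field_simp⟩
  have h1 : ∀ i, |x i - ξ i| ≤ ε := by
    intro i
    have h2 := hi i
    rw [hx i] at h2
    have h3 := le_of_mul_le_mul_left h2.1 hy0
    have h4 := le_of_mul_le_mul_left h2.2 hy0
    rw [abs_le]
    constructor <;> linarith
  have h2 := hbox x h1
  have h3 : imv W.2.2 = W.2.1.im • x := by
    funext i
    simp [imv, hx i]
  unfold bh
  rw [h3, bf_smul_left, bf_smul_right, div_lt_iff₀ (by positivity)]
  have h4 := mul_lt_mul_of_pos_left h2 hy0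
  nlinarith

theorem main (hF : TubeForm G k F) (hε : 0 ≤ ε)
    (hbox : ∀ x : Fin 20 → ℝ, (∀ i, |x i - ξ i| ≤ ε) → bf G x x / 2 < η + bf G ξ ξ / 2)
    (hcor : ∀ σ : Fin 20 → Bool, ∃ M : ℝ, ∀ W : TP, 1 ≤ W.2.1.im →
      (∀ i, (W.2.2 i).im = W.2.1.im * (ξ i + sg (σ i) * ε)) →
      (η + bf G ξ ξ / 2) * W.2.1.im ≤ W.1.im → ‖F W‖ ≤ M) (S : Finset (Fin 20)) :
    ∀ σ : Fin 20 → Bool, ∃ M : ℝ, ∀ W : TP, 1 ≤ W.2.1.im →
      (∀ i ∈ S, W.2.1.im * (ξ i - ε) ≤ (W.2.2 i).im ∧ (W.2.2 i).im ≤ W.2.1.im * (ξ i + ε)) →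
      (∀ i, i ∉ S → (W.2.2 i).im = W.2.1.im * (ξ i + sg (σ i) * ε)) →
      (η + bf G ξ ξ / 2) * W.2.1.im ≤ W.1.im → ‖F W‖ ≤ M := by
  classical
  induction S using Finset.induction_on with
  | empty =>
    intro σ
    obtain ⟨M, hM⟩ := hcor σ
    exact ⟨M, fun W hy _ h2 h3 => hM W hy (fun i => h2 i (Finset.notMem_empty i)) h3⟩
  | insert a S haS ih =>
    intro σ
    obtain ⟨M1, h1⟩ := ih (Function.update σ a true)
    obtain ⟨M2, h2⟩ := ih (Function.update σ a false)
    refine ⟨max M1 M2, fun W hy hS hnS hW => ?_⟩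
    have hy0 : 0 < W.2.1.im := by linarith
    have hall : ∀ i, i ≠ a →
        W.2.1.im * (ξ i - ε) ≤ (W.2.2 i).im ∧ (W.2.2 i).im ≤ W.2.1.im * (ξ i + ε) := by
      intro i hia
      by_cases hiS : i ∈ S
      · exact hS i (Finset.mem_insert_of_mem hiS)
      · rw [hnS i (by simp [hia, hiS])]
        have hye : 0 ≤ W.2.1.im * ε := mul_nonneg hy0.le hε
        rcases sg_cases (σ i) with h | h <;> rw [h] <;> push_cast <;> constructor <;> nlinarith
    have hmem : ∀ ζ : ℂ, W.2.1.im * (ξ a - ε) ≤ ζ.im → ζ.im ≤ W.2.1.im * (ξ a + ε) →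
        ((W.1, (W.2.1, Function.update W.2.2 a ζ)) : TP) ∈ Hd G := by
      intro ζ hz1 hz2
      refine memHd (W := (W.1, (W.2.1, Function.update W.2.2 a ζ))) hbox hy (fun i => ?_) hW
      by_cases hia : i = a
      · subst hia
        simpa using ⟨hz1, hz2⟩
      · simpa [Function.update_of_ne hia] using hall i hia
    have key := strip (fun ζ => F (W.1, (W.2.1, Function.update W.2.2 a ζ)))
      (W.2.1.im * (ξ a - ε)) (W.2.1.im * (ξ a + ε)) (max M1 M2)
      {ζ | ((W.1, (W.2.1, Function.update W.2.2 a ζ)) : TP) ∈ Hd G} ?_ hmem ?_ ?_ ?_ (W.2.2 a)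
      (hS a (Finset.mem_insert_self a S)).1 (hS a (Finset.mem_insert_self a S)).2
    · simpa using key
    · refine hF.holo.comp (f := fun ζ => ((W.1, (W.2.1, Function.update W.2.2 a ζ)) : TP)) ?_
        (fun ζ hζ => hζ)
      intro ζ _
      refine DifferentiableAt.differentiableWithinAt ?_
      have := (hasDerivAt_update W.2.2 a ζ).differentiableAt
      fun_prop
    · intro ζ hz1 hz2 n
      have := hF.tr _ (hmem ζ hz1 hz2) 0 0 (Pi.single a n)
      show F (W.1, (W.2.1, Function.update W.2.2 a (ζ + n))) = _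
      rw [← this]
      congr 1
      refine Prod.ext (by simp) (Prod.ext (by simp) ?_)
      funext i
      by_cases hia : i = a
      · subst hia
        simp
      · simp [hia]
    · intro ζ hz
      refine (h2 (W.1, (W.2.1, Function.update W.2.2 a ζ)) hy ?_ ?_ hW).trans (le_max_right _ _)
      · intro i hi
        have hia : i ≠ a := fun h => haS (h ▸ hi)
        simpa [Function.update_of_ne hia] using hall i hia
      · intro i hi
        by_cases hia : i = a
        · subst hia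
          have h3 : ((sg (Function.update σ i false i) : ℤ) : ℝ) = -1 := by simp [sg]
          rw [h3]
          simp only [Function.update_self, hz]
          ring
        · simp only [Function.update_of_ne hia]
          exact hnS i (by simp [hia, hi])
    · intro ζ hz
      refine (h1 (W.1, (W.2.1, Function.update W.2.2 a ζ)) hy ?_ ?_ hW).trans (le_max_left _ _)
      · intro i hi
        have hia : i ≠ a := fun h => haS (h ▸ hi)
        simpa [Function.update_of_ne hia] using hall i hia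
      · intro i hi
        by_cases hia : i = a
        · subst hia
          simp [hz, sg]
        · simp only [Function.update_of_ne hia]
          exact hnS i (by simp [hia, hi])

end

theorem job : P1 := by
  intro G k F h hF X N hN η hη
  have hKD : JobKD := Pool.Agent.Y683.RL.jobKD
  have hcont : Continuous fun x : Fin 20 → ℝ => bf G x x / 2 :=
    (bf_contR G continuous_id continuous_id).div_const 2
  have hev := (hcont.tendsto (xr X N)).eventually_lt_const
    (show bf G (xr X N) (xr X N) / 2 < η / 2 + bf G (xr X N) (xr X N) / 2 by linarith)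
  rw [Metric.eventually_nhds_iff] at hev
  obtain ⟨δ, hδ, hδ'⟩ := hev
  obtain ⟨q, hq⟩ := exists_nat_gt (1 / δ)
  have hq0 : 0 < q := by
    have : (0 : ℝ) < q := lt_trans (by positivity) hq
    exact_mod_cast this
  have hqR : (0 : ℝ) < q := by exact_mod_cast hq0
  have hNR : (0 : ℝ) < N := by exact_mod_cast hN
  have hN1 : (1 : ℝ) ≤ N := by exact_mod_cast hN
  set ε : ℝ := 1 / ((N : ℝ) * q) with hε
  have hε0 : 0 < ε := by positivity
  have hεδ : ε < δ := by
    rw [hε, div_lt_iff₀ (by positivity)]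
    rw [div_lt_iff₀ hδ] at hq
    nlinarith
  have hbox2 : ∀ x : Fin 20 → ℝ, (∀ i, |x i - xr X N i| ≤ ε) →
      bf G x x / 2 < η / 2 + bf G (xr X N) (xr X N) / 2 := by
    intro x hx
    apply hδ'
    rw [dist_pi_lt_iff hδ]
    intro i
    rw [Real.dist_eq]
    exact (hx i).trans_lt hεδ
  have hcor : ∀ σ : Fin 20 → Bool, ∃ M : ℝ, ∀ W : TP, 1 ≤ W.2.1.im →
      (∀ i, (W.2.2 i).im = W.2.1.im * (xr X N i + sg (σ i) * ε)) →
      (η + bf G (xr X N) (xr X N) / 2) * W.2.1.im ≤ W.1.im → ‖F W‖ ≤ M := by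
    intro σ
    have hx : ∀ i, xr (fun i => X i * q + sg (σ i)) (N * q) i = xr X N i + sg (σ i) * ε := by
      intro i
      simp only [xr, hε]
      push_cast
      field_simp
    obtain ⟨M, hM⟩ := bound_slice hKD h hF (fun i => X i * q + sg (σ i)) (Nat.mul_pos hN hq0)
      (half_pos hη)
    refine ⟨M, fun W hy hi hW => hM W hy ?_ ?_⟩
    · funext i
      rw [Pi.smul_apply, smul_eq_mul, hx i, ← hi i]
      rfl
    · refine le_trans ?_ hW
      have h1 := hbox2 (xr (fun i => X i * q + sg (σ i)) (N * q)) (by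
        intro i
        rw [hx i]
        rcases sg_cases (σ i) with h | h <;> rw [h] <;> push_cast <;>
          simp [abs_of_pos hε0])
      refine mul_le_mul_of_nonneg_right ?_ (by linarith)
      linarith
  obtain ⟨M, hM⟩ := main (η := η) hF hε0.le (fun x hx => (hbox2 x hx).trans (by linarith)) hcor
    Finset.univ (fun _ => true)
  refine ⟨ε, M, hε0, fun W hy hx hW => hM W hy (fun i _ => ?_)
    (fun i hi => absurd (Finset.mem_univ i) hi) hW⟩
  have hy0 : 0 < W.2.1.im := by linarith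
  have h1 := hx i
  have h2 : (W.2.2 i).im = W.2.1.im * xp W.2 i := by
    simp only [xp, imv, Pi.smul_apply, smul_eq_mul]
    field_simp
  rw [abs_le] at h1
  rw [h2]
  constructor
  · exact mul_le_mul_of_nonneg_left (by linarith) hy0.le
  · exact mul_le_mul_of_nonneg_left (by linarith) hy0.le

end Pool.Agent.Helper188_RL.JP1

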