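import Pool.Agent.Helper188_RL.Stm2
set_option autoImplicit false
open MeasureTheory Complex Set Topology Pool.Agent.Y813.RL
namespace Pool.Agent.Helper188_RL.JP2

theorem imv_sp (ξ x : Fin 20 → ℝ) (τ : ℂ) : imv (sp ξ x τ).2 = τ.im • ξ := by
  funext i
  simp [imv, sp, Complex.mul_im]

theorem xp_sp (ξ x : Fin 20 → ℝ) {τ : ℂ} (hτ : 0 < τ.im) : xp (sp ξ x τ) = ξ := by
  unfold xp
  rw [imv_sp]
  have : (sp ξ x τ).1.im = τ.im := rfl
  rw [this, smul_smul, inv_mul_cancel₀ hτ.ne', one_smul]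

/-- lower bound for `x` in the unit cube -/
theorem low {G : Matrix (Fin 20) (Fin 20) ℤ} {k : ℤ} {F : TP → ℂ}
    {φ : ℕ → ℂ × (Fin 20 → ℂ) → ℂ} {C m : ℕ} (h : PosSymm G) (H : CM G k F φ C m)
    (ha : P2a) (hb : P2b) (hc : P2c) (X : Fin 20 → ℤ) (N : ℕ) (hN : 0 < N)
    (hmir : ∀ μ : Fin 20 → ℤ, 0 < bd G μ μ → bd G μ μ ≤ 2 → ∀ k : ℤ, dt μ (xr X N) ≠ k) :
    ∃ K y₀ : ℝ, 0 < K ∧ 1 ≤ y₀ ∧ ∀ (τ : ℂ) (x : Fin 20 → ℝ), y₀ ≤ τ.im → (∀ i, |x i| ≤ 1) →
      Real.exp (-(K * τ.im)) ≤ ‖φ C (sp (xr X N) x τ)‖ := by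
  obtain ⟨K1, y1, hK1, hy1, h1⟩ := hb G k F φ C m h H X N hN hmir
  obtain ⟨ε, K2, hε, hK2, h2⟩ := hc G k F φ C m h H X N hN hmir
  refine ⟨7 * max K1 K2, max (max y1 1) (2 / ε), by positivity,
    (le_max_right _ _).trans (le_max_left _ _), fun τ x hτ hx => ?_⟩
  have hτ1 : y1 ≤ τ.im := ((le_max_left _ _).trans (le_max_left _ _)).trans hτ
  have hτ2 : 1 ≤ τ.im := ((le_max_right _ _).trans (le_max_left _ _)).trans hτ
  have hτ3 : 2 / ε ≤ τ.im := (le_max_right _ _).trans hτ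
  have hτ0 : 0 < τ.im := by linarith
  set f : ℂ → ℂ := fun ζ => φ C (τ, fun i => τ * (xr X N i : ℂ) + ζ * (x i : ℂ)) with hf
  have hpt : ∀ ζ ∈ Metric.ball (0 : ℂ) 2,
      ∀ i, |xp ((τ, fun i => τ * (xr X N i : ℂ) + ζ * (x i : ℂ)) : ℂ × (Fin 20 → ℂ)) i
        - xr X N i| ≤ ε := by
    intro ζ hζ i
    rw [Metric.mem_ball, dist_zero_right] at hζ
    have e1 : xp ((τ, fun i => τ * (xr X N i : ℂ) + ζ * (x i : ℂ)) : ℂ × (Fin 20 → ℂ)) i
        - xr X N i = (τ.im)⁻¹ * (ζ.im * x i) := by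
      simp only [xp, imv, Pi.smul_apply, smul_eq_mul, Complex.add_im, Complex.mul_im,
        Complex.ofReal_im, Complex.ofReal_re, mul_zero, zero_add]
      field_simp
      ring
    rw [e1, abs_mul, abs_mul, abs_of_pos (inv_pos.2 hτ0)]
    have h3 : |ζ.im| ≤ 2 := (Complex.abs_im_le_norm ζ).trans hζ.le
    have h4 : |ζ.im| * |x i| ≤ 2 * 1 :=
      mul_le_mul h3 (hx i) (abs_nonneg _) (by norm_num)
    have h5 : (τ.im)⁻¹ * (|ζ.im| * |x i|) ≤ (τ.im)⁻¹ * (2 * 1) :=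
      mul_le_mul_of_nonneg_left h4 (inv_pos.2 hτ0).le
    have h6 : (τ.im)⁻¹ * (2 * 1) ≤ ε := by
      rw [inv_mul_le_iff₀ hτ0]
      rw [div_le_iff₀ hε] at hτ3
      linarith
    exact h5.trans h6
  have hgood : ∀ ζ ∈ Metric.ball (0 : ℂ) 2, f ζ ≠ 0 ∧ ‖f ζ‖ ≤ Real.exp (K2 * τ.im) := by
    intro ζ hζ
    have := h2 (τ, fun i => τ * (xr X N i : ℂ) + ζ * (x i : ℂ)) hτ2 (hpt ζ hζ)
    exact ⟨this.2.1, this.2.2⟩
  have hfd : DifferentiableOn ℂ f (Metric.ball 0 2) := by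
    refine (H.fd.holo C).comp (t := UP) ?_ ?_
    · refine (Differentiable.differentiableOn ?_)
      refine Differentiable.prodMk (by fun_prop) ?_
      rw [differentiable_pi]
      intro i
      fun_prop
    · intro ζ _
      exact hτ0
  have hM1 : K2 * τ.im ≤ max K1 K2 * τ.im := mul_le_mul_of_nonneg_right (le_max_right _ _) hτ0.le
  have hM2 : K1 * τ.im ≤ max K1 K2 * τ.im := mul_le_mul_of_nonneg_right (le_max_left _ _) hτ0.le
  have hf0 : Real.exp (-(max K1 K2 * τ.im)) ≤ ‖f 0‖ := by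
    have e2 : f 0 = φ C (sp (xr X N) 0 τ) := by
      simp only [hf, sp, zero_mul, Pi.zero_apply, Complex.ofReal_zero]
    rw [e2]
    refine le_trans ?_ (h1 τ hτ1)
    rw [Real.exp_le_exp]
    linarith
  have hres := ha f (max K1 K2 * τ.im) hfd (fun z hz => (hgood z hz).1)
    (fun z hz => (hgood z hz).2.trans (by rw [Real.exp_le_exp]; exact hM1)) hf0
  have e3 : f 1 = φ C (sp (xr X N) x τ) := by
    simp only [hf, sp, one_mul]
  rw [e3] at hres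
  refine le_trans ?_ hres
  rw [Real.exp_le_exp]
  linarith

theorem job (h1 : P1) (ha : P2a) (hb : P2b) (hc : P2c) : P2 := by
  intro G k F φ C m h H X N hN hmir η hη
  obtain ⟨K1, y1, hK1, hy1, hlow⟩ := low h H ha hb hc X N hN hmir
  obtain ⟨ε, K2, hε, hK2, h2⟩ := hc G k F φ C m h H X N hN hmir
  obtain ⟨ε', M, hε', hM⟩ := h1 G k F h H.tf X N hN η hη
  have hpi := Real.pi_pos
  set ξ := xr X N with hξ
  set T := bf G ξ ξ / 2 with hT
  have hT0 : 0 ≤ T := by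
    have := h.nonneg ξ
    rw [hT]; linarith
  set L : ℝ := Real.log (|M| + 1) with hL
  have hL0 : 0 ≤ L := Real.log_nonneg (by linarith [abs_nonneg M])
  refine ⟨L + 2 * Real.pi * (η + T) * C + K1, y1, by positivity, by linarith, fun τ x hτ => ?_⟩
  have hτ1 : 1 ≤ τ.im := hy1.trans hτ
  have hτ0 : 0 < τ.im := by linarith
  have hxp := xp_sp ξ x hτ0
  obtain ⟨hm, hne, -⟩ := h2 (sp ξ x τ) hτ1 (fun i => by rw [hxp]; simpa using hε.le)
  refine ⟨hm, hne, fun s hs => ?_⟩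
  have hpUP : sp ξ x τ ∈ UP := hτ0
  -- lower bound for all real `x`
  have hlow' : Real.exp (-(K1 * τ.im)) ≤ ‖φ C (sp ξ x τ)‖ := by
    set v : Fin 20 → ℤ := fun i => -⌊x i⌋ with hv
    have e1 : φ C (sp ξ x τ) = φ C (sp ξ (fun i => Int.fract (x i)) τ) := by
      have := law_z H.tf H.fd C (τ := τ) (sp ξ x τ).2 v hτ0
      have e2 : (sp ξ (fun i => Int.fract (x i)) τ) =
          ((τ, fun i => (sp ξ x τ).2 i + (v i : ℂ)) : ℂ × (Fin 20 → ℂ)) := by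
        refine Prod.ext rfl ?_
        funext i
        simp only [sp, hv, Int.fract]
        push_cast
        ring
      rw [e2, this]
      rfl
    rw [e1]
    refine hlow τ _ hτ fun i => ?_
    rw [abs_of_nonneg (Int.fract_nonneg _)]
    exact (Int.fract_lt_one _).le
  set v : ℝ := (η + T) * τ.im with hv
  have hbh : bh G (sp ξ x τ) < v := by
    rw [bh_eq hpUP, hxp]
    have e : (sp ξ x τ).1.im = τ.im := rfl
    rw [e, hv, ← hT]
    nlinarith [mul_pos hη hτ0]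
  have hFb : ∀ ω : ℂ, ω.im = v → ‖F (ω, sp ξ x τ)‖ ≤ |M| + 1 := by
    intro ω hω
    have := hM (ω, sp ξ x τ) hτ1 (fun i => by
      show |xp (sp ξ x τ) i - ξ i| ≤ ε'
      rw [hxp]; simpa using hε'.le) (by
      show (η + bf G ξ ξ / 2) * τ.im ≤ ω.im
      rw [hω])
    linarith [le_abs_self M]
  have hb1 := H.gp_bound hpUP hne hbh hFb (s := s) (by
    rw [hv]
    exact hs)
  refine hb1.trans ?_
  have hpos : 0 < ‖φ C (sp ξ x τ)‖ := norm_pos_iff.2 hne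
  rw [div_le_iff₀ hpos]
  have e1 : |M| + 1 = Real.exp L := by
    rw [hL, Real.exp_log (by positivity)]
  rw [e1, ← Real.exp_add]
  calc Real.exp (L + 2 * Real.pi * v * C) ≤
      Real.exp ((L + 2 * Real.pi * (η + T) * C + K1) * τ.im) * Real.exp (-(K1 * τ.im)) := by
        rw [← Real.exp_add, Real.exp_le_exp, hv]
        have : L * 1 ≤ L * τ.im := mul_le_mul_of_nonneg_left hτ1 hL0
        nlinarith
    _ ≤ _ := mul_le_mul_of_nonneg_left hlow' (Real.exp_pos _).le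

end Pool.Agent.Helper188_RL.JP2
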