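import Pool.Agent.Helper188_RL.Stm2
set_option autoImplicit false
open MeasureTheory Complex Set Topology Pool.Agent.Y813.RL
namespace Pool.Agent.Helper188_RL.JP2a

lemma core (f : ℂ → ℂ) (M : ℝ) (hM : 0 < M) (hf : DifferentiableOn ℂ f (Metric.ball 0 2))
    (h0 : ∀ z ∈ Metric.ball (0 : ℂ) 2, f z ≠ 0)
    (hb : ∀ z ∈ Metric.ball (0 : ℂ) 2, ‖f z‖ ≤ Real.exp M) (hl : Real.exp (-M) ≤ ‖f 0‖) :
    Real.exp (-(5 * M)) ≤ ‖f 1‖ := by
  have hz0 : (0 : ℂ) ∈ Metric.ball (0 : ℂ) 2 := Metric.mem_ball_self (by norm_num)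
  have hz1 : (1 : ℂ) ∈ Metric.ball (0 : ℂ) 2 := by
    rw [mem_ball_zero_iff]; norm_num
  have hf0 : f 0 ≠ 0 := h0 0 hz0
  have hn0 : 0 < ‖f 0‖ := norm_pos_iff.2 hf0
  set g : ℂ → ℂ := fun z => f z / f 0 with hg
  have hgd : DifferentiableOn ℂ g (Metric.ball 0 2) := hf.div_const _
  have hg0 : ∀ s ∈ Metric.ball (0 : ℂ) 2, g s ≠ 0 := fun s hs => div_ne_zero (h0 s hs) hf0
  have hg1 : g 0 = 1 := div_self hf0
  obtain ⟨F, hF0, hFd, hFe⟩ := Pool.Agent.Y155.RL.exists_log (by norm_num : (0:ℝ) < 2) hgd hg0 hg1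
  have hFD : DifferentiableOn ℂ F (Metric.ball 0 2) :=
    fun s hs => (hFd s hs).differentiableAt.differentiableWithinAt
  have hgb : ∀ s ∈ Metric.ball (0 : ℂ) 2, ‖g s‖ ≤ Real.exp (2 * M) := by
    intro s hs
    have h1 : ‖g s‖ = ‖f s‖ / ‖f 0‖ := norm_div _ _
    rw [h1, div_le_iff₀ hn0]
    calc ‖f s‖ ≤ Real.exp M := hb s hs
      _ = Real.exp (2 * M) * Real.exp (-M) := by rw [← Real.exp_add]; ring_nf
      _ ≤ Real.exp (2 * M) * ‖f 0‖ := by gcongr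
  have hlb := Pool.Agent.Y155.RL.log_bound (by norm_num : (0:ℝ) < 2) (by linarith : 0 < 2 * M)
    hF0 hFD hFe hgb 1 (by rw [mem_closedBall_zero_iff]; norm_num)
  have h2 : ‖g 1‖ = Real.exp (F 1).re := by
    rw [← hFe 1 hz1, Complex.norm_exp]
  have h3 : -(4 * M) ≤ (F 1).re := by
    have := (abs_le.1 (Complex.abs_re_le_norm (F 1))).1
    linarith
  have h4 : ‖f 1‖ = ‖g 1‖ * ‖f 0‖ := by
    have : ‖g 1‖ = ‖f 1‖ / ‖f 0‖ := norm_div _ _
    rw [this]; field_simp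
  rw [h4, h2]
  calc Real.exp (-(5 * M)) = Real.exp (-(4 * M)) * Real.exp (-M) := by
        rw [← Real.exp_add]; ring_nf
    _ ≤ Real.exp (F 1).re * ‖f 0‖ := by gcongr

theorem job : P2a := by
  intro f M hf h0 hb hl
  have hz0 : (0 : ℂ) ∈ Metric.ball (0 : ℂ) 2 := Metric.mem_ball_self (by norm_num)
  have hM : 0 ≤ M := by
    have := hl.trans (hb 0 hz0)
    rw [Real.exp_le_exp] at this
    linarith
  rcases hM.lt_or_eq with hM | hM
  · refine le_trans ?_ (core f M hM hf h0 hb hl)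
    rw [Real.exp_le_exp]; linarith
  · subst hM
    have key : ∀ ε : ℝ, 0 < ε → Real.exp (-(5 * ε)) ≤ ‖f 1‖ := by
      intro ε hε
      refine core f ε hε hf h0 (fun z hz => (hb z hz).trans ?_) (le_trans ?_ hl)
      · rw [Real.exp_le_exp]; linarith
      · rw [Real.exp_le_exp]; linarith
    have hc : Filter.Tendsto (fun ε : ℝ => Real.exp (-(5 * ε))) (𝓝[>] 0)
        (𝓝 (Real.exp (-(5 * 0)))) := by
      have : Continuous (fun ε : ℝ => Real.exp (-(5 * ε))) := by fun_prop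
      exact (this.tendsto 0).mono_left nhdsWithin_le_nhds
    have h1 := le_of_tendsto hc (Filter.eventually_of_mem self_mem_nhdsWithin fun ε hε => key ε hε)
    simpa using h1

end Pool.Agent.Helper188_RL.JP2a
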