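import Pool.Agent.Y813.RL.Jac2
import Pool.Agent.Y813.RL.Per
import Pool.Agent.Y155.RL.VD
import Pool.Agent.Y155.RL.DIV
import Pool.Agent.Y683.RL.Kd
import Pool.Agent.Y683.RL.Fj
import Pool.Agent.Y813.RL.Comp

set_option autoImplicit false

/-!
# Statements of the sub-jobs of the project RL (MP_f1d0b6_nt), part 2: growth of the Jacobi form

Owner: helper188.  Every statement is a `Prop`; a job is to prove `theorem job : <Prop>`.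
-/

open MeasureTheory Complex Set Topology Pool.Agent.Y813.RL

namespace Pool.Agent.Helper188_RL

noncomputable section

/-- the point `(τ, τ ξ + x)` of the slice in direction `ξ` -/
def sp (ξ x : Fin 20 → ℝ) (τ : ℂ) : ℂ × (Fin 20 → ℂ) := (τ, fun i => τ * (ξ i : ℂ) + (x i : ℂ))

/-- the height of the wall `b + m ω + n τ + μ z = 0` in the slice in direction `ξ` -/
def hw (G : Matrix (Fin 20) (Fin 20) ℤ) (ξ : Fin 20 → ℝ) (m n : ℤ) (μ : Fin 20 → ℤ) : ℝ :=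
  -((n : ℝ) + dt μ ξ) / m - bf G ξ ξ / 2

/-- the walls of height at least `η` in the slice -/
def WS (G : Matrix (Fin 20) (Fin 20) ℤ) (ξ : Fin 20 → ℝ) (η : ℝ) :
    Set (ℤ × (ℤ × (Fin 20 → ℤ))) :=
  {w | 0 < w.1 ∧ (∃ b : ℤ, WallData G 0 b w.1 w.2.1 w.2.2) ∧ η ≤ hw G ξ w.1 w.2.1 w.2.2}

/-- generic directions -/
structure Gnr (G : Matrix (Fin 20) (Fin 20) ℤ) (η : ℝ) (ξ : Fin 20 → ℝ) : Prop where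
  mir : ∀ μ : Fin 20 → ℤ, 0 < bd G μ μ → bd G μ μ ≤ 2 → ∀ k : ℤ, dt μ ξ ≠ k
  sep : ∀ w ∈ WS G ξ η, ∀ w' ∈ WS G ξ η,
    hw G ξ w.1 w.2.1 w.2.2 = hw G ξ w'.1 w'.2.1 w'.2.2 →
    w'.1 * w.2.1 = w.1 * w'.2.1 ∧ w'.1 • w.2.2 = w.1 • w'.2.2

/-- uniform bound of `F` near a rational slice -/
def P1 : Prop := ∀ (G : Matrix (Fin 20) (Fin 20) ℤ) (k : ℤ) (F : TP → ℂ), PosSymm G →
  TubeForm G k F → ∀ (X : Fin 20 → ℤ) (N : ℕ), 0 < N → ∀ η : ℝ, 0 < η →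
  ∃ ε M : ℝ, 0 < ε ∧ ∀ W : TP, 1 ≤ W.2.1.im → (∀ i, |xp W.2 i - xr X N i| ≤ ε) →
    (η + bf G (xr X N) (xr X N) / 2) * W.2.1.im ≤ W.1.im → ‖F W‖ ≤ M

/-- Harnack inequality -/
def P2a : Prop := ∀ (f : ℂ → ℂ) (M : ℝ), DifferentiableOn ℂ f (Metric.ball 0 2) →
  (∀ z ∈ Metric.ball (0 : ℂ) 2, f z ≠ 0) →
  (∀ z ∈ Metric.ball (0 : ℂ) 2, ‖f z‖ ≤ Real.exp M) → Real.exp (-M) ≤ ‖f 0‖ →
  Real.exp (-(7 * M)) ≤ ‖f 1‖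

/-- lower bound of the leading coefficient on the slice at `x = 0` -/
def P2b : Prop := ∀ (G : Matrix (Fin 20) (Fin 20) ℤ) (k : ℤ) (F : TP → ℂ)
  (φ : ℕ → ℂ × (Fin 20 → ℂ) → ℂ) (C m : ℕ), PosSymm G → CM G k F φ C m →
  ∀ (X : Fin 20 → ℤ) (N : ℕ), 0 < N →
  (∀ μ : Fin 20 → ℤ, 0 < bd G μ μ → bd G μ μ ≤ 2 → ∀ k : ℤ, dt μ (xr X N) ≠ k) →
  ∃ K y₀ : ℝ, 0 < K ∧ 0 < y₀ ∧ ∀ τ : ℂ, y₀ ≤ τ.im →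
    Real.exp (-(K * τ.im)) ≤ ‖φ C (sp (xr X N) 0 τ)‖

/-- upper bound and nonvanishing of the leading coefficient near a rational slice -/
def P2c : Prop := ∀ (G : Matrix (Fin 20) (Fin 20) ℤ) (k : ℤ) (F : TP → ℂ)
  (φ : ℕ → ℂ × (Fin 20 → ℂ) → ℂ) (C m : ℕ), PosSymm G → CM G k F φ C m →
  ∀ (X : Fin 20 → ℤ) (N : ℕ), 0 < N →
  (∀ μ : Fin 20 → ℤ, 0 < bd G μ μ → bd G μ μ ≤ 2 → ∀ k : ℤ, dt μ (xr X N) ≠ k) →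
  ∃ ε K : ℝ, 0 < ε ∧ 0 < K ∧ ∀ p : ℂ × (Fin 20 → ℂ), 1 ≤ p.1.im →
    (∀ i, |xp p i - xr X N i| ≤ ε) → p ∉ Mir G ∧ φ C p ≠ 0 ∧ ‖φ C p‖ ≤ Real.exp (K * p.1.im)

/-- bound of the normalised function on the slice -/
def P2 : Prop := ∀ (G : Matrix (Fin 20) (Fin 20) ℤ) (k : ℤ) (F : TP → ℂ)
  (φ : ℕ → ℂ × (Fin 20 → ℂ) → ℂ) (C m : ℕ), PosSymm G → CM G k F φ C m →
  ∀ (X : Fin 20 → ℤ) (N : ℕ), 0 < N →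
  (∀ μ : Fin 20 → ℤ, 0 < bd G μ μ → bd G μ μ ≤ 2 → ∀ k : ℤ, dt μ (xr X N) ≠ k) →
  ∀ η : ℝ, 0 < η → ∃ K y₀ : ℝ, 0 < K ∧ 0 < y₀ ∧ ∀ (τ : ℂ) (x : Fin 20 → ℝ), y₀ ≤ τ.im →
    sp (xr X N) x τ ∉ Mir G ∧ φ C (sp (xr X N) x τ) ≠ 0 ∧
    ∀ s : ℂ, ‖s‖ ≤ Real.exp (-(2 * Real.pi * ((η + bf G (xr X N) (xr X N) / 2) * τ.im))) →
      ‖gp φ C m (sp (xr X N) x τ) s‖ ≤ Real.exp (K * τ.im)

/-- zeros of the normalised function lie on walls -/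
def P3z : Prop := ∀ (G : Matrix (Fin 20) (Fin 20) ℤ) (k : ℤ) (F : TP → ℂ)
  (φ : ℕ → ℂ × (Fin 20 → ℂ) → ℂ) (C m : ℕ), PosSymm G → CM G k F φ C m →
  ∀ (ξ x : Fin 20 → ℝ) (τ s : ℂ) (η : ℝ), 0 < τ.im → 0 < η → 1 < τ.im ^ 2 * η →
  sp ξ x τ ∉ Mir G → φ C (sp ξ x τ) ≠ 0 → s ≠ 0 →
  ‖s‖ ≤ Real.exp (-(2 * Real.pi * ((η + bf G ξ ξ / 2) * τ.im))) →
  gp φ C m (sp ξ x τ) s = 0 →
  ∃ (b m' n : ℤ) (μ : Fin 20 → ℤ), (m', (n, μ)) ∈ WS G ξ η ∧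
    s = ee (-(((b : ℂ) + n * τ + dt μ (sp ξ x τ).2) / m')) ∧
    ‖s‖ = Real.exp (-(2 * Real.pi * ((hw G ξ m' n μ + bf G ξ ξ / 2) * τ.im)))

def P3f : Prop := ∀ (G : Matrix (Fin 20) (Fin 20) ℤ), PosSymm G → ∀ (ξ : Fin 20 → ℝ) (η : ℝ),
  0 < η → (WS G ξ η).Finite

/-- heights of walls -/
def P3b : Prop := ∀ (G : Matrix (Fin 20) (Fin 20) ℤ), PosSymm G → ∀ (ξ : Fin 20 → ℝ) (η : ℝ),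
  0 < η → ∀ w ∈ WS G ξ η, (w.1 : ℝ) ^ 2 * hw G ξ w.1 w.2.1 w.2.2 ≤ 1 ∧
    (1 / 2 < hw G ξ w.1 w.2.1 w.2.2 → w.1 = 1 ∧ ∃ v : Fin 20 → ℤ, w.2.2 = G.mulVec v)

/-- generic rational directions exist in every open set -/
def P3g : Prop := ∀ (G : Matrix (Fin 20) (Fin 20) ℤ), PosSymm G → ∀ η : ℝ, 0 < η →
  ∀ O : Set (Fin 20 → ℝ), IsOpen O → O.Nonempty →
  ∃ (X : Fin 20 → ℤ) (N : ℕ), 0 < N ∧ xr X N ∈ O ∧ Gnr G η (xr X N)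

/-- growth for `m ≥ 2` -/
def P4 : Prop := ∀ (G : Matrix (Fin 20) (Fin 20) ℤ) (k : ℤ) (F : TP → ℂ)
  (φ : ℕ → ℂ × (Fin 20 → ℂ) → ℂ) (C m : ℕ) (c : ℂ → (Fin 20 → ℂ) → ℂ), PosSymm G →
  CM G k F φ C m → 2 ≤ m → (∀ τ z, 0 < τ.im → φ (C + m) (τ, z) = φ C (τ, z) * c τ z) →
  ∀ η : ℝ, 0 < η → m * η ≤ 1 / 2 → ∀ (X : Fin 20 → ℤ) (N : ℕ), 0 < N →
  Gnr G η (xr X N) → ∀ ε : ℝ, 0 < ε → ∃ K y₀ : ℝ, 0 < y₀ ∧ ∀ (τ : ℂ) (x : Fin 20 → ℝ),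
    y₀ ≤ τ.im → ‖c τ (sp (xr X N) x τ).2‖ ≤
      K * Real.exp (2 * Real.pi * ((m * bf G (xr X N) (xr X N) / 2 + 3 / 4 + ε) * τ.im))

/-- growth for `m = 1` -/
def P5a : Prop := ∀ (G : Matrix (Fin 20) (Fin 20) ℤ) (k : ℤ) (F : TP → ℂ)
  (φ : ℕ → ℂ × (Fin 20 → ℂ) → ℂ) (C : ℕ) (c : ℂ → (Fin 20 → ℂ) → ℂ), PosSymm G →
  CM G k F φ C 1 → (∀ τ z, 0 < τ.im → φ (C + 1) (τ, z) = φ C (τ, z) * c τ z) →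
  ∀ η : ℝ, 0 < η → η ≤ 1 → ∀ (X : Fin 20 → ℤ) (N : ℕ), 0 < N →
  Gnr G η (xr X N) → ∀ ε : ℝ, 0 < ε → ∃ K y₀ : ℝ, 0 < y₀ ∧ ∀ (τ : ℂ) (x : Fin 20 → ℝ),
    y₀ ≤ τ.im → ‖c τ (sp (xr X N) x τ).2‖ ≤
      K * Real.exp (2 * Real.pi * ((bf G (xr X N) (xr X N) / 2 + 1 + ε) * τ.im))

/-- splitting off zeros -/
def P5c : Prop := ∀ (r : ℕ) (a : Fin r → ℂ) (g : ℂ → ℂ) (R M : ℝ), 0 < R → 0 < M →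
  Function.Injective a → (∀ i, a i ≠ 0 ∧ ‖a i‖ ≤ R / 2) →
  AnalyticOnNhd ℂ g (Metric.closedBall 0 R) → g 0 = 1 →
  (∀ s ∈ Metric.closedBall (0 : ℂ) R, ‖g s‖ ≤ Real.exp M) →
  (∀ s ∈ Metric.closedBall (0 : ℂ) R, g s = 0 → ∃ i, s = a i) →
  ∃ N : Fin r → ℕ, (∀ i, (N i : ℝ) ≤ 2 * M) ∧ ‖deriv g 0 + ∑ i, (N i : ℂ) / a i‖ ≤ 4 * M / R

/-- constancy of the multiplicities -/
def P5d : Prop := ∀ (r : ℕ) (a : Fin r → (Fin 20 → ℝ) → ℂ) (α : Fin r → ℝ)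
  (c : (Fin 20 → ℝ) → ℂ) (N : Fin r → (Fin 20 → ℝ) → ℕ) (B M q : ℝ), Continuous c →
  (∀ i, Continuous (a i)) → (∀ i x, ‖a i x‖ = α i) → (∀ i, 0 < α i) →
  (∀ i j, i < j → α i ≤ q * α j) → 0 ≤ q → (∀ i x, (N i x : ℝ) ≤ M) →
  (∀ x, ‖c x + ∑ i, (N i x : ℂ) / a i x‖ ≤ B) → (∀ i, B * α i ≤ 1 / 8) → r * M * q ≤ 1 / 8 →
  ∀ i x x', N i x = N i x'

/-- growth of the Fourier coefficients off the lattice for `m = 1` -/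
def P5b : Prop := ∀ (G : Matrix (Fin 20) (Fin 20) ℤ) (k : ℤ) (F : TP → ℂ)
  (φ : ℕ → ℂ × (Fin 20 → ℂ) → ℂ) (C : ℕ) (c : ℂ → (Fin 20 → ℂ) → ℂ), PosSymm G →
  CM G k F φ C 1 → (∀ τ z, 0 < τ.im → φ (C + 1) (τ, z) = φ C (τ, z) * c τ z) →
  JacobiZero G c →
  ∀ η : ℝ, 0 < η → η ≤ 1 / 2 → ∀ (X : Fin 20 → ℤ) (N : ℕ), 0 < N →
  Gnr G η (xr X N) → ∀ μ : Fin 20 → ℤ, (¬ ∃ v : Fin 20 → ℤ, μ = G.mulVec v) →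
  ∀ ε : ℝ, 0 < ε → ∃ K y₀ : ℝ, 0 < y₀ ∧ ∀ τ : ℂ, y₀ ≤ τ.im →
    ‖∫ x in Set.Icc (0 : Fin 20 → ℝ) 1, c τ (sp (xr X N) x τ).2 *
      ee (-(dt μ (sp (xr X N) x τ).2))‖ ≤
    K * Real.exp (2 * Real.pi * ((dt μ (xr X N) + bf G (xr X N) (xr X N) / 2 + 1 / 2 + ε) * τ.im))

/-- exact exponents -/
def P6 : Prop := ∀ (f : ℂ → ℂ) (θ κ : ℝ), DifferentiableOn ℂ f {τ | 0 < τ.im} →
  (∀ τ : ℂ, 0 < τ.im → f (τ + 1) = ee (-(θ : ℂ)) * f τ) →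
  (∀ ε : ℝ, 0 < ε → ∃ K y₀ : ℝ, ∀ τ : ℂ, y₀ ≤ τ.im →
    ‖f τ‖ ≤ K * Real.exp (2 * Real.pi * ((κ + ε) * τ.im))) →
  ∃ C : ℝ, ∀ τ : ℂ, 1 / 2 ≤ τ.im → ‖f τ‖ ≤ C * Real.exp (2 * Real.pi * (κ * τ.im))

/-- there is a next coefficient -/
def P7a : Prop := ∀ (G : Matrix (Fin 20) (Fin 20) ℤ) (k : ℤ) (F : TP → ℂ)
  (φ : ℕ → ℂ × (Fin 20 → ℂ) → ℂ) (C m : ℕ), PosSymm G → CM G k F φ C m → m = 1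

/-- growth of the theta components for `m = 1` -/
def P7b : Prop := ∀ (G : Matrix (Fin 20) (Fin 20) ℤ) (k : ℤ) (F : TP → ℂ)
  (φ : ℕ → ℂ × (Fin 20 → ℂ) → ℂ) (C : ℕ) (c : ℂ → (Fin 20 → ℂ) → ℂ), PosSymm G →
  CM G k F φ C 1 → (∀ τ z, 0 < τ.im → φ (C + 1) (τ, z) = φ C (τ, z) * c τ z) →
  JacobiZero G c →
  (∀ μ, ∃ C : ℝ, ∀ τ : ℂ, 1 / 2 ≤ τ.im → ‖vf G c μ τ‖ ≤ C * Real.exp (2 * Real.pi * τ.im)) ∧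
  (∀ μ, (¬ ∃ v : Fin 20 → ℤ, μ = G.mulVec v) →
    ∃ C : ℝ, ∀ τ : ℂ, 1 / 2 ≤ τ.im → ‖vf G c μ τ‖ ≤ C * Real.exp (Real.pi * τ.im))

/-- from reflective lattices to tube coordinates -/
def TUBE : Prop := ∀ G : Matrix (Fin 20) (Fin 20) ℤ, PosSymm G → (∀ i, Even (G i i)) →
  Pool.Agent.Y813.Refl.IsReflectiveLattice (Pool.Agent.Y813.Refl.gramM G)
    (Pool.Agent.Y813.Refl.coneM G) → ∃ (k : ℤ) (F : TP → ℂ), TubeForm G k F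

/-- the main statement -/
def MAIN : Prop := ∀ G : Matrix (Fin 20) (Fin 20) ℤ, PosSymm G → (∀ i, Even (G i i)) →
  ∀ (k : ℤ) (F : TP → ℂ), TubeForm G k F → SameGenus G gramEED

end

end Pool.Agent.Helper188_RL
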