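-- JOB for MP_f1d0b6_nt (full answer; finishing the starting project Pool/Agent/Y813/RL). Owner helper188.
-- P2b lower bound of the leading coefficient at x = 0
import Pool.Agent.Helper188_RL.Stm2
set_option autoImplicit false
open MeasureTheory Complex Set Topology Pool.Agent.Y813.RL
namespace Pool.Agent.Helper188_RL.JP2b

theorem law_T_nat {G : Matrix (Fin 20) (Fin 20) ℤ} {k : ℤ} {F : TP → ℂ}
    {φ : ℕ → ℂ × (Fin 20 → ℂ) → ℂ} (hF : TubeForm G k F) (hφ : FJD G F φ) (j n : ℕ) {τ : ℂ}
    (z : Fin 20 → ℂ) (hτ : 0 < τ.im) : φ j (τ + n, z) = φ j (τ, z) := by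
  induction n with
  | zero => simp
  | succ n ih =>
    have h1 : 0 < (τ + n).im := by simpa using hτ
    have h2 := law_T hF hφ j z h1
    rw [← ih, ← h2]
    congr 2
    push_cast
    ring

theorem job : P2b := by
  intro G k F φ C m h H X N hN hmir
  have hpi := Real.pi_pos
  have hN' : (0 : ℝ) < N := by exact_mod_cast hN
  have hN1 : (1 : ℝ) ≤ N := by exact_mod_cast hN
  have hNc : (N : ℂ) ≠ 0 := by exact_mod_cast hN.ne'
  set q := bf G (xr X N) (xr X N) with hq
  have hq0 : 0 ≤ q := h.nonneg _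
  let L : ℂ → ℂ × (Fin 20 → ℂ) := fun t => ((N : ℂ) * t, fun i => t * (X i : ℂ))
  have hL1 : ∀ t : ℂ, (L t).1.im = N * t.im := by
    intro t
    show ((N : ℂ) * t).im = _
    rw [Complex.mul_im]
    simp
  have hLU : ∀ t : ℂ, 0 < t.im → L t ∈ UP := by
    intro t ht
    show 0 < (L t).1.im
    rw [hL1]
    exact mul_pos hN' ht
  have hLv : ∀ t : ℂ, imv (L t).2 = (L t).1.im • xr X N := by
    intro t
    funext i
    show (t * (X i : ℂ)).im = (L t).1.im * ((X i : ℝ) / N)
    rw [hL1, Complex.mul_im]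
    simp
    field_simp
  have hLx : ∀ t : ℂ, 0 < t.im → xp (L t) = xr X N := by
    intro t ht
    have h1 : (L t).1.im ≠ 0 := by
      rw [hL1]
      exact (mul_pos hN' ht).ne'
    unfold xp
    rw [hLv, smul_smul, inv_mul_cancel₀ h1, one_smul]
  have hLb : ∀ t : ℂ, 0 < t.im → bh G (L t) = q / 2 * (L t).1.im := by
    intro t ht
    have h1 : (L t).1.im ≠ 0 := by
      rw [hL1]
      exact (mul_pos hN' ht).ne'
    unfold bh
    rw [hLv, bf_smul_left, bf_smul_right, ← hq]
    field_simp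
  have hLd : Differentiable ℂ L := by
    simp only [L]
    fun_prop
  let f : ℂ → ℂ := fun t => φ C (L t)
  have hHP : Pool.Agent.Y683.RL.HP 0 f := by
    refine ⟨?_, ?_⟩
    · exact (H.fd.holo C).comp hLd.differentiableOn fun t ht => hLU t ht
    · intro t ht
      have h1 := law_T_nat H.tf H.fd C N (fun i => t * (X i : ℂ)) (hLU t ht)
      have h2 : 0 < (((L t).1 : ℂ) + N).im := by
        have h0 : 0 < (L t).1.im := hLU t ht
        rw [Complex.add_im, Complex.natCast_im, add_zero]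
        exact h0
      have h3 := law_z H.tf H.fd C (fun i => t * (X i : ℂ)) X h2
      show φ C (L (t + 1)) = φ C (L t)
      have h4 : L (t + 1) = ((L t).1 + N, fun i => (fun i => t * (X i : ℂ)) i + (X i : ℂ)) := by
        refine Prod.ext ?_ ?_
        · simp only [L]
          ring
        · funext i
          simp only [L]
          ring
      rw [h4, h3, h1]
  have hne : ∃ t : ℂ, 0 < t.im ∧ f t ≠ 0 := by
    refine ⟨Complex.I, by simp, ?_⟩
    have h1 : L Complex.I ∈ UP := hLU _ (by simp)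
    refine leading_ne_zero h H.tf H.fd H.hC H.hne h1 ?_
    rintro ⟨b, n, μ, h2, h3, h4⟩
    have h5 := ((mir_eq h1 b n μ).1 h4).1
    rw [hLx _ (by simp)] at h5
    apply hmir μ h2 h3 (-n)
    rw [h5]
    push_cast
    rfl
  obtain ⟨M, hM⟩ := bound_slice Pool.Agent.Y683.RL.jobKD h H.tf X hN (η := 1) one_pos
  have hgrow : ∀ t : ℂ, 1 ≤ t.im → ‖f t‖ ≤ |M| *
      Real.exp ((2 * Real.pi * (C * ((1 + q / 2) * N))) * t.im) := by
    intro t ht
    have ht0 : 0 < t.im := by linarith
    have hy : 1 ≤ (L t).1.im := by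
      rw [hL1]
      nlinarith
    set v : ℝ := (1 + q / 2) * (L t).1.im with hv
    have hbv : bh G (L t) < v := by
      rw [hLb t ht0, hv]
      linarith
    show ‖φ C (L t)‖ ≤ _
    rw [H.fd.coeff C (L t) v (hLU t ht0) hbv]
    have h1 : ∀ x ∈ Set.uIoc (0 : ℝ) 1, ‖F ((x : ℂ) + (v : ℂ) * Complex.I, L t) *
        ee (-(C * ((x : ℂ) + (v : ℂ) * Complex.I)))‖ ≤ |M| *
          Real.exp ((2 * Real.pi * (C * ((1 + q / 2) * N))) * t.im) := by
      intro x _
      have him : ((x : ℂ) + (v : ℂ) * Complex.I).im = v := by simp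
      have h2 : ‖F ((x : ℂ) + (v : ℂ) * Complex.I, L t)‖ ≤ |M| := by
        refine (hM _ hy (hLv t) ?_).trans (le_abs_self _)
        show _ ≤ ((x : ℂ) + (v : ℂ) * Complex.I).im
        rw [him]
      have h3 : (-((C : ℂ) * ((x : ℂ) + (v : ℂ) * Complex.I))).im = -(C * v) := by
        rw [Complex.neg_im, Complex.mul_im, him]
        simp
      rw [norm_mul, norm_ee, h3]
      have h4 : -(2 * Real.pi * -(C * v)) = (2 * Real.pi * (C * ((1 + q / 2) * N))) * t.im := by
        rw [hv, hL1]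
        ring
      rw [h4]
      gcongr
    have h5 := intervalIntegral.norm_integral_le_of_norm_le_const h1
    simpa using h5
  obtain ⟨c, a', T₁, hc, hlow⟩ := per_lower hHP hne hgrow
  refine ⟨|a'| / N + |Real.log c| + 1, max 1 (N * T₁), by positivity,
    lt_of_lt_of_le one_pos (le_max_left _ _), fun τ hτ => ?_⟩
  have hτ1 : 1 ≤ τ.im := (le_max_left _ _).trans hτ
  have hτ2 : N * T₁ ≤ τ.im := (le_max_right _ _).trans hτ
  have hti : (τ / (N : ℂ)).im = τ.im / N := by
    rw [Complex.div_natCast_im]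
  have h1 := hlow (τ / N) (by
    rw [hti, le_div_iff₀ hN']
    linarith)
  have h2 : L (τ / N) = sp (xr X N) 0 τ := by
    refine Prod.ext ?_ ?_
    · show (N : ℂ) * (τ / N) = τ
      field_simp
    · funext i
      show τ / (N : ℂ) * (X i : ℂ) = τ * (((X i : ℝ) / N : ℝ) : ℂ) + (((0 : Fin 20 → ℝ) i : ℝ) : ℂ)
      push_cast
      simp
      field_simp
  have h3 : f (τ / N) = φ C (sp (xr X N) 0 τ) := by
    show φ C (L (τ / N)) = _
    rw [h2]
  rw [h3] at h1
  refine le_trans ?_ h1
  rw [hti]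
  have h4 : c * Real.exp (-(a' * (τ.im / N))) = Real.exp (Real.log c + -(a' * (τ.im / N))) := by
    rw [Real.exp_add, Real.exp_log hc]
  rw [h4]
  apply Real.exp_le_exp.2
  have h5 : a' * (τ.im / N) ≤ |a'| / N * τ.im := by
    have : a' * (τ.im / N) ≤ |a'| * (τ.im / N) :=
      mul_le_mul_of_nonneg_right (le_abs_self _) (by positivity)
    refine this.trans (le_of_eq ?_)
    ring
  have h6 : -Real.log c ≤ |Real.log c| * τ.im := by
    have h7 : -Real.log c ≤ |Real.log c| := neg_le_abs _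
    have h8 := abs_nonneg (Real.log c)
    nlinarith
  nlinarith

end Pool.Agent.Helper188_RL.JP2b
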