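-- JOB for MP_f1d0b6_nt (full answer; finishing the starting project Pool/Agent/Y813/RL). Owner helper188.
import Pool.Agent.Helper188_RL.Stm2
set_option autoImplicit false
open MeasureTheory Complex Set Topology Pool.Agent.Y813.RL
namespace Pool.Agent.Helper188_RL.JP2c

theorem job (h1 : P1) : P2c := by
  intro G k F φ C m hG H X N hN hmir
  obtain ⟨ξ, hξ⟩ : ∃ ξ : Fin 20 → ℝ, ξ = xr X N := ⟨_, rfl⟩
  rw [← hξ] at hmir
  obtain ⟨ε1, M, hε1, hM⟩ := h1 G k F hG H.tf X N hN 1 one_pos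
  rw [← hξ] at hM
  obtain ⟨T, hT⟩ : ∃ T : ℝ, T = bf G ξ ξ / 2 := ⟨_, rfl⟩
  have hT0 : 0 ≤ T := by
    rw [hT]
    have := hG.nonneg ξ
    positivity
  -- the open set
  obtain ⟨S, hS⟩ : ∃ S : Set (Fin 20 → ℤ), S = {μ | 0 < bd G μ μ ∧ bd G μ μ ≤ 2} := ⟨_, rfl⟩
  have hSf : S.Finite := (short_finite hG 2).subset (by
    intro μ hμ
    rw [hS] at hμ
    exact hμ.2)
  have hO1 : IsOpen (⋂ μ ∈ S, gs μ) := hSf.isOpen_biInter fun μ _ => isOpen_gs μ
  have hO2 : IsOpen {x : Fin 20 → ℝ | bf G x x / 2 < 1 + T} :=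
    isOpen_lt ((bf_contR G continuous_id continuous_id).div_const 2) continuous_const
  have hmem : ξ ∈ (⋂ μ ∈ S, gs μ) ∩ {x : Fin 20 → ℝ | bf G x x / 2 < 1 + T} := by
    refine ⟨?_, ?_⟩
    · simp only [Set.mem_iInter]
      intro μ hμ
      rw [hS] at hμ
      exact hmir μ hμ.1 hμ.2
    · show bf G ξ ξ / 2 < 1 + T
      rw [← hT]
      linarith
  obtain ⟨ε2, hε2, hball⟩ := Metric.isOpen_iff.1 (hO1.inter hO2) ξ hmem
  have hCn : (0 : ℝ) ≤ C := Nat.cast_nonneg C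
  refine ⟨min ε1 (ε2 / 2), |M| + 2 * Real.pi * C * (1 + T) + 1, lt_min hε1 (by linarith),
    by positivity, ?_⟩
  intro p hp hx
  rw [← hξ] at hx
  have hpU : p ∈ UP := lt_of_lt_of_le one_pos hp
  have hxO := hball (show xp p ∈ Metric.ball ξ ε2 by
    rw [Metric.mem_ball]
    refine lt_of_le_of_lt ((dist_pi_le_iff (by positivity : (0 : ℝ) ≤ ε2 / 2)).2 fun i => ?_)
      (by linarith)
    rw [Real.dist_eq]
    exact (hx i).trans (min_le_right _ _))
  obtain ⟨hx1, hx2⟩ := hxO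
  have hx2' : bf G (xp p) (xp p) / 2 < 1 + T := hx2
  have hnm : p ∉ Mir G := by
    rw [not_mir hpU]
    intro μ h2 h3
    left
    simp only [Set.mem_iInter] at hx1
    exact hx1 μ (by rw [hS]; exact ⟨h2, h3⟩)
  refine ⟨hnm, leading_ne_zero hG H.tf H.fd H.hC H.hne hpU hnm, ?_⟩
  obtain ⟨v, hv⟩ : ∃ v : ℝ, v = (1 + T) * p.1.im := ⟨_, rfl⟩
  have hpos : 0 < p.1.im := by linarith
  have hbv : bh G p < v := by
    rw [bh_eq hpU, hv, mul_comm]
    exact mul_lt_mul_of_pos_right hx2' hpos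
  rw [H.fd.coeff C p v hpU hbv]
  have hbound : ∀ u ∈ Set.uIoc (0 : ℝ) 1,
      ‖F ((u : ℂ) + (v : ℂ) * Complex.I, p) * ee (-(C * ((u : ℂ) + (v : ℂ) * Complex.I)))‖ ≤
      M * Real.exp (2 * Real.pi * (C * v)) := by
    intro u _
    rw [norm_mul, norm_ee]
    have e1 : (-((C : ℂ) * ((u : ℂ) + (v : ℂ) * Complex.I))).im = -(C * v) := by
      simp [Complex.mul_im]
    have e2 : ‖F ((u : ℂ) + (v : ℂ) * Complex.I, p)‖ ≤ M := by
      refine hM ((u : ℂ) + (v : ℂ) * Complex.I, p) hp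
        (fun i => (hx i).trans (min_le_left _ _)) ?_
      have e3 : ((u : ℂ) + (v : ℂ) * Complex.I).im = v := by simp
      show (1 + bf G ξ ξ / 2) * p.1.im ≤ ((u : ℂ) + (v : ℂ) * Complex.I).im
      rw [e3, hv, hT]
    rw [e1]
    have e4 : -(2 * Real.pi * -((C : ℝ) * v)) = 2 * Real.pi * (C * v) := by ring
    rw [e4]
    exact mul_le_mul_of_nonneg_right e2 (Real.exp_pos _).le
  refine (intervalIntegral.norm_integral_le_of_norm_le_const hbound).trans ?_
  rw [sub_zero, abs_one, mul_one]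
  have hM1 : M ≤ Real.exp (|M| * p.1.im) := by
    have a1 : M ≤ |M| := le_abs_self M
    have a2 : |M| ≤ |M| * p.1.im := le_mul_of_one_le_right (abs_nonneg M) hp
    have a3 := Real.add_one_le_exp (|M| * p.1.im)
    linarith
  calc M * Real.exp (2 * Real.pi * (C * v)) ≤
      Real.exp (|M| * p.1.im) * Real.exp (2 * Real.pi * (C * v)) :=
        mul_le_mul_of_nonneg_right hM1 (Real.exp_pos _).le
    _ = Real.exp (|M| * p.1.im + 2 * Real.pi * (C * v)) := (Real.exp_add _ _).symm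
    _ ≤ Real.exp ((|M| + 2 * Real.pi * C * (1 + T) + 1) * p.1.im) := by
        rw [Real.exp_le_exp, hv]
        have : (|M| + 2 * Real.pi * C * (1 + T) + 1) * p.1.im =
          |M| * p.1.im + 2 * Real.pi * (C * ((1 + T) * p.1.im)) + p.1.im := by ring
        rw [this]
        linarith

end Pool.Agent.Helper188_RL.JP2c
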