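import Pool.Agent.Helper188_RL.Stm2
set_option autoImplicit false
open MeasureTheory Complex Set Topology Pool.Agent.Y813.RL
namespace Pool.Agent.Helper188_RL.JP3b

theorem nu_eq {G : Matrix (Fin 20) (Fin 20) ℤ} (h : PosSymm G) (ξ : Fin 20 → ℝ) (b m n : ℤ)
    (μ : Fin 20 → ℤ) (hm : (m : ℝ) ≠ 0) :
    nu G 0 b m n μ = (m : ℝ) ^ 2 * hw G ξ m n μ +
      bf G (lam G μ + (m : ℝ) • ξ) (lam G μ + (m : ℝ) • ξ) / 2 := by
  rw [bf_add_left, bf_add_right, bf_add_right, bf_smul_left, bf_smul_left, bf_smul_right,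
    bf_smul_right, bf_comm h.symm ξ (lam G μ), bf_lam_lam h, bf_lam h]
  unfold nu hw
  field_simp
  push_cast
  ring

theorem job : P3b := by
  intro G h ξ η hη w hw'
  obtain ⟨m, n, μ⟩ := w
  obtain ⟨hm0, ⟨b, hW⟩, hη'⟩ := hw'
  simp only at hm0 hW hη' ⊢
  have hm : (0 : ℝ) < (m : ℝ) := by exact_mod_cast hm0
  have h1 := nu_eq h ξ b m n μ hm.ne'
  have h2 := nu_le_one hW
  have h3 := h.nonneg (lam G μ + (m : ℝ) • ξ)
  have h4 : (m : ℝ) ^ 2 * hw G ξ m n μ ≤ 1 := by linarith [h2.2]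
  refine ⟨h4, fun h5 => ?_⟩
  have hm1 : m = 1 := by
    by_contra hne
    have h6 : (2 : ℤ) ≤ m := by omega
    have h7 : (2 : ℝ) ≤ (m : ℝ) := by exact_mod_cast h6
    nlinarith
  refine ⟨hm1, ?_⟩
  have hm1' : (m : ℝ) = 1 := by rw [hm1]; norm_num
  have h6 : (1 / 2 : ℝ) < nu G 0 b m n μ := by
    generalize bf G (lam G μ + (m : ℝ) • ξ) (lam G μ + (m : ℝ) • ξ) = q at h1 h3
    rw [hm1'] at h1
    linarith
  unfold WallData at hW
  unfold nu at h6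
  rcases hW with hW | hW
  · exact hW.2
  · exfalso
    have := hW.2
    linarith

end Pool.Agent.Helper188_RL.JP3b
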