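-- JOB for MP_f1d0b6_nt (full answer; finishing the starting project Pool/Agent/Y813/RL). Owner helper188.
-- Statement files: Pool/Agent/Helper188_RL/Stm1.lean, Stm2.lean on origin/main (git -C /workdir/pool/outputs/live pull; copy
-- Pool/Agent/Helper188_RL, Pool/Agent/Y813/RL, Pool/Agent/Y683/RL, Pool/Agent/Y155/RL to /workdir/pool/Pool/Agent/).
-- Prove the TARGET below in ONE file, statement unchanged (all Props are defined in Stm2.lean / Y813/RL/Stm.lean);
-- you may import anything of these folders and Mathlib; hypotheses named (h : <Prop>) are other jobs.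
-- Proved already: Pool.Agent.Y155.RL.bc : JobBC, Pool.Agent.Y155.RL.vd : JobVD, Pool.Agent.Y155.RL.div : JobDIV,
-- Pool.Agent.Y683.RL.jobKD : JobKD, Pool.Agent.Y683.RL.jobFJ : JobFJ (check the namespaces), and all of Y813/RL/*.lean
-- (Bf, Tube0..5, Koe, Bnd, Exp, Gen, Wall, Mir, NonV, Jac, Jac2, Per: read the statements there first).
-- If a statement is FALSE as written, say so in the note with the reason (and the minimal correction) and prove the corrected one.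
-- Paste the full proved file back (UPDATE jobs SET status='done', result=...).
-- Notation in the plain proofs: y = Im τ, ξ = the direction (= xr X N), T = |ξ|²/2 = bf G ξ ξ/2, p = sp ξ x τ, xp p = ξ, e = ee.
import Pool.Agent.Helper188_RL.Stm2
set_option autoImplicit false
open MeasureTheory Complex Set Topology Pool.Agent.Y813.RL
namespace Pool.Agent.Helper188_RL.JP3f

/- TARGET (prove it):
theorem job : P3f := sorry

Plain proof.
For w = (m,n,μ) ∈ WS: nu = bd μ μ/2 - m n ∈ (0,1] and nu = m² hw + |λ_μ + m ξ|²/2 (λ_μ = lam G μ, bf_lam, bf_lam_lam; pure algebra, cf. height_id), so m² η ≤ 1 and |λ_μ + mξ|² ≤ 2, hence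
bd μ μ = |λ_μ|² is bounded, μ lies in a finite set (short_finite / short_bound), and m n = bd/2 - nu is bounded, so n is.
-/
theorem nu_id {G : Matrix (Fin 20) (Fin 20) ℤ} (h : PosSymm G) (ξ : Fin 20 → ℝ) {b m n : ℤ}
    {μ : Fin 20 → ℤ} (hm : 0 < m) : nu G 0 b m n μ = (m : ℝ) ^ 2 * hw G ξ m n μ +
      bf G (lam G μ + (m : ℝ) • ξ) (lam G μ + (m : ℝ) • ξ) / 2 := by
  have hm' : (m : ℝ) ≠ 0 := by exact_mod_cast hm.ne'
  rw [bf_add_left, bf_add_right, bf_add_right, bf_smul_left, bf_smul_left, bf_smul_right,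
    bf_smul_right, bf_comm h.symm ξ (lam G μ), bf_lam_lam h, bf_lam h]
  unfold nu hw
  field_simp
  push_cast
  ring

theorem job : P3f := by
  intro G h ξ η hη
  have hξ : 0 ≤ bf G ξ ξ := h.nonneg ξ
  set c : ℝ := 4 + 2 * bf G ξ ξ / η with hc
  obtain ⟨M, hM⟩ := exists_nat_gt (1 / η)
  obtain ⟨N, hN⟩ := exists_nat_gt (c / 2 + 1)
  refine ((Set.finite_Icc (1 : ℤ) (M : ℤ)).prod ((Set.finite_Icc (-(N : ℤ)) (N : ℤ)).prod
    (short_finite h c))).subset ?_
  rintro ⟨m, n, μ⟩ ⟨hm, ⟨b, hb⟩, hη2⟩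
  simp only at hm hb hη2
  have hν := nu_le_one hb
  have hid := nu_id h ξ (b := b) (n := n) (μ := μ) hm
  have hm1 : (1 : ℝ) ≤ (m : ℝ) := by exact_mod_cast hm
  have hq : 0 ≤ bf G (lam G μ + (m : ℝ) • ξ) (lam G μ + (m : ℝ) • ξ) := h.nonneg _
  have hm2 : (0 : ℝ) ≤ (m : ℝ) ^ 2 := sq_nonneg _
  have h1 : (m : ℝ) ^ 2 * η ≤ (m : ℝ) ^ 2 * hw G ξ m n μ := mul_le_mul_of_nonneg_left hη2 hm2
  have h2 : (m : ℝ) ^ 2 * η ≤ 1 := by linarith [hν.2]
  have h0 : 0 ≤ (m : ℝ) ^ 2 * η := by positivity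
  have h3 : (m : ℝ) ^ 2 ≤ 1 / η := by rw [le_div_iff₀ hη]; exact h2
  have h4 : bf G (lam G μ + (m : ℝ) • ξ) (lam G μ + (m : ℝ) • ξ) ≤ 2 := by linarith [hν.2]
  have hmM : m ≤ M := by
    have : (m : ℝ) ≤ M := by nlinarith
    exact_mod_cast this
  -- the bound for `bd`
  have h5 : bd G μ μ ≤ c := by
    have e := h.nonneg (lam G μ + (m : ℝ) • ξ + (m : ℝ) • ξ)
    have e1 : bd G μ μ + bf G (lam G μ + (m : ℝ) • ξ + (m : ℝ) • ξ)
        (lam G μ + (m : ℝ) • ξ + (m : ℝ) • ξ) =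
        2 * bf G (lam G μ + (m : ℝ) • ξ) (lam G μ + (m : ℝ) • ξ) +
          2 * ((m : ℝ) ^ 2 * bf G ξ ξ) := by
      rw [← bf_lam_lam h μ μ]
      simp only [bf_add_left, bf_add_right, bf_smul_left, bf_smul_right]
      ring
    have e2 : (m : ℝ) ^ 2 * bf G ξ ξ ≤ 1 / η * bf G ξ ξ := mul_le_mul_of_nonneg_right h3 hξ
    have e3 : 1 / η * bf G ξ ξ = bf G ξ ξ / η := by ring
    have e4 : c = 4 + 2 * (bf G ξ ξ / η) := by rw [hc]; ring
    rw [e4]
    linarith
  have hbd : 0 ≤ bd G μ μ := by rw [← bf_lam_lam h]; exact h.nonneg _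
  have h6 : nu G 0 b m n μ = bd G μ μ / 2 - (m : ℝ) * n := by
    unfold nu; push_cast; ring
  have h7 : (m : ℝ) * n < N := by linarith [hν.1]
  have h8 : -(N : ℝ) < (m : ℝ) * n := by
    have : (1 : ℝ) < N := by
      have : 0 ≤ c := le_trans hbd h5
      linarith
    linarith [hν.2]
  have h9 : m * n < N := by exact_mod_cast h7
  have h10 : -(N : ℤ) < m * n := by exact_mod_cast h8
  have hn1 : n ≤ N := by
    by_contra hcon
    push Not at hcon
    have hN0 : (0 : ℤ) ≤ N := Int.natCast_nonneg N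
    nlinarith
  have hn2 : -(N : ℤ) ≤ n := by
    by_contra hcon
    push Not at hcon
    have hN0 : (0 : ℤ) ≤ N := Int.natCast_nonneg N
    nlinarith
  exact ⟨⟨hm, hmM⟩, ⟨hn2, hn1⟩, h5⟩

end Pool.Agent.Helper188_RL.JP3f
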