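import Pool.Agent.Helper188_RL.Stm2
set_option autoImplicit false
open MeasureTheory Complex Set Topology Pool.Agent.Y813.RL
namespace Pool.Agent.Helper188_RL.JP3g

/-- the identity for the height of a wall -/
lemma height (G : Matrix (Fin 20) (Fin 20) ℤ) (h : PosSymm G) (ξ : Fin 20 → ℝ) (m n : ℤ)
    (μ : Fin 20 → ℤ) (hm : 0 < m) :
    bd G μ μ / 2 - m * n = (m : ℝ) ^ 2 * hw G ξ m n μ +
      bf G (lam G μ + (m : ℝ) • ξ) (lam G μ + (m : ℝ) • ξ) / 2 := by
  have hm' : (m : ℝ) ≠ 0 := by exact_mod_cast hm.ne'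
  rw [bf_add_left, bf_add_right, bf_add_right, bf_smul_left, bf_smul_left, bf_smul_right,
    bf_smul_right, bf_comm h.symm ξ (lam G μ), bf_lam_lam h, bf_lam h]
  unfold hw
  field_simp
  ring

lemma twice (G : Matrix (Fin 20) (Fin 20) ℤ) (h : PosSymm G) (u v : Fin 20 → ℝ) :
    bf G (u + (2 : ℝ) • v) (u + (2 : ℝ) • v) = bf G u u + 4 * bf G u v + 4 * bf G v v := by
  rw [bf_add_left, bf_add_right, bf_add_right, bf_smul_left, bf_smul_left, bf_smul_right,
    bf_smul_right, bf_comm h.symm v u]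
  ring

/-- bounds of the walls in a slice -/
lemma ws_bound (G : Matrix (Fin 20) (Fin 20) ℤ) (h : PosSymm G) (η B : ℝ) (hη : 0 < η)
    (hB : 0 ≤ B) (ξ : Fin 20 → ℝ) (hξ : bf G ξ ξ ≤ B) (w : ℤ × (ℤ × (Fin 20 → ℤ)))
    (hw' : w ∈ WS G ξ η) : 0 < w.1 ∧ (w.1 : ℝ) ≤ 1 / η ∧ bd G w.2.2 w.2.2 ≤ 4 + 2 * (B / η) := by
  obtain ⟨m, n, μ⟩ := w
  obtain ⟨hm, ⟨b, hb⟩, hh⟩ := hw'
  simp only at hm hb hh ⊢
  have h1 := (nu_le_one hb).2
  unfold nu at h1
  have h2 := height G h ξ m n μ hm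
  have h3 : bd G μ μ / 2 - (m : ℝ) * n ≤ 1 := by
    have : bd G μ μ / 2 - ((0 : ℤ) : ℝ) * b - m * n = bd G μ μ / 2 - (m : ℝ) * n := by
      push_cast; ring
    rw [this] at h1
    exact h1
  have hm1 : (1 : ℝ) ≤ m := by exact_mod_cast hm
  have h4 : 0 ≤ bf G (lam G μ + (m : ℝ) • ξ) (lam G μ + (m : ℝ) • ξ) := h.nonneg _
  have h5 : (m : ℝ) ^ 2 * η ≤ (m : ℝ) ^ 2 * hw G ξ m n μ :=
    mul_le_mul_of_nonneg_left hh (sq_nonneg _)
  have h6 : (m : ℝ) ^ 2 * η ≤ 1 := by linarith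
  have h7 : (m : ℝ) ^ 2 ≤ 1 / η := by
    rw [le_div_iff₀ hη]
    exact h6
  have h8 : (m : ℝ) ≤ 1 / η := by nlinarith
  refine ⟨hm, h8, ?_⟩
  have h9 : bf G (lam G μ + (m : ℝ) • ξ) (lam G μ + (m : ℝ) • ξ) ≤ 2 := by
    have : 0 < (m : ℝ) ^ 2 * η := by positivity
    linarith
  have h10 : 0 ≤ bf G (lam G μ + (2 : ℝ) • ((m : ℝ) • ξ)) (lam G μ + (2 : ℝ) • ((m : ℝ) • ξ)) :=
    h.nonneg _
  set u := lam G μ with hu
  set v := (m : ℝ) • ξ with hv
  have h11 : bf G v v = (m : ℝ) ^ 2 * bf G ξ ξ := by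
    rw [hv, bf_smul_left, bf_smul_right]
    ring
  have h12 : bf G (u + v) (u + v) = bf G u u + 2 * bf G u v + bf G v v := by
    rw [bf_add_left, bf_add_right, bf_add_right, bf_comm h.symm v u]
    ring
  have h13 := twice G h u v
  have h14 : bf G u u = bd G μ μ := bf_lam_lam h μ μ
  have h15 : (m : ℝ) ^ 2 * bf G ξ ξ ≤ B / η := by
    have h16 : (m : ℝ) ^ 2 * bf G ξ ξ ≤ (m : ℝ) ^ 2 * B :=
      mul_le_mul_of_nonneg_left hξ (sq_nonneg _)
    have h17 : (m : ℝ) ^ 2 * B ≤ 1 / η * B := mul_le_mul_of_nonneg_right h7 hB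
    have h18 : 1 / η * B = B / η := by ring
    linarith
  rw [← h14]
  rw [h12] at h9
  rw [h13] at h10
  rw [h11] at h9 h10
  linarith

theorem job : P3g := by
  intro G h η hη O hO hne
  obtain ⟨ξ0, hξ0⟩ := hne
  set B : ℝ := bf G ξ0 ξ0 + 1 with hB
  have hB0 : 0 ≤ B := by
    have := h.nonneg ξ0
    linarith
  have hcont : Continuous fun x : Fin 20 → ℝ => bf G x x := bf_contR G continuous_id continuous_id
  have hO' : IsOpen (O ∩ {x : Fin 20 → ℝ | bf G x x < B}) :=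
    hO.inter (isOpen_lt hcont continuous_const)
  have hne' : (O ∩ {x : Fin 20 → ℝ | bf G x x < B}).Nonempty := by
    refine ⟨ξ0, hξ0, ?_⟩
    show bf G ξ0 ξ0 < B
    rw [hB]
    linarith
  obtain ⟨Q0, hQ0⟩ := short_bound h (4 + 2 * (B / η))
  obtain ⟨M, hM⟩ := exists_nat_ge (1 / η)
  obtain ⟨X, N, hN, hX, hgen⟩ := gen (2 * M * Q0 + Q0) hO' hne'
  have hBη : 0 ≤ B / η := div_nonneg hB0 hη.le
  refine ⟨X, N, hN, hX.1, ?_, ?_⟩
  · intro μ h1 h2 k
    apply hgen μ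
    · rintro rfl
      have : bd G 0 0 = 0 := by simp [bd]
      linarith
    · intro i
      have := hQ0 μ (by linarith) i
      push_cast
      have h0 : (0 : ℤ) ≤ 2 * M * Q0 := by positivity
      linarith
  · intro w hw1 w' hw2 heq
    have hξB : bf G (xr X N) (xr X N) ≤ B := (le_of_lt hX.2)
    obtain ⟨hm, hm2, hμ⟩ := ws_bound G h η B hη hB0 _ hξB w hw1
    obtain ⟨hm', hm2', hμ'⟩ := ws_bound G h η B hη hB0 _ hξB w' hw2
    obtain ⟨m, n, μ⟩ := w
    obtain ⟨m', n', μ'⟩ := w'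
    simp only at *
    have hmR : (0 : ℝ) < m := by exact_mod_cast hm
    have hmR' : (0 : ℝ) < m' := by exact_mod_cast hm'
    have hmM : m ≤ M := by
      have : (m : ℝ) ≤ (M : ℝ) := hm2.trans hM
      exact_mod_cast this
    have hmM' : m' ≤ M := by
      have : (m' : ℝ) ≤ (M : ℝ) := hm2'.trans hM
      exact_mod_cast this
    have h1 : m' * ((n : ℝ) + dt μ (xr X N)) = m * ((n' : ℝ) + dt μ' (xr X N)) := by
      unfold hw at heq
      have h2 : ((n : ℝ) + dt μ (xr X N)) / m = ((n' : ℝ) + dt μ' (xr X N)) / m' := by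
        have e1 : -((n : ℝ) + dt μ (xr X N)) / m = -(((n : ℝ) + dt μ (xr X N)) / m) := by ring
        have e2 : -((n' : ℝ) + dt μ' (xr X N)) / m' = -(((n' : ℝ) + dt μ' (xr X N)) / m') := by ring
        rw [e1, e2] at heq
        linarith
      rw [div_eq_div_iff hmR.ne' hmR'.ne'] at h2
      linarith
    have hdt : dt (m' • μ - m • μ') (xr X N) = ((m * n' - m' * n : ℤ) : ℝ) := by
      rw [sub_eq_add_neg, dt_add_left, ← neg_smul, dt_smul_left, dt_smul_left]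
      push_cast
      linarith
    have hν : m' • μ - m • μ' = 0 := by
      by_contra hne0
      refine hgen _ hne0 ?_ _ hdt
      intro i
      have a1 := hQ0 μ hμ i
      have a2 := hQ0 μ' hμ' i
      have b1 : |m' * μ i| ≤ M * Q0 := by
        rw [abs_mul]
        have : |m'| = m' := abs_of_pos hm'
        rw [this]
        exact mul_le_mul hmM' a1 (abs_nonneg _) (by positivity)
      have b2 : |m * μ' i| ≤ M * Q0 := by
        rw [abs_mul]
        have : |m| = m := abs_of_pos hm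
        rw [this]
        exact mul_le_mul hmM a2 (abs_nonneg _) (by positivity)
      have b3 : (m' • μ - m • μ') i = m' * μ i - m * μ' i := by
        simp
      rw [b3]
      have b4 := abs_sub (m' * μ i) (m * μ' i)
      push_cast
      have h0 : (0 : ℤ) ≤ Q0 := by positivity
      linarith
    refine ⟨?_, sub_eq_zero.1 hν⟩
    rw [hν] at hdt
    have h0 : dt (0 : Fin 20 → ℤ) (xr X N) = 0 := by simp [dt]
    rw [h0] at hdt
    have : (m * n' - m' * n : ℤ) = 0 := by exact_mod_cast hdt.symm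
    linarith

end Pool.Agent.Helper188_RL.JP3g
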