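import Pool.Agent.Helper188_RL.Stm2
set_option autoImplicit false
open MeasureTheory Complex Set Topology Pool.Agent.Y813.RL
namespace Pool.Agent.Helper188_RL.JP3z

theorem imv_sp (ξ x : Fin 20 → ℝ) (τ : ℂ) : imv (sp ξ x τ).2 = τ.im • ξ := by
  funext i
  simp [imv, sp, Complex.mul_im]

theorem job : P3z := by
  intro G k F φ C m h H ξ x τ s η hτ hη hy hm h0 hs hns hz
  obtain ⟨ω, hω, hωim⟩ := exists_ee hs
  have hpi := Real.pi_pos
  set p := sp ξ x τ with hp
  have hp1 : p.1 = τ := rfl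
  have hpUP : p ∈ UP := hτ
  have hxp : xp p = ξ := by
    unfold xp
    rw [hp, imv_sp]
    have : (sp ξ x τ).1.im = τ.im := rfl
    rw [this, smul_smul, inv_mul_cancel₀ hτ.ne', one_smul]
  have hnorm : ‖s‖ = Real.exp (-(2 * Real.pi * ω.im)) := by rw [← hω, norm_ee]
  have him : (η + bf G ξ ξ / 2) * τ.im ≤ ω.im := by
    rw [hnorm, Real.exp_le_exp] at hns
    have : 2 * Real.pi * ((η + bf G ξ ξ / 2) * τ.im) ≤ 2 * Real.pi * ω.im := by linarith
    exact le_of_mul_le_mul_left this (by positivity)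
  have hbh : bh G p = τ.im * (bf G ξ ξ / 2) := by
    rw [bh_eq hpUP, hxp, hp1]
  have hlt : bh G p < ω.im := by
    rw [hbh]
    have : 0 < η * τ.im := mul_pos hη hτ
    nlinarith
  have hWH : ((ω, p) : TP) ∈ Hd G := ⟨hpUP, hlt⟩
  have hht : ht G (ω, p) = ω.im / τ.im - bf G ξ ξ / 2 := by
    unfold ht
    simp only [hxp]
    rfl
  have hηht : η ≤ ht G (ω, p) := by
    rw [hht, le_sub_iff_add_le, le_div_iff₀ hτ]
    exact him
  have hF : F (ω, p) = 0 := by
    have h1 := H.gp_eq hpUP h0 hlt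
    rw [hω, hz] at h1
    have h2 : F (ω, p) * ee (-(C * ω)) = 0 := by
      rw [eq_comm, div_eq_zero_iff] at h1
      exact h1.resolve_right h0
    exact (mul_eq_zero.1 h2).resolve_right (ee_ne_zero _)
  have hY : 1 < ((ω, p) : TP).2.1.im ^ 2 * ht G (ω, p) := by
    show 1 < τ.im ^ 2 * ht G (ω, p)
    have : τ.im ^ 2 * η ≤ τ.im ^ 2 * ht G (ω, p) :=
      mul_le_mul_of_nonneg_left hηht (by positivity)
    linarith
  obtain ⟨b, m', n, μ, hw0, he0⟩ := zero_wall h H.tf hWH hF hY
  have hm0 : m' ≠ 0 := by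
    rintro rfl
    apply hm
    have hnu := nu_le_one hw0
    refine ⟨b, n, μ, ?_, ?_, ?_⟩
    · have := hnu.1
      simp [nu] at this
      linarith
    · have := hnu.2
      simp [nu] at this
      linarith
    · have := he0
      simp only [WEq, Int.cast_zero, zero_mul, zero_add, add_zero] at this
      exact this
  -- make `m'` positive
  have key : ∃ (b m' n : ℤ) (μ : Fin 20 → ℤ), 0 < m' ∧ WallData G 0 b m' n μ ∧
      WEq G 0 b m' n μ (ω, p) := by
    rcases lt_or_gt_of_ne hm0 with h1 | h1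
    · exact ⟨-b, -m', -n, -μ, by omega, WallData_neg hw0, WEq_neg he0⟩
    · exact ⟨b, m', n, μ, h1, hw0, he0⟩
  obtain ⟨b, m', n, μ, hmp, hwd, hwe⟩ := key
  have hmR : (0 : ℝ) < m' := by exact_mod_cast hmp
  have hmC : (m' : ℂ) ≠ 0 := by exact_mod_cast hmp.ne'
  have heq : (b : ℂ) + m' * ω + n * τ + dt μ p.2 = 0 := by
    have := hwe
    simp only [WEq, Int.cast_zero, zero_mul, zero_add] at this
    exact this
  have hωeq : ω = -(((b : ℂ) + n * τ + dt μ p.2) / m') := by
    rw [eq_neg_iff_add_eq_zero]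
    field_simp
    linear_combination heq
  have himeq : (m' : ℝ) * ω.im + n * τ.im + τ.im * dt μ ξ = 0 := by
    have h1 := congrArg Complex.im heq
    have h2 : (dt μ p.2).im = τ.im * dt μ ξ := by
      rw [dt_im, hp, imv_sp, dt_smul]
    simp only [Complex.add_im, Complex.mul_im, Complex.intCast_im, Complex.intCast_re, zero_mul,
      add_zero, zero_add, Complex.zero_im, h2] at h1
    exact h1
  have hhw : ω.im = (hw G ξ m' n μ + bf G ξ ξ / 2) * τ.im := by
    unfold hw
    field_simp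
    linear_combination 2 * himeq
  refine ⟨b, m', n, μ, ⟨hmp, ⟨b, hwd⟩, ?_⟩, ?_, ?_⟩
  · show η ≤ hw G ξ m' n μ
    rw [hhw] at him
    have := le_of_mul_le_mul_right him hτ
    linarith
  · rw [← hω, hωeq]
  · rw [hnorm, hhw]

end Pool.Agent.Helper188_RL.JP3z
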