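import Pool.Agent.Helper188_RL.Stm2
set_option autoImplicit false
open MeasureTheory Complex Set Topology Pool.Agent.Y813.RL
namespace Pool.Agent.Helper188_RL.JP4

noncomputable section

/-- roots of unity of order at most `B` -/
def EB : ℕ → Finset ℂ
  | 0 => ∅
  | (B + 1) => by classical exact EB B ∪ (Polynomial.nthRoots (B + 1) (1 : ℂ)).toFinset

theorem card_EB (B : ℕ) : 2 * (EB B).card ≤ B * (B + 1) := by
  classical
  induction B with
  | zero => simp [EB]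
  | succ B ih =>
    have h1 : (EB (B + 1)).card ≤ (EB B).card + (B + 1) := by
      rw [EB]
      refine (Finset.card_union_le _ _).trans ?_
      gcongr
      exact (Multiset.toFinset_card_le _).trans (Polynomial.card_nthRoots _ _)
    nlinarith

theorem mem_EB {B j : ℕ} {x : ℂ} (h1 : 1 ≤ j) (hj : j ≤ B) (hx : x ^ j = 1) : x ∈ EB B := by
  classical
  induction B with
  | zero => omega
  | succ B ih =>
    rw [EB, Finset.mem_union]
    rcases Nat.lt_or_ge j (B + 1) with h | h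
    · exact Or.inl (ih (by omega))
    · right
      have : j = B + 1 := by omega
      subst this
      rw [Multiset.mem_toFinset, Polynomial.mem_nthRoots (by omega)]
      exact hx

theorem norm_EB {B : ℕ} {x : ℂ} (hx : x ∈ EB B) : ‖x‖ = 1 := by
  classical
  induction B with
  | zero => simp [EB] at hx
  | succ B ih =>
    rw [EB, Finset.mem_union] at hx
    rcases hx with h | h
    · exact ih h
    · rw [Multiset.mem_toFinset, Polynomial.mem_nthRoots (by omega)] at h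
      exact Complex.norm_eq_one_of_pow_eq_one h (by omega)

/-- a gap -/
theorem exists_gap (S : Finset ℝ) {η : ℝ} (hη : 0 < η) :
    ∃ δ : ℝ, 0 < δ ∧ δ ≤ η ∧ ∀ t ∈ S, ∀ t' ∈ S, t' < t → t' + δ < t := by
  have h1 : ∀ᶠ δ in 𝓝[>] (0 : ℝ), ∀ t ∈ S, ∀ t' ∈ S, t' < t → t' + δ < t := by
    rw [Filter.eventually_all_finset]
    intro t _
    rw [Filter.eventually_all_finset]
    intro t' _
    by_cases h : t' < t
    · have : ∀ᶠ δ in 𝓝 (0 : ℝ), t' + δ < t := by
        have hc : ContinuousAt (fun δ : ℝ => t' + δ) 0 := by fun_prop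
        exact hc.eventually_lt_const (by simpa using h)
      exact (Filter.Eventually.filter_mono nhdsWithin_le_nhds this).mono fun δ hδ _ => hδ
    · exact Filter.Eventually.of_forall fun δ hc => absurd hc h
  have h2 : ∀ᶠ δ in 𝓝[>] (0 : ℝ), δ ≤ η := by
    refine Filter.Eventually.filter_mono nhdsWithin_le_nhds ?_
    exact Filter.Eventually.mono (eventually_lt_nhds hη) fun _ h => h.le
  obtain ⟨δ, ⟨ha, hb⟩, hc⟩ := ((h1.and h2).and self_mem_nhdsWithin).exists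
  exact ⟨δ, hc, hb, ha⟩

/-- growth -/
theorem small_ev (A δ : ℝ) (hδ : 0 < δ) :
    ∀ᶠ y : ℝ in Filter.atTop, A * y * Real.exp (-(2 * Real.pi * (δ * y))) < 1 := by
  have h1 : Filter.Tendsto (fun y : ℝ => A * y * Real.exp (-(2 * Real.pi * (δ * y))))
      Filter.atTop (𝓝 0) := by
    have hc : 0 < 2 * Real.pi * δ := by positivity
    have h2 := (Real.tendsto_pow_mul_exp_neg_atTop_nhds_zero 1).comp
      (Filter.tendsto_id.const_mul_atTop hc)
    have h3 := h2.const_mul (A / (2 * Real.pi * δ))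
    simp only [pow_one, mul_zero, Function.comp_def, id] at h3
    refine h3.congr fun y => ?_
    have e1 : -(2 * Real.pi * δ * y) = -(2 * Real.pi * (δ * y)) := by ring
    rw [e1]
    field_simp
  exact h1.eventually_lt_const one_pos

/-- the main step for one point -/
theorem step {m : ℕ} {g h : ℂ → ℂ} {ρ R₀ M : ℝ}
    (hρ : R₀ < ρ) (hg : DifferentiableOn ℂ g (Metric.ball 0 ρ))
    (hh : DifferentiableOn ℂ h (Metric.ball 0 ρ)) (hgh : ∀ s, g s = 1 + s ^ m * h s)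
    (hb : ∀ s : ℂ, ‖s‖ ≤ R₀ → ‖g s‖ ≤ Real.exp M)
    (E : Finset ℂ) (KE : ℝ)
    (hvd : ∀ (g h : ℂ → ℂ) (a : ℂ) (M : ℝ),
      0 < ‖a‖ → ‖a‖ ≤ 1 / 2 →
      AnalyticOnNhd ℂ g (Metric.closedBall 0 1) → AnalyticOnNhd ℂ h (Metric.closedBall 0 1) →
      (∀ s ∈ Metric.closedBall (0 : ℂ) 1, g s = 1 + s ^ m * h s) →
      (∀ s ∈ Metric.closedBall (0 : ℂ) 1, ‖g s‖ ≤ Real.exp M) →
      (∀ s ∈ Metric.closedBall (0 : ℂ) 1, g s = 0 → ∃ ε ∈ E, s = a * ε) →
      (∃ s ∈ Metric.closedBall (0 : ℂ) 1, g s = 0) →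
      1 ≤ KE * M * ‖a‖)
    {r₀ : ℝ} (hr₀ : 0 < r₀) (hr : r₀ ≤ R₀) {a : ℂ} (ha : a ≠ 0) (ha2 : ‖a‖ / r₀ ≤ 1 / 2)
    (hz : ∀ s : ℂ, ‖s‖ ≤ r₀ → g s = 0 → ∃ ε ∈ E, s = a * ε)
    (hex : ∃ s : ℂ, ‖s‖ ≤ r₀ ∧ g s = 0) : 1 ≤ KE * M * (‖a‖ / r₀) := by
  have hr₀c : (r₀ : ℂ) ≠ 0 := by exact_mod_cast hr₀.ne'
  have hnr : ‖(r₀ : ℂ)‖ = r₀ := by rw [Complex.norm_real, Real.norm_eq_abs, abs_of_pos hr₀]
  have hmap : ∀ s : ℂ, ‖s‖ ≤ 1 → ‖(r₀ : ℂ) * s‖ ≤ r₀ := by
    intro s hs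
    rw [norm_mul, hnr]
    nlinarith
  have hopen : ∀ f : ℂ → ℂ, DifferentiableOn ℂ f (Metric.ball 0 ρ) →
      AnalyticOnNhd ℂ (fun s => f ((r₀ : ℂ) * s)) (Metric.closedBall 0 1) := by
    intro f hf
    have h1 : DifferentiableOn ℂ (fun s => f ((r₀ : ℂ) * s)) (Metric.ball 0 (ρ / r₀)) := by
      refine hf.comp (by fun_prop) ?_
      intro s hs
      rw [Metric.mem_ball, dist_zero_right] at hs ⊢
      rw [norm_mul, hnr]
      rwa [lt_div_iff₀ hr₀, mul_comm] at hs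
    refine (h1.analyticOnNhd Metric.isOpen_ball).mono ?_
    apply Metric.closedBall_subset_ball
    rw [lt_div_iff₀ hr₀]
    linarith
  have key := hvd (fun s => g ((r₀ : ℂ) * s)) (fun s => (r₀ : ℂ) ^ m * h ((r₀ : ℂ) * s))
    (a / r₀) M ?_ ?_ (hopen g hg) ?_ ?_ ?_ ?_ ?_
  · rwa [norm_div, hnr] at key
  · rw [norm_div, hnr]
    have := norm_pos_iff.2 ha
    positivity
  · rw [norm_div, hnr]; exact ha2
  · exact (hopen h hh).const_smul (c := (r₀ : ℂ) ^ m)
  · intro s _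
    rw [hgh]
    ring
  · intro s hs
    rw [Metric.mem_closedBall, dist_zero_right] at hs
    exact hb _ ((hmap s hs).trans hr)
  · intro s hs h0
    rw [Metric.mem_closedBall, dist_zero_right] at hs
    obtain ⟨ε, hε, he⟩ := hz _ (hmap s hs) h0
    refine ⟨ε, hε, ?_⟩
    field_simp
    rw [mul_comm, he]
  · obtain ⟨s, hs, h0⟩ := hex
    refine ⟨s / r₀, ?_, ?_⟩
    · rw [Metric.mem_closedBall, dist_zero_right, norm_div, hnr, div_le_one hr₀]
      exact hs
    · rwa [mul_div_cancel₀ _ hr₀c]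

theorem final_bound {m : ℕ} {K T ε κ t y : ℝ} (hK : 0 < K) (hε : 0 < ε) (hy : 0 < y)
    (ht : m * t ≤ κ) {x : ℝ}
    (hx : x ≤ 2 * (K * y) * (2 / Real.exp (-(2 * Real.pi * ((t + T) * y)))) ^ m) :
    x ≤ (2 ^ (m + 1) * K / (2 * Real.pi * ε)) *
      Real.exp (2 * Real.pi * ((m * T + κ + ε) * y)) := by
  refine hx.trans ?_
  have h1 : (2 / Real.exp (-(2 * Real.pi * ((t + T) * y)))) ^ m =
      2 ^ m * Real.exp (2 * Real.pi * (m * (t + T) * y)) := by
    rw [Real.exp_neg, div_inv_eq_mul, mul_pow, ← Real.exp_nat_mul]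
    congr 2
    ring
  have h2 : y ≤ Real.exp (2 * Real.pi * (ε * y)) / (2 * Real.pi * ε) := by
    rw [le_div_iff₀ (by positivity)]
    have := Real.add_one_le_exp (2 * Real.pi * (ε * y))
    nlinarith
  have h3 : Real.exp (2 * Real.pi * (m * (t + T) * y)) ≤
      Real.exp (2 * Real.pi * ((m * T + κ) * y)) := by
    apply Real.exp_le_exp.2
    have h4 : (m * (t + T)) * y ≤ (m * T + κ) * y :=
      mul_le_mul_of_nonneg_right (by nlinarith) hy.le
    exact mul_le_mul_of_nonneg_left h4 (by positivity)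
  rw [h1]
  calc 2 * (K * y) * (2 ^ m * Real.exp (2 * Real.pi * (m * (t + T) * y))) ≤
      2 * (K * (Real.exp (2 * Real.pi * (ε * y)) / (2 * Real.pi * ε))) *
        (2 ^ m * Real.exp (2 * Real.pi * ((m * T + κ) * y))) := by gcongr
    _ = (2 ^ (m + 1) * K / (2 * Real.pi * ε)) *
        (Real.exp (2 * Real.pi * (ε * y)) * Real.exp (2 * Real.pi * ((m * T + κ) * y))) := by
      rw [pow_succ]; ring
    _ = _ := by
      rw [← Real.exp_add]
      congr 2
      ring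

theorem imv_sp (ξ x : Fin 20 → ℝ) (τ : ℂ) : imv (sp ξ x τ).2 = τ.im • ξ := by
  funext i
  simp [imv, sp]

theorem xp_sp (ξ x : Fin 20 → ℝ) {τ : ℂ} (hτ : 0 < τ.im) : xp (sp ξ x τ) = ξ := by
  unfold xp
  rw [imv_sp]
  show (τ.im)⁻¹ • τ.im • ξ = ξ
  rw [smul_smul, inv_mul_cancel₀ hτ.ne', one_smul]

theorem bh_sp (G : Matrix (Fin 20) (Fin 20) ℤ) (ξ x : Fin 20 → ℝ) {τ : ℂ} (hτ : 0 < τ.im) :
    bh G (sp ξ x τ) = τ.im * (bf G ξ ξ / 2) := by
  have : sp ξ x τ ∈ UP := hτ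
  rw [bh_eq this, xp_sp ξ x hτ]
  rfl

/-- the key number theoretic estimate -/
theorem arith {m B : ℕ} {t : ℝ} (hm : 2 ≤ m) (ht : 0 < t) (hB : (B : ℝ) ^ 2 * t ≤ 1)
    (hmB : 2 * m ≤ B * (B + 1)) : m * t ≤ 3 / 4 := by
  have hB2 : 2 ≤ B := by
    by_contra hcon
    have : B ≤ 1 := by omega
    interval_cases B <;> omega
  have h1 : (2 * m : ℝ) ≤ B * (B + 1) := by exact_mod_cast hmB
  have h2 : (2 : ℝ) ≤ B := by exact_mod_cast hB2
  have h3 : 2 * (m * t) ≤ B * (B + 1) * t := by nlinarith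
  have h4 : (B : ℝ) * (B + 1) * t ≤ 3 / 2 * ((B : ℝ) ^ 2 * t) := by
    have : (B : ℝ) * (B + 1) ≤ 3 / 2 * (B : ℝ) ^ 2 := by nlinarith
    nlinarith
  linarith

theorem job (h2 : P2) (hz : P3z) (hf : P3f) (hb : P3b) : P4 := by
  classical
  intro G k F φ C m c hG H hm hc η hη hmη X N hN hgen ε hε
  set ξ := xr X N with hξ
  set T := bf G ξ ξ / 2 with hT
  obtain ⟨K, y₁, hK, hy₁, hP2⟩ := h2 G k F φ C m hG H X N hN hgen.mir (η / 2) (by positivity)
  have hfin := hf G hG ξ (η / 2) (by positivity)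
  set WF := hfin.toFinset with hWF
  have hWFm : ∀ w, w ∈ WF ↔ w ∈ WS G ξ (η / 2) := fun w => hfin.mem_toFinset
  set ht : ℤ × (ℤ × (Fin 20 → ℤ)) → ℝ := fun w => hw G ξ w.1 w.2.1 w.2.2 with hht
  set SF := WF.image ht with hSF
  obtain ⟨δ, hδ0, hδη, hgap⟩ := exists_gap SF (half_pos hη)
  -- the constants of the vanishing lemma
  have hKE : ∀ B : ℕ, ∃ KE : ℝ, (EB B).card < m → ∀ (g h : ℂ → ℂ) (a : ℂ) (M : ℝ),
      0 < ‖a‖ → ‖a‖ ≤ 1 / 2 →
      AnalyticOnNhd ℂ g (Metric.closedBall 0 1) → AnalyticOnNhd ℂ h (Metric.closedBall 0 1) →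
      (∀ s ∈ Metric.closedBall (0 : ℂ) 1, g s = 1 + s ^ m * h s) →
      (∀ s ∈ Metric.closedBall (0 : ℂ) 1, ‖g s‖ ≤ Real.exp M) →
      (∀ s ∈ Metric.closedBall (0 : ℂ) 1, g s = 0 → ∃ ε ∈ EB B, s = a * ε) →
      (∃ s ∈ Metric.closedBall (0 : ℂ) 1, g s = 0) →
      1 ≤ KE * M * ‖a‖ := by
    intro B
    by_cases hB : (EB B).card < m
    · obtain ⟨KE, -, h⟩ := Pool.Agent.Y155.RL.vd m (EB B) hB fun ε hε => norm_EB hε
      exact ⟨KE, fun _ => h⟩
    · exact ⟨0, fun h => absurd h hB⟩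
  choose KE hKE using hKE
  -- the threshold
  have hev1 : ∀ᶠ y : ℝ in Filter.atTop, ∀ w ∈ WF,
      KE w.1.toNat * K * y * Real.exp (-(2 * Real.pi * (δ * y))) < 1 := by
    rw [Filter.eventually_all_finset]
    intro w _
    exact small_ev _ δ hδ0
  have hev2 := small_ev 2 δ hδ0
  have hev3 : ∀ᶠ y : ℝ in Filter.atTop, 1 ≤ y ∧ y₁ ≤ y ∧ 2 / η < y :=
    (Filter.eventually_ge_atTop 1).and ((Filter.eventually_ge_atTop y₁).and
      (Filter.eventually_gt_atTop _))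
  obtain ⟨y₀, hy₀⟩ := Filter.eventually_atTop.1 (hev1.and (hev2.and hev3))
  refine ⟨2 ^ (m + 1) * K / (2 * Real.pi * ε), max y₀ 1, by positivity, ?_⟩
  intro τ x hτy
  obtain ⟨hth1, hth2, hy1, hyy₁, hyη⟩ := hy₀ τ.im ((le_max_left _ _).trans hτy)
  set y := τ.im with hy
  have hy0 : 0 < y := by linarith
  have hτ : 0 < τ.im := hy0
  set p := sp ξ x τ with hp
  have hpU : p ∈ UP := hτ
  obtain ⟨hpM, hp0, hbd⟩ := hP2 τ x hyy₁
  have hη2 : 0 < η / 2 := by positivity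
  have hyη2 : 1 < τ.im ^ 2 * (η / 2) := by
    rw [← hy]
    rw [div_lt_iff₀ hη] at hyη
    nlinarith
  -- zeros
  have hzero : ∀ s : ℂ, ‖s‖ ≤ Real.exp (-(2 * Real.pi * ((η / 2 + T) * y))) →
      gp φ C m p s = 0 → ∃ (b : ℤ) (w : ℤ × (ℤ × (Fin 20 → ℤ))), w ∈ WS G ξ (η / 2) ∧
        s = ee (-(((b : ℂ) + w.2.1 * τ + dt w.2.2 p.2) / w.1)) ∧
        ‖s‖ = Real.exp (-(2 * Real.pi * ((ht w + T) * y))) := by
    intro s hs h0
    have hs0 : s ≠ 0 := by
      rintro rfl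
      unfold gp at h0
      rw [zero_pow (by omega), zero_mul, add_zero] at h0
      exact one_ne_zero h0
    obtain ⟨b, m', n, μ, h1, h2, h3⟩ := hz G k F φ C m hG H ξ x τ s (η / 2) hτ hη2 hyη2 hpM hp0 hs0
      hs h0
    exact ⟨b, (m', (n, μ)), h1, h2, h3⟩
  -- regularity
  set ρ := Real.exp (-(2 * Real.pi * bh G p)) with hρ
  have hρe : ρ = Real.exp (-(2 * Real.pi * (T * y))) := by
    have e0 : bh G p = T * y := by
      rw [hp, bh_sp G ξ x hτ, hT, hy]
      ring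
    rw [hρ, e0]
  set h : ℂ → ℂ := fun s => Hs φ C m p s / φ C p with hh
  have hgd := H.gp_diff hpU
  have hHd := H.Hs_diff hpU
  have hhd : DifferentiableOn ℂ h (Metric.ball 0 ρ) := hHd.div_const _
  have hcont : ContinuousAt h 0 :=
    (hhd.differentiableAt (Metric.isOpen_ball.mem_nhds
      (Metric.mem_ball_self (Real.exp_pos _)))).continuousAt
  have hcv : h 0 = c τ p.2 := by
    have e1 : φ (C + m) p = φ C p * c τ p.2 := hc τ p.2 hτ
    simp only [hh, Hs_zero]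
    rw [e1]
    exact mul_div_cancel_left₀ _ hp0
  have hexp_lt : ∀ t : ℝ, 0 < t → Real.exp (-(2 * Real.pi * ((t + T) * y))) < ρ := by
    intro t ht
    rw [hρe, Real.exp_lt_exp]
    have : 0 < 2 * Real.pi * (t * y) := by positivity
    nlinarith
  have hexp_mono : ∀ t t' : ℝ, Real.exp (-(2 * Real.pi * ((t + T) * y))) ≤
      Real.exp (-(2 * Real.pi * ((t' + T) * y))) → t' ≤ t := by
    intro t t' h
    rw [Real.exp_le_exp] at h
    have h1 : 2 * Real.pi * ((t' + T) * y) ≤ 2 * Real.pi * ((t + T) * y) := by linarith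
    have h2 := le_of_mul_le_mul_left h1 (by positivity)
    have h3 := le_of_mul_le_mul_right h2 hy0
    linarith
  have hexp_mono' : ∀ t t' : ℝ, t' ≤ t → Real.exp (-(2 * Real.pi * ((t + T) * y))) ≤
      Real.exp (-(2 * Real.pi * ((t' + T) * y))) := by
    intro t t' h
    rw [Real.exp_le_exp]
    have h1 : (t' + T) * y ≤ (t + T) * y := mul_le_mul_of_nonneg_right (by linarith) hy0.le
    have h2 : 2 * Real.pi * ((t' + T) * y) ≤ 2 * Real.pi * ((t + T) * y) :=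
      mul_le_mul_of_nonneg_left h1 (by positivity)
    linarith
  have hKy : 0 < K * y := by positivity
  have hfinal : ∀ t : ℝ, η / 2 ≤ t → m * t ≤ 3 / 4 →
      (∀ s ∈ Metric.ball (0 : ℂ) (Real.exp (-(2 * Real.pi * ((t + T) * y)))),
        gp φ C m p s ≠ 0) →
      ‖c τ p.2‖ ≤ 2 ^ (m + 1) * K / (2 * Real.pi * ε) *
        Real.exp (2 * Real.pi * ((m * bf G ξ ξ / 2 + 3 / 4 + ε) * y)) := by
    intro t ht1 ht2 ht3
    have hR0 : 0 < Real.exp (-(2 * Real.pi * ((t + T) * y))) := Real.exp_pos _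
    have hbc := Pool.Agent.Y155.RL.bc m _ (K * y) (gp φ C m p) h (by omega) hR0 hKy
      (hgd.mono (Metric.ball_subset_ball (hexp_lt t (by linarith)).le)) hcont (fun s _ => rfl) ht3
      (fun s hs => by
        rw [Metric.mem_ball, dist_zero_right] at hs
        exact hbd s (hs.le.trans (hexp_mono' _ _ ht1)))
    rw [hcv] at hbc
    have := final_bound hK hε hy0 ht2 hbc
    refine this.trans (le_of_eq ?_)
    rw [hT]
    congr 4
    ring
  by_cases hno : ∀ s ∈ Metric.ball (0 : ℂ) (Real.exp (-(2 * Real.pi * ((η + T) * y)))),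
      gp φ C m p s ≠ 0
  · exact hfinal η (by linarith) (by linarith) hno
  push Not at hno
  obtain ⟨s₁, hs₁, hs₁0⟩ := hno
  rw [Metric.mem_ball, dist_zero_right] at hs₁
  -- the walls with zeros
  set WZ := WF.filter fun w => η ≤ ht w ∧ ∃ s : ℂ, gp φ C m p s = 0 ∧
    ‖s‖ = Real.exp (-(2 * Real.pi * ((ht w + T) * y))) with hWZ
  have hne : WZ.Nonempty := by
    obtain ⟨b, w, hw1, hw2, hw3⟩ := hzero s₁ (hs₁.le.trans (hexp_mono' _ _ (by linarith))) hs₁0
    refine ⟨w, ?_⟩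
    rw [hWZ, Finset.mem_filter]
    refine ⟨(hWFm w).2 hw1, ?_, s₁, hs₁0, hw3⟩
    apply hexp_mono
    rw [← hw3]
    exact hs₁.le
  obtain ⟨w₁, hw₁, hmax⟩ := Finset.exists_max_image WZ ht hne
  rw [hWZ, Finset.mem_filter] at hw₁
  obtain ⟨hw₁F, hw₁η, s₂, hs₂0, hs₂⟩ := hw₁
  set t := ht w₁ with htdef
  have ht0 : 0 < t := by linarith
  have hmaxt : ∀ s : ℂ, gp φ C m p s = 0 →
      ‖s‖ < Real.exp (-(2 * Real.pi * ((t + T) * y))) → False := by
    intro s hs hlt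
    obtain ⟨b, w, hw1, hw2, hw3⟩ := hzero s (hlt.le.trans (hexp_mono' _ _ (by linarith))) hs
    have h3 : t ≤ ht w := hexp_mono _ _ (by rw [← hw3]; exact hlt.le)
    have h4 : w ∈ WZ := by
      rw [hWZ, Finset.mem_filter]
      exact ⟨(hWFm w).2 hw1, hw₁η.trans h3, s, hs, hw3⟩
    have h5 : ht w ≤ t := hmax w h4
    have h6 : ht w = t := le_antisymm h5 h3
    rw [hw3, h6] at hlt
    exact lt_irrefl _ hlt
  -- the walls of this height
  set WT := WF.filter fun w => ht w = t with hWT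
  have hWTne : WT.Nonempty := ⟨w₁, by rw [hWT, Finset.mem_filter]; exact ⟨hw₁F, rfl⟩⟩
  obtain ⟨w₀, hw₀, hmaxB⟩ := Finset.exists_max_image WT (fun w => w.1) hWTne
  rw [hWT, Finset.mem_filter] at hw₀
  obtain ⟨hw₀F, hw₀t⟩ := hw₀
  have hw₀S := (hWFm w₀).1 hw₀F
  have hw₀pos : 0 < w₀.1 := hw₀S.1
  set B := w₀.1.toNat with hB
  have hBZ : (B : ℤ) = w₀.1 := Int.toNat_of_nonneg hw₀pos.le
  have hWSη : ∀ w, w ∈ WS G ξ (η / 2) → ht w = t → w ∈ WS G ξ η := by
    intro w hw hwt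
    refine ⟨hw.1, hw.2.1, ?_⟩
    show η ≤ ht w
    rw [hwt]
    exact hw₁η
  have hw₀η := hWSη w₀ hw₀S hw₀t
  have hBt : (B : ℝ) ^ 2 * t ≤ 1 := by
    have h1 := (hb G hG ξ (η / 2) hη2 w₀ hw₀S).1
    have h2 : (B : ℝ) = (w₀.1 : ℝ) := by exact_mod_cast hBZ
    rw [h2, ← hw₀t]
    exact h1
  set a := ee (-(((w₀.2.1 : ℂ) * τ + dt w₀.2.2 p.2) / w₀.1)) with ha
  have ha0 : a ≠ 0 := ee_ne_zero _
  -- zeros of height `t` lie in `a * E`
  have hform : ∀ s : ℂ, ∀ (b : ℤ) (w : ℤ × (ℤ × (Fin 20 → ℤ))), w ∈ WS G ξ (η / 2) → ht w = t →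
      s = ee (-(((b : ℂ) + w.2.1 * τ + dt w.2.2 p.2) / w.1)) → ∃ e ∈ EB B, s = a * e := by
    intro s b w hw hwt hs
    have hwη := hWSη w hw hwt
    have hwpos : 0 < w.1 := hw.1
    obtain ⟨hsep1, hsep2⟩ := hgen.sep w hwη w₀ hw₀η (by
      show ht w = ht w₀
      rw [hwt, hw₀t])
    have hwle : w.1 ≤ w₀.1 := hmaxB w (by
      rw [hWT, Finset.mem_filter]
      exact ⟨(hWFm w).2 hw, hwt⟩)
    refine ⟨ee (-((b : ℂ) / w.1)), ?_, ?_⟩
    · refine mem_EB (j := w.1.toNat) (by omega) (by omega) ?_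
      rw [← ee_pow]
      have h1 : ((w.1.toNat : ℕ) : ℂ) = (w.1 : ℂ) := by
        have : ((w.1.toNat : ℕ) : ℤ) = w.1 := Int.toNat_of_nonneg hwpos.le
        exact_mod_cast congrArg (Int.cast : ℤ → ℂ) this
      have hw1 : (w.1 : ℂ) ≠ 0 := by exact_mod_cast hwpos.ne'
      rw [h1, show (w.1 : ℂ) * -((b : ℂ) / w.1) = ((-b : ℤ) : ℂ) by
        push_cast
        field_simp]
      exact ee_int _
    · rw [hs, ha, ← ee_add]
      congr 1
      have hw1 : (w.1 : ℂ) ≠ 0 := by exact_mod_cast hwpos.ne'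
      have hw01 : (w₀.1 : ℂ) ≠ 0 := by exact_mod_cast hw₀pos.ne'
      have e1 : (w₀.1 : ℂ) * w.2.1 = w.1 * w₀.2.1 := by exact_mod_cast hsep1
      have e2 : (w₀.1 : ℂ) * dt w.2.2 p.2 = w.1 * dt w₀.2.2 p.2 := by
        rw [← dt_smul_left, ← dt_smul_left, hsep2]
      field_simp
      linear_combination (-τ) * e1 - e2
  -- the norm of `a`
  have hna : ‖a‖ = Real.exp (-(2 * Real.pi * ((t + T) * y))) := by
    obtain ⟨b, w, hw1, hw2, hw3⟩ := hzero s₂ (by
      rw [hs₂]; exact hexp_mono' _ _ (by linarith)) hs₂0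
    have hwt : ht w = t := le_antisymm
      (hexp_mono _ _ (by rw [← hs₂, hw3])) (hexp_mono _ _ (by rw [← hw3, hs₂]))
    obtain ⟨e, he, hse⟩ := hform s₂ b w hw1 hwt hw2
    rw [← hs₂, hse, norm_mul, norm_EB he, mul_one]
  -- conclusion
  refine hfinal t (by linarith) ?_ fun s hs h0 => ?_
  · by_cases hcard : (EB B).card < m
    · exfalso
      set r₀ := Real.exp (-(2 * Real.pi * ((t - δ + T) * y))) with hr₀
      have hratio : ‖a‖ / r₀ = Real.exp (-(2 * Real.pi * (δ * y))) := by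
        rw [hna, hr₀, ← Real.exp_sub]
        congr 1
        ring
      have hstep := step (R₀ := Real.exp (-(2 * Real.pi * ((η / 2 + T) * y)))) (M := K * y)
        (hexp_lt _ hη2) hgd hhd (fun s => rfl) hbd (EB B) (KE B)
        (hKE B hcard) (r₀ := r₀) (Real.exp_pos _) (hexp_mono' _ _ (by linarith)) ha0 (by
          rw [hratio]
          have h1 : 2 * Real.exp (-(2 * Real.pi * (δ * y))) ≤
              2 * y * Real.exp (-(2 * Real.pi * (δ * y))) := by
            have := Real.exp_pos (-(2 * Real.pi * (δ * y)))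
            nlinarith
          linarith) ?_ ⟨s₂, by rw [hs₂]; exact hexp_mono' _ _ (by linarith), hs₂0⟩
      · rw [hratio] at hstep
        have h1 := hth1 w₀ hw₀F
        rw [← hB] at h1
        have h2 : KE B * (K * y) * Real.exp (-(2 * Real.pi * (δ * y))) =
            KE B * K * y * Real.exp (-(2 * Real.pi * (δ * y))) := by ring
        rw [h2] at hstep
        linarith
      · intro s hs h0
        obtain ⟨b, w, hw1, hw2, hw3⟩ := hzero s (hs.trans (hexp_mono' _ _ (by linarith))) h0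
        have h3 : t - δ ≤ ht w := hexp_mono _ _ (by rw [← hw3]; exact hs)
        have h4 : ht w ≤ t := by
          by_contra hcon
          push Not at hcon
          refine hmaxt s h0 ?_
          rw [hw3, Real.exp_lt_exp]
          have h5 : (t + T) * y < (ht w + T) * y := by nlinarith
          have h6 : 2 * Real.pi * ((t + T) * y) < 2 * Real.pi * ((ht w + T) * y) :=
            mul_lt_mul_of_pos_left h5 (by positivity)
          linarith
        have h5 : ht w = t := by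
          by_contra hcon
          have h6 : ht w < t := lt_of_le_of_ne h4 hcon
          have h7 := hgap t (Finset.mem_image_of_mem _ hw₁F) (ht w)
            (Finset.mem_image_of_mem _ ((hWFm w).2 hw1)) h6
          linarith
        exact hform s b w hw1 h5 hw2
    · have h1 := card_EB B
      exact arith hm ht0 hBt (by omega)
  · rw [Metric.mem_ball, dist_zero_right] at hs
    exact hmaxt s h0 hs

end

end Pool.Agent.Helper188_RL.JP4
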