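import Pool.Agent.Helper188_RL.Stm2
set_option autoImplicit false
open MeasureTheory Complex Set Topology Pool.Agent.Y813.RL
namespace Pool.Agent.Helper188_RL.JP5a

theorem imv_sp (ξ x : Fin 20 → ℝ) (τ : ℂ) : imv (sp ξ x τ).2 = τ.im • ξ := by
  funext i
  simp [imv, sp, Complex.mul_im]

theorem bh_sp (G : Matrix (Fin 20) (Fin 20) ℤ) (ξ x : Fin 20 → ℝ) (τ : ℂ) (hτ : 0 < τ.im) :
    bh G (sp ξ x τ) = bf G ξ ξ / 2 * τ.im := by
  unfold bh
  rw [imv_sp, bf_smul_left, bf_smul_right]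
  have h1 : (sp ξ x τ).1.im = τ.im := rfl
  rw [h1]
  field_simp

theorem job (h2 : P2) (hz : P3z) (hb : P3b) : P5a := by
  intro G k F φ C c hG H hc η hη hη1 X N hN hgen ε hε
  obtain ⟨K, y0, hK, hy0, hP⟩ := h2 G k F φ C 1 hG H X N hN hgen.mir (1 + ε / 2) (by linarith)
  refine ⟨4 * K / (Real.pi * ε), max y0 1, lt_of_lt_of_le hy0 (le_max_left _ _), ?_⟩
  intro τ x hτ
  have hτ0 : y0 ≤ τ.im := le_trans (le_max_left _ _) hτ
  have hτ1 : 1 ≤ τ.im := le_trans (le_max_right _ _) hτ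
  have hτp : 0 < τ.im := by linarith
  obtain ⟨hMir, hne, hbd⟩ := hP τ x hτ0
  set ξ := xr X N with hξ
  set p := sp ξ x τ with hp
  set T := bf G ξ ξ / 2 with hT
  set R := Real.exp (-(2 * Real.pi * ((1 + ε / 2 + T) * τ.im))) with hR
  have hR0 : 0 < R := Real.exp_pos _
  have hpUP : p ∈ UP := hτp
  have hpi := Real.pi_pos
  have hRle : R ≤ Real.exp (-(2 * Real.pi * bh G p)) := by
    rw [hR, Real.exp_le_exp, hp, bh_sp G ξ x τ hτp, ← hT]
    have h1 : T * τ.im ≤ (1 + ε / 2 + T) * τ.im := by nlinarith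
    have h3 := mul_le_mul_of_nonneg_left h1 (show 0 ≤ 2 * Real.pi by positivity)
    linarith
  have hgne : ∀ s ∈ Metric.ball (0 : ℂ) R, gp φ C 1 p s ≠ 0 := by
    intro s hs hs0
    rw [Metric.mem_ball, dist_zero_right] at hs
    by_cases h0 : s = 0
    · rw [h0] at hs0
      simp [gp] at hs0
    · obtain ⟨b, m', n, μ, hws, _, _⟩ := hz G k F φ C 1 hG H ξ x τ s (1 + ε / 2) hτp (by linarith)
        (by
          have hy2 : 1 ≤ τ.im ^ 2 := by nlinarith
          have hy3 := mul_le_mul_of_nonneg_right hy2 (show 0 ≤ 1 + ε / 2 by positivity)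
          linarith) hMir hne h0 hs.le hs0
      have h1 := (hb G hG ξ (1 + ε / 2) (by linarith) _ hws).1
      have h3 : 0 < m' := hws.1
      have h4 : 1 + ε / 2 ≤ hw G ξ m' n μ := hws.2.2
      have h5 : (1 : ℝ) ≤ m' := by exact_mod_cast h3
      simp only at h1
      have h6 : (1 : ℝ) ≤ (m' : ℝ) ^ 2 := by nlinarith
      nlinarith
  have hcont : ContinuousAt (fun s => Hs φ C 1 p s / φ C p) 0 := by
    have hd : DifferentiableAt ℂ (Hs φ C 1 p) 0 :=
      (H.Hs_diff hpUP).differentiableAt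
        (Metric.isOpen_ball.mem_nhds (Metric.mem_ball_self (Real.exp_pos _)))
    exact (hd.div_const _).continuousAt
  have key := Pool.Agent.Y155.RL.bc 1 R (K * τ.im) (gp φ C 1 p) (fun s => Hs φ C 1 p s / φ C p)
    one_pos hR0 (by positivity) ((H.gp_diff hpUP).mono (Metric.ball_subset_ball hRle)) hcont
    (fun s _ => rfl) hgne (fun s hs => by
      rw [Metric.mem_ball, dist_zero_right] at hs
      exact hbd s hs.le)
  simp only [Hs_zero, pow_one] at key
  have hce : φ (C + 1) p / φ C p = c τ p.2 := by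
    have h1 := hc τ p.2 hτp
    have h3 : φ (C + 1) p = φ C p * c τ p.2 := h1
    rw [h3, mul_div_cancel_left₀ _ hne]
  rw [hce] at key
  refine key.trans ?_
  have hRinv : 2 / R = 2 * Real.exp (2 * Real.pi * ((1 + ε / 2 + T) * τ.im)) := by
    rw [hR, Real.exp_neg, div_eq_mul_inv, inv_inv]
  rw [hRinv]
  have hexp : Real.exp (2 * Real.pi * ((T + 1 + ε) * τ.im)) =
      Real.exp (2 * Real.pi * ((1 + ε / 2 + T) * τ.im)) * Real.exp (Real.pi * ε * τ.im) := by
    rw [← Real.exp_add]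
    congr 1
    ring
  rw [hexp]
  have hy : τ.im ≤ Real.exp (Real.pi * ε * τ.im) / (Real.pi * ε) := by
    rw [le_div_iff₀ (by positivity)]
    have := Real.add_one_le_exp (Real.pi * ε * τ.im)
    linarith
  have hE := Real.exp_pos (2 * Real.pi * ((1 + ε / 2 + T) * τ.im))
  calc 2 * (K * τ.im) * (2 * Real.exp (2 * Real.pi * ((1 + ε / 2 + T) * τ.im)))
      = 4 * K * Real.exp (2 * Real.pi * ((1 + ε / 2 + T) * τ.im)) * τ.im := by ring
    _ ≤ 4 * K * Real.exp (2 * Real.pi * ((1 + ε / 2 + T) * τ.im)) *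
        (Real.exp (Real.pi * ε * τ.im) / (Real.pi * ε)) :=
        mul_le_mul_of_nonneg_left hy (by positivity)
    _ = _ := by ring

end Pool.Agent.Helper188_RL.JP5a
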