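import Pool.Agent.Helper188_RL.Stm2
set_option autoImplicit false
open MeasureTheory Complex Set Topology Pool.Agent.Y813.RL
namespace Pool.Agent.Helper188_RL.JP5b

theorem posmin (D : Finset ℝ) (h : ∀ x ∈ D, 0 < x) : ∃ g : ℝ, 0 < g ∧ ∀ x ∈ D, g ≤ x := by
  classical
  induction D using Finset.induction_on with
  | empty => exact ⟨1, one_pos, by simp⟩
  | insert a s ha ih =>
    obtain ⟨g, hg, hg'⟩ := ih (fun x hx => h x (Finset.mem_insert_of_mem hx))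
    refine ⟨min a g, lt_min (h a (Finset.mem_insert_self _ _)) hg, fun x hx => ?_⟩
    rcases Finset.mem_insert.1 hx with rfl | hx
    · exact min_le_left _ _
    · exact (min_le_right _ _).trans (hg' x hx)

theorem gap (A : Finset ℝ) : ∃ g : ℝ, 0 < g ∧ ∀ x ∈ A, ∀ y ∈ A, x < y → x + g ≤ y := by
  classical
  obtain ⟨g, hg, hg'⟩ := posmin (((A ×ˢ A).filter (fun p => p.1 < p.2)).image (fun p => p.2 - p.1))
    (by
      intro x hx
      simp only [Finset.mem_image, Finset.mem_filter] at hx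
      obtain ⟨p, ⟨_, hp⟩, rfl⟩ := hx
      linarith)
  refine ⟨g, hg, fun x hx y hy hxy => ?_⟩
  have := hg' (y - x) (Finset.mem_image.2 ⟨(x, y), Finset.mem_filter.2
    ⟨Finset.mem_product.2 ⟨hx, hy⟩, hxy⟩, rfl⟩)
  linarith

theorem small (A δ : ℝ) (hA : 0 ≤ A) (hδ : 0 < δ) : ∃ y₀ : ℝ, 0 < y₀ ∧ ∀ y : ℝ, y₀ ≤ y →
    A * y * Real.exp (-(2 * Real.pi * (y * δ))) ≤ 1 / 8 := by
  have hpi := Real.pi_pos
  refine ⟨4 * A / (Real.pi * δ) ^ 2 + 1, by positivity, fun y hy => ?_⟩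
  have h0 : 0 ≤ 4 * A / (Real.pi * δ) ^ 2 := by positivity
  have hy0 : 0 < y := by linarith
  have h1 : 4 * A / (Real.pi * δ) ^ 2 ≤ y := by linarith
  rw [div_le_iff₀ (by positivity)] at h1
  have h2 := Real.quadratic_le_exp_of_nonneg (x := 2 * Real.pi * (y * δ)) (by positivity)
  have h3 : 0 ≤ 2 * Real.pi * (y * δ) := by positivity
  have h4 : 2 * (Real.pi * δ * y) ^ 2 ≤ Real.exp (2 * Real.pi * (y * δ)) := by
    nlinarith
  rw [Real.exp_neg, ← div_eq_mul_inv, div_le_iff₀ (Real.exp_pos _)]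
  have h5 : A * y * 4 ≤ y * (Real.pi * δ) ^ 2 * y := by nlinarith
  nlinarith

theorem int_ee_zero {l : ℤ} (hl : l ≠ 0) :
    ∫ x in Icc (0 : ℝ) 1, ee ((l : ℂ) * (x : ℂ)) = 0 := by
  rw [integral_Icc_eq_integral_Ioc, ← intervalIntegral.integral_of_le zero_le_one]
  have hc : 2 * (Real.pi : ℂ) * Complex.I * (l : ℂ) ≠ 0 :=
    mul_ne_zero Complex.two_pi_I_ne_zero (by exact_mod_cast hl)
  have h1 : ∀ x : ℝ, ee ((l : ℂ) * (x : ℂ)) =
      Complex.exp (2 * (Real.pi : ℂ) * Complex.I * (l : ℂ) * x) := by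
    intro x; unfold ee; congr 1; ring
  simp_rw [h1]
  rw [integral_exp_mul_complex hc]
  have h2 : Complex.exp (2 * (Real.pi : ℂ) * Complex.I * (l : ℂ)) = 1 := by
    rw [Complex.exp_eq_one_iff]; exact ⟨l, by ring⟩
  simp [h2]

theorem cube_zero (ν : Fin 20 → ℤ) (hν : ν ≠ 0) :
    ∫ x in Icc (0 : Fin 20 → ℝ) 1, ee (dt ν (fun i => (x i : ℂ))) = 0 := by
  obtain ⟨i, hi⟩ := Function.ne_iff.1 hν
  have h0 : ∀ x : Fin 20 → ℝ, ee (dt ν (fun i => (x i : ℂ))) =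
      ∏ i, ee ((ν i : ℂ) * (x i : ℂ)) := by
    intro x
    unfold ee dt
    rw [← Complex.exp_sum, Finset.mul_sum]
  simp_rw [h0]
  have h1 : (volume : Measure (Fin 20 → ℝ)).restrict (Icc (0 : Fin 20 → ℝ) 1) =
      Measure.pi fun i => (volume : Measure ℝ).restrict (Icc 0 1) := by
    rw [← Set.pi_univ_Icc, volume_pi, Measure.restrict_pi_pi]
    rfl
  rw [h1, integral_fintype_prod_eq_prod (fun (i : Fin 20) (x : ℝ) => ee ((ν i : ℂ) * (x : ℂ)))]
  exact Finset.prod_eq_zero (Finset.mem_univ i) (int_ee_zero hi)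


theorem dt_sp (ν : Fin 20 → ℤ) (ξ x : Fin 20 → ℝ) (τ : ℂ) :
    dt ν (sp ξ x τ).2 = τ * ((dt ν ξ : ℝ) : ℂ) + ((dt ν x : ℝ) : ℂ) := by
  unfold dt sp
  push_cast
  rw [Finset.mul_sum, ← Finset.sum_add_distrib]
  exact Finset.sum_congr rfl fun i _ => by ring

theorem im_dt_sp (ν : Fin 20 → ℤ) (ξ x : Fin 20 → ℝ) (τ : ℂ) :
    (dt ν (sp ξ x τ).2).im = τ.im * dt ν ξ := by
  rw [dt_sp]
  simp

theorem bh_sp (G : Matrix (Fin 20) (Fin 20) ℤ) (ξ x : Fin 20 → ℝ) (τ : ℂ) (hτ : 0 < τ.im) :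
    bh G (sp ξ x τ) = bf G ξ ξ / 2 * τ.im := by
  have h1 : imv (sp ξ x τ).2 = τ.im • ξ := by
    funext i
    simp [imv, sp]
  unfold bh
  rw [h1, bf_smul_left, bf_smul_right]
  have : (sp ξ x τ).1.im = τ.im := rfl
  rw [this]
  field_simp

theorem norm_a (n : ℤ) (ν : Fin 20 → ℤ) (ξ x : Fin 20 → ℝ) (τ : ℂ) :
    ‖ee (-((n : ℂ) * τ + dt ν (sp ξ x τ).2))‖ =
      Real.exp (2 * Real.pi * (((n : ℝ) + dt ν ξ) * τ.im)) := by
  rw [norm_ee, Complex.neg_im, Complex.add_im, im_dt_sp]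
  congr 1
  have : ((n : ℂ) * τ).im = n * τ.im := by simp
  rw [this]
  ring

theorem norm_e (ν : Fin 20 → ℤ) (ξ x : Fin 20 → ℝ) (τ : ℂ) :
    ‖ee (-(dt ν (sp ξ x τ).2))‖ = Real.exp (2 * Real.pi * (dt ν ξ * τ.im)) := by
  rw [norm_ee, Complex.neg_im, im_dt_sp]
  congr 1
  ring

/-- the derivative of the normalised function -/
theorem deriv_gp {G : Matrix (Fin 20) (Fin 20) ℤ} {k : ℤ} {F : TP → ℂ}
    {φ : ℕ → ℂ × (Fin 20 → ℂ) → ℂ} {C : ℕ} (H : CM G k F φ C 1) {p : ℂ × (Fin 20 → ℂ)}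
    (hp : p ∈ UP) : deriv (gp φ C 1 p) 0 = φ (C + 1) p / φ C p := by
  have h1 : DifferentiableAt ℂ (Hs φ C 1 p) 0 :=
    (H.Hs_diff hp).differentiableAt
      (Metric.isOpen_ball.mem_nhds (Metric.mem_ball_self (Real.exp_pos _)))
  have h2 : HasDerivAt (fun s => Hs φ C 1 p s / φ C p) (deriv (Hs φ C 1 p) 0 / φ C p) 0 :=
    h1.hasDerivAt.div_const _
  have h3 : HasDerivAt (fun s : ℂ => s ^ 1) 1 0 := by
    simpa using hasDerivAt_pow 1 (0 : ℂ)
  have h4 := (h3.mul h2).const_add 1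
  have h5 : HasDerivAt (gp φ C 1 p) (φ (C + 1) p / φ C p) 0 := by
    refine h4.congr_deriv ?_
    simp [Hs_zero]
  exact h5.deriv

theorem cont_sp (ξ : Fin 20 → ℝ) (τ : ℂ) : Continuous fun x : Fin 20 → ℝ => sp ξ x τ := by
  unfold sp
  fun_prop

theorem cont_dt (ν : Fin 20 → ℤ) (ξ : Fin 20 → ℝ) (τ : ℂ) :
    Continuous fun x : Fin 20 → ℝ => dt ν (sp ξ x τ).2 := by
  unfold sp dt
  fun_prop

theorem cont_ee : Continuous ee := by
  unfold ee
  fun_prop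

/-- the integral of the main terms vanishes -/
theorem int_main (n : ℤ) (ν μ : Fin 20 → ℤ) (hne : ν ≠ μ) (ξ : Fin 20 → ℝ) (τ : ℂ) (N : ℂ) :
    ∫ x in Icc (0 : Fin 20 → ℝ) 1, N / ee (-((n : ℂ) * τ + dt ν (sp ξ x τ).2)) *
      ee (-(dt μ (sp ξ x τ).2)) = 0 := by
  have h1 : ∀ x : Fin 20 → ℝ, N / ee (-((n : ℂ) * τ + dt ν (sp ξ x τ).2)) *
      ee (-(dt μ (sp ξ x τ).2)) =
      (N * ee ((n : ℂ) * τ + τ * ((dt ν ξ : ℝ) : ℂ) - τ * ((dt μ ξ : ℝ) : ℂ))) *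
        ee (dt (ν - μ) (fun i => (x i : ℂ))) := by
    intro x
    rw [ee_neg, div_inv_eq_mul, mul_assoc, mul_assoc, ← ee_add, ← ee_add]
    congr 2
    rw [dt_sp, dt_sp]
    have e1 : dt (ν - μ) (fun i => (x i : ℂ)) = ((dt ν x : ℝ) : ℂ) - ((dt μ x : ℝ) : ℂ) := by
      unfold dt
      push_cast
      rw [← Finset.sum_sub_distrib]
      refine Finset.sum_congr rfl fun i _ => ?_
      rw [Pi.sub_apply]
      push_cast
      ring
    rw [e1]
    ring
  simp_rw [h1]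
  rw [integral_const_mul, cube_zero _ (sub_ne_zero.2 hne), mul_zero]


set_option maxHeartbeats 4000000 in
theorem job (h2 : P2) (hz : P3z) (hf : P3f) (hb : P3b) (hc : P5c) (hd : P5d) : P5b := by
  classical
  intro G k F φ C c hG H hφ hJ η hη hη2 X N hN hg μ hμ ε hε
  have hpi := Real.pi_pos
  obtain ⟨ξ, hξ⟩ : ∃ ξ, ξ = xr X N := ⟨_, rfl⟩
  obtain ⟨T, hT⟩ : ∃ T, T = bf G ξ ξ / 2 := ⟨_, rfl⟩
  have hT0 : 0 ≤ T := by rw [hT]; have := hG.nonneg ξ; linarith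
  rw [← hξ] at hg ⊢
  rw [← hT]
  -- heights
  obtain ⟨h, hh⟩ : ∃ h : ℤ × (ℤ × (Fin 20 → ℤ)) → ℝ,
    ∀ w, h w = hw G ξ w.1 w.2.1 w.2.2 := ⟨_, fun _ => rfl⟩
  obtain ⟨d, hd0, hd1⟩ : ∃ d : ℝ, 0 < d ∧ ∀ w ∈ WS G ξ (1 / 2), 1 / 2 < h w → 1 / 2 + d ≤ h w := by
    have hfin := hf G hG ξ (1 / 2) (by norm_num)
    obtain ⟨g, hg0, hg1⟩ := posmin ((hfin.toFinset.image (fun w => h w - 1 / 2)).filter
      (fun x => 0 < x)) (fun x hx => (Finset.mem_filter.1 hx).2)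
    refine ⟨g, hg0, fun w hw hw2 => ?_⟩
    have := hg1 (h w - 1 / 2) (Finset.mem_filter.2 ⟨Finset.mem_image.2
      ⟨w, hfin.mem_toFinset.2 hw, rfl⟩, by linarith⟩)
    linarith
  obtain ⟨d', hd'⟩ : ∃ d' : ℝ, d' = min d ε / 2 := ⟨_, rfl⟩
  have hd'0 : 0 < d' := by rw [hd']; have := lt_min hd0 hε; linarith
  have hd'1 : 2 * d' ≤ d := by rw [hd']; have := min_le_left d ε; linarith
  have hd'2 : 2 * d' ≤ ε := by rw [hd']; have := min_le_right d ε; linarith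
  obtain ⟨t0, ht0⟩ : ∃ t0 : ℝ, t0 = 1 / 2 + d' := ⟨_, rfl⟩
  have ht0' : 1 / 2 < t0 := by linarith
  have hWS : ∀ w ∈ WS G ξ t0, w ∈ WS G ξ (1 / 2) := fun w hw => ⟨hw.1, hw.2.1, by
    have := hw.2.2; linarith⟩
  have hWS' : ∀ w ∈ WS G ξ t0, w ∈ WS G ξ η := fun w hw => ⟨hw.1, hw.2.1, by
    have := hw.2.2; linarith⟩
  have hht : ∀ w ∈ WS G ξ t0, t0 + d' ≤ h w := by
    intro w hw
    have h1 : 1 / 2 < h w := by rw [hh]; have := hw.2.2; linarith
    have := hd1 w (hWS w hw) h1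
    linarith
  have hfin := hf G hG ξ t0 (by linarith)
  obtain ⟨S, hS⟩ : ∃ S : Finset (ℤ × (ℤ × (Fin 20 → ℤ))), S = hfin.toFinset := ⟨_, rfl⟩
  have hSm : ∀ w, w ∈ S ↔ w ∈ WS G ξ t0 := by intro w; rw [hS, hfin.mem_toFinset]
  obtain ⟨A, hA⟩ : ∃ A : Finset ℝ, A = S.image h := ⟨_, rfl⟩
  obtain ⟨g, hg0, hg1⟩ := gap A
  -- properties of the walls
  have hw1 : ∀ w ∈ S, w.1 = 1 ∧ ∃ v : Fin 20 → ℤ, w.2.2 = G.mulVec v := by
    intro w hw
    have hw' := (hSm w).1 hw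
    refine (hb G hG ξ t0 (by linarith) w hw').2 ?_
    have := hw'.2.2
    linarith
  have hinj : ∀ w ∈ S, ∀ w' ∈ S, h w = h w' → w.2.1 = w'.2.1 ∧ w.2.2 = w'.2.2 := by
    intro w hw w' hw' he
    rw [hh, hh] at he
    have := hg.sep w (hWS' w ((hSm w).1 hw)) w' (hWS' w' ((hSm w').1 hw')) he
    rw [(hw1 w hw).1, (hw1 w' hw').1] at this
    simpa using this
  -- enumeration
  obtain ⟨r, hr⟩ : ∃ r, A.card = r := ⟨_, rfl⟩
  obtain ⟨q, hq⟩ : ∃ q : Fin r → ℝ, ∀ i, q i = A.orderEmbOfFin hr (Fin.rev i) := ⟨_, fun _ => rfl⟩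
  have hqA : ∀ i, q i ∈ A := fun i => by rw [hq]; exact Finset.orderEmbOfFin_mem _ _ _
  have hqlt : ∀ i j, i < j → q j < q i := by
    intro i j hij
    rw [hq, hq]
    exact (A.orderEmbOfFin hr).strictMono (Fin.rev_lt_rev.2 hij)
  have hqs : ∀ x ∈ A, ∃ i, q i = x := by
    intro x hx
    have : x ∈ Set.range (A.orderEmbOfFin hr) := by
      rw [Finset.range_orderEmbOfFin]; exact hx
    obtain ⟨j, hj⟩ := this
    exact ⟨Fin.rev j, by rw [hq, Fin.rev_rev, hj]⟩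
  have hqw : ∀ i, ∃ w ∈ S, h w = q i := by
    intro i
    have := hqA i
    rw [hA] at this
    exact Finset.mem_image.1 this
  choose w hwS hwq using hqw
  obtain ⟨n, hn⟩ : ∃ n : Fin r → ℤ, ∀ i, n i = (w i).2.1 := ⟨_, fun _ => rfl⟩
  obtain ⟨ν, hν⟩ : ∃ ν : Fin r → (Fin 20 → ℤ), ∀ i, ν i = (w i).2.2 := ⟨_, fun _ => rfl⟩
  have hnq : ∀ i, (n i : ℝ) + dt (ν i) ξ = -(q i + T) := by
    intro i
    rw [← hwq i, hh, hw, (hw1 (w i) (hwS i)).1, hn, hν, ← hT]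
    simp
  have hqt : ∀ i, t0 + d' ≤ q i := by
    intro i
    rw [← hwq i]
    exact hht _ ((hSm _).1 (hwS i))
  have hνμ : ∀ i, ν i ≠ μ := by
    intro i he
    obtain ⟨v, hv⟩ := (hw1 (w i) (hwS i)).2
    exact hμ ⟨v, by rw [← he, hν, hv]⟩
  obtain ⟨K, y₁, hK, hy₁, hP2⟩ := h2 G k F φ C 1 hG H X N hN (by rw [← hξ]; exact hg.mir) t0
    (by linarith)
  rw [← hξ, ← hT] at hP2
  obtain ⟨δ, hδ⟩ : ∃ δ : ℝ, δ = min g d' := ⟨_, rfl⟩
  have hδ0 : 0 < δ := by rw [hδ]; exact lt_min hg0 hd'0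
  have hδg : δ ≤ g := by rw [hδ]; exact min_le_left _ _
  have hδd : δ ≤ d' := by rw [hδ]; exact min_le_right _ _
  obtain ⟨y₂, hy₂, hsm⟩ := small ((4 + 2 * r) * K + 1) δ (by positivity) hδ0
  refine ⟨4 * K / (Real.pi * ε), max y₁ (max y₂ 2), lt_max_of_lt_left hy₁, fun τ hτ => ?_⟩
  obtain ⟨y, hy⟩ : ∃ y, y = τ.im := ⟨_, rfl⟩
  rw [← hy] at hτ ⊢
  have hyy1 : y₁ ≤ y := (le_max_left _ _).trans hτ
  have hyy2 : y₂ ≤ y := ((le_max_left _ _).trans (le_max_right _ _)).trans hτ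
  have hyy3 : 2 ≤ y := ((le_max_right _ _).trans (le_max_right _ _)).trans hτ
  have hy0 : 0 < y := by linarith
  have hsm' := hsm y hyy2
  obtain ⟨E, hE⟩ : ∃ E : ℝ, E = Real.exp (-(2 * Real.pi * (y * δ))) := ⟨_, rfl⟩
  rw [← hE] at hsm'
  have hE0 : 0 < E := by rw [hE]; exact Real.exp_pos _
  have hKyE : 0 ≤ K * y * E := by positivity
  have hyE : 0 ≤ y * E := by positivity
  have hrK : 0 ≤ (r : ℝ) * (K * y * E) := by positivity
  have hb1 : 4 * (K * y) * E ≤ 1 / 8 := by nlinarith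
  have hb2 : (r : ℝ) * (2 * (K * y)) * E ≤ 1 / 8 := by nlinarith
  have hb3 : E ≤ 1 / 2 := by nlinarith
  obtain ⟨a, ha⟩ : ∃ a : Fin r → (Fin 20 → ℝ) → ℂ,
    ∀ i x, a i x = ee (-((n i : ℂ) * τ + dt (ν i) (sp ξ x τ).2)) := ⟨_, fun _ _ => rfl⟩
  obtain ⟨α, hα⟩ : ∃ α : Fin r → ℝ, ∀ i, α i = Real.exp (-(2 * Real.pi * ((q i + T) * y))) :=
    ⟨_, fun _ => rfl⟩
  have hnorm : ∀ i x, ‖a i x‖ = α i := by
    intro i x
    rw [ha, norm_a, hnq, hα, ← hy]
    congr 1; ring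
  have hα0 : ∀ i, 0 < α i := fun i => by rw [hα]; exact Real.exp_pos _
  obtain ⟨R, hR⟩ : ∃ R : ℝ, R = Real.exp (-(2 * Real.pi * ((t0 + T) * y))) := ⟨_, rfl⟩
  have hR0 : 0 < R := by rw [hR]; exact Real.exp_pos _
  have hαR : ∀ i, α i ≤ R * E := by
    intro i
    rw [hα, hR, hE, ← Real.exp_add, Real.exp_le_exp]
    have h1 : (t0 + δ) ≤ q i := by have := hqt i; linarith
    have h2 : (t0 + δ) * y ≤ q i * y := mul_le_mul_of_nonneg_right h1 hy0.le
    nlinarith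
  have hαq : ∀ i j, i < j → α i ≤ E * α j := by
    intro i j hij
    rw [hα, hα, hE, ← Real.exp_add, Real.exp_le_exp]
    have h1 : q j + δ ≤ q i := by
      have := hg1 (q j) (hqA j) (q i) (hqA i) (hqlt i j hij)
      linarith
    have h2 : (q j + δ) * y ≤ q i * y := mul_le_mul_of_nonneg_right h1 hy0.le
    nlinarith
  have hUP : ∀ x, sp ξ x τ ∈ UP := by
    intro x
    show 0 < τ.im
    rw [← hy]; exact hy0
  -- splitting off the zeros
  have hsplit : ∀ x : Fin 20 → ℝ, ∃ Nx : Fin r → ℕ, (∀ i, (Nx i : ℝ) ≤ 2 * (K * y)) ∧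
      ‖c τ (sp ξ x τ).2 + ∑ i, (Nx i : ℂ) / a i x‖ ≤ 4 * (K * y) / R := by
    intro x
    obtain ⟨hMir, hφ0, hbd⟩ := hP2 τ x (by rw [← hy]; exact hyy1)
    have hder : deriv (gp φ C 1 (sp ξ x τ)) 0 = c τ (sp ξ x τ).2 := by
      rw [deriv_gp H (hUP x)]
      have := hφ τ (sp ξ x τ).2 (by rw [← hy]; exact hy0)
      have e1 : (τ, (sp ξ x τ).2) = sp ξ x τ := rfl
      rw [e1] at this
      rw [this]
      field_simp
    have hg0' : gp φ C 1 (sp ξ x τ) 0 = 1 := by simp [gp]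
    have hRb : R < Real.exp (-(2 * Real.pi * bh G (sp ξ x τ))) := by
      rw [bh_sp G ξ x τ (by rw [← hy]; exact hy0), ← hT, ← hy, hR, Real.exp_lt_exp]
      have : T * y < (t0 + T) * y := by nlinarith
      nlinarith
    have key := hc r (fun i => a i x) (gp φ C 1 (sp ξ x τ)) R (K * y) hR0 (by positivity) ?_ ?_ ?_
      hg0' ?_ ?_
    · obtain ⟨Nx, h1, h2⟩ := key
      refine ⟨Nx, h1, ?_⟩
      rw [hder] at h2
      exact h2
    · -- injectivity
      intro i j hij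
      by_contra hne
      have hij' : a i x = a j x := hij
      have h1 : α i = α j := by rw [← hnorm i x, ← hnorm j x, hij']
      rw [hα, hα, Real.exp_eq_exp] at h1
      have h2 : q i = q j := by
        have h3 : 2 * Real.pi * ((q i + T) * y) = 2 * Real.pi * ((q j + T) * y) := by linarith
        have h4 := mul_left_cancel₀ (by positivity) h3
        have h5 := mul_right_cancel₀ hy0.ne' h4
        linarith
      rcases lt_or_gt_of_ne hne with h3 | h3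
      · have := hqlt i j h3; linarith
      · have := hqlt j i h3; linarith
    · intro i
      refine ⟨?_, ?_⟩
      · show a i x ≠ 0
        rw [ha]; exact ee_ne_zero _
      · show ‖a i x‖ ≤ R / 2
        rw [hnorm]
        have := hαR i
        nlinarith
    · intro s hs
      have hdiff := H.gp_diff (hUP x)
      refine hdiff.analyticAt (Metric.isOpen_ball.mem_nhds ?_)
      exact Metric.closedBall_subset_ball hRb hs
    · intro s hs
      have h1 := hbd s (by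
        rw [Metric.mem_closedBall, dist_zero_right, hR, hy] at hs
        exact hs)
      rw [← hy] at h1
      exact h1
    · intro s hs hgs
      have hs0 : s ≠ 0 := by
        rintro rfl
        rw [hg0'] at hgs
        exact one_ne_zero hgs
      obtain ⟨b, m', n', μ', hw', hse, _⟩ := hz G k F φ C 1 hG H ξ x τ s t0
        (by rw [← hy]; exact hy0) (by linarith) (by rw [← hy]; nlinarith) hMir hφ0 hs0
        (by
          rw [Metric.mem_closedBall, dist_zero_right, hR, hy, hT] at hs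
          exact hs) hgs
      have hwS' : (m', (n', μ')) ∈ S := (hSm _).2 hw'
      obtain ⟨hm1, _⟩ := hw1 _ hwS'
      simp only at hm1
      obtain ⟨i, hi⟩ := hqs (h (m', (n', μ'))) (by
        rw [hA]; exact Finset.mem_image_of_mem _ hwS')
      have he := hinj _ (hwS i) _ hwS' (by rw [hwq i, hi])
      simp only at he
      refine ⟨i, ?_⟩
      show s = a i x
      rw [ha, hse, hn, hν, he.1, he.2, hm1]
      have e1 : -(((b : ℂ) + (n' : ℂ) * τ + dt μ' (sp ξ x τ).2) / ((1 : ℤ) : ℂ)) =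
          ((-b : ℤ) : ℂ) + -((n' : ℂ) * τ + dt μ' (sp ξ x τ).2) := by
        push_cast; ring
      rw [e1, ee_add, ee_int, one_mul]
  choose Nf hN1 hN2 using hsplit
  have hcont_c : Continuous fun x : Fin 20 → ℝ => c τ (sp ξ x τ).2 := by
    have h1 := hJ.holo.continuousOn
    have h2 : Continuous fun x : Fin 20 → ℝ => (sp ξ x τ) := cont_sp ξ τ
    have h3 := h1.comp_continuous h2 (fun x => by
      show 0 < τ.im
      rw [← hy]; exact hy0)
    exact h3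
  have hcont_a : ∀ i, Continuous (a i) := by
    intro i
    have : a i = fun x => ee (-((n i : ℂ) * τ + dt (ν i) (sp ξ x τ).2)) := by
      funext x; exact ha i x
    rw [this]
    exact cont_ee.comp ((continuous_const.add (cont_dt (ν i) ξ τ)).neg)
  have hconst := hd r a α (fun x => c τ (sp ξ x τ).2) (fun i x => Nf x i) (4 * (K * y) / R)
    (2 * (K * y)) E hcont_c hcont_a hnorm hα0 hαq hE0.le (fun i x => hN1 x i) hN2
    (fun i => by
      have := hαR i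
      rw [div_mul_eq_mul_div, div_le_iff₀ hR0]
      have h1 : 4 * (K * y) * α i ≤ 4 * (K * y) * (R * E) :=
        mul_le_mul_of_nonneg_left this (by positivity)
      nlinarith) hb2
  -- the error term
  obtain ⟨er, her⟩ : ∃ er : (Fin 20 → ℝ) → ℂ,
    ∀ x, er x = c τ (sp ξ x τ).2 + ∑ i, (Nf 0 i : ℂ) / a i x := ⟨_, fun _ => rfl⟩
  have her1 : ∀ x, ‖er x‖ ≤ 4 * (K * y) / R := by
    intro x
    have h1 := hN2 x
    have h2 : ∀ i, Nf x i = Nf 0 i := fun i => hconst i x 0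
    rw [her]
    simp_rw [h2] at h1
    exact h1
  have hcont_er : Continuous er := by
    have : er = fun x => c τ (sp ξ x τ).2 + ∑ i, (Nf 0 i : ℂ) / a i x := by
      funext x; exact her x
    rw [this]
    refine hcont_c.add (continuous_finsetSum _ fun i _ => ?_)
    refine continuous_const.div (hcont_a i) (fun x => ?_)
    rw [ha]; exact ee_ne_zero _
  have hcont_e : Continuous fun x : Fin 20 → ℝ => ee (-(dt μ (sp ξ x τ).2)) :=
    cont_ee.comp (cont_dt μ ξ τ).neg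
  have hcomp : IsCompact (Icc (0 : Fin 20 → ℝ) 1) := isCompact_Icc
  have hint : ∫ x in Icc (0 : Fin 20 → ℝ) 1, c τ (sp ξ x τ).2 * ee (-(dt μ (sp ξ x τ).2)) =
      ∫ x in Icc (0 : Fin 20 → ℝ) 1, er x * ee (-(dt μ (sp ξ x τ).2)) := by
    have h1 : ∀ x, er x * ee (-(dt μ (sp ξ x τ).2)) = c τ (sp ξ x τ).2 * ee (-(dt μ (sp ξ x τ).2)) +
        ∑ i, (Nf 0 i : ℂ) / a i x * ee (-(dt μ (sp ξ x τ).2)) := by
      intro x
      rw [her, add_mul, Finset.sum_mul]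
    simp_rw [h1]
    have hc2 : ∀ i : Fin r, Continuous fun x : Fin 20 → ℝ =>
        (Nf 0 i : ℂ) / a i x * ee (-(dt μ (sp ξ x τ).2)) := by
      intro i
      refine (continuous_const.div (hcont_a i) (fun x => ?_)).mul hcont_e
      rw [ha]; exact ee_ne_zero _
    rw [integral_add, integral_finsetSum]
    · have h2 : ∀ i : Fin r, ∫ x in Icc (0 : Fin 20 → ℝ) 1,
          (Nf 0 i : ℂ) / a i x * ee (-(dt μ (sp ξ x τ).2)) = 0 := by
        intro i
        simp_rw [ha]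
        exact int_main (n i) (ν i) μ (hνμ i) ξ τ _
      simp [h2]
    · intro i _
      exact (hc2 i).continuousOn.integrableOn_compact hcomp
    · exact (hcont_c.mul hcont_e).continuousOn.integrableOn_compact hcomp
    · exact (continuous_finsetSum _ fun i _ => hc2 i).continuousOn.integrableOn_compact hcomp
  rw [hint]
  have hvol : (volume : Measure (Fin 20 → ℝ)).real (Icc 0 1) = 1 := by
    rw [Measure.real, Real.volume_Icc_pi]
    simp
  have hbound : ∀ x ∈ Icc (0 : Fin 20 → ℝ) 1, ‖er x * ee (-(dt μ (sp ξ x τ).2))‖ ≤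
      4 * (K * y) / R * Real.exp (2 * Real.pi * (dt μ ξ * y)) := by
    intro x _
    rw [norm_mul, norm_e, ← hy]
    exact mul_le_mul_of_nonneg_right (her1 x) (Real.exp_pos _).le
  refine (norm_setIntegral_le_of_norm_le_const (by
    rw [Real.volume_Icc_pi]; simp) hbound).trans ?_
  rw [hvol, mul_one, div_mul_eq_mul_div, div_le_iff₀ hR0, hR,
    mul_assoc (4 * K / (Real.pi * ε)), ← Real.exp_add]
  have h3 : Real.pi * ε * y ≤ Real.exp (Real.pi * ε * y) := by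
    have := Real.add_one_le_exp (Real.pi * ε * y); linarith
  have h4 : 4 * (K * y) = 4 * K / (Real.pi * ε) * (Real.pi * ε * y) := by
    field_simp
  rw [h4]
  have h5 : 4 * K / (Real.pi * ε) * (Real.pi * ε * y) * Real.exp (2 * Real.pi * (dt μ ξ * y)) ≤
      4 * K / (Real.pi * ε) * (Real.exp (Real.pi * ε * y) * Real.exp (2 * Real.pi * (dt μ ξ * y))) := by
    rw [mul_assoc]
    gcongr
  refine h5.trans ?_
  rw [← Real.exp_add]
  refine mul_le_mul_of_nonneg_left ?_ (by positivity)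
  rw [Real.exp_le_exp]
  have h6 : d' * y ≤ ε / 2 * y := mul_le_mul_of_nonneg_right (by linarith) hy0.le
  rw [ht0]
  nlinarith

end Pool.Agent.Helper188_RL.JP5b

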