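import Pool.Agent.Helper188_RL.Stm2
import Pool.Agent.Y155.RL.VD
set_option autoImplicit false
open MeasureTheory Complex Set Topology Pool.Agent.Y813.RL
namespace Pool.Agent.Helper188_RL.JP5c

/-- splitting off one zero -/
theorem split_one (R : ℝ) (g : ℂ → ℂ) (hR : 0 < R) (hg : AnalyticOnNhd ℂ g (Metric.closedBall 0 R))
    (h0 : g 0 = 1) (a : ℂ) (ha0 : a ≠ 0) (haR : ‖a‖ ≤ R) :
    ∃ (n : ℕ) (g1 : ℂ → ℂ), AnalyticOnNhd ℂ g1 (Metric.closedBall 0 R) ∧ g1 0 = 1 ∧ g1 a ≠ 0 ∧
      ∀ s, g s = (1 - s / a) ^ n * g1 s := by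
  have haU : a ∈ Metric.closedBall (0 : ℂ) R := by simpa using haR
  have h0U : (0 : ℂ) ∈ Metric.closedBall (0 : ℂ) R := by simpa using hR.le
  have hne : ¬ ∀ᶠ z in 𝓝 a, g z = 0 := by
    intro h
    have h1 := hg.eqOn_zero_of_preconnected_of_eventuallyEq_zero
      (convex_closedBall (0 : ℂ) R).isPreconnected haU h
    have h2 := h1 h0U
    rw [h0] at h2
    exact one_ne_zero h2
  obtain ⟨n, g', hg', hg'0, hev⟩ := (hg a haU).exists_eventuallyEq_pow_smul_nonzero_iff.2 hne
  have key : ∀ s : ℂ, s ≠ a → (s - a) ^ n * g' s / (1 - s / a) ^ n = (-a) ^ n * g' s := by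
    intro s hs
    have h1 : s - a ≠ 0 := sub_ne_zero.2 hs
    have h2 : 1 - s / a = (s - a) / (-a) := by
      field_simp
      ring
    rw [h2, div_pow]
    have h3 : (s - a) ^ n ≠ 0 := pow_ne_zero _ h1
    have h4 : (-a) ^ n ≠ 0 := pow_ne_zero _ (neg_ne_zero.2 ha0)
    field_simp
  have hs0 : ∀ s : ℂ, s ≠ a → (1 - s / a) ^ n ≠ 0 := by
    intro s hs
    apply pow_ne_zero
    intro h
    apply hs
    have h' : s / a = 1 := (sub_eq_zero.1 h).symm
    rwa [div_eq_one_iff_eq ha0] at h'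
  let g1 : ℂ → ℂ := fun s => if s = a then (-a) ^ n * g' a else g s / (1 - s / a) ^ n
  have hg1a : g1 a = (-a) ^ n * g' a := by simp [g1]
  have hg1ne : ∀ s, s ≠ a → g1 s = g s / (1 - s / a) ^ n := fun s hs => by simp [g1, hs]
  refine ⟨n, g1, ?_, ?_, ?_, ?_⟩
  · intro s hs
    by_cases hsa : s = a
    · subst hsa
      have : AnalyticAt ℂ (fun z => (-s) ^ n * g' z) s := analyticAt_const.mul hg'
      refine this.congr ?_
      filter_upwards [hev] with z hz
      by_cases hza : z = s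
      · subst hza
        exact hg1a.symm
      · rw [hg1ne z hza, hz, smul_eq_mul, key z hza]
    · have h1 : AnalyticAt ℂ (fun z => g z / (1 - z / a) ^ n) s := by
        apply (hg s hs).div
        · fun_prop
        · exact hs0 s hsa
      refine h1.congr ?_
      filter_upwards [isOpen_ne.mem_nhds hsa] with z hz
      exact (hg1ne z hz).symm
  · rw [hg1ne 0 ha0.symm, h0]
    simp
  · rw [hg1a]
    exact mul_ne_zero (pow_ne_zero _ (neg_ne_zero.2 ha0)) hg'0
  · intro s
    by_cases hsa : s = a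
    · subst hsa
      rw [hg1a]
      have := hev.self_of_nhds
      rw [this, smul_eq_mul, sub_self, div_self ha0, sub_self]
      rcases Nat.eq_zero_or_pos n with hn | hn
      · subst hn
        simp
      · rw [zero_pow hn.ne']
        simp
    · rw [hg1ne s hsa]
      have := hs0 s hsa
      field_simp

/-- splitting off all zeros -/
theorem split_all (R : ℝ) (hR : 0 < R) : ∀ (r : ℕ) (a : Fin r → ℂ) (g : ℂ → ℂ),
    AnalyticOnNhd ℂ g (Metric.closedBall 0 R) → g 0 = 1 → (∀ i, a i ≠ 0 ∧ ‖a i‖ ≤ R) →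
    (∀ s ∈ Metric.closedBall (0 : ℂ) R, g s = 0 → ∃ i, s = a i) →
    ∃ (N : Fin r → ℕ) (h : ℂ → ℂ), AnalyticOnNhd ℂ h (Metric.closedBall 0 R) ∧ h 0 = 1 ∧
      (∀ s ∈ Metric.closedBall (0 : ℂ) R, h s ≠ 0) ∧
      ∀ s, g s = (∏ i, (1 - s / a i) ^ N i) * h s := by
  intro r
  induction r with
  | zero =>
    intro a g hg h0 _ hz
    refine ⟨fun _ => 0, g, hg, h0, fun s hs h => ?_, fun s => by simp⟩
    obtain ⟨i, -⟩ := hz s hs h
    exact i.elim0
  | succ r ih =>
    intro a g hg h0 ha hz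
    obtain ⟨n, g1, hg1, hg10, hg1a, heq⟩ := split_one R g hR hg h0 (a 0) (ha 0).1 (ha 0).2
    obtain ⟨N, h, hh, hh0, hhne, hheq⟩ := ih (fun i => a i.succ) g1 hg1 hg10
      (fun i => ha i.succ) (by
        intro s hs hs0
        have h1 : g s = 0 := by rw [heq, hs0, mul_zero]
        obtain ⟨i, hi⟩ := hz s hs h1
        rcases Fin.eq_zero_or_eq_succ i with h | ⟨j, h⟩
        · subst h
          exact absurd (hi ▸ hs0) hg1a
        · exact ⟨j, by rw [hi, h]⟩)
    refine ⟨Fin.cons n N, h, hh, hh0, hhne, fun s => ?_⟩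
    rw [heq, hheq, Fin.prod_univ_succ]
    simp [mul_assoc]

theorem deriv_prod (r : ℕ) (a : Fin r → ℂ) (N : Fin r → ℕ) (h : ℂ → ℂ)
    (hh : DifferentiableAt ℂ h 0) (h0 : h 0 = 1) :
    deriv (fun s => (∏ i, (1 - s / a i) ^ N i) * h s) 0 + ∑ i, (N i : ℂ) / a i = deriv h 0 := by
  have h1 : ∀ i, HasDerivAt (fun s : ℂ => (1 - s / a i) ^ N i) (-((N i : ℂ) / a i)) 0 := by
    intro i
    have h2 : HasDerivAt (fun s : ℂ => 1 - s / a i) (-(1 / a i)) 0 := by
      simpa using ((hasDerivAt_id (0 : ℂ)).div_const (a i)).const_sub 1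
    refine (h2.pow (N i)).congr_deriv ?_
    simp
    ring
  have h4 : HasDerivAt (fun s : ℂ => ∏ i, (1 - s / a i) ^ N i) (∑ i, -((N i : ℂ) / a i)) 0 := by
    refine (HasDerivAt.fun_finsetProd (u := Finset.univ) (fun i _ => h1 i)).congr_deriv ?_
    simp
  have h6 := h4.mul hh.hasDerivAt
  have h7 : HasDerivAt (fun s => (∏ i, (1 - s / a i) ^ N i) * h s)
      ((∑ i, -((N i : ℂ) / a i)) + deriv h 0) 0 := by
    refine h6.congr_deriv ?_
    simp [h0]
  rw [h7.deriv, Finset.sum_neg_distrib]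
  ring

theorem norm_le_of_sphere (R : ℝ) (hR : 0 < R) (f : ℂ → ℂ)
    (hf : AnalyticOnNhd ℂ f (Metric.closedBall 0 R)) (C : ℝ)
    (hC : ∀ s : ℂ, ‖s‖ = R → ‖f s‖ ≤ C) (s : ℂ) (hs : s ∈ Metric.closedBall (0 : ℂ) R) :
    ‖f s‖ ≤ C := by
  have hd : DiffContOnCl ℂ f (Metric.ball 0 R) := by
    apply DifferentiableOn.diffContOnCl
    rw [closure_ball _ hR.ne']
    exact hf.differentiableOn
  refine Complex.norm_le_of_forall_mem_frontier_norm_le Metric.isBounded_ball hd ?_ ?_
  · intro z hz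
    rw [frontier_ball _ hR.ne'] at hz
    exact hC z (by simpa using hz)
  · rw [closure_ball _ hR.ne']
    exact hs

theorem job : P5c := by
  intro r a g R M hR hM hinj ha hg hg0 hgM hz
  obtain ⟨N, h, hh, hh0, hhne, heq⟩ := split_all R hR r a g hg hg0
    (fun i => ⟨(ha i).1, (ha i).2.trans (by linarith)⟩) hz
  have hapos : ∀ i, 0 < ‖a i‖ := fun i => norm_pos_iff.2 (ha i).1
  have hmem : ∀ s : ℂ, ‖s‖ = R → s ∈ Metric.closedBall (0 : ℂ) R := fun s hs => by
    simp [hs]
  -- bound for the zero-free factor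
  have hfac : ∀ s : ℂ, ‖s‖ = R → ∀ i, 1 ≤ ‖1 - s / a i‖ := by
    intro s hs i
    have h1 : ‖s / a i‖ - ‖(1 : ℂ)‖ ≤ ‖s / a i - 1‖ := norm_sub_norm_le _ _
    rw [norm_sub_rev (s / a i) 1, norm_div, hs, norm_one] at h1
    have h2 : 2 ≤ R / ‖a i‖ := by
      rw [le_div_iff₀ (hapos i)]
      linarith [(ha i).2]
    linarith
  have hhM : ∀ s ∈ Metric.closedBall (0 : ℂ) R, ‖h s‖ ≤ Real.exp M := by
    apply norm_le_of_sphere R hR h hh
    intro s hs
    have h1 := hgM s (hmem s hs)
    rw [heq, norm_mul, norm_prod] at h1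
    have h2 : 1 ≤ ∏ i, ‖(1 - s / a i) ^ N i‖ := by
      have h3 : ∏ _i : Fin r, (1 : ℝ) ≤ ∏ i, ‖(1 - s / a i) ^ N i‖ := by
        apply Finset.prod_le_prod
        · intro i _
          exact zero_le_one
        · intro i _
          rw [norm_pow]
          exact one_le_pow₀ (hfac s hs i)
      simpa using h3
    have h4 := norm_nonneg (h s)
    nlinarith
  -- bound of the derivative
  have hder : ‖deriv h 0‖ ≤ 4 * M / R := by
    have hd : DifferentiableAt ℂ h 0 := (hh 0 (by simpa using hR.le)).differentiableAt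
    have h1 := Pool.Agent.Y155.RL.bc 1 R M h (dslope h 0) one_pos hR hM
      (hh.differentiableOn.mono Metric.ball_subset_closedBall)
      (continuousAt_dslope_same.2 hd) (by
        intro s hs
        have h2 := sub_smul_dslope h 0 s
        rw [hh0, sub_zero, smul_eq_mul] at h2
        rw [pow_one, h2]
        ring)
      (fun s hs => hhne s (Metric.ball_subset_closedBall hs))
      (fun s hs => hhM s (Metric.ball_subset_closedBall hs))
    rw [dslope_same, pow_one] at h1
    calc ‖deriv h 0‖ ≤ 2 * M * (2 / R) := h1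
      _ = 4 * M / R := by ring
  -- bound of the multiplicities
  have hmul : ∏ i, (R / ‖a i‖) ^ N i ≤ Real.exp M := by
    let G : ℂ → ℂ := fun s => (∏ i, (((R : ℂ) ^ 2 - (starRingEnd ℂ) (a i) * s) / (R * a i)) ^ N i) * h s
    have hG : AnalyticOnNhd ℂ G (Metric.closedBall 0 R) := by
      intro s hs
      apply AnalyticAt.mul _ (hh s hs)
      apply Finset.analyticAt_fun_prod
      intro i _
      fun_prop
    have h1 : ∀ s : ℂ, ‖s‖ = R → ‖G s‖ ≤ Real.exp M := by
      intro s hs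
      have h2 : ∀ i, ‖((R : ℂ) ^ 2 - (starRingEnd ℂ) (a i) * s) / (R * a i)‖ = ‖1 - s / a i‖ := by
        intro i
        have h3 : (R : ℂ) ^ 2 = (starRingEnd ℂ) s * s := by
          rw [mul_comm, Complex.mul_conj, Complex.normSq_eq_norm_sq, hs]
          push_cast
          ring
        have h4 : (1 : ℂ) - s / a i = (a i - s) / a i := by
          have := (ha i).1
          field_simp
        rw [h3, ← sub_mul, ← map_sub, norm_div, norm_mul, norm_mul, RCLike.norm_conj, hs, h4,
          norm_div, norm_sub_rev, Complex.norm_real, Real.norm_eq_abs, abs_of_pos hR]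
        have := hapos i
        field_simp
      have h5 := hgM s (hmem s hs)
      rw [heq, norm_mul, norm_prod] at h5
      show ‖(∏ i, (((R : ℂ) ^ 2 - (starRingEnd ℂ) (a i) * s) / (R * a i)) ^ N i) * h s‖ ≤ _
      rw [norm_mul, norm_prod]
      refine le_trans (le_of_eq ?_) h5
      congr 1
      refine Finset.prod_congr rfl fun i _ => ?_
      rw [norm_pow, norm_pow, h2]
    have h6 := norm_le_of_sphere R hR G hG _ h1 0 (by simpa using hR.le)
    refine le_trans (le_of_eq ?_) h6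
    show _ = ‖(∏ i, (((R : ℂ) ^ 2 - (starRingEnd ℂ) (a i) * 0) / (R * a i)) ^ N i) * h 0‖
    rw [hh0, mul_one, norm_prod]
    refine Finset.prod_congr rfl fun i _ => ?_
    rw [norm_pow, mul_zero, sub_zero, norm_div, norm_mul, norm_pow, Complex.norm_real,
      Real.norm_eq_abs, abs_of_pos hR]
    have := hapos i
    field_simp
  refine ⟨N, fun i => ?_, ?_⟩
  · have h2 : ∀ j, 2 ≤ R / ‖a j‖ := by
      intro j
      rw [le_div_iff₀ (hapos j)]
      linarith [(ha j).2]
    have h3 : (R / ‖a i‖) ^ N i ≤ ∏ j, (R / ‖a j‖) ^ N j := by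
      rw [← Finset.mul_prod_erase Finset.univ _ (Finset.mem_univ i)]
      apply le_mul_of_one_le_right
      · have := h2 i
        positivity
      · have h4 : ∏ _j ∈ Finset.univ.erase i, (1 : ℝ) ≤
            ∏ j ∈ Finset.univ.erase i, (R / ‖a j‖) ^ N j := by
          apply Finset.prod_le_prod
          · intro j _
            exact zero_le_one
          · intro j _
            exact one_le_pow₀ (by linarith [h2 j])
        simpa using h4
    have h5 : (2 : ℝ) ^ N i ≤ Real.exp M :=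
      (pow_le_pow_left₀ (by norm_num) (h2 i) _).trans (h3.trans hmul)
    have h6 := Real.log_le_log (by positivity) h5
    rw [Real.log_exp, Real.log_pow] at h6
    have h7 : (1 / 2 : ℝ) ≤ Real.log 2 := by
      have := Real.log_two_gt_d9
      linarith
    have h8 : (0 : ℝ) ≤ N i := Nat.cast_nonneg _
    nlinarith
  · have hd : DifferentiableAt ℂ h 0 := (hh 0 (by simpa using hR.le)).differentiableAt
    have h1 := deriv_prod r a N h hd hh0
    have h2 : deriv g 0 = deriv (fun s => (∏ i, (1 - s / a i) ^ N i) * h s) 0 := by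
      congr 1
      funext s
      exact heq s
    rw [h2, h1]
    exact hder

end Pool.Agent.Helper188_RL.JP5c
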