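import Pool.Agent.Helper188_RL.Stm2
set_option autoImplicit false
open MeasureTheory Complex Set Topology Pool.Agent.Y813.RL
namespace Pool.Agent.Helper188_RL.JP6

open Pool.Agent.Y683.RL

/-- vanishing of the Fourier coefficients from growth near the cusp -/
theorem fco_zero_far {f : ℂ → ℂ} (hf : HP 0 f) {M a y₀ : ℝ}
    (hM : ∀ t : ℂ, y₀ ≤ t.im → ‖f t‖ ≤ M * Real.exp (a * t.im)) {n : ℤ}
    (hn : 2 * Real.pi * n + a < 0) : fco 0 f n = 0 := by
  rw [hf.fco_eq n (w := Complex.I) (by simp)]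
  refine HP_line_zero (f := fun t => f t * ee (-(n * t))) (hf.mul_ee n) ?_ (by simp)
  intro ε hε
  have ht : Filter.Tendsto (fun T : ℝ => |M| * Real.exp ((2 * Real.pi * n + a) * T)) Filter.atTop
      (𝓝 (|M| * 0)) := by
    refine Filter.Tendsto.const_mul _ ?_
    refine Real.tendsto_exp_atBot.comp ?_
    exact Filter.Tendsto.const_mul_atTop_of_neg hn Filter.tendsto_id
  rw [mul_zero] at ht
  obtain ⟨T, hT⟩ := Filter.eventually_atTop.1 (ht.eventually (gt_mem_nhds hε))
  refine ⟨max T y₀, fun t htm => ?_⟩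
  have h1 : T ≤ t.im := (le_max_left _ _).trans htm
  have h2 : y₀ ≤ t.im := (le_max_right _ _).trans htm
  rw [norm_mul, ee_norm]
  have e1 : (-((n : ℂ) * t)).im = -(n * t.im) := by
    rw [Complex.neg_im, Complex.mul_im]; simp
  rw [e1]
  calc ‖f t‖ * Real.exp (-(2 * Real.pi * -(n * t.im))) ≤
      |M| * Real.exp (a * t.im) * Real.exp (-(2 * Real.pi * -(n * t.im))) := by
        gcongr
        refine (hM t h2).trans ?_
        gcongr
        exact le_abs_self _
    _ = |M| * Real.exp ((2 * Real.pi * n + a) * t.im) := by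
        rw [mul_assoc, ← Real.exp_add]
        congr 2
        ring
    _ ≤ ε := (hT _ h1).le

theorem job : P6 := by
  intro f θ κ hf hper hgr
  have hg : HP 0 (fun τ => ee ((θ : ℂ) * τ) * f τ) := by
    refine ⟨?_, ?_⟩
    · exact DifferentiableOn.mul (by fun_prop) hf
    · intro t ht
      show ee ((θ : ℂ) * (t + 1)) * f (t + 1) = ee ((θ : ℂ) * t) * f t
      rw [hper t ht, mul_add, mul_one, Pool.Agent.Y683.RL.ee_add]
      linear_combination (ee ((θ : ℂ) * t) * f t) * ee_neg_mul (θ : ℂ)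
  have him : ∀ t : ℂ, ((θ : ℂ) * t).im = θ * t.im := fun t => Complex.im_ofReal_mul _ _
  have h0 : ∀ n : ℤ, (n : ℝ) < θ - κ →
      fco 0 (fun τ => ee ((θ : ℂ) * τ) * f τ) n = 0 := by
    intro n hn
    obtain ⟨K, y₀, hK⟩ := hgr ((θ - κ - n) / 2) (by linarith)
    refine fco_zero_far hg (M := K) (a := 2 * Real.pi * (κ + (θ - κ - n) / 2 - θ)) (y₀ := y₀) ?_ ?_
    · intro t ht
      show ‖ee ((θ : ℂ) * t) * f t‖ ≤ _
      rw [norm_mul, ee_norm, him]
      calc Real.exp (-(2 * Real.pi * (θ * t.im))) * ‖f t‖ ≤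
          Real.exp (-(2 * Real.pi * (θ * t.im))) *
            (K * Real.exp (2 * Real.pi * ((κ + (θ - κ - n) / 2) * t.im))) :=
            mul_le_mul_of_nonneg_left (hK t ht) (Real.exp_pos _).le
        _ = K * (Real.exp (-(2 * Real.pi * (θ * t.im))) *
            Real.exp (2 * Real.pi * ((κ + (θ - κ - n) / 2) * t.im))) := by ring
        _ = K * Real.exp (2 * Real.pi * (κ + (θ - κ - n) / 2 - θ) * t.im) := by
            rw [← Real.exp_add]
            congr 2
            ring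
    · have hpi := Real.pi_pos
      nlinarith
  obtain ⟨C, hC, hb⟩ := per_growth hg h0
  refine ⟨C, fun τ hτ => ?_⟩
  have h1 := hb τ hτ
  have h2 : ‖ee ((θ : ℂ) * τ) * f τ‖ = Real.exp (-(2 * Real.pi * (θ * τ.im))) * ‖f τ‖ := by
    rw [norm_mul, ee_norm, him]
  have h3 : ‖f τ‖ = Real.exp (2 * Real.pi * (θ * τ.im)) * ‖ee ((θ : ℂ) * τ) * f τ‖ := by
    rw [h2, ← mul_assoc, ← Real.exp_add]
    simp
  rw [h3]
  calc Real.exp (2 * Real.pi * (θ * τ.im)) * ‖ee ((θ : ℂ) * τ) * f τ‖ ≤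
      Real.exp (2 * Real.pi * (θ * τ.im)) *
        (C * Real.exp (-(2 * Real.pi * (θ - κ) * τ.im))) :=
        mul_le_mul_of_nonneg_left h1 (Real.exp_pos _).le
    _ = C * (Real.exp (2 * Real.pi * (θ * τ.im)) *
        Real.exp (-(2 * Real.pi * (θ - κ) * τ.im))) := by ring
    _ = C * Real.exp (2 * Real.pi * (κ * τ.im)) := by
        rw [← Real.exp_add]
        congr 2
        ring

end Pool.Agent.Helper188_RL.JP6
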