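import Pool.Agent.Helper188_RL.Stm2
set_option autoImplicit false
open MeasureTheory Complex Set Topology Pool.Agent.Y813.RL
namespace Pool.Agent.Helper188_RL.JP7a

/-- the dual pairing of a multiple -/
theorem bd_smul {G : Matrix (Fin 20) (Fin 20) ℤ} (h : PosSymm G) {m : ℕ} (hm : 0 < m)
    (μ ν : Fin 20 → ℤ) : bd ((m : ℤ) • G) μ ν = bd G μ ν / m := by
  have hm' : (m : ℝ) ≠ 0 := by exact_mod_cast hm.ne'
  have h1 : (((m : ℤ) • G).map (Int.cast : ℤ → ℝ)) = (m : ℝ) • G.map (Int.cast : ℤ → ℝ) := by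
    ext i j
    simp only [Matrix.map_apply, Matrix.smul_apply, smul_eq_mul]
    push_cast
    rfl
  have : Invertible (m : ℝ) := invertibleOfNonzero hm'
  have h2 : (((m : ℤ) • G).map (Int.cast : ℤ → ℝ))⁻¹ =
      (m : ℝ)⁻¹ • (G.map (Int.cast : ℤ → ℝ))⁻¹ := by
    rw [h1, Matrix.inv_smul _ _ (isUnit_det h), invOf_eq_inv]
  unfold bd
  rw [h2, Finset.sum_div]
  refine Finset.sum_congr rfl fun i _ => ?_
  rw [Matrix.smul_mulVec, Pi.smul_apply, smul_eq_mul]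
  field_simp

theorem norm_vf (A : Matrix (Fin 20) (Fin 20) ℤ) (c : ℂ → (Fin 20 → ℂ) → ℂ)
    (μ : Fin 20 → ℤ) (τ : ℂ) :
    ‖vf A c μ τ‖ = Real.exp (2 * Real.pi * (bd A μ μ / 2 * τ.im)) * ‖fc c μ τ‖ := by
  unfold vf
  rw [norm_mul, norm_ee]
  congr 2
  have : (-(τ * (bd A μ μ : ℂ) / 2)).im = -(bd A μ μ / 2 * τ.im) := by
    have h1 : -(τ * (bd A μ μ : ℂ) / 2) = ((-(bd A μ μ / 2) : ℝ) : ℂ) * τ := by
      push_cast; ring
    rw [h1, Complex.im_ofReal_mul]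
    ring
  rw [this]
  ring

/-- growth of one theta component -/
theorem growth (ht1 : JobTheta1) (hg : P3g) (h4 : P4) {G : Matrix (Fin 20) (Fin 20) ℤ} {k : ℤ}
    {F : TP → ℂ} {φ : ℕ → ℂ × (Fin 20 → ℂ) → ℂ} {C m : ℕ} (h : PosSymm G) (H : CM G k F φ C m)
    (hm : 2 ≤ m) {c : ℂ → (Fin 20 → ℂ) → ℂ} (hc : JacobiZero ((m : ℤ) • G) c)
    (hcq : ∀ τ z, 0 < τ.im → φ (C + m) (τ, z) = φ C (τ, z) * c τ z) (μ : Fin 20 → ℤ) :
    ∃ K y₀ : ℝ, ∀ τ : ℂ, y₀ ≤ τ.im →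
      ‖vf ((m : ℤ) • G) c μ τ‖ ≤ K * Real.exp (2 * Real.pi * (77 / 100 * τ.im)) := by
  have hm0 : 0 < m := by omega
  have hmR : (0 : ℝ) < m := by exact_mod_cast hm0
  have hA : PosSymm ((m : ℤ) • G) := posSymm_smul h hm0
  obtain ⟨_, _, hsh, _, _⟩ := ht1 _ c hA hc
  have hpi := Real.pi_pos
  -- the open set of directions
  have hcont : Continuous fun ξ : Fin 20 → ℝ =>
      bf G (lam G μ + (m : ℝ) • ξ) (lam G μ + (m : ℝ) • ξ) / (2 * m) :=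
    (bf_contR G (by fun_prop) (by fun_prop)).div_const _
  obtain ⟨X, N, hN, hX, hgen⟩ := hg G h (1 / (2 * m)) (by positivity)
    {ξ : Fin 20 → ℝ | bf G (lam G μ + (m : ℝ) • ξ) (lam G μ + (m : ℝ) • ξ) / (2 * m) < 1 / 100}
    (isOpen_lt hcont continuous_const) (by
      refine ⟨-((m : ℝ)⁻¹ • lam G μ), ?_⟩
      have : lam G μ + (m : ℝ) • -((m : ℝ)⁻¹ • lam G μ) = 0 := by
        rw [smul_neg, smul_smul, mul_inv_cancel₀ hmR.ne', one_smul, add_neg_cancel]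
      simp only [Set.mem_ofPred_eq, this, bf_zero_left]
      norm_num)
  set ξ := xr X N with hξ
  obtain ⟨K, y₀, hy₀, hK⟩ := h4 G k F φ C m c h H hm hcq (1 / (2 * m)) (by positivity)
    (by field_simp; norm_num) X N hN hgen (1 / 100) (by norm_num)
  have hX' : bf G (lam G μ + (m : ℝ) • ξ) (lam G μ + (m : ℝ) • ξ) / (2 * m) < 1 / 100 := hX
  have hexp : bf G (lam G μ + (m : ℝ) • ξ) (lam G μ + (m : ℝ) • ξ) / (2 * m) =
      bd G μ μ / m / 2 + dt μ ξ + m * bf G ξ ξ / 2 := by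
    rw [bf_add_left, bf_add_right, bf_add_right, bf_smul_left, bf_smul_left, bf_smul_right,
      bf_smul_right, bf_comm h.symm ξ (lam G μ), bf_lam_lam h, bf_lam h]
    field_simp
    ring
  refine ⟨|K|, y₀, fun τ hτ => ?_⟩
  have hτ0 : 0 < τ.im := lt_of_lt_of_le hy₀ hτ
  -- the integral
  have hfc : ‖fc c μ τ‖ ≤ |K| * Real.exp (2 * Real.pi *
      ((m * bf G ξ ξ / 2 + 3 / 4 + 1 / 100) * τ.im)) * Real.exp (2 * Real.pi * (dt μ ξ * τ.im)) := by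
    rw [hsh μ τ (fun i => τ * (ξ i : ℂ)) hτ0]
    have hb : ∀ y ∈ Set.Icc (0 : Fin 20 → ℝ) 1,
        ‖c τ (fun i => τ * (ξ i : ℂ) + (y i : ℂ)) *
          ee (-(dt μ (fun i => τ * (ξ i : ℂ) + (y i : ℂ))))‖ ≤
        |K| * Real.exp (2 * Real.pi * ((m * bf G ξ ξ / 2 + 3 / 4 + 1 / 100) * τ.im)) *
          Real.exp (2 * Real.pi * (dt μ ξ * τ.im)) := by
      intro y _
      rw [norm_mul, norm_ee]
      have h1 : (-(dt μ (fun i => τ * (ξ i : ℂ) + (y i : ℂ)))).im = -(dt μ ξ * τ.im) := by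
        rw [Complex.neg_im, dt_im]
        have h2 : imv (fun i => τ * (ξ i : ℂ) + (y i : ℂ)) = τ.im • ξ := by
          funext i
          simp [imv, Complex.mul_im]
        rw [h2, dt_smul]
        ring
      rw [h1]
      have h3 : -(2 * Real.pi * -(dt μ ξ * τ.im)) = 2 * Real.pi * (dt μ ξ * τ.im) := by ring
      rw [h3]
      have h4 := hK τ y hτ
      have h5 : ‖c τ (fun i => τ * (ξ i : ℂ) + (y i : ℂ))‖ ≤
          |K| * Real.exp (2 * Real.pi * ((m * bf G ξ ξ / 2 + 3 / 4 + 1 / 100) * τ.im)) := by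
        refine (show ‖c τ (fun i => τ * (ξ i : ℂ) + (y i : ℂ))‖ ≤ _ from h4).trans ?_
        gcongr
        exact le_abs_self K
      gcongr
    have hvol : (volume : Measure (Fin 20 → ℝ)).real (Set.Icc (0 : Fin 20 → ℝ) 1) = 1 := by
      rw [Measure.real, Real.volume_Icc_pi]
      simp
    have h6 := norm_setIntegral_le_of_norm_le_const
      (μ := (volume : Measure (Fin 20 → ℝ))) (s := Set.Icc (0 : Fin 20 → ℝ) 1)
      isCompact_Icc.measure_lt_top hb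
    rw [hvol, mul_one] at h6
    exact h6
  rw [norm_vf, bd_smul h hm0]
  have hpos := Real.exp_pos (2 * Real.pi * (bd G μ μ / m / 2 * τ.im))
  calc Real.exp (2 * Real.pi * (bd G μ μ / m / 2 * τ.im)) * ‖fc c μ τ‖ ≤
      Real.exp (2 * Real.pi * (bd G μ μ / m / 2 * τ.im)) * (|K| * Real.exp (2 * Real.pi *
      ((m * bf G ξ ξ / 2 + 3 / 4 + 1 / 100) * τ.im)) * Real.exp (2 * Real.pi * (dt μ ξ * τ.im))) := by
        gcongr
    _ = |K| * Real.exp (2 * Real.pi * (bd G μ μ / m / 2 * τ.im) + 2 * Real.pi *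
      ((m * bf G ξ ξ / 2 + 3 / 4 + 1 / 100) * τ.im) + 2 * Real.pi * (dt μ ξ * τ.im)) := by
        rw [Real.exp_add, Real.exp_add]
        ring
    _ ≤ |K| * Real.exp (2 * Real.pi * (77 / 100 * τ.im)) := by
        have h7 : 2 * Real.pi * (bd G μ μ / m / 2 * τ.im) + 2 * Real.pi *
            ((m * bf G ξ ξ / 2 + 3 / 4 + 1 / 100) * τ.im) + 2 * Real.pi * (dt μ ξ * τ.im) =
            2 * Real.pi * ((bd G μ μ / m / 2 + dt μ ξ + m * bf G ξ ξ / 2 + 3 / 4 + 1 / 100) *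
              τ.im) := by ring
        have h8 : bd G μ μ / m / 2 + dt μ ξ + m * bf G ξ ξ / 2 + 3 / 4 + 1 / 100 ≤ 77 / 100 := by
          rw [← hexp]
          linarith
        rw [h7]
        gcongr

/-- growth on `im ≥ 1/2` -/
theorem growth' (ht1 : JobTheta1) (hg : P3g) (h4 : P4) {G : Matrix (Fin 20) (Fin 20) ℤ} {k : ℤ}
    {F : TP → ℂ} {φ : ℕ → ℂ × (Fin 20 → ℂ) → ℂ} {C m : ℕ} (h : PosSymm G) (H : CM G k F φ C m)
    (hm : 2 ≤ m) {c : ℂ → (Fin 20 → ℂ) → ℂ} (hc : JacobiZero ((m : ℤ) • G) c)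
    (hcq : ∀ τ z, 0 < τ.im → φ (C + m) (τ, z) = φ C (τ, z) * c τ z)
    (hd : ∀ μ, DifferentiableOn ℂ (vf ((m : ℤ) • G) c μ) {τ | 0 < τ.im})
    (hT : ∀ μ (τ : ℂ), 0 < τ.im → ‖vf ((m : ℤ) • G) c μ (τ + 1)‖ = ‖vf ((m : ℤ) • G) c μ τ‖)
    (μ : Fin 20 → ℤ) :
    ∃ K : ℝ, 0 ≤ K ∧ ∀ τ : ℂ, 1 / 2 ≤ τ.im →
      ‖vf ((m : ℤ) • G) c μ τ‖ ≤ K * Real.exp (2 * Real.pi * (77 / 100 * τ.im)) := by
  have hpi := Real.pi_pos
  obtain ⟨K, y₀, hK⟩ := growth ht1 hg h4 h H hm hc hcq μ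
  -- integral translations
  have hTn : ∀ (n : ℕ) (τ : ℂ), 0 < τ.im →
      ‖vf ((m : ℤ) • G) c μ (τ + n)‖ = ‖vf ((m : ℤ) • G) c μ τ‖ := by
    intro n
    induction n with
    | zero => intro τ _; simp
    | succ n ih =>
      intro τ hτ
      have h1 : τ + ((n + 1 : ℕ) : ℂ) = (τ + n) + 1 := by push_cast; ring
      rw [h1, hT μ (τ + n) (by simpa using hτ), ih τ hτ]
  have hTz : ∀ (n : ℤ) (τ : ℂ), 0 < τ.im →
      ‖vf ((m : ℤ) • G) c μ (τ + n)‖ = ‖vf ((m : ℤ) • G) c μ τ‖ := by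
    intro n τ hτ
    obtain ⟨j, rfl | rfl⟩ := n.eq_nat_or_neg
    · exact_mod_cast hTn j τ hτ
    · have h1 := hTn j (τ + ((-(j : ℤ) : ℤ) : ℂ)) (by simpa using hτ)
      have h2 : τ + ((-(j : ℤ) : ℤ) : ℂ) + (j : ℂ) = τ := by push_cast; ring
      rw [h2] at h1
      exact h1.symm
  -- compactness
  have hcont : ContinuousOn (fun q : ℝ × ℝ => vf ((m : ℤ) • G) c μ ((q.1 : ℂ) + q.2 * Complex.I))
      (Set.Icc 0 1 ×ˢ Set.Icc (1 / 2) (max y₀ 1)) := by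
    refine (hd μ).continuousOn.comp (by fun_prop) ?_
    rintro ⟨u, v⟩ ⟨_, hv⟩
    have h1 : (1 / 2 : ℝ) ≤ v := hv.1
    show 0 < ((u : ℂ) + v * Complex.I).im
    have : ((u : ℂ) + v * Complex.I).im = v := by simp
    rw [this]
    linarith
  obtain ⟨M, hM⟩ := (isCompact_Icc.prod isCompact_Icc).exists_bound_of_continuousOn hcont
  refine ⟨|K| + |M|, by positivity, fun τ hτ => ?_⟩
  have hτ0 : 0 < τ.im := by linarith
  have hexp1 : 1 ≤ Real.exp (2 * Real.pi * (77 / 100 * τ.im)) := by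
    apply Real.one_le_exp
    positivity
  rcases le_total y₀ τ.im with h1 | h1
  · refine (hK τ h1).trans ?_
    have : K ≤ |K| + |M| := by
      have := le_abs_self K
      have := abs_nonneg M
      linarith
    gcongr
  · have h2 := hTz (-⌊τ.re⌋) τ hτ0
    have h3 : τ + ((-⌊τ.re⌋ : ℤ) : ℂ) = ((Int.fract τ.re : ℝ) : ℂ) + (τ.im : ℝ) * Complex.I := by
      apply Complex.ext
      · have : (τ + ((-⌊τ.re⌋ : ℤ) : ℂ)).re = τ.re - ⌊τ.re⌋ := by simp [sub_eq_add_neg]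
        rw [this, Int.self_sub_floor]
        simp
      · simp
    rw [h3] at h2
    rw [← h2]
    have h4 := hM (Int.fract τ.re, τ.im) ⟨⟨Int.fract_nonneg _, (Int.fract_lt_one _).le⟩,
      ⟨hτ, h1.trans (le_max_left _ _)⟩⟩
    refine (show _ ≤ M from h4).trans ?_
    calc M ≤ |M| := le_abs_self M
      _ ≤ |K| + |M| := by have := abs_nonneg K; linarith
      _ = (|K| + |M|) * 1 := (mul_one _).symm
      _ ≤ _ := by gcongr

theorem job (ht1 : JobTheta1) (ht2 : JobTheta2) (hff : JobFinFour) (hv : JobVV) (hg : P3g) (h4 : P4) : P7a := by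
  intro G k F φ C m h H
  by_contra hm1
  have hm0 : 0 < m := H.hm
  have hm : 2 ≤ m := by omega
  have hpi := Real.pi_pos
  have hA : PosSymm ((m : ℤ) • G) := posSymm_smul h hm0
  obtain ⟨c, hc, hcq⟩ := H.exists_jacobi Pool.Agent.Y155.RL.bc Pool.Agent.Y155.RL.div h
  obtain ⟨hho, hper, _, hinv, hsum⟩ := ht1 _ c hA hc
  obtain ⟨hdet, R, hR, _, huni⟩ := hff _ hA
  have hth2 := ht2 _ c R hA hc hR
  have hd : ∀ μ, DifferentiableOn ℂ (vf ((m : ℤ) • G) c μ) {τ | 0 < τ.im} := by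
    intro μ
    have h1 := hho μ
    unfold vf ee
    fun_prop
  have hT : ∀ μ (τ : ℂ), 0 < τ.im →
      ‖vf ((m : ℤ) • G) c μ (τ + 1)‖ = ‖vf ((m : ℤ) • G) c μ τ‖ := by
    intro μ τ hτ
    rw [norm_vf, norm_vf, hper μ τ hτ]
    simp
  have hgr := growth' ht1 hg h4 h H hm hc hcq hd hT
  choose K hK0 hK using hgr
  have hzero := hv {μ // μ ∈ R} 10 (-(77 / 100)) (fun τ i => vf ((m : ℤ) • G) c i.1 τ)
    (by norm_num) (by
      rw [differentiableOn_pi]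
      intro i
      exact hd i.1) (by
      intro τ hτ
      refine Finset.sum_congr rfl fun i _ => ?_
      rw [hT i.1 τ hτ]) (by
      intro τ hτ
      have hdR : (0 : ℝ) < ((((m : ℤ) • G).det : ℤ) : ℝ) := by exact_mod_cast hdet
      have h1 : ∀ μ : Fin 20 → ℤ, ‖vf ((m : ℤ) • G) c μ τ‖ ^ 2 =
          ‖τ‖ ^ 20 / ((((m : ℤ) • G).det : ℤ) : ℝ) *
            ‖∑ ρ ∈ R, ee (-(bd ((m : ℤ) • G) μ ρ : ℂ)) *
              vf ((m : ℤ) • G) c ρ (-1 / τ)‖ ^ 2 := by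
        intro μ
        have h2 : ‖-(τ ^ 10) / (Real.sqrt ((((m : ℤ) • G).det : ℤ) : ℝ) : ℂ)‖ ^ 2 =
            ‖τ‖ ^ 20 / ((((m : ℤ) • G).det : ℤ) : ℝ) := by
          rw [norm_div, norm_neg, norm_pow, Complex.norm_real, Real.norm_eq_abs,
            abs_of_nonneg (Real.sqrt_nonneg _), div_pow, Real.sq_sqrt hdR.le]
          ring
        rw [hth2 μ τ hτ, norm_mul, mul_pow, h2]
      have h3 := huni (fun ρ => vf ((m : ℤ) • G) c ρ (-1 / τ))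
      have h4 : ∀ g : (Fin 20 → ℤ) → ℝ, ∑ i : {μ // μ ∈ R}, g i.1 = ∑ μ ∈ R, g μ := by
        intro g
        exact Finset.sum_coe_sort R g
      rw [h4 (fun μ => ‖vf ((m : ℤ) • G) c μ (-1 / τ)‖ ^ 2),
        h4 (fun μ => ‖vf ((m : ℤ) • G) c μ τ‖ ^ 2), Finset.sum_congr rfl fun μ _ => h1 μ,
        ← Finset.mul_sum, h3, ← mul_assoc, div_mul_cancel₀ _ hdR.ne']) (by
      refine ⟨∑ i : {μ // μ ∈ R}, K i.1, fun τ hτ i => ?_⟩
      refine (hK i.1 τ hτ).trans ?_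
      have h1 : -(2 * Real.pi * -(77 / 100) * τ.im) = 2 * Real.pi * (77 / 100 * τ.im) := by ring
      rw [h1]
      have h2 : K i.1 ≤ ∑ i : {μ // μ ∈ R}, K i.1 :=
        Finset.single_le_sum (f := fun i : {μ // μ ∈ R} => K i.1) (fun i _ => hK0 i.1)
          (Finset.mem_univ i)
      gcongr)
  have hfc0 : ∀ (μ : Fin 20 → ℤ) (τ : ℂ), 0 < τ.im → fc c μ τ = 0 := by
    intro μ τ hτ
    obtain ⟨ρ, ⟨hρ, v, hv⟩, _⟩ := hR μ
    have h1 : vf ((m : ℤ) • G) c μ τ = 0 := by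
      rw [hv, hinv ρ v τ hτ]
      exact hzero τ hτ ⟨ρ, hρ⟩
    unfold vf at h1
    exact (mul_eq_zero.1 h1).resolve_left (ee_ne_zero _)
  have hc0 : ∀ (τ : ℂ) (z : Fin 20 → ℂ), 0 < τ.im → c τ z = 0 := by
    intro τ z hτ
    have h1 := hsum τ z hτ
    have h2 : (fun μ : Fin 20 → ℤ => fc c μ τ * ee (dt μ z)) = fun _ => 0 := by
      funext μ
      rw [hfc0 μ τ hτ, zero_mul]
    rw [h2] at h1
    exact h1.unique hasSum_zero
  obtain ⟨p, hp, hne⟩ := H.hne2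
  apply hne
  have h1 := hcq p.1 p.2 hp
  rw [hc0 p.1 p.2 hp, mul_zero] at h1
  exact h1

end Pool.Agent.Helper188_RL.JP7a
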