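import Pool.Agent.Helper188_RL.Stm2
set_option autoImplicit false
open MeasureTheory Complex Set Topology Pool.Agent.Y813.RL
namespace Pool.Agent.Helper188_RL.JP7b

/-- the exponents add up to a square -/
theorem sq_id {G : Matrix (Fin 20) (Fin 20) ℤ} (h : PosSymm G) (μ : Fin 20 → ℤ)
    (ξ : Fin 20 → ℝ) :
    bf G (ξ + lam G μ) (ξ + lam G μ) = bf G ξ ξ + 2 * dt μ ξ + bd G μ μ := by
  rw [bf_add_left, bf_add_right, bf_add_right, bf_lam h, bf_lam_lam h, bf_comm h.symm ξ (lam G μ),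
    bf_lam h]
  ring

theorem sp_im (μ : Fin 20 → ℤ) (ξ x : Fin 20 → ℝ) (τ : ℂ) :
    (dt μ (sp ξ x τ).2).im = τ.im * dt μ ξ := by
  simp only [dt, sp, Complex.im_sum, Finset.mul_sum]
  refine Finset.sum_congr rfl fun i _ => ?_
  simp [Complex.mul_im]
  ring

/-- choice of the direction -/
theorem exists_dir (hg : P3g) {G : Matrix (Fin 20) (Fin 20) ℤ} (h : PosSymm G) (μ : Fin 20 → ℤ)
    {ε : ℝ} (hε : 0 < ε) : ∃ (X : Fin 20 → ℤ) (N : ℕ), 0 < N ∧ Gnr G (1 / 2) (xr X N) ∧
      bf G (xr X N) (xr X N) / 2 + dt μ (xr X N) + bd G μ μ / 2 ≤ ε := by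
  obtain ⟨X, N, hN, hO, hG⟩ := hg G h (1 / 2) (by norm_num)
    {ξ | bf G (ξ + lam G μ) (ξ + lam G μ) < 2 * ε}
    (isOpen_lt (bf_contR G (by fun_prop) (by fun_prop)) continuous_const)
    ⟨-lam G μ, by
      have : -lam G μ + lam G μ = 0 := by simp
      show bf G (-lam G μ + lam G μ) (-lam G μ + lam G μ) < 2 * ε
      rw [this, bf_zero_left]
      positivity⟩
  refine ⟨X, N, hN, hG, ?_⟩
  have h1 : bf G (xr X N + lam G μ) (xr X N + lam G μ) < 2 * ε := hO
  rw [sq_id h] at h1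
  linarith

theorem vf_T {A : Matrix (Fin 20) (Fin 20) ℤ} {c : ℂ → (Fin 20 → ℂ) → ℂ}
    (μ : Fin 20 → ℤ) (hT : ∀ τ : ℂ, 0 < τ.im → fc c μ (τ + 1) = fc c μ τ) (τ : ℂ)
    (hτ : 0 < τ.im) :
    vf A c μ (τ + 1) = ee (-((bd A μ μ / 2 : ℝ) : ℂ)) * vf A c μ τ := by
  unfold vf
  rw [hT τ hτ, ← mul_assoc, ← ee_add]
  congr 2
  push_cast
  ring

theorem vf_diff {A : Matrix (Fin 20) (Fin 20) ℤ} {c : ℂ → (Fin 20 → ℂ) → ℂ}
    (μ : Fin 20 → ℤ) (hd : DifferentiableOn ℂ (fc c μ) {τ | 0 < τ.im}) :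
    DifferentiableOn ℂ (vf A c μ) {τ | 0 < τ.im} := by
  unfold vf ee
  refine DifferentiableOn.mul (Differentiable.differentiableOn ?_) hd
  fun_prop

theorem norm_vf {A : Matrix (Fin 20) (Fin 20) ℤ} {c : ℂ → (Fin 20 → ℂ) → ℂ}
    (μ : Fin 20 → ℤ) (τ : ℂ) :
    ‖vf A c μ τ‖ = Real.exp (2 * Real.pi * (bd A μ μ / 2 * τ.im)) * ‖fc c μ τ‖ := by
  unfold vf
  rw [norm_mul, norm_ee]
  congr 2
  have : (-(τ * (bd A μ μ : ℂ) / 2)).im = -(τ.im * bd A μ μ / 2) := by
    have : (-(τ * (bd A μ μ : ℂ) / 2)) = ((-(bd A μ μ / 2) : ℝ) : ℂ) * τ := by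
      push_cast
      ring
    rw [this, Complex.im_ofReal_mul]
    ring
  rw [this]
  ring

theorem job (ht1 : JobTheta1) (hg : P3g) (ha : P5a) (hb : P5b) (h6 : P6) : P7b := by
  intro G k F φ C c hG hCM hc hJ
  obtain ⟨t1, t2, t3, -, -⟩ := ht1 G c hG hJ
  constructor
  · intro μ
    obtain ⟨K, hK⟩ := h6 (vf G c μ) (bd G μ μ / 2) 1 (vf_diff μ (t1 μ)) (vf_T μ (t2 μ)) (by
      intro ε hε
      obtain ⟨X, N, hN, hGn, hq⟩ := exists_dir hg hG μ (half_pos hε)
      obtain ⟨K, y₀, hy₀, hK⟩ := ha G k F φ C c hG hCM hc (1 / 2) (by norm_num) (by norm_num)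
        X N hN hGn (ε / 2) (half_pos hε)
      refine ⟨K, y₀, fun τ hτ => ?_⟩
      have hτ0 : 0 < τ.im := lt_of_lt_of_le hy₀ hτ
      have hb1 : ‖fc c μ τ‖ ≤ K * Real.exp (2 * Real.pi * ((bf G (xr X N) (xr X N) / 2 + 1 + ε / 2
          + dt μ (xr X N)) * τ.im)) := by
        rw [t3 μ τ (fun i => τ * ((xr X N i : ℝ) : ℂ)) hτ0]
        have hvol : (volume (Icc (0 : Fin 20 → ℝ) 1)).toReal = 1 := by
          rw [Real.volume_Icc_pi_toReal (by intro i; simp)]
          simp
        have := norm_setIntegral_le_of_norm_le_const (μ := volume)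
          (s := Icc (0 : Fin 20 → ℝ) 1)
          (f := fun y : Fin 20 → ℝ => c τ (fun i => τ * ((xr X N i : ℝ) : ℂ) + (y i : ℂ)) *
            ee (-(dt μ (fun i => τ * ((xr X N i : ℝ) : ℂ) + (y i : ℂ)))))
          (C := K * Real.exp (2 * Real.pi * ((bf G (xr X N) (xr X N) / 2 + 1 + ε / 2
            + dt μ (xr X N)) * τ.im))) (isCompact_Icc.measure_lt_top) (by
            intro y _
            have e1 := hK τ y hτ
            have e2 : ‖ee (-(dt μ (fun i => τ * ((xr X N i : ℝ) : ℂ) + (y i : ℂ))))‖ =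
                Real.exp (2 * Real.pi * (dt μ (xr X N) * τ.im)) := by
              rw [norm_ee]
              congr 1
              have := sp_im μ (xr X N) y τ
              simp only [sp] at this
              rw [Complex.neg_im, this]
              ring
            rw [norm_mul, e2]
            calc _ ≤ K * Real.exp (2 * Real.pi * ((bf G (xr X N) (xr X N) / 2 + 1 + ε / 2)
                    * τ.im)) * Real.exp (2 * Real.pi * (dt μ (xr X N) * τ.im)) :=
                  mul_le_mul_of_nonneg_right e1 (Real.exp_pos _).le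
              _ = _ := by
                  rw [mul_assoc, ← Real.exp_add]
                  congr 2
                  ring)
        have hv2 : volume.real (Icc (0 : Fin 20 → ℝ) 1) = 1 := hvol
        rw [hv2, mul_one] at this
        exact this
      have hK0 : 0 ≤ K := by
        by_contra hneg
        push Not at hneg
        have := mul_neg_of_neg_of_pos hneg (Real.exp_pos (2 * Real.pi *
          ((bf G (xr X N) (xr X N) / 2 + 1 + ε / 2 + dt μ (xr X N)) * τ.im)))
        have := norm_nonneg (fc c μ τ)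
        linarith
      rw [norm_vf]
      calc _ ≤ Real.exp (2 * Real.pi * (bd G μ μ / 2 * τ.im)) *
            (K * Real.exp (2 * Real.pi * ((bf G (xr X N) (xr X N) / 2 + 1 + ε / 2
            + dt μ (xr X N)) * τ.im))) := mul_le_mul_of_nonneg_left hb1 (Real.exp_pos _).le
        _ = K * Real.exp (2 * Real.pi * ((bf G (xr X N) (xr X N) / 2 + dt μ (xr X N) +
            bd G μ μ / 2 + (1 + ε / 2)) * τ.im)) := by
          rw [mul_left_comm, ← Real.exp_add]
          congr 2
          ring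
        _ ≤ K * Real.exp (2 * Real.pi * ((1 + ε) * τ.im)) := by
          refine mul_le_mul_of_nonneg_left (Real.exp_le_exp.mpr ?_) hK0
          have : 0 < 2 * Real.pi := by positivity
          refine mul_le_mul_of_nonneg_left ?_ this.le
          refine mul_le_mul_of_nonneg_right ?_ hτ0.le
          linarith)
    refine ⟨K, fun τ hτ => ?_⟩
    have := hK τ hτ
    rwa [one_mul] at this
  · intro μ hμ
    obtain ⟨K, hK⟩ := h6 (vf G c μ) (bd G μ μ / 2) (1 / 2) (vf_diff μ (t1 μ)) (vf_T μ (t2 μ)) (by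
      intro ε hε
      obtain ⟨X, N, hN, hGn, hq⟩ := exists_dir hg hG μ (half_pos hε)
      obtain ⟨K, y₀, hy₀, hK⟩ := hb G k F φ C c hG hCM hc hJ (1 / 2) (by norm_num) (by norm_num)
        X N hN hGn μ hμ (ε / 2) (half_pos hε)
      refine ⟨K, y₀, fun τ hτ => ?_⟩
      have hτ0 : 0 < τ.im := lt_of_lt_of_le hy₀ hτ
      have hb1 : ‖fc c μ τ‖ ≤ K * Real.exp (2 * Real.pi * ((dt μ (xr X N) +
          bf G (xr X N) (xr X N) / 2 + 1 / 2 + ε / 2) * τ.im)) := by
        rw [t3 μ τ (fun i => τ * ((xr X N i : ℝ) : ℂ)) hτ0]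
        exact hK τ hτ
      have hK0 : 0 ≤ K := by
        by_contra hneg
        push Not at hneg
        have := mul_neg_of_neg_of_pos hneg (Real.exp_pos (2 * Real.pi * ((dt μ (xr X N) +
          bf G (xr X N) (xr X N) / 2 + 1 / 2 + ε / 2) * τ.im)))
        have := norm_nonneg (fc c μ τ)
        linarith
      rw [norm_vf]
      calc _ ≤ Real.exp (2 * Real.pi * (bd G μ μ / 2 * τ.im)) *
            (K * Real.exp (2 * Real.pi * ((dt μ (xr X N) +
          bf G (xr X N) (xr X N) / 2 + 1 / 2 + ε / 2) * τ.im))) :=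
            mul_le_mul_of_nonneg_left hb1 (Real.exp_pos _).le
        _ = K * Real.exp (2 * Real.pi * ((bf G (xr X N) (xr X N) / 2 + dt μ (xr X N) +
            bd G μ μ / 2 + (1 / 2 + ε / 2)) * τ.im)) := by
          rw [mul_left_comm, ← Real.exp_add]
          congr 2
          ring
        _ ≤ K * Real.exp (2 * Real.pi * ((1 / 2 + ε) * τ.im)) := by
          refine mul_le_mul_of_nonneg_left (Real.exp_le_exp.mpr ?_) hK0
          have : 0 < 2 * Real.pi := by positivity
          refine mul_le_mul_of_nonneg_left ?_ this.le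
          refine mul_le_mul_of_nonneg_right ?_ hτ0.le
          linarith)
    refine ⟨K, fun τ hτ => ?_⟩
    have := hK τ hτ
    have e : 2 * Real.pi * (1 / 2 * τ.im) = Real.pi * τ.im := by ring
    rwa [e] at this

end Pool.Agent.Helper188_RL.JP7b
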