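import Pool.Agent.Helper188_RL.Asm1
import Pool.Agent.Helper188_RL.JP1
import Pool.Agent.Helper188_RL.JP2a
import Pool.Agent.Helper188_RL.JP2b
import Pool.Agent.Helper188_RL.JP2c
import Pool.Agent.Helper188_RL.JP2
import Pool.Agent.Helper188_RL.JP3z
import Pool.Agent.Helper188_RL.JP3f
import Pool.Agent.Helper188_RL.JP3b
import Pool.Agent.Helper188_RL.JP3g
import Pool.Agent.Helper188_RL.JP4
import Pool.Agent.Helper188_RL.JP5a
import Pool.Agent.Helper188_RL.JP5c
import Pool.Agent.Helper188_RL.JP5d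
import Pool.Agent.Helper188_RL.JP5b
import Pool.Agent.Helper188_RL.JP6
import Pool.Agent.Helper188_RL.JP7a
import Pool.Agent.Helper188_RL.JP7b
import Pool.Agent.Helper188_RL.JT
import Pool.Agent.Helper188_RL.JM

set_option autoImplicit false

/-!
# Assembly of the second part
-/

open Pool.Agent.Y813.RL

namespace Pool.Agent.Helper188_RL

theorem p2 : P2 := JP2.job JP1.job JP2a.job JP2b.job (JP2c.job JP1.job)

theorem p4 : P4 := JP4.job p2 JP3z.job JP3f.job JP3b.job

theorem p5a : P5a := JP5a.job p2 JP3z.job JP3b.job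

theorem p5b : P5b := JP5b.job p2 JP3z.job JP3f.job JP3b.job JP5c.job JP5d.job

theorem p7a : P7a := JP7a.job theta1 theta2 finfour vv JP3g.job p4

theorem p7b : P7b := JP7b.job theta1 JP3g.job p5a p5b JP6.job

theorem main_tube : MAIN := JM.job ode genus theta1 theta2 finfour p7a p7b

/-- **the genus of a reflective lattice of signature (2,22)** -/
theorem main (G : Matrix (Fin 20) (Fin 20) ℤ) (hs : G.IsSymm)
    (hp : ∀ x : Fin 20 → ℝ, x ≠ 0 → 0 < Pool.Agent.Y813.Refl.form G x x)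
    (he : ∀ x : Fin 20 → ℤ, Even (Pool.Agent.Y813.Refl.form G x x))
    (Z₀ : Fin 4 ⊕ Fin 20 → ℂ) (hZ₀ : Z₀ ∈ Pool.Agent.Y813.Refl.quadric (Pool.Agent.Y813.Refl.gramM G))
    (hR : Pool.Agent.Y813.Refl.IsReflectiveLattice (Pool.Agent.Y813.Refl.gramM G)
      (connectedComponentIn (Pool.Agent.Y813.Refl.quadric (Pool.Agent.Y813.Refl.gramM G)) Z₀)) :
    Pool.Agent.Y813.Refl.SameGenus G Pool.Agent.Y813.Refl.gramEED := by
  have hG : PosSymm G := ⟨hs, hp⟩
  have hev : ∀ i, Even (G i i) := by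
    intro i
    have := he (Pi.single i 1)
    rwa [Pool.Agent.Y813.Refl.form_single] at this
  have hR' := reflective_component hG hZ₀ hR
  obtain ⟨k, F, hF⟩ := JT.job G hG hev hR'
  exact main_tube G hG hev k F hF

end Pool.Agent.Helper188_RL
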