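import Pool.Agent.Helper188_RL.Stm1
import Pool.Agent.Y813.RL.HI
set_option autoImplicit false
open MeasureTheory Complex Set Topology Pool.Agent.Y813.RL
namespace Pool.Agent.Helper188_RL.JA1

theorem job : T1a := by
  intro A c hJ
  have hopen : IsOpen {τ : ℂ | 0 < τ.im} := isOpen_lt continuous_const Complex.continuous_im
  refine ⟨fun μ => ?_, fun μ τ hτ => ?_⟩
  · have hee : Continuous (fun y : Fin 20 → ℝ => ee (-(dt μ (fun i => (y i : ℂ))))) := by
      unfold ee dt
      fun_prop
    have hfin : (volume : Measure (Fin 20 → ℝ)) (Set.Icc (0 : Fin 20 → ℝ) 1) < ⊤ :=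
      isCompact_Icc.measure_lt_top
    refine differentiableOn_setIntegral (E := ℂ) (X := Fin 20 → ℝ) volume
      (K := Set.Icc (0 : Fin 20 → ℝ) 1) isCompact_Icc measurableSet_Icc hfin hopen
      (f := fun τ y => c τ (fun i => (y i : ℂ)) * ee (-(dt μ (fun i => (y i : ℂ))))) ?_ ?_
    · refine ContinuousOn.mul ?_ (hee.comp continuous_snd).continuousOn
      have hm : Continuous (fun q : ℂ × (Fin 20 → ℝ) => ((q.1, fun i => (q.2 i : ℂ)) : ℂ × (Fin 20 → ℂ))) := by
        fun_prop
      exact hJ.holo.continuousOn.comp hm.continuousOn fun q hq => hq.1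
    · intro y _
      refine DifferentiableOn.mul_const ?_ _
      have hm : Differentiable ℂ (fun τ : ℂ => ((τ, fun i => (y i : ℂ)) : ℂ × (Fin 20 → ℂ))) :=
        differentiable_id.prodMk (differentiable_const _)
      exact hJ.holo.comp hm.differentiableOn fun τ hτ => hτ
  · unfold fc
    refine setIntegral_congr_fun measurableSet_Icc fun y _ => ?_
    simp only [hJ.perτ τ _ hτ]

end Pool.Agent.Helper188_RL.JA1
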