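import Pool.Agent.Helper188_RL.Stm1
set_option autoImplicit false
open MeasureTheory Complex Set Topology Pool.Agent.Y813.RL
namespace Pool.Agent.Helper188_RL.JD3

lemma norm_ee (z : ℂ) : ‖ee z‖ = Real.exp (-(2 * Real.pi * z.im)) := by
  unfold ee
  rw [Complex.norm_exp]
  congr 1
  simp [Complex.mul_re, Complex.mul_im]

lemma norm_ee_real (r : ℝ) : ‖ee (-(r : ℂ))‖ = 1 := by
  rw [norm_ee]
  simp

lemma norm_ee_xt (n : ℤ) (θ : ℝ) (τ : ℂ) :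
    ‖ee (((n : ℂ) - (θ : ℂ)) * τ)‖ = Real.exp (-(2 * Real.pi * ((n : ℝ) - θ) * τ.im)) := by
  rw [norm_ee]
  congr 1
  simp [Complex.mul_im, mul_assoc]

/-- the vanishing of vector valued forms with the given laws -/
lemma van (hV : JobVV) (hFb : FFb) (G : Matrix (Fin 20) (Fin 20) ℤ) (R : Finset (Fin 20 → ℤ))
    (hG : PosSymm G) (hR : IsReps G R) (hd : 0 < G.det) (w : ℕ) (κ : ℝ) (hκ : -(w : ℝ) / 12 < κ)
    (g : (Fin 20 → ℤ) → ℂ → ℂ)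
    (hol : ∀ ρ ∈ R, DifferentiableOn ℂ (g ρ) {τ | 0 < τ.im})
    (hT : ∀ ρ ∈ R, ∀ τ : ℂ, 0 < τ.im → ‖g ρ (τ + 1)‖ = ‖g ρ τ‖)
    (hS : ∀ μ ∈ R, ∀ τ : ℂ, 0 < τ.im → g μ τ = τ ^ w *
      ∑ ρ ∈ R, (-(ee (-(bd G μ ρ : ℂ))) / (Real.sqrt (G.det : ℝ) : ℂ)) * g ρ (-1 / τ))
    (hB : ∃ C : ℝ, ∀ ρ ∈ R, ∀ τ : ℂ, 1 / 2 ≤ τ.im →
      ‖g ρ τ‖ ≤ C * Real.exp (-(2 * Real.pi * κ * τ.im))) :
    ∀ ρ ∈ R, ∀ τ : ℂ, 0 < τ.im → g ρ τ = 0 := by
  have hdr : (0 : ℝ) < (G.det : ℝ) := by exact_mod_cast hd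
  have h := hV {x // x ∈ R} w κ (fun τ i => g i τ) hκ
    (by
      rw [differentiableOn_pi]
      intro i
      exact hol i i.2)
    (by
      intro τ hτ
      apply Finset.sum_congr rfl
      intro i _
      rw [hT i i.2 τ hτ])
    (by
      intro τ hτ
      rw [Finset.sum_coe_sort R (fun i => ‖g i (-1 / τ)‖ ^ 2), Finset.sum_coe_sort R (fun i => ‖g i τ‖ ^ 2)]
      have h1 : ∀ μ ∈ R, ‖g μ τ‖ ^ 2 = ‖τ‖ ^ (2 * w) / (G.det : ℝ) *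
          ‖∑ ρ ∈ R, ee (-(bd G μ ρ : ℂ)) * g ρ (-1 / τ)‖ ^ 2 := by
        intro μ hμ
        rw [hS μ hμ τ hτ]
        have h2 : ∑ ρ ∈ R, (-(ee (-(bd G μ ρ : ℂ))) / (Real.sqrt (G.det : ℝ) : ℂ)) * g ρ (-1 / τ) =
            (-1 / (Real.sqrt (G.det : ℝ) : ℂ)) * ∑ ρ ∈ R, ee (-(bd G μ ρ : ℂ)) * g ρ (-1 / τ) := by
          rw [Finset.mul_sum]
          apply Finset.sum_congr rfl
          intro ρ _
          ring
        rw [h2, norm_mul, norm_mul, norm_pow, norm_div, norm_neg, norm_one, Complex.norm_real,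
          Real.norm_of_nonneg (Real.sqrt_nonneg _), mul_pow, mul_pow, div_pow, one_pow,
          Real.sq_sqrt hdr.le, ← pow_mul, mul_comm w 2]
        ring
      rw [Finset.sum_congr rfl h1, ← Finset.mul_sum, hFb G R hG hR (fun ρ => g ρ (-1 / τ))]
      field_simp)
    (by
      obtain ⟨C, hC⟩ := hB
      exact ⟨C, fun τ hτ i => hC i i.2 τ hτ⟩)
  intro ρ hρ τ hτ
  exact h τ hτ ⟨ρ, hρ⟩

lemma le_zero_of_exp (A B : ℝ) (h : ∀ y : ℝ, 1 / 2 ≤ y → A ≤ B * Real.exp (-(2 * Real.pi * y))) :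
    A ≤ 0 := by
  have h1 : Filter.Tendsto (fun y : ℝ => B * Real.exp (-(2 * Real.pi * y))) Filter.atTop
      (𝓝 (B * 0)) := by
    apply Filter.Tendsto.const_mul
    apply Real.tendsto_exp_neg_atTop_nhds_zero.comp
    exact Filter.Tendsto.const_mul_atTop (by positivity) Filter.tendsto_id
  rw [mul_zero] at h1
  apply ge_of_tendsto h1
  filter_upwards [Filter.eventually_ge_atTop (1 / 2 : ℝ)] with y hy
  exact h y hy

lemma isOpen_H : IsOpen {τ : ℂ | 0 < τ.im} := isOpen_lt continuous_const Complex.continuous_im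

lemma sd_congr (e2 : ℂ → ℂ) (k : ℕ) (g g' : ℂ → ℂ) (h : ∀ τ : ℂ, 0 < τ.im → g τ = g' τ) :
    ∀ τ : ℂ, 0 < τ.im → sd e2 k g τ = sd e2 k g' τ := by
  intro τ hτ
  have h1 : g =ᶠ[𝓝 τ] g' := by
    filter_upwards [isOpen_H.mem_nhds hτ] with z hz
    exact h z hz
  unfold sd
  rw [h1.deriv_eq, h τ hτ]

lemma hh_congr (e2 e4 : ℂ → ℂ) (g g' : ℂ → ℂ) (h : ∀ τ : ℂ, 0 < τ.im → g τ = g' τ) :
    ∀ τ : ℂ, 0 < τ.im → hh e2 e4 g τ = hh e2 e4 g' τ := by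
  intro τ hτ
  unfold hh
  rw [sd_congr e2 8 _ _ (sd_congr e2 10 g g' h) τ hτ, h τ hτ]

/-- the laws of the second order operator -/
lemma hh_laws (h1 : OD1) (G : Matrix (Fin 20) (Fin 20) ℤ) (R : Finset (Fin 20 → ℤ))
    (f : (Fin 20 → ℤ) → ℂ → ℂ) (hf : VV10 G R f) (e2 e4 : ℂ → ℂ) (he2 : IsE2 e2) (he4 : IsE4 e4) :
    (∀ ρ ∈ R, DifferentiableOn ℂ (hh e2 e4 (f ρ)) {τ | 0 < τ.im}) ∧
    (∀ ρ ∈ R, ∀ τ : ℂ, 0 < τ.im → ‖hh e2 e4 (f ρ) (τ + 1)‖ = ‖hh e2 e4 (f ρ) τ‖) ∧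
    (∀ μ ∈ R, ∀ τ : ℂ, 0 < τ.im → hh e2 e4 (f μ) τ = τ ^ 6 *
      ∑ ρ ∈ R, (-(ee (-(bd G μ ρ : ℂ))) / (Real.sqrt (G.det : ℝ) : ℂ)) * hh e2 e4 (f ρ) (-1 / τ)) := by
  have hS : ∀ μ (τ : ℂ), 0 < τ.im → f μ τ = τ ^ 10 *
      ∑ ρ ∈ R, (-(ee (-(bd G μ ρ : ℂ))) / (Real.sqrt (G.det : ℝ) : ℂ)) * f ρ (-1 / τ) := by
    intro μ τ hτ
    rw [hf.S μ τ hτ, Finset.mul_sum, Finset.mul_sum]
    apply Finset.sum_congr rfl
    intro ρ _
    ring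
  have a1 := h1 {x // x ∈ R} e2 10 (fun i j => -(ee (-(bd G i j : ℂ))) / (Real.sqrt (G.det : ℝ) : ℂ))
    (fun i => f i) he2 (by norm_num) (fun i => hf.holo i) (by
      intro i τ hτ
      rw [Finset.sum_coe_sort R (fun j => (-(ee (-(bd G i j : ℂ))) / (Real.sqrt (G.det : ℝ) : ℂ)) * f j (-1 / τ))]
      exact hS i τ hτ)
  obtain ⟨b1, b2, b3⟩ := a1
  have a2 := h1 {x // x ∈ R} e2 8 (fun i j => -(ee (-(bd G i j : ℂ))) / (Real.sqrt (G.det : ℝ) : ℂ))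
    (fun i => sd e2 10 (f i)) he2 (by norm_num) b1 b2
  obtain ⟨c1, c2, c3⟩ := a2
  refine ⟨?_, ?_, ?_⟩
  · intro ρ hρ
    have d1 := c1 ⟨ρ, hρ⟩
    have d2 : DifferentiableOn ℂ (fun τ => e4 τ * f ρ τ / 18) {τ | 0 < τ.im} :=
      (he4.holo.mul (hf.holo ρ)).div_const _
    exact d1.sub d2
  · intro ρ hρ τ hτ
    have d0 := hf.T ρ
    have d1 := c3 ⟨ρ, hρ⟩ (ee (-((bd G ρ ρ : ℂ) / 2))) (b3 ⟨ρ, hρ⟩ _ d0) τ hτ
    have d2 : hh e2 e4 (f ρ) (τ + 1) = ee (-((bd G ρ ρ : ℂ) / 2)) * hh e2 e4 (f ρ) τ := by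
      unfold hh
      rw [d1, he4.T τ hτ, hf.T ρ τ hτ]
      ring
    have d3 : ‖ee (-((bd G ρ ρ : ℂ) / 2))‖ = 1 := by
      have := norm_ee_real (bd G ρ ρ / 2)
      push_cast at this
      exact this
    rw [d2, norm_mul, d3, one_mul]
  · intro μ hμ τ hτ
    have hτ0 : τ ≠ 0 := by
      intro h0
      rw [h0] at hτ
      simp at hτ
    have d1 := c2 ⟨μ, hμ⟩ τ hτ
    rw [Finset.sum_coe_sort R (fun j => (-(ee (-(bd G μ j : ℂ))) / (Real.sqrt (G.det : ℝ) : ℂ)) *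
      sd e2 8 (sd e2 10 (f j)) (-1 / τ))] at d1
    have d2 : e4 τ = e4 (-1 / τ) / τ ^ 4 := by
      rw [he4.S τ hτ]
      field_simp
    have d3 : e4 τ * f μ τ / 18 = τ ^ 6 * ∑ ρ ∈ R, (-(ee (-(bd G μ ρ : ℂ))) / (Real.sqrt (G.det : ℝ) : ℂ)) *
        (e4 (-1 / τ) * f ρ (-1 / τ) / 18) := by
      rw [d2, hS μ τ hτ, Finset.mul_sum, Finset.mul_sum, Finset.mul_sum, Finset.sum_div]
      apply Finset.sum_congr rfl
      intro ρ _
      field_simp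
    have d4 : hh e2 e4 (f μ) τ = sd e2 8 (sd e2 10 (f μ)) τ - e4 τ * f μ τ / 18 := rfl
    rw [d4, d1, d3, ← mul_sub, ← Finset.sum_sub_distrib]
    congr 1
    apply Finset.sum_congr rfl
    intro ρ _
    unfold hh
    ring

/-- the upper bound of a function with a given leading term -/
lemma up_bound (g : ℂ → ℂ) (n : ℤ) (θ : ℝ) (b : ℂ) (C : ℝ)
    (h : ∀ τ : ℂ, 1 / 2 ≤ τ.im → ‖g τ - b * ee (((n : ℂ) - (θ : ℂ)) * τ)‖ ≤
      C * Real.exp (-(2 * Real.pi * ((n : ℝ) - θ + 1) * τ.im))) :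
    ∀ τ : ℂ, 1 / 2 ≤ τ.im → ‖g τ‖ ≤ (‖b‖ + |C|) * Real.exp (-(2 * Real.pi * ((n : ℝ) - θ) * τ.im)) := by
  intro τ hτ
  have hτ0 : 0 ≤ τ.im := by linarith
  have h1 := h τ hτ
  have h2 : ‖g τ‖ ≤ ‖g τ - b * ee (((n : ℂ) - (θ : ℂ)) * τ)‖ + ‖b * ee (((n : ℂ) - (θ : ℂ)) * τ)‖ := by
    have := norm_add_le (g τ - b * ee (((n : ℂ) - (θ : ℂ)) * τ)) (b * ee (((n : ℂ) - (θ : ℂ)) * τ))
    rwa [sub_add_cancel] at this
  rw [norm_mul, norm_ee_xt] at h2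
  have h3 : Real.exp (-(2 * Real.pi * ((n : ℝ) - θ + 1) * τ.im)) ≤
      Real.exp (-(2 * Real.pi * ((n : ℝ) - θ) * τ.im)) := by
    apply Real.exp_le_exp.mpr
    have : 0 ≤ 2 * Real.pi * τ.im := by positivity
    nlinarith
  have h4 : C * Real.exp (-(2 * Real.pi * ((n : ℝ) - θ + 1) * τ.im)) ≤
      |C| * Real.exp (-(2 * Real.pi * ((n : ℝ) - θ) * τ.im)) :=
    (mul_le_mul_of_nonneg_right (le_abs_self C) (Real.exp_pos _).le).trans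
      (mul_le_mul_of_nonneg_left h3 (abs_nonneg C))
  calc ‖g τ‖ ≤ _ := h2
    _ ≤ |C| * Real.exp (-(2 * Real.pi * ((n : ℝ) - θ) * τ.im)) +
        ‖b‖ * Real.exp (-(2 * Real.pi * ((n : ℝ) - θ) * τ.im)) := by linarith
    _ = _ := by ring

/-- a common bound for finitely many functions -/
lemma common (R : Finset (Fin 20 → ℤ)) (g : (Fin 20 → ℤ) → ℂ → ℂ) (c : ℝ)
    (h : ∀ ρ ∈ R, ∃ (κ C : ℝ), c < κ ∧ ∀ τ : ℂ, 1 / 2 ≤ τ.im →
      ‖g ρ τ‖ ≤ C * Real.exp (-(2 * Real.pi * κ * τ.im))) :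
    ∃ (κ C : ℝ), c < κ ∧ 0 ≤ C ∧ ∀ ρ ∈ R, ∀ τ : ℂ, 1 / 2 ≤ τ.im →
      ‖g ρ τ‖ ≤ C * Real.exp (-(2 * Real.pi * κ * τ.im)) := by
  classical
  induction R using Finset.induction_on with
  | empty => exact ⟨c + 1, 0, by linarith, le_rfl, fun ρ hρ => absurd hρ (Finset.notMem_empty ρ)⟩
  | insert r R hr ih =>
    obtain ⟨κ, C, h1, hC0, h2⟩ := ih (fun ρ hρ => h ρ (Finset.mem_insert_of_mem hρ))
    obtain ⟨κ', C', h1', h2'⟩ := h r (Finset.mem_insert_self _ _)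
    have key : ∀ (a b : ℝ) (τ : ℂ), 1 / 2 ≤ τ.im → a ≤ b →
        Real.exp (-(2 * Real.pi * b * τ.im)) ≤ Real.exp (-(2 * Real.pi * a * τ.im)) := by
      intro a b τ hτ hab
      apply Real.exp_le_exp.mpr
      have : 0 ≤ 2 * Real.pi * τ.im := by
        have : 0 ≤ τ.im := by linarith
        positivity
      nlinarith
    refine ⟨min κ κ', C + |C'|, lt_min h1 h1', by positivity, ?_⟩
    intro ρ hρ τ hτ
    rcases Finset.mem_insert.mp hρ with h3 | h3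
    · rw [h3]
      calc ‖g r τ‖ ≤ C' * Real.exp (-(2 * Real.pi * κ' * τ.im)) := h2' τ hτ
        _ ≤ (C + |C'|) * Real.exp (-(2 * Real.pi * κ' * τ.im)) :=
            mul_le_mul_of_nonneg_right (by linarith [le_abs_self C']) (Real.exp_pos _).le
        _ ≤ _ := mul_le_mul_of_nonneg_left (key _ _ τ hτ (min_le_right _ _)) (by positivity)
    · calc ‖g ρ τ‖ ≤ C * Real.exp (-(2 * Real.pi * κ * τ.im)) := h2 ρ h3 τ hτ
        _ ≤ (C + |C'|) * Real.exp (-(2 * Real.pi * κ * τ.im)) :=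
            mul_le_mul_of_nonneg_right (by linarith [abs_nonneg C']) (Real.exp_pos _).le
        _ ≤ _ := mul_le_mul_of_nonneg_left (key _ _ τ hτ (min_le_left _ _)) (by positivity)

/-- exponentials with a larger exponent dominate -/
lemma exp_contra (a K C : ℝ) (ha : 0 < a)
    (h : ∀ y : ℝ, 1 / 2 ≤ y → a * Real.exp (2 * Real.pi * y) ≤ K * Real.exp (Real.pi * y) + C) : False := by
  obtain ⟨y, hy, hu⟩ : ∃ y : ℝ, 1 / 2 ≤ y ∧ (|K| + |C|) / a < Real.exp (Real.pi * y) := by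
    have h1 : Filter.Tendsto (fun y : ℝ => Real.exp (Real.pi * y)) Filter.atTop Filter.atTop :=
      Real.tendsto_exp_atTop.comp (Filter.Tendsto.const_mul_atTop Real.pi_pos Filter.tendsto_id)
    have h2 := (h1.eventually_gt_atTop ((|K| + |C|) / a)).and (Filter.eventually_ge_atTop (1 / 2 : ℝ))
    obtain ⟨y, h3, h4⟩ := h2.exists
    exact ⟨y, h4, h3⟩
  have h1 := h y hy
  set u := Real.exp (Real.pi * y) with hud
  have hu1 : 1 ≤ u := by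
    rw [hud]
    apply Real.one_le_exp
    have := Real.pi_pos
    have : 0 ≤ y := by linarith
    positivity
  have h2 : Real.exp (2 * Real.pi * y) = u * u := by
    rw [hud, ← Real.exp_add]
    congr 1
    ring
  rw [h2] at h1
  rw [div_lt_iff₀ ha] at hu
  have h3 : K * u + C ≤ (|K| + |C|) * u := by
    have h4 : K * u ≤ |K| * u := mul_le_mul_of_nonneg_right (le_abs_self K) (by linarith)
    have h5 : C ≤ |C| * u := (le_abs_self C).trans (le_mul_of_one_le_right (abs_nonneg C) hu1)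
    linarith
  have h4 : (|K| + |C|) * u < (u * a) * u := mul_lt_mul_of_pos_right hu (by linarith)
  nlinarith

theorem job (hV : JobVV) (hFa : FFa) (hFb : FFb) (hE : EIS) (h1 : OD1) (h2 : OD2) : OD3 := by
  classical
  intro G R f hG hev hR hf hgr hgr2 hne
  obtain ⟨⟨e2, he2⟩, ⟨e4, he4⟩⟩ := hE
  have hd : 0 < G.det := (hFa G hG).1
  have hdr : (0 : ℝ) < (G.det : ℝ) := by exact_mod_cast hd
  -- representatives
  obtain ⟨ρ0, ⟨hρ0R, v0, hv0⟩, huniq0⟩ := hR 0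
  have hinv0 : ∀ τ : ℂ, 0 < τ.im → f 0 τ = f ρ0 τ := by
    intro τ hτ
    have := hf.inv ρ0 v0 τ hτ
    rw [← hv0] at this
    exact this
  have hother : ∀ ρ ∈ R, ρ ≠ ρ0 → ¬ ∃ v : Fin 20 → ℤ, ρ = G.mulVec v := by
    rintro ρ hρ hne ⟨v, hv⟩
    apply hne
    apply huniq0
    refine ⟨hρ, -v, ?_⟩
    rw [Matrix.mulVec_neg, hv, add_neg_cancel]
  have hρ0G : ∃ v : Fin 20 → ℤ, ρ0 = G.mulVec v := by
    refine ⟨-v0, ?_⟩
    rw [Matrix.mulVec_neg]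
    exact eq_neg_of_add_eq_zero_left hv0.symm
  -- T law with a real parameter
  have hT' : ∀ μ (τ : ℂ), 0 < τ.im → f μ (τ + 1) = ee (-((bd G μ μ / 2 : ℝ) : ℂ)) * f μ τ := by
    intro μ τ hτ
    rw [hf.T μ τ hτ]
    push_cast
    rfl
  have hTn : ∀ μ (τ : ℂ), 0 < τ.im → ‖f μ (τ + 1)‖ = ‖f μ τ‖ := by
    intro μ τ hτ
    rw [hT' μ τ hτ, norm_mul, norm_ee_real, one_mul]
  have hbd0 : bd G 0 0 = 0 := by
    unfold bd
    simp
  have hT0 : ∀ τ : ℂ, 0 < τ.im → f ρ0 (τ + 1) = ee (-((0 : ℝ) : ℂ)) * f ρ0 τ := by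
    intro τ hτ
    have hτ1 : 0 < (τ + 1).im := by simpa using hτ
    rw [← hinv0 (τ + 1) hτ1, ← hinv0 τ hτ, hT' 0 τ hτ, hbd0]
    simp
  have hS : ∀ μ (τ : ℂ), 0 < τ.im → f μ τ = τ ^ 10 *
      ∑ ρ ∈ R, (-(ee (-(bd G μ ρ : ℂ))) / (Real.sqrt (G.det : ℝ) : ℂ)) * f ρ (-1 / τ) := by
    intro μ τ hτ
    rw [hf.S μ τ hτ, Finset.mul_sum, Finset.mul_sum]
    apply Finset.sum_congr rfl
    intro ρ _
    ring
  -- bounds with exponent one half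
  have hgr2' : ∀ μ, (¬ ∃ v : Fin 20 → ℤ, μ = G.mulVec v) → ∃ C : ℝ, ∀ τ : ℂ, 1 / 2 ≤ τ.im →
      ‖f μ τ‖ ≤ C * Real.exp (-(2 * Real.pi * (-1 / 2) * τ.im)) := by
    intro μ hμ
    obtain ⟨C, hC⟩ := hgr2 μ hμ
    refine ⟨C, fun τ hτ => ?_⟩
    have h3 := hC τ hτ
    have h4 : -(2 * Real.pi * (-1 / 2) * τ.im) = Real.pi * τ.im := by ring
    rw [h4]
    exact h3
  -- not all are small
  have hnotsmall : ¬ ∃ C : ℝ, ∀ τ : ℂ, 1 / 2 ≤ τ.im →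
      ‖f ρ0 τ‖ ≤ C * Real.exp (-(2 * Real.pi * (-1 / 2) * τ.im)) := by
    rintro ⟨C0, hC0⟩
    obtain ⟨κ, C, hκ, hCn, hC⟩ := common R f (-10 / 12) (by
      intro ρ hρ
      by_cases h3 : ρ = ρ0
      · rw [h3]
        exact ⟨-1 / 2, C0, by norm_num, hC0⟩
      · obtain ⟨C, hC⟩ := hgr2' ρ (hother ρ hρ h3)
        exact ⟨-1 / 2, C, by norm_num, hC⟩)
    have h4 := van hV hFb G R hG hR hd 10 κ (by push_cast; linarith) f (fun ρ _ => hf.holo ρ)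
      (fun ρ _ τ hτ => hTn ρ τ hτ) (fun μ _ τ hτ => hS μ τ hτ) ⟨C, hC⟩
    obtain ⟨μ, τ, hτ, hμ⟩ := hne
    obtain ⟨ρ, ⟨hρ, v, hv⟩, -⟩ := hR μ
    apply hμ
    rw [hv, hf.inv ρ v τ hτ]
    exact h4 ρ hρ τ hτ
  -- the class of zero
  have hg0 : ∃ C : ℝ, ∀ τ : ℂ, 1 / 2 ≤ τ.im → ‖f ρ0 τ‖ ≤ C * Real.exp (-(2 * Real.pi * (-1) * τ.im)) := by
    obtain ⟨C, hC⟩ := hgr ρ0
    refine ⟨C, fun τ hτ => ?_⟩
    have h4 : -(2 * Real.pi * (-1) * τ.im) = 2 * Real.pi * τ.im := by ring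
    rw [h4]
    exact hC τ hτ
  obtain ⟨Cg0, hCg0⟩ := hg0
  have hzero : ∃ (a : ℂ) (C : ℝ), a ≠ 0 ∧
      (∀ τ : ℂ, 1 / 2 ≤ τ.im → ‖f ρ0 τ - a * ee ((((-1 : ℤ) : ℂ) - ((0 : ℝ) : ℂ)) * τ)‖ ≤
        C * Real.exp (-(2 * Real.pi * (((-1 : ℤ) : ℝ) - 0 + 1) * τ.im))) ∧
      (∀ τ : ℂ, 1 / 2 ≤ τ.im → ‖hh e2 e4 (f ρ0) τ‖ ≤
        C * Real.exp (-(2 * Real.pi * (((-1 : ℤ) : ℝ) - 0 + 1) * τ.im))) := by
    rcases h2 e2 e4 (f ρ0) 0 (-1) Cg0 he2 he4 (hf.holo ρ0) hT0 hCg0 with h3 | ⟨n, a, C, ha, hn, h3, h4⟩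
    · exfalso
      apply hnotsmall
      refine ⟨0, fun τ hτ => ?_⟩
      rw [h3 τ (by linarith)]
      simp
    · have hn1 : -1 ≤ n := by
        rw [sub_zero] at hn
        exact_mod_cast hn
      by_cases hn0 : n = -1
      · subst hn0
        refine ⟨a, C, ha, h3, fun τ hτ => ?_⟩
        have h5 := h4 τ hτ
        have h6 : hh e2 e4 (f ρ0) τ - ((((-1 : ℤ) : ℂ)) - ((0 : ℝ) : ℂ) + 1) * ((((-1 : ℤ) : ℂ)) - ((0 : ℝ) : ℂ) + 1 / 2) * a *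
            ee (((((-1 : ℤ) : ℂ)) - ((0 : ℝ) : ℂ)) * τ) = hh e2 e4 (f ρ0) τ := by
          push_cast
          ring
        rw [h6] at h5
        exact h5
      · exfalso
        apply hnotsmall
        have hn2 : (0 : ℤ) ≤ n := by omega
        have hn3 : (0 : ℝ) ≤ n := by exact_mod_cast hn2
        refine ⟨‖a‖ + |C|, fun τ hτ => ?_⟩
        refine (up_bound (f ρ0) n 0 a C h3 τ hτ).trans ?_
        apply mul_le_mul_of_nonneg_left _ (by positivity)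
        apply Real.exp_le_exp.mpr
        have : 0 ≤ 2 * Real.pi * τ.im := by
          have : 0 ≤ τ.im := by linarith
          positivity
        nlinarith
  obtain ⟨a0, C0, ha0, hz1, hz2⟩ := hzero
  -- all components are nonzero
  have hnz : ∀ μ, ¬ ∀ τ : ℂ, 0 < τ.im → f μ τ = 0 := by
    intro μ hμ
    have h3 : ∀ ρ ∈ R.erase ρ0, ∃ (κ C : ℝ), -1 < κ ∧ ∀ τ : ℂ, 1 / 2 ≤ τ.im →
        ‖f ρ τ‖ ≤ C * Real.exp (-(2 * Real.pi * κ * τ.im)) := by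
      intro ρ hρ
      obtain ⟨C, hC⟩ := hgr2' ρ (hother ρ (Finset.mem_of_mem_erase hρ) (Finset.ne_of_mem_erase hρ))
      exact ⟨-1 / 2, C, by norm_num, hC⟩
    choose! Cf hCf using fun ρ (hρ : ρ ∈ R.erase ρ0) =>
      hgr2 ρ (hother ρ (Finset.mem_of_mem_erase hρ) (Finset.ne_of_mem_erase hρ))
    apply exp_contra ‖a0‖ (∑ ρ ∈ R.erase ρ0, Cf ρ) C0 (norm_pos_iff.mpr ha0)
    intro y hy
    have hy0 : 0 < y := by linarith
    have hyC : (y : ℂ) ≠ 0 := by exact_mod_cast hy0.ne'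
    set τ : ℂ := Complex.I / y with hτd
    have hτim : τ.im = 1 / y := by
      rw [hτd, Complex.div_ofReal_im, Complex.I_im]
    have hτp : 0 < τ.im := by rw [hτim]; positivity
    have hτ0 : τ ≠ 0 := by
      rw [hτd]
      exact div_ne_zero Complex.I_ne_zero hyC
    have hinvτ : -1 / τ = Complex.I * y := by
      rw [hτd]
      field_simp
      rw [Complex.I_sq]
    have him : (Complex.I * (y : ℂ)).im = y := by simp
    have h4 := hf.S μ τ hτp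
    rw [hμ τ hτp, hinvτ] at h4
    have h5 : -(τ ^ 10) / (Real.sqrt (G.det : ℝ) : ℂ) ≠ 0 := by
      apply div_ne_zero
      · exact neg_ne_zero.mpr (pow_ne_zero _ hτ0)
      · have : Real.sqrt (G.det : ℝ) ≠ 0 := (Real.sqrt_pos.mpr hdr).ne'
        exact_mod_cast this
    have h6 : ∑ ρ ∈ R, ee (-(bd G μ ρ : ℂ)) * f ρ (Complex.I * y) = 0 := by
      rcases mul_eq_zero.mp h4.symm with h7 | h7
      · exact absurd h7 h5
      · exact h7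
    rw [← Finset.add_sum_erase R _ hρ0R] at h6
    have h7 : ‖f ρ0 (Complex.I * y)‖ ≤ ∑ ρ ∈ R.erase ρ0, Cf ρ * Real.exp (Real.pi * y) := by
      have h8 : ee (-(bd G μ ρ0 : ℂ)) * f ρ0 (Complex.I * y) =
          -∑ ρ ∈ R.erase ρ0, ee (-(bd G μ ρ : ℂ)) * f ρ (Complex.I * y) := eq_neg_of_add_eq_zero_left h6
      have h9 : ‖f ρ0 (Complex.I * y)‖ = ‖ee (-(bd G μ ρ0 : ℂ)) * f ρ0 (Complex.I * y)‖ := by
        rw [norm_mul, norm_ee_real, one_mul]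
      rw [h9, h8, norm_neg]
      refine (norm_sum_le _ _).trans (Finset.sum_le_sum fun ρ hρ => ?_)
      rw [norm_mul, norm_ee_real, one_mul]
      have := hCf ρ hρ (Complex.I * y) (by rw [him]; exact hy)
      rw [him] at this
      exact this
    rw [← Finset.sum_mul] at h7
    have h8 := hz1 (Complex.I * y) (by rw [him]; exact hy)
    have h9 : ‖a0 * ee ((((-1 : ℤ) : ℂ) - ((0 : ℝ) : ℂ)) * (Complex.I * y))‖ =
        ‖a0‖ * Real.exp (2 * Real.pi * y) := by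
      rw [norm_mul, norm_ee_xt, him]
      congr 2
      push_cast
      ring
    have h10 : (2 * Real.pi * (((-1 : ℤ) : ℝ) - 0 + 1) * (Complex.I * (y : ℂ)).im) = 0 := by
      push_cast
      ring
    rw [h10, neg_zero, Real.exp_zero, mul_one] at h8
    have h11 : ‖a0 * ee ((((-1 : ℤ) : ℂ) - ((0 : ℝ) : ℂ)) * (Complex.I * y))‖ ≤
        ‖f ρ0 (Complex.I * y)‖ + ‖f ρ0 (Complex.I * y) - a0 * ee ((((-1 : ℤ) : ℂ) - ((0 : ℝ) : ℂ)) * (Complex.I * y))‖ := by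
      have := norm_sub_le (f ρ0 (Complex.I * y))
        (f ρ0 (Complex.I * y) - a0 * ee ((((-1 : ℤ) : ℂ) - ((0 : ℝ) : ℂ)) * (Complex.I * y)))
      rwa [sub_sub_cancel] at this
    rw [h9] at h11
    linarith
  -- expansion at the other classes
  have hexp : ∀ μ, (¬ ∃ v : Fin 20 → ℤ, μ = G.mulVec v) → ∃ (n : ℤ) (a : ℂ) (C : ℝ), a ≠ 0 ∧
      -1 / 2 ≤ (n : ℝ) - bd G μ μ / 2 ∧
      (∀ τ : ℂ, 1 / 2 ≤ τ.im →
        ‖hh e2 e4 (f μ) τ - (((n : ℂ) - ((bd G μ μ / 2 : ℝ) : ℂ) + 1) * ((n : ℂ) - ((bd G μ μ / 2 : ℝ) : ℂ) + 1 / 2) * a) *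
          ee (((n : ℂ) - ((bd G μ μ / 2 : ℝ) : ℂ)) * τ)‖ ≤
        C * Real.exp (-(2 * Real.pi * ((n : ℝ) - bd G μ μ / 2 + 1) * τ.im))) := by
    intro μ hμ
    obtain ⟨C, hC⟩ := hgr2' μ hμ
    rcases h2 e2 e4 (f μ) (bd G μ μ / 2) (-1 / 2) C he2 he4 (hf.holo μ) (hT' μ) hC with
      h3 | ⟨n, a, C', ha, hn, -, h4⟩
    · exact absurd h3 (hnz μ)
    · exact ⟨n, a, C', ha, hn, h4⟩
  -- the operator kills everything
  obtain ⟨l1, l2, l3⟩ := hh_laws h1 G R f hf e2 e4 he2 he4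
  have hzr : ∀ ρ ∈ R, ∀ τ : ℂ, 0 < τ.im → hh e2 e4 (f ρ) τ = 0 := by
    obtain ⟨κ, C, hκ, hCn, hC⟩ := common R (fun ρ => hh e2 e4 (f ρ)) (-6 / 12) (by
      intro ρ hρ
      by_cases h3 : ρ = ρ0
      · rw [h3]
        refine ⟨0, C0, by norm_num, fun τ hτ => ?_⟩
        have h5 := hz2 τ hτ
        have h6 : (2 * Real.pi * (((-1 : ℤ) : ℝ) - 0 + 1) * τ.im) = 2 * Real.pi * 0 * τ.im := by
          push_cast
          ring
        rw [h6] at h5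
        exact h5
      · obtain ⟨n, a, C, ha, hn, h4⟩ := hexp ρ (hother ρ hρ h3)
        by_cases hx : (n : ℝ) - bd G ρ ρ / 2 = -1 / 2
        · refine ⟨1 / 2, C, by norm_num, fun τ hτ => ?_⟩
          have h5 := h4 τ hτ
          have hxC : (n : ℂ) - ((bd G ρ ρ / 2 : ℝ) : ℂ) = -1 / 2 := by
            have := congrArg (fun r : ℝ => (r : ℂ)) hx
            push_cast at this
            push_cast
            exact this
          rw [hxC, hx] at h5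
          have h6 : ((-1 / 2 : ℂ) + 1) * (-1 / 2 + 1 / 2) * a = 0 := by ring
          rw [h6, zero_mul, sub_zero] at h5
          have h7 : ((-1 / 2 : ℝ) + 1) = 1 / 2 := by norm_num
          rw [h7] at h5
          exact h5
        · have hx2 : -1 / 2 < (n : ℝ) - bd G ρ ρ / 2 := lt_of_le_of_ne hn (Ne.symm hx)
          refine ⟨(n : ℝ) - bd G ρ ρ / 2, _, by linarith, up_bound _ n (bd G ρ ρ / 2) _ C h4⟩)
    exact van hV hFb G R hG hR hd 6 κ (by push_cast; linarith) (fun ρ => hh e2 e4 (f ρ)) l1 l2 l3 ⟨C, hC⟩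
  -- conclusion
  intro μ hμ
  obtain ⟨ρ, ⟨hρ, v, hv⟩, -⟩ := hR μ
  have hz : ∀ τ : ℂ, 0 < τ.im → hh e2 e4 (f μ) τ = 0 := by
    intro τ hτ
    rw [hh_congr e2 e4 (f μ) (f ρ) (fun z hz => by rw [hv, hf.inv ρ v z hz]) τ hτ]
    exact hzr ρ hρ τ hτ
  obtain ⟨n, a, C, ha, hn, h4⟩ := hexp μ hμ
  set xx : ℂ := (n : ℂ) - ((bd G μ μ / 2 : ℝ) : ℂ) with hxx
  have h5 : ‖(xx + 1) * (xx + 1 / 2) * a‖ ≤ 0 := by
    apply le_zero_of_exp _ C
    intro y hy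
    have him : (Complex.I * (y : ℂ)).im = y := by simp
    have h6 := h4 (Complex.I * y) (by rw [him]; exact hy)
    rw [hz (Complex.I * y) (by rw [him]; linarith), zero_sub, norm_neg, norm_mul, hxx, norm_ee_xt,
      ← hxx, him] at h6
    have h7 : Real.exp (-(2 * Real.pi * ((n : ℝ) - bd G μ μ / 2 + 1) * y)) =
        Real.exp (-(2 * Real.pi * y)) * Real.exp (-(2 * Real.pi * ((n : ℝ) - bd G μ μ / 2) * y)) := by
      rw [← Real.exp_add]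
      congr 1
      ring
    rw [h7, ← mul_assoc] at h6
    exact le_of_mul_le_mul_right h6 (Real.exp_pos _)
  have h6 : (xx + 1) * (xx + 1 / 2) * a = 0 := norm_le_zero_iff.mp h5
  have h7 : (xx + 1) * (xx + 1 / 2) = 0 := (mul_eq_zero.mp h6).resolve_right ha
  have hxr : xx = (((n : ℝ) - bd G μ μ / 2 : ℝ) : ℂ) := by
    rw [hxx]
    push_cast
    ring
  rcases mul_eq_zero.mp h7 with h8 | h8
  · exfalso
    rw [hxr] at h8
    have h9 : ((n : ℝ) - bd G μ μ / 2) + 1 = 0 := by exact_mod_cast h8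
    linarith
  · rw [hxr] at h8
    have h9 : ((n : ℝ) - bd G μ μ / 2) + 1 / 2 = 0 := by
      have h10 : ((((n : ℝ) - bd G μ μ / 2) + 1 / 2 : ℝ) : ℂ) = 0 := by
        push_cast at h8 ⊢
        exact h8
      exact_mod_cast h10
    refine ⟨n, ?_⟩
    linarith

end Pool.Agent.Helper188_RL.JD3
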