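import Pool.Agent.Helper188_RL.Stm2
set_option autoImplicit false
open MeasureTheory Complex Set Topology Pool.Agent.Y813.RL
namespace Pool.Agent.Helper188_RL.JP5d


theorem split {r : ℕ} (i : Fin r) (F : Fin r → ℂ) :
    ∑ j, F j = (∑ j, if j < i then F j else 0) + F i + ∑ j, if i < j then F j else 0 := by
  have h : ∀ j, F j = (if j < i then F j else 0) + (if j = i then F j else 0) +
      (if i < j then F j else 0) := by
    intro j
    rcases lt_trichotomy j i with h | h | h
    · simp [h, h.ne, h.not_gt]
    · simp [h]
    · simp [h, h.ne', h.not_gt]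
  calc ∑ j, F j = ∑ j, ((if j < i then F j else 0) + (if j = i then F j else 0) +
      (if i < j then F j else 0)) := Finset.sum_congr rfl fun j _ => h j
    _ = _ := by
      rw [Finset.sum_add_distrib, Finset.sum_add_distrib, Finset.sum_ite_eq']
      simp

theorem nat_eq {m n : ℕ} (h : |(m : ℝ) - n| < 1) : m = n := by
  have h1 : |((m : ℤ) : ℝ) - ((n : ℤ) : ℝ)| < 1 := by exact_mod_cast h
  rw [← Int.cast_sub, ← Int.cast_abs] at h1
  have h2 : |(m : ℤ) - n| < 1 := by exact_mod_cast h1
  have h3 := Int.abs_lt_one_iff.mp h2
  omega

theorem job : P5d := by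
  intro r a α c N B M q hc ha hn hα hq hq0 hNM hB hBα hrM
  have hane : ∀ i x, a i x ≠ 0 := by
    intro i x h0
    have := hn i x
    rw [h0, norm_zero] at this
    have := hα i
    linarith
  have key : ∀ n : ℕ, ∀ i : Fin r, i.val = n → ∀ x x', N i x = N i x' := by
    intro n
    induction n using Nat.strong_induction_on with
    | _ n ih =>
      intro i hi
      have IH : ∀ j : Fin r, j < i → ∀ x, N j x = N j 0 := by
        intro j hj x
        exact ih j.val (by rw [← hi]; exact hj) j rfl x 0
      have hM : 0 ≤ M := (Nat.cast_nonneg (N i 0)).trans (hNM i 0)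
      obtain ⟨ψ, hψ⟩ : ∃ ψ : (Fin 20 → ℝ) → ℂ, ψ = fun x =>
        (c x + ∑ j, if j < i then (N j 0 : ℂ) / a j x else 0) * a i x := ⟨_, rfl⟩
      have hψc : Continuous ψ := by
        rw [hψ]
        refine Continuous.mul (hc.add ?_) (ha i)
        refine continuous_finsetSum _ fun j _ => ?_
        by_cases hj : j < i
        · simp only [if_pos hj]
          exact continuous_const.div (ha j) (hane j)
        · simp only [if_neg hj]
          exact continuous_const
      have hbd : ∀ x, ‖ψ x + (N i x : ℂ)‖ ≤ 1 / 4 := by
        intro x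
        have hai := hane i x
        have e1 : ψ x + (N i x : ℂ) = a i x * (c x + ∑ j, (N j x : ℂ) / a j x) -
            ∑ j, (if i < j then (N j x : ℂ) * (a i x / a j x) else 0) := by
          rw [split i (fun j => (N j x : ℂ) / a j x), hψ]
          have e2 : (∑ j, if j < i then (N j x : ℂ) / a j x else 0) =
              ∑ j, if j < i then (N j 0 : ℂ) / a j x else 0 := by
            refine Finset.sum_congr rfl fun j _ => ?_
            by_cases hj : j < i
            · simp only [if_pos hj, IH j hj x]
            · simp only [if_neg hj]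
          have e3 : (∑ j, (if i < j then (N j x : ℂ) * (a i x / a j x) else 0)) =
              a i x * ∑ j, (if i < j then (N j x : ℂ) / a j x else 0) := by
            rw [Finset.mul_sum]
            refine Finset.sum_congr rfl fun j _ => ?_
            by_cases hj : i < j
            · simp only [if_pos hj]
              ring
            · simp only [if_neg hj, mul_zero]
          simp only [e2, e3]
          field_simp
          ring
        have b1 : ‖a i x * (c x + ∑ j, (N j x : ℂ) / a j x)‖ ≤ 1 / 8 := by
          rw [norm_mul, hn i x]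
          calc α i * ‖c x + ∑ j, (N j x : ℂ) / a j x‖ ≤ α i * B :=
                mul_le_mul_of_nonneg_left (hB x) (hα i).le
            _ = B * α i := mul_comm _ _
            _ ≤ 1 / 8 := hBα i
        have b2 : ‖∑ j, (if i < j then (N j x : ℂ) * (a i x / a j x) else 0)‖ ≤ 1 / 8 := by
          calc ‖∑ j, (if i < j then (N j x : ℂ) * (a i x / a j x) else 0)‖
              ≤ ∑ j, ‖(if i < j then (N j x : ℂ) * (a i x / a j x) else 0)‖ := norm_sum_le _ _
            _ ≤ ∑ _j : Fin r, M * q := by
                refine Finset.sum_le_sum fun j _ => ?_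
                by_cases hj : i < j
                · simp only [if_pos hj]
                  rw [norm_mul, norm_div, hn i x, hn j x, Complex.norm_natCast]
                  refine mul_le_mul (hNM j x) ?_ (div_nonneg (hα i).le (hα j).le) hM
                  rw [div_le_iff₀ (hα j)]
                  exact hq i j hj
                · simp only [if_neg hj, norm_zero]
                  exact mul_nonneg hM hq0
            _ = r * M * q := by
                simp only [Finset.sum_const, Finset.card_univ, Fintype.card_fin, nsmul_eq_mul]
                ring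
            _ ≤ 1 / 8 := hrM
        rw [e1]
        calc ‖a i x * (c x + ∑ j, (N j x : ℂ) / a j x) -
            ∑ j, (if i < j then (N j x : ℂ) * (a i x / a j x) else 0)‖
            ≤ ‖a i x * (c x + ∑ j, (N j x : ℂ) / a j x)‖ +
              ‖∑ j, (if i < j then (N j x : ℂ) * (a i x / a j x) else 0)‖ := norm_sub_le _ _
          _ ≤ 1 / 8 + 1 / 8 := add_le_add b1 b2
          _ = 1 / 4 := by norm_num
      have hloc : IsLocallyConstant (N i) := by
        rw [IsLocallyConstant.iff_eventually_eq]
        intro x
        have hev : ∀ᶠ y in 𝓝 x, dist (ψ y) (ψ x) < 1 / 4 :=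
          Metric.tendsto_nhds.mp hψc.continuousAt (1 / 4) (by norm_num)
        filter_upwards [hev] with y hy
        apply nat_eq
        rw [dist_eq_norm] at hy
        have e : ((N i y : ℝ) : ℂ) - ((N i x : ℝ) : ℂ) = (ψ y + (N i y : ℂ)) - (ψ x + (N i x : ℂ)) -
            (ψ y - ψ x) := by
          push_cast
          ring
        have e' : |(N i y : ℝ) - N i x| = ‖((N i y : ℝ) : ℂ) - ((N i x : ℝ) : ℂ)‖ := by
          rw [← Complex.ofReal_sub, Complex.norm_real, Real.norm_eq_abs]
        rw [e', e]
        calc ‖(ψ y + (N i y : ℂ)) - (ψ x + (N i x : ℂ)) - (ψ y - ψ x)‖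
            ≤ ‖(ψ y + (N i y : ℂ)) - (ψ x + (N i x : ℂ))‖ + ‖ψ y - ψ x‖ := norm_sub_le _ _
          _ ≤ ‖ψ y + (N i y : ℂ)‖ + ‖ψ x + (N i x : ℂ)‖ + ‖ψ y - ψ x‖ := by
              gcongr
              exact norm_sub_le _ _
          _ < 1 / 4 + 1 / 4 + 1 / 4 := by
              have := hbd x
              have := hbd y
              linarith
          _ < 1 := by norm_num
      intro x x'
      exact hloc.apply_eq_of_preconnectedSpace x x'
  intro i x x'
  exact key i.val i rfl x x'

end Pool.Agent.Helper188_RL.JP5d
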