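import Pool.Agent.Y813.RL.Defs
import Pool.Agent.Helper188_RL.Asm2

/-!
# Reflective lattices `2U + L(-1)` of signature (2,22)

If `M = 2U + L(-1)`, `L` even positive definite of rank `20`, is reflective, then `L` lies in the
genus of `2E_8 + D_4`.
-/

namespace Pool.Agent.Helper188_RL.ReflectiveGenusKnown

open Pool.Agent.Y813.Refl

/-- `G` is the Gram matrix of the even positive definite lattice `L` of rank `20`, `gramM G` that of
`M = 2U + L(-1)`, and the connected component of `Z₀` in `quadric (gramM G)` is the affine cone over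
one component of the domain of `M`. -/
theorem result : ∀ G : Matrix (Fin 20) (Fin 20) ℤ, G.IsSymm →
    (∀ x : Fin 20 → ℝ, x ≠ 0 → 0 < form G x x) → (∀ x : Fin 20 → ℤ, Even (form G x x)) →
    ∀ Z₀ : Fin 4 ⊕ Fin 20 → ℂ, Z₀ ∈ quadric (gramM G) →
    IsReflectiveLattice (gramM G) (connectedComponentIn (quadric (gramM G)) Z₀) →
    SameGenus G gramEED :=
  fun G hs hp he Z₀ hZ₀ hR => Pool.Agent.Helper188_RL.main G hs hp he Z₀ hZ₀ hR

end Pool.Agent.Helper188_RL.ReflectiveGenusKnown
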